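import Pool.Agent.Lib.MP_557161_ag.HN.St4
import Pool.Agent.Lib.MP_557161_ag.HG.A1

/-!
The double cover over the torus is a double cover of the torus `∏ X ^ a = 1`.
-/

namespace Pool.Agent.Lib.MP_557161_ag.HG.HN

open Pool.Agent.Lib.MP_557161_ag.DL Finset

variable {K : Type} [Field K] {dd : ℕ}

namespace A1q

section Mon

variable {F σ : Type} [Field F] [Fintype σ]

theorem zsum {a : F} (h : a ≠ 0) {ι : Type} (s : Finset ι) (f : ι → ℤ) :
    a ^ (∑ i ∈ s, f i) = ∏ i ∈ s, a ^ f i := by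
  induction s using Finset.cons_induction with
  | empty => simp
  | cons i s hi ih => rw [sum_cons, prod_cons, zpow_add₀ h, ih]

/-- Monomial maps of the torus. -/
noncomputable def mon (M : Matrix σ σ ℤ) (x : σ → F) (l : σ) : F := ∏ j, x j ^ M l j

theorem mon_ne (M : Matrix σ σ ℤ) {x : σ → F} (h : ∀ i, x i ≠ 0) (l : σ) : mon M x l ≠ 0 :=
  prod_ne_zero_iff.2 fun j _ => zpow_ne_zero _ (h j)

theorem mon_mon [DecidableEq σ] {M N : Matrix σ σ ℤ} (e : M * N = 1) {x : σ → F}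
    (h : ∀ i, x i ≠ 0) : mon M (mon N x) = x := by
  funext l
  have : mon M (mon N x) l = mon (M * N) x l := by
    simp only [mon, Matrix.mul_apply, ← prod_zpow, ← zpow_mul, zsum (h _), mul_comm (M _ _)]
    exact prod_comm
  rw [this, e, mon, prod_eq_single l]
  · simp
  · intro b _ hb
    simp [Matrix.one_apply_ne hb.symm]
  · simp

theorem mon_rel {M L : Fld K} (R : Rel M L) (N : Matrix σ σ ℤ) {x : σ → M}
    {x' : σ → L} (e : ∀ i, R.r (x i) (x' i)) (h : ∀ i, x' i ≠ 0) (l : σ) :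
    R.r (mon N x l) (mon N x' l) := Rel.prod _ fun j _ => Rel.zpow (e j) (h j) _

end Mon

section Lat

variable {R : Type} [CommRing R] {k : ℕ}

theorem van {u : R} {v : Fin (k + 1) → R} (h : ∀ j, u * v j + v (j - 1) = 0)
    (h0 : v (Fin.last k) = 0) (j : Fin (k + 1)) : v j = 0 := by
  induction j using Fin.reverseInduction with
  | last => exact h0
  | cast i ih =>
    have := h i.succ
    rwa [ih, mul_zero, zero_add, ← Fin.coeSucc_eq_succ, add_sub_cancel_right] at this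

theorem sum_rot (c : Fin (k + 1) → R) : ∑ j, c (j - 1) = ∑ j, c j :=
  (Equiv.subRight 1).sum_comp c

theorem psi (u : R) (c : Fin (k + 1) → R) :
    ∑ j : Fin (k + 1), (∑ i ∈ range j, (-u) ^ i) * (u * c j + c (j - 1)) =
      ∑ j, c j - (∑ i ∈ range (k + 1), (-u) ^ i) * c (Fin.last k) := by
  have e : ∑ j : Fin (k + 1), (∑ i ∈ range j, (-u) ^ i) * c (j - 1) =
      ∑ j : Fin (k + 1), (∑ i ∈ range (j + 1 : Fin (k + 1)), (-u) ^ i) * c j :=
    (Fintype.sum_equiv (Equiv.addRight 1) _ _ fun j => by simp).symm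
  simp only [mul_add]
  rw [sum_add_distrib, e, ← sum_add_distrib, Fin.sum_univ_castSucc, Fin.sum_univ_castSucc c,
    Fin.last_add_one, add_sub_assoc]
  congr 1
  · refine sum_congr rfl fun j _ => ?_
    rw [Fin.coeSucc_eq_succ, Fin.val_succ, Fin.val_castSucc, geom_sum_succ]
    ring
  · rw [geom_sum_succ, Fin.val_last, Fin.val_zero, sum_range_zero]
    ring

theorem key {F : Type} [Field F] {u n : F} {a w p c : Fin (k + 1) → F}
    (hw : ∀ j, n * w j = u * a j + a (j - 1)) (hs : ∑ j, w j = u + 1)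
    (hn : ∑ i ∈ range (k + 1), (-u) ^ i = n)
    (ht : ∑ j : Fin (k + 1), (∑ i ∈ range j, (-u) ^ i) * w j = 1 - a (Fin.last k))
    (hp : ∑ j, a j * p j = 1) (h0 : ∑ j, c j * p j = 0)
    (h1 : ∀ j, j ≠ 0 → u * c j + c (j - 1) = (∑ l, c l) * w j) : c = 0 := by
  have h2 : ∀ j, u * c j + c (j - 1) = (∑ l, c l) * w j := fun j => by
    by_cases e : j = 0
    · have e1 : ∑ j, (u * c j + c (j - 1)) = ∑ j, (∑ l, c l) * w j := by
        rw [sum_add_distrib, ← mul_sum, ← mul_sum, sum_rot, hs]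
        ring
      rw [← add_sum_erase _ _ (mem_univ 0), ← add_sum_erase _ (fun j => (∑ l, c l) * w j)
        (mem_univ 0), sum_congr rfl fun j hj => h1 j (ne_of_mem_erase hj)] at e1
      rw [e]
      exact add_right_cancel e1
    · exact h1 j e
  have h3 := psi u c
  simp only [h2, mul_left_comm _ (∑ l, c l)] at h3
  rw [← mul_sum, ht, hn] at h3
  have h4 : ∀ j, n * c j - (∑ l, c l) * a j = 0 :=
    van (u := u) (v := fun j => n * c j - (∑ l, c l) * a j)
      (fun j => by linear_combination n * h2 j + (∑ l, c l) * hw j) (by linear_combination h3)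
  have h5 : ∑ l, c l = 0 := by
    have : ∑ j, (n * c j - (∑ l, c l) * a j) * p j = 0 := by simp only [h4, zero_mul, sum_const_zero]
    simp only [sub_mul, mul_assoc] at this
    rw [sum_sub_distrib, ← mul_sum, ← mul_sum, h0, hp] at this
    linear_combination -this
  simp only [h5, zero_mul, sub_zero] at h2 h4
  by_cases e : n = 0
  · have h6 : ∀ j, a (Fin.last k) * c j - c (Fin.last k) * a j = 0 :=
      van (u := u) (v := fun j => a (Fin.last k) * c j - c (Fin.last k) * a j)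
        (fun j => by
          linear_combination a (Fin.last k) * h2 j + c (Fin.last k) * hw j -
            c (Fin.last k) * w j * e) (by ring)
    have : ∑ j, (a (Fin.last k) * c j - c (Fin.last k) * a j) * p j = 0 := by
      simp only [h6, zero_mul, sum_const_zero]
    simp only [sub_mul, mul_assoc] at this
    rw [sum_sub_distrib, ← mul_sum, ← mul_sum, h0, hp] at this
    exact funext (van h2 (by linear_combination -this))
  · exact funext fun j => (mul_eq_zero.1 (h4 j)).resolve_left e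

end Lat

variable (G : GD K dd)

theorem hwZ (j : Vr dd) : (G.n : ℤ) * G.w j = G.u * G.a j + G.a (j - 1) := by
  exact_mod_cast G.hw j

theorem swZ : ∑ j, (G.w j : ℤ) = G.u + 1 := by exact_mod_cast G.sw.trans G.hu.symm

theorem sum_a : ∑ i, G.a i = G.n := by
  have h : (G.n : ℤ) * (G.u + 1) = (∑ i, (G.a i : ℤ)) * (G.u + 1) := by
    rw [← swZ, mul_sum, sum_congr rfl fun j _ => hwZ G j, sum_add_distrib, ← mul_sum,
      sum_rot fun j => (G.a j : ℤ), swZ]
    ring
  exact_mod_cast (mul_right_cancel₀ (by omega) h).symm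

theorem exists_p : ∃ p : Vr dd → ℤ, ∑ j, G.a j * p j = 1 := by
  obtain ⟨q, hq⟩ := gcd_eq_sum_mul univ fun j => (G.a j : ℤ)
  have h0 : (univ.gcd fun j => (G.a j : ℤ)).natAbs ∣ univ.gcd G.a := Finset.dvd_gcd fun j hj =>
    Int.natCast_dvd_natCast.1 (Int.natAbs_dvd.2 (Finset.gcd_dvd hj))
  have h1 := Nat.dvd_one.1 (h0.trans G.cop.dvd)
  have h2 := Int.finsetGcd_nonneg (s := univ) (f := fun j => (G.a j : ℤ))
  exact ⟨q, by omega⟩

theorem odd_a (l : Vr dd) : G.a l % 2 = 1 := by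
  obtain ⟨p, hp⟩ := exists_p G
  have h1 : (G.u : ZMod 2) + 1 = 0 := by
    have : ((G.u + 1 : ℕ) : ZMod 2) = 0 := (ZMod.natCast_eq_zero_iff_even).2 (G.hu ▸ even_two_mul _)
    exact_mod_cast this
  have h2 : ∀ j, (G.a j : ZMod 2) - G.a l - (G.a (Fin.last _) - G.a l) = 0 :=
    van (u := (G.u : ZMod 2)) (v := fun j => (G.a j : ZMod 2) - G.a l - (G.a (Fin.last _) - G.a l))
      (fun j => by
        have e1 : ((G.n * G.w j : ℕ) : ZMod 2) = 0 :=
          (ZMod.natCast_eq_zero_iff_even).2 ((G.ev j).mul_left _)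
        rw [G.hw] at e1
        push_cast at e1
        linear_combination e1 - (G.a (Fin.last _) : ZMod 2) * h1) (sub_self _)
  rw [← Nat.odd_iff, ← Nat.not_even_iff_odd, ← ZMod.natCast_eq_zero_iff_even]
  intro c
  have h3 : ∀ j, (G.a j : ZMod 2) = 0 := fun j => by linear_combination h2 j - h2 l + c
  have := congrArg (Int.cast : ℤ → ZMod 2) hp
  push_cast at this
  simp [h3] at this

theorem exists_hd :
    ∃ H : HD K dd, H.aa none = G.n ∧ (∀ l, H.aa (some l) = G.a l) ∧ H.lam = G.lam := by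
  have ea : ∀ l, 2 * (G.a l / 2) + 1 = G.a l := fun l => by have := odd_a G l; omega
  have en : 2 * (∑ l, G.a l / 2 + dd) + 1 = G.n := by
    rw [← sum_a, ← sum_congr rfl fun l _ => ea l, sum_add_distrib, ← mul_sum]
    simp only [sum_const, card_univ, Fintype.card_fin, smul_eq_mul]
    omega
  have ch := G.ch
  simp only [Nat.cast_mul, Nat.cast_prod, ne_eq, mul_eq_zero, not_or, prod_eq_zero_iff,
    Nat.cast_ofNat] at ch
  refine ⟨⟨fun l => l.elim (∑ l, G.a l / 2 + dd) fun l => G.a l / 2, G.lam, rfl, G.l0, ch.1.1.1,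
    ?_, ?_⟩, en, ea, rfl⟩
  · rintro (_ | l)
    · exact en.symm ▸ ch.1.2
    · exact (ea l).symm ▸ fun e => ch.2 ⟨l, mem_univ _, e⟩
  · simp only [Option.elim, en, ea]
    exact G.disc

theorem geom : ∑ i ∈ range (2 * dd + 1), (-(G.u : ℤ)) ^ i = G.n := by
  have h1 := mul_neg_geom_sum (-(G.u : ℤ)) (2 * dd + 1)
  have h2 : (G.n : ℤ) * (G.u + 1) = G.u ^ (2 * dd + 1) + 1 := by exact_mod_cast G.hn
  rw [(odd_two_mul_add_one dd).neg_pow] at h1
  exact mul_right_cancel₀ (b := (G.u : ℤ) + 1) (by omega) (by linear_combination h1 - h2)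

theorem psi_w : ∑ j : Vr dd, (∑ i ∈ range j, (-(G.u : ℤ)) ^ i) * G.w j = 1 - G.a (Fin.last _) := by
  have h1 := psi (G.u : ℤ) fun j => (G.a j : ℤ)
  have h2 : ∑ j, (G.a j : ℤ) = G.n := by exact_mod_cast sum_a G
  have hn : (G.n : ℤ) ≠ 0 := fun e => G.ch (by simp [Int.natCast_eq_zero.1 e])
  simp only [← hwZ, mul_left_comm _ (G.n : ℤ)] at h1
  rw [← mul_sum, geom, h2] at h1
  exact mul_left_cancel₀ hn (by linear_combination h1)

theorem exists_mat : ∃ M N : Matrix (Vr dd) (Vr dd) ℤ, M * N = 1 ∧ N * M = 1 ∧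
    (∀ l, N 0 l = G.a l) ∧ ∀ (F : Type) [Field F] (x : Vr dd → F), (∀ i, x i ≠ 0) → x 0 = 1 →
      ∀ l, mon M x l * ∏ i, x i ^ G.w i = x l ^ G.u * x (l + 1) := by
  obtain ⟨p, hp⟩ := exists_p G
  let M : Matrix (Vr dd) (Vr dd) ℤ := Matrix.of fun l j => if j = 0 then p l else
    (if l = j then (G.u : ℤ) else 0) + (if l = j - 1 then 1 else 0) - G.w j
  have hM : ∀ (R : Type) [CommRing R] (c : Vr dd → R) (j : Vr dd), ∑ l, c l * (M l j : R) =
      if j = 0 then ∑ l, c l * p l else G.u * c j + c (j - 1) - (∑ l, c l) * G.w j :=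
    fun R _ c j => by
      split_ifs with e
      · simp [M, e]
      · simp [M, e, mul_sub, mul_add, sum_add_distrib, sum_mul, mul_comm]
  have hd : IsUnit M.det := by
    rw [Int.isUnit_iff_natAbs_eq]
    by_contra c
    obtain ⟨r, hr, hd⟩ := Nat.exists_prime_and_dvd c
    have := Fact.mk hr
    have e : (M.map (Int.cast : ℤ → ZMod r)).det = 0 := by
      rw [← Int.cast_det, ZMod.intCast_zmod_eq_zero_iff_dvd]
      exact Int.natCast_dvd.2 hd
    obtain ⟨v, v0, hv⟩ := Matrix.exists_vecMul_eq_zero_iff.2 e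
    have h1 : ∀ j, ∑ l, v l * (M l j : ZMod r) = 0 := fun j => congrFun hv j
    refine v0 (key (u := (G.u : ZMod r)) (n := G.n) (a := fun j => G.a j) (w := fun j => G.w j)
      (p := fun j => p j) (fun j => ?_) ?_ ?_ ?_ ?_ ?_ fun j e => ?_)
    · exact_mod_cast congrArg (Int.cast : ℤ → ZMod r) (hwZ G j)
    · exact_mod_cast congrArg (Int.cast : ℤ → ZMod r) (swZ G)
    · exact_mod_cast congrArg (Int.cast : ℤ → ZMod r) (geom G)
    · exact_mod_cast congrArg (Int.cast : ℤ → ZMod r) (psi_w G)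
    · exact_mod_cast congrArg (Int.cast : ℤ → ZMod r) hp
    · exact (if_pos rfl).symm.trans ((hM _ v 0).symm.trans (h1 0))
    · exact sub_eq_zero.1 ((if_neg e).symm.trans ((hM _ v j).symm.trans (h1 j)))
  refine ⟨M, M⁻¹, M.mul_nonsing_inv hd, M.nonsing_inv_mul hd, fun l => ?_, fun F _ x h h0 l => ?_⟩
  · have e : Matrix.vecMul (fun j => (G.a j : ℤ)) M = Pi.single 0 1 := funext fun j => by
      refine (hM ℤ (fun j => (G.a j : ℤ)) j).trans ?_
      have h2 : ∑ j, (G.a j : ℤ) = G.n := by exact_mod_cast sum_a G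
      split_ifs with e
      · simpa [e] using hp
      · rw [Pi.single_eq_of_ne e, h2, hwZ, sub_self]
    have := congrArg (fun y => Matrix.vecMul y M⁻¹ l) e
    simp only [Matrix.vecMul_vecMul, M.mul_nonsing_inv hd, Matrix.vecMul_one,
      Matrix.single_one_vecMul] at this
    exact this.symm
  · have e : ∀ j, x j ^ M l j * x j ^ G.w j =
        (if l = j then x j ^ G.u else 1) * if l + 1 = j then x j else 1 := fun j => by
      by_cases c : j = 0
      · simp [c, h0]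
      · have := h j
        simp only [M, Matrix.of_apply, if_neg c, zpow_sub₀ this, zpow_add₀ this, zpow_natCast,
          eq_sub_iff_add_eq]
        rw [div_mul_cancel₀ _ (pow_ne_zero _ this)]
        split_ifs <;> simp
    rw [mon, ← prod_mul_distrib, prod_congr rfl fun j _ => e j, prod_mul_distrib]
    simp

theorem half (F : Type) [Field F] (x : Vr dd → F) :
    (∏ i, x i ^ (G.w i / 2)) ^ 2 = ∏ i, x i ^ G.w i := by
  rw [← prod_pow]
  exact prod_congr rfl fun i _ => by rw [← pow_mul, Nat.div_mul_cancel (G.ev i).two_dvd]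

theorem aeval_br (L : Fld K) (x : Vr dd → L) : MvPolynomial.aeval x (brF G.u G.w G.lam) =
    ∑ i, x i ^ G.u * x (i + 1) + algebraMap K L G.lam * ∏ i, x i ^ G.w i := by
  simp [brF]

end A1q

open A1q in
theorem A1_thm [FW0 K] : A1 K dd := ⟨fun G => by
  obtain ⟨H, hn, ha, hl⟩ := exists_hd G
  obtain ⟨M, N, e1, e2, e3, e4⟩ := exists_mat G
  refine ⟨H, hn, fun κ _ _ => ?_⟩
  have e5 : ∀ (L : Fld K) (x : Vr dd → L), ∏ i, x i ^ H.aa (some i) = mon N x 0 := fun L x =>
    prod_congr rfl fun i _ => by rw [e3, ha, zpow_natCast]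
  have e6 : ∀ (L : Fld K) (x : Vr dd → L) (n : Vr dd → ℕ), (∀ i, x i ≠ 0) → ∏ i, x i ^ n i ≠ 0 :=
    fun L x n h => prod_ne_zero_iff.2 fun i _ => pow_ne_zero _ (h i)
  refine A1p.transfer (U := G.UU) (V := H.U3) (τ := ngz) (τ' := ngz)
    (f := fun _ x => (mon M x.1, x.2 / ∏ i, x.1 i ^ (G.w i / 2)))
    (g := fun _ x => (mon N x.1, x.2 * ∏ i, mon N x.1 i ^ (G.w i / 2)))
    ⟨⟨fun _ L R _ _ _ m e => ⟨mon_rel R M e.1 m.1.2, Rel.div e.2
        (Rel.prod _ fun i _ => Rel.pow (e.1 i) _) (e6 L _ _ m.1.2)⟩, fun L x m => ?_⟩,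
      ⟨fun _ _ R _ _ _ m e => ⟨mon_rel R N e.1 m.1.1.2, R.mul e.2
        (Rel.prod _ fun i _ => Rel.pow (mon_rel R N e.1 m.1.1.2 i) _)⟩, fun L x m => ?_⟩,
      fun L x m => ?_, fun L x m => ?_⟩
    (fun L x => and_congr Iff.rfl (by simp only [ngz, neg_sq])) (fun L x _ => ?_) κ
  · refine ⟨⟨⟨trivial, mon_ne M m.1.2⟩, (e5 L _).trans ?_⟩, ?_⟩
    · rw [mon_mon e2 m.1.2]
      exact m.2.1
    · change (x.2 / ∏ i, x.1 i ^ (G.w i / 2)) ^ 2 = ∑ i, mon M x.1 i + algebraMap K L H.lam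
      rw [div_pow, half, m.2.2, aeval_br, div_eq_iff (e6 L _ _ m.1.2), add_mul, sum_mul, hl]
      simp only [e4 L x.1 m.1.2 m.2.1]
  · have h0 : mon N x.1 0 = 1 := (e5 L _).symm.trans m.1.2
    have h1 := mon_ne N m.1.1.2
    refine ⟨⟨trivial, h1⟩, h0, ?_⟩
    change (x.2 * ∏ i, mon N x.1 i ^ (G.w i / 2)) ^ 2 = _
    rw [mul_pow, half, m.2, aeval_br, add_mul, sum_mul, hl]
    simp only [← e4 L _ h1 h0, mon_mon e1 m.1.1.2]
  · refine Prod.ext (mon_mon e2 m.1.2) ?_
    simp only [mon_mon e2 m.1.2]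
    exact div_mul_cancel₀ _ (e6 L _ _ m.1.2)
  · exact Prod.ext (mon_mon e1 m.1.1.2) (mul_div_cancel_right₀ _ (e6 L _ _ (mon_ne N m.1.1.2)))
  · exact Prod.ext rfl (neg_mul _ _)⟩

end Pool.Agent.Lib.MP_557161_ag.HG.HN
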