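import Pool.Agent.Lib.MP_557161_ag.HN.StY
import Pool.Agent.Lib.MP_557161_ag.HG.Fin2

/-!
Either a polynomial in the graph of Frobenius that does not vanish at `q ^ dd` is rationally
equivalent to a sum of products, or the poles at `q ^ dd` and `-q ^ dd` have total order at least
four.
-/

namespace Pool.Agent.Lib.MP_557161_ag.HG.HN

open Pool.Agent.Lib.MP_557161_ag.DL

namespace FN

open Polynomial

lemma rc_sum {q : ℂ} (hq : q ≠ 0) (n : ℕ) :
    Fn2.Rc fun m => ∑ i ∈ Finset.range n, (q ^ i) ^ (m + 1) := by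
  induction n with
  | zero => exact ⟨1, by simp, by simp [funext_iff]⟩
  | succ n ih =>
    simp only [Finset.sum_range_succ]
    exact ih.add (.geo (pow_ne_zero n hq))

lemma cnt [ZB] {σ : ℂ[X] →ₗ[ℂ] ℂ} {r₀ : ℕ} (h : ∀ a, phi σ r₀ (chD a) = 0)
    (h0 : σ (chC 0) = 2 * r₀ + 1) {q : ℕ} (hq : 1 < q) (dd : ℕ) {ν : ℂ →₀ ℤ} (ν0 : ν 0 = 0)
    (hν : ∀ m : ℕ, ∑ i ∈ Finset.range (2 * dd + 1), ((q : ℂ) ^ i) ^ (m + 1) +
      σ (chC (m + 1 : ℕ)) * ((q : ℂ) ^ dd) ^ (m + 1) = ν.sum fun z c => c * z ^ (m + 1)) :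
    4 ≤ ν ((q : ℂ) ^ dd) + ν (-(q : ℂ) ^ dd) := by
  classical
  have q0 : (q : ℂ) ≠ 0 := Nat.cast_ne_zero.2 (by omega)
  have Q0 : (q : ℂ) ^ dd ≠ 0 := pow_ne_zero _ q0
  let μ : ℂ →₀ ℤ := ν - ∑ i ∈ Finset.range (2 * dd + 1), Finsupp.single ((q : ℂ) ^ i) 1
  have hμ : ∀ z, μ z = ν z - ∑ i ∈ Finset.range (2 * dd + 1), if (q : ℂ) ^ i = z then 1 else 0 :=
    fun z => by simp only [μ, Finsupp.sub_apply, Finsupp.finsetSum_apply, Finsupp.single_apply]
  have h1 := ZB.cnt σ r₀ h h0 (Finsupp.equivMapDomain (Equiv.mulRight₀ _ Q0).symm μ)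
    (by simp [hμ, ν0, q0]) fun m hm => by
      obtain ⟨m, rfl⟩ := Nat.exists_eq_succ_of_ne_zero hm.ne'
      have h2 : ∀ x : ℂ →₀ ℤ, (x.sum fun z c => (c : ℂ) * z ^ (m + 1)) =
          Finsupp.linearCombination ℤ (fun z : ℂ => z ^ (m + 1)) x := fun x => by
        rw [Finsupp.linearCombination_apply]
        exact Finset.sum_congr rfl fun z _ => (zsmul_eq_mul _ _).symm
      have h3 : (μ.sum fun z c => (c : ℂ) * z ^ (m + 1)) =
          σ (chC (m + 1 : ℕ)) * ((q : ℂ) ^ dd) ^ (m + 1) := by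
        have h4 := hν m
        rw [h2] at h4 ⊢
        simp only [μ, map_sub, map_sum, Finsupp.linearCombination_single, one_smul, ← h4]
        ring
      rw [Finsupp.sum_equivMapDomain, ← mul_left_inj' (pow_ne_zero (m + 1) Q0), ← h3,
        Finsupp.sum_mul]
      refine Finset.sum_congr rfl fun z _ => ?_
      simp only [Equiv.mulRight₀_symm_apply, Nat.succ_eq_add_one, mul_pow, inv_pow]
      field_simp
  have e1 : ∀ i, (q : ℂ) ^ i = (q : ℂ) ^ dd ↔ i = dd := fun i => by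
    rw [← Nat.cast_pow, ← Nat.cast_pow, Nat.cast_inj, Nat.pow_right_inj hq]
  have e2 : ∀ i, ¬ (q : ℂ) ^ i = -(q : ℂ) ^ dd := fun i e => by
    have a : ((q ^ i + q ^ dd : ℕ) : ℂ) = 0 := by
      push_cast
      rw [e, neg_add_cancel]
    have b : 0 < q ^ i := by positivity
    have := Nat.cast_eq_zero.1 a
    omega
  simp only [Finsupp.equivMapDomain_apply, Equiv.symm_symm, Equiv.mulRight₀_apply, one_mul,
    neg_mul, hμ, e1, e2, if_false, Finset.sum_const_zero, Finset.sum_ite_eq', Finset.mem_range,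
    if_pos (show dd < 2 * dd + 1 by omega)] at h1
  omega

lemma cpow_pi {q : ℕ} (hq : 1 < q) (dd : ℕ) :
    (q : ℂ) ^ (dd + Real.pi * Complex.I / Real.log q : ℂ) = -(q : ℂ) ^ dd := by
  have q0 : (q : ℂ) ≠ 0 := Nat.cast_ne_zero.2 (by omega)
  have h1 : ((Real.log q : ℝ) : ℂ) ≠ 0 :=
    Complex.ofReal_ne_zero.2 (Real.log_pos (by exact_mod_cast hq)).ne'
  rw [Complex.cpow_add _ _ q0, Complex.cpow_natCast, Complex.cpow_def_of_ne_zero q0,
    ← Complex.natCast_log, mul_div_cancel₀ _ h1, Complex.exp_pi_mul_I, mul_neg_one]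

end FN

open MvPolynomial

variable {k : Type} [Field k] {dd : ℕ}

/-- The double cover over the algebraic closure. -/
noncomputable def GD.up (G : GD k dd) : GD (AlgebraicClosure k) dd where
  e := G.e
  u := G.u
  n := G.n
  a := G.a
  w := G.w
  lam := algebraMap k _ G.lam
  pos := G.pos
  hu := G.hu
  hn := G.hn
  hw := G.hw
  ev := G.ev
  sw := G.sw
  cop := G.cop
  ch := by
    rw [← map_natCast (algebraMap k (AlgebraicClosure k))]
    exact (map_ne_zero _).2 G.ch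
  l0 := (map_ne_zero _).2 G.l0
  disc h := G.disc ((algebraMap k (AlgebraicClosure k)).injective (by simpa using h))

lemma GD.up_F (G : GD k dd) :
    MvPolynomial.map (algebraMap k (AlgebraicClosure k)) G.F = G.up.F := by
  simp only [GD.F, brF, GD.up, map_add, map_sum, map_mul, map_pow, map_prod, map_X, map_C]

lemma GD.e_pos (G : GD k dd) : 0 < G.e := by
  have := G.hu
  omega

lemma GD.nsq0 [XA (AlgebraicClosure k) dd] (G : GD k dd) (g : MvPolynomial (Vr dd) k) :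
    g ^ 2 ≠ G.F :=
  fun h => XA.nsq G.up (.base _) (MvPolynomial.map (algebraMap k (AlgebraicClosure k)) g) (by
    rw [← map_pow, h, G.up_F]
    exact (MvPolynomial.map_id _).symm)

lemma GD.hI [XJ dd] (G : GD k dd) : Homog (dpI G.e G.F) := XJ.hom G.e_pos G.homF

lemma GD.hs [X0 dd] [XK dd] (G : GD k dd) (s : G.σ) : Algebra.Smooth k (Chart (dpI G.e G.F) s) :=
  XK.smooth G.e_pos (X0.num G).2.2.2.1 G.homF (fun x hx _ => X0.sm G _ x hx) s

lemma GD.hd [XJ dd] [XA (AlgebraicClosure k) dd] (G : GD k dd) :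
    ∀ P ∈ (dpI G.e G.F).minimalPrimes,
      ringKrullDim (MvPolynomial G.σ k ⧸ P) = (2 * dd + 1 : ℕ) := fun P hP => by
  obtain ⟨h1, h2⟩ := XJ.dim G.e_pos G.nsq0
  rw [Ideal.minimalPrimes_eq_subsingleton_self] at hP
  rw [Set.mem_singleton_iff.1 hP]
  exact h2

lemma GD.upI_eq [XJ dd] (G : GD k dd) : upI (dpI G.e G.F) = dpI G.up.e G.up.F := by
  rw [XJ.up, G.up_F]; rfl

variable [Finite k] {p : ℕ} [CharP k p] [XT] [XZ] [X0 dd] [XJ dd] [XK dd] [ZA] [ZB] [ZD] [ZT]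
  [XA (AlgebraicClosure k) dd] [XI (AlgebraicClosure k) p dd] [XV (AlgebraicClosure k) p dd]
  [ZR (AlgebraicClosure k) p dd] [XQ (AlgebraicClosure k) p dd]

include p in
theorem decomp (G : GD k dd) (L : ℕ → Type) [∀ m, Field (L m)] [∀ m, Algebra k (L m)]
    (hL : ∀ m, Module.finrank k (L m) = m + 1) : ∃ ν : ℂ →₀ ℤ,
    (∀ m, (points (dpI G.e G.F) (L m) : ℂ) = ν.sum fun z c => c * z ^ (m + 1)) ∧
    (ν ((Nat.card k : ℂ) ^ dd) + ν (-(Nat.card k : ℂ) ^ dd) ≤ 3 →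
      ∃ f : Polynomial ℚ, f.eval ((Nat.card k : ℚ) ^ dd) ≠ 0 ∧
      ∀ t, (f.sum fun j a => a • (T0.sm (AlgebraicClosure k) G.hI G.hs G.hd).grC
        (Nat.card k ^ (j + t))) ∈
        RatB (upI (dpI G.e G.F)) ⊔ ⨆ δ, ProdB (upI (dpI G.e G.F)) δ) := by
  have hq : 1 < Nat.card k := Finite.one_lt_card
  have q0 : (Nat.card k : ℂ) ≠ 0 := Nat.cast_ne_zero.2 (by omega)
  have Q0 : (Nat.card k : ℂ) ^ dd ≠ 0 := pow_ne_zero _ q0
  have hF : G.up.Fr p (Nat.card k) := by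
    have := Fintype.ofFinite k
    obtain ⟨f, -, hf⟩ := FiniteField.card k p
    refine ⟨⟨f, by rw [Nat.card_eq_fintype_card, hf]⟩, ?_⟩
    show algebraMap k _ G.lam ^ _ = algebraMap k _ G.lam
    rw [← map_pow, Nat.card_eq_fintype_card, FiniteField.pow_card]
  have hY : (T0.sm (AlgebraicClosure k) G.hI G.hs G.hd).I = dpI G.up.e G.up.F := G.upI_eq
  obtain ⟨r₀, hr₀⟩ := (X0.num G.up).2.1
  obtain ⟨r, sd, E, h1, h2, h3⟩ := ZA.frob r₀
  by_cases hA : ∃ e, dsum E (lamP ((Nat.card k : ℂ) ^ dd) (G.up.PP (Nat.card k)))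
      ((Nat.card k : ℂ) ^ dd) e ≠ 0
  · obtain ⟨e, he⟩ := hA
    obtain ⟨f, k1, k2, k3⟩ := ZR.rel (p := p) (G := G.up) hq hF hr₀.symm sd E h1 h2 e he
    obtain ⟨f, h4, h5⟩ := XZ.one (RatB (upI (dpI G.e G.F)) ⊔ ⨆ δ, ProdB (upI (dpI G.e G.F)) δ)
      (fun j => (T0.sm (AlgebraicClosure k) G.hI G.hs G.hd).grC (Nat.card k ^ j))
      {(Nat.card k : ℂ) ^ dd, 0} fun β hβ => by
        refine ⟨f, hβ.elim (fun e => e ▸ k1) fun e => e ▸ k2, fun b hb t => ?_⟩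
        obtain ⟨φ, l1, l2, l3⟩ := XQ.brg (p := p) G.up _ hY _ hF b hb
        have h4 := k3 φ l1 l2 _ l3 t
        rw [Polynomial.sum_def] at h4 ⊢
        simp only [← mul_div_assoc, ← Finset.sum_div] at h4
        exact (div_eq_zero_iff.1 h4).resolve_right two_ne_zero
    have h6 : ∀ x : ℚ, f.eval x = 0 → Polynomial.aeval (x : ℂ) f = 0 := fun x h => by
      have h7 := Polynomial.aeval_algebraMap_apply ℂ x f
      rwa [Polynomial.coe_aeval_eq_eval, h, map_zero] at h7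
    obtain ⟨g, g0, hg⟩ := ZT.rc G.hI G.hs G.hd f (fun h => h4 0 (Or.inr rfl) (by
      simpa using h6 0 (by rwa [← Polynomial.coeff_zero_eq_eval_zero]))) h5 L hL
    obtain ⟨ν, -, hν⟩ := ZD.rat G.hI L hL g g0 hg
    exact ⟨ν, hν, fun _ => ⟨f, fun h => h4 _ (Or.inl rfl) (by simpa using h6 _ h), h5⟩⟩
  · obtain ⟨σ, hσ⟩ := ZB.ex fun m => G.up.PP (Nat.card k) m / ((Nat.card k : ℂ) ^ dd) ^ m
    have h4 : ∀ a, phi σ r₀ (chD a) = 0 := fun a => by
      obtain ⟨e, he⟩ := h3 a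
      have h5 := (he _ _ σ Q0 hσ).symm.trans (by_contra fun h => hA ⟨e, h⟩)
      exact (mul_eq_zero.1 h5).resolve_left (mul_ne_zero (mul_ne_zero (by simp)
        (Nat.cast_ne_zero.2 r₀.factorial_ne_zero)) (pow_ne_zero _ Q0))
    have hN : ∀ m, (points (dpI G.e G.F) (L m) : ℂ) =
        ∑ i ∈ Finset.range (2 * dd + 1), ((Nat.card k : ℂ) ^ i) ^ (m + 1) +
          G.up.PP (Nat.card k) (m + 1) := fun m => by
      have h5 := congrArg (Nat.cast : ℕ → ℂ)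
        (XI.cnt (p := p) G.up _ (Nat.one_lt_pow (Nat.add_one_ne_zero m) hq) (XV.pow hF (m + 1)))
      rw [(XT.fixed G.hI G.hs G.hd (L m) m (hL m)).trans
        (XI.fix (p := p) G.up _ hY _ (XV.pow hF _)), GD.PP, if_neg m.succ_ne_zero,
        Finset.sum_congr rfl fun i _ => pow_right_comm (Nat.card k : ℂ) i (m + 1)]
      push_cast at h5
      linear_combination h5 / 2
    obtain ⟨g, g0, hg⟩ := ZB.rc σ r₀ h4
    have h5 : Fn2.Rc fun m => G.up.PP (Nat.card k) (m + 1) :=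
      Fn2.Rc.scale Q0 ⟨g, g0, funext fun t => by
        rw [Fn2.aeval_sh, Pi.zero_apply, ← hg (t + 1 : ℕ)]
        exact Finset.sum_congr rfl fun j _ => by
          simp only [← Nat.cast_add, hσ, add_assoc]⟩
    obtain ⟨g', g1, hg'⟩ := Fn2.Rc.rat (a := fun m => (points (dpI G.e G.F) (L m) : ℚ)) (by
      simp only [Rat.cast_natCast, hN]
      exact (FN.rc_sum q0 _).add h5)
    obtain ⟨ν, ν0, hν⟩ := ZD.rat G.hI L hL g' g1 hg'
    refine ⟨ν, hν, fun h => absurd (FN.cnt h4 ?_ hq dd ν0 fun m => ?_) (by omega)⟩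
    · rw [show chC 0 = chC (0 : ℕ) from rfl, hσ, GD.PP, if_pos rfl, hr₀]
      simp
    · rw [← hν, hN, hσ, div_mul_cancel₀ _ (pow_ne_zero _ Q0)]

include p in
theorem zeta_dec (G : GD k dd) (L : ℕ → Type) [∀ m, Field (L m)] [∀ m, Algebra k (L m)]
    (hL : ∀ m, Module.finrank k (L m) = m + 1) : ∃ ζ : ℂ → ℂ, IsZeta (dpI G.e G.F) (2 * dd) L ζ ∧
    (((-3 : ℤ) : WithTop ℤ) ≤ meromorphicOrderAt ζ dd +
      meromorphicOrderAt ζ (dd + Real.pi * Complex.I / Real.log (Nat.card k)) →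
    (∀ F : ∀ P : Var (dpI G.e G.F) dd, Res (dpI G.e G.F) P.1, ∃ ρ : ℕ,
      Module.rank ℤ (Num (dpI G.e G.F) dd dd F) = ρ ∧
        meromorphicOrderAt ζ dd = (-(ρ : ℤ) : ℤ)) ∧
    ([ZY] → TateAt (Nat.card k) dd (upI (dpI G.e G.F)))) := by
  obtain ⟨ν, h1, h2⟩ := decomp (p := p) G L hL
  obtain ⟨ζ, h3, h4⟩ := ZT.zeta G.hI G.hd L hL ν h1
  refine ⟨ζ, h3, fun h => ?_⟩
  rw [h4, h4, FN.cpow_pi Finite.one_lt_card, Complex.cpow_natCast, ← WithTop.coe_add,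
    WithTop.coe_le_coe] at h
  obtain ⟨f, h5, h6⟩ := h2 (by omega)
  refine ⟨fun F => ?_, ZY.tate G.hI G.hs G.hd ?_ ?_ f dd h5 (h6 0)⟩
  · obtain ⟨ρ, h7, h8⟩ := ZT.tate G.hI G.hs G.hd f dd dd (two_mul dd).symm h5 h6 L hL ν h1 F
    exact ⟨ρ, h7, by rw [h4, Complex.cpow_natCast, ← h8]⟩
  · rw [G.upI_eq]
    exact (XJ.dim G.up.e_pos fun g h =>
      XA.nsq G.up (.base _) g (h.trans (MvPolynomial.map_id _).symm)).1
  · rw [G.upI_eq]
    refine ⟨some fun _ => 0, fun h => ?_⟩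
    have h7 := XI.zl (p := p) G.up (.base _) (Pi.single 0 1, 0)
      ((zero_pow two_ne_zero).trans (X0.e0 G.up _ 0).symm) _ h
    have h8 : G.up.nu (L := AlgebraicClosure k) (Pi.single 0 1, 0) (some fun _ => 0) = 0 :=
      (aeval_X _ _).symm.trans h7
    simp [GD.nu] at h8

end Pool.Agent.Lib.MP_557161_ag.HG.HN
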