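import Pool.Agent.Lib.MP_557161_ag.HN.StY

/-!
The branch polynomial is not a square.
-/

namespace Pool.Agent.Lib.MP_557161_ag.HG.HN

open Pool.Agent.Lib.MP_557161_ag.DL MvPolynomial

variable {K : Type} [Field K] {dd : ℕ}

lemma vr_ne (h : 0 < dd) (k : Vr dd) : k + 1 ≠ k ∧ k + 1 + 1 ≠ k ∧ k + 1 + 1 ≠ k + 1 := by
  have h1 : (1 : Vr dd) ≠ 0 := fun e => by
    have := congrArg Fin.val e
    rw [Fin.val_one', Nat.mod_eq_of_lt (by omega)] at this
    simp at this
  have h2 : (1 + 1 : Vr dd) ≠ 0 := fun e => by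
    have := congrArg Fin.val e
    rw [Fin.val_add, Fin.val_one', Nat.mod_eq_of_lt (show 1 < 2 * dd + 1 by omega),
      Nat.mod_eq_of_lt (by omega)] at this
    simp at this
  refine ⟨fun e => h1 (by simpa using e), fun e => h2 ?_, fun e => h1 (by simpa using e)⟩
  rw [add_assoc] at e
  simpa using e

lemma GD.evF (G : GD K dd) {A : Type} [CommRing A] [Algebra K A] (x : Vr dd → A) :
    aeval x G.F = ∑ i, x i ^ G.u * x (i + 1) + algebraMap K A G.lam * ∏ i, x i ^ G.w i := by
  simp [brF]

lemma GD.not_sq [X0 dd] (G : GD K dd) {L : Type} [Field L] [Algebra K L]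
    (x : Vr dd → Polynomial L) (k : Vr dd) (h0 : x k = 1) (h1 : x (k + 1) = Polynomial.X)
    (h2 : ∀ i, i ≠ k → i ≠ k + 1 → x i = 0) (g : Polynomial L) : g ^ 2 ≠ aeval x G.F := fun h => by
  obtain ⟨-, -, hu, -, -, hw, -⟩ := X0.num G
  obtain ⟨e1, e2, e3⟩ := vr_ne G.pos k
  have hz := h2 _ e2 e3
  rw [G.evF, Finset.prod_eq_zero (Finset.mem_univ (k + 1 + 1))
    (by rw [hz, zero_pow (by have := hw (k + 1 + 1); omega)]), mul_zero, add_zero,
    Finset.sum_eq_single k (fun i _ hi => by
      by_cases e : i = k + 1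
      · rw [e, hz, mul_zero]
      · rw [h2 i hi e, zero_pow hu.pos.ne', zero_mul]) (fun e => (e (Finset.mem_univ _)).elim),
    h0, h1, one_pow, one_mul] at h
  have := congrArg Polynomial.natDegree h
  rw [Polynomial.natDegree_pow, Polynomial.natDegree_X] at this
  omega

theorem XA_thm [FA1 K] [X0 dd] : XA K dd where
  nsq G L g h := by
    let x : Vr dd → Polynomial L := fun i =>
      if i = 0 then 1 else if i = 0 + 1 then Polynomial.X else 0
    have e1 := (vr_ne G.pos 0).1
    exact G.not_sq (L := L) x 0 (if_pos rfl) ((if_neg e1).trans (if_pos rfl))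
      (fun i a b => (if_neg a).trans (if_neg b)) (aeval x g)
      (by rw [← map_pow, h, aeval_map_algebraMap])
  nsq' G j L M α x k hk hf z h := by
    obtain ⟨ρ, -, hρ, -⟩ := FA1.lift hf (FA1.fr_free {i // i ≠ k} hf.gL) (AlgHom.id K L)
    let y : Vr dd → MvPolynomial {i // i ≠ k} L := fun i => if h : i = k then 1 else X ⟨i, h⟩
    let ι := IsScalarTower.toAlgHom K (MvPolynomial {i // i ≠ k} L)
      (FractionRing (MvPolynomial {i // i ≠ k} L))
    have e : ρ z ^ 2 = ι (aeval y G.F) := by
      rw [← map_pow, h, ← AlgHom.comp_apply, ← AlgHom.comp_apply, comp_aeval, comp_aeval]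
      refine congrArg (aeval · G.F) (funext fun i => ?_)
      by_cases hi : i = k
      · simp only [y, hi, hk, map_one, dite_true]
      · exact (hρ ⟨i, hi⟩).trans (by simp only [y, hi, dite_false]; rfl)
    obtain ⟨g, hg⟩ := IsIntegrallyClosed.exists_algebraMap_eq_of_isIntegral_pow
      (R := MvPolynomial {i // i ≠ k} L) two_pos (e ▸ isIntegral_algebraMap)
    let φ := (aeval (R := L) fun i : {i // i ≠ k} =>
      if i.1 = k + 1 then (Polynomial.X : Polynomial L) else 0).restrictScalars K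
    have e1 := (vr_ne G.pos k).1
    refine G.not_sq (fun i => φ (y i)) k (by simp [y]) (by simp [y, φ, e1])
      (fun i a b => by simp [y, φ, a, b]) (φ g) ?_
    rw [← comp_aeval, AlgHom.comp_apply, ← map_pow]
    exact congrArg φ (IsFractionRing.injective _ (FractionRing _) (by rw [map_pow, hg, e]; rfl))
  frob G p Q _ _ h L x := by
    obtain ⟨⟨f, rfl⟩, h⟩ := h
    have := charP_of_injective_algebraMap (algebraMap K L).injective p
    simp only [G.evF, add_pow_char_pow, sum_pow_char_pow, ← Finset.prod_pow, mul_pow, ← map_pow,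
      h, ← pow_mul, mul_comm (p ^ f)]

end Pool.Agent.Lib.MP_557161_ag.HG.HN
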