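import Pool.Agent.Lib.MP_557161_ag.HN.StY
import Pool.Agent.Lib.MP_557161_ag.HG.XW

/-!
Normalised values on products of graphs of Frobenius.
-/

namespace Pool.Agent.Lib.MP_557161_ag.HG.HN

open Pool.Agent.Lib.MP_557161_ag.DL
open Bridge (dg dg_map dg_top)
open XWa (map_gen dg_le tr_of_dg endo free_of)

variable {K : Type} [Field K] {p dd : ℕ}

namespace XWb

variable {L L' M M' : Fld K} {κ T : Type} {j : ℕ}

lemma cfg_map (q : ℕ) (e : T → ℕ) (ι : L →ₐ[K] L') (P : T → (xz dd).X L) :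
    (fun t => (xz dd).map ι (cfg q e L P t)) = cfg q e L' fun t => (xz dd).map ι (P t) :=
  funext fun _ => Prod.ext (funext fun _ => map_pow ι _ _) (map_pow ι _ _)

lemma cfg_add (q : ℕ) (e δ : T → ℕ) (P : T → (xz dd).X L) :
    cfg q (fun t => e t + δ t) L P = cfg q e L (cfg q δ L P) :=
  funext fun t => Prod.ext (funext fun i => by simp only [cfg, frb, ← pow_mul, ← pow_add, add_comm])
    (by simp only [cfg, frb, ← pow_mul, ← pow_add, add_comm])

lemma xf_map (ι : L →ₐ[K] L') (P : T → (xz dd).X L) :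
    xf L' (fun t => (xz dd).map ι (P t)) = (xf L P).map ι := by
  rw [xf, xf, IntermediateField.adjoin_map, ← Set.range_comp]
  rfl

lemma mem_xf (P : T → (xz dd).X L) (t : T) (i : Vr dd) : (P t).1 i ∈ xf L P :=
  IntermediateField.subset_adjoin _ _ ⟨(t, i), rfl⟩

lemma ext' [Finite T] {S : Sp ((Cd.pi T (xz dd)).amb K)} (θ : Pre j S) (q : ℕ) (e : T → ℕ)
    (ι : L →ₐ[K] L') (P : T → (xz dd).X L) (h : Good j L) (h' : Good j L') :
    θ.a L' (cfg q e L' fun t => (xz dd).map ι (P t)) = deg ι * θ.a L (cfg q e L P) := by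
  rw [← cfg_map]
  exact θ.ext ι (some (cfg q e L P)) h h'

/-- The first half of the affine coordinates. -/
def lo (s : Fin dd) : Vr dd := ⟨s + 1, by omega⟩

/-- The second half of the affine coordinates. -/
def hi (s : Fin dd) : Vr dd := ⟨s + 1 + dd, by omega⟩

lemma vr_cases (i : Vr dd) : i = 0 ∨ (∃ s, i = lo s) ∨ ∃ s, i = hi s := by
  obtain ⟨i, h⟩ := i
  by_cases a : i = 0
  · exact Or.inl (Fin.ext a)
  · by_cases b : i ≤ dd
    · exact Or.inr (Or.inl ⟨⟨i - 1, by omega⟩, Fin.ext (by simp only [lo]; omega)⟩)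
    · exact Or.inr (Or.inr ⟨⟨i - 1 - dd, by omega⟩, Fin.ext (by simp only [hi]; omega)⟩)

/-- Half of the coordinates of each slot. -/
def cc (o : T → ℕ) (τ : T → T) (P : T → (xz dd).X L) (t : T × Fin dd) : L :=
  if o t.1 < o (τ t.1) then (P t.1).1 (lo t.2) else (P t.1).1 (hi t.2)

lemma xf_eq {o : T → ℕ} (ho : Function.Injective o) {τ : T → T} (hτ : Inv τ)
    {P : T → (xz dd).X L} (h0 : ∀ t, (P t).1 0 = 1) (hP : ∀ t, P (τ t) = P t) :
    xf L P = gen (L := .base K) (Algebra.ofId K L) (cc o τ P) := by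
  have h1 : ∀ t, cc o τ P t ∈ gen (L := .base K) (Algebra.ofId K L) (cc o τ P) := fun t =>
    IntermediateField.subset_adjoin _ _ (Or.inr ⟨t, rfl⟩)
  refine le_antisymm (IntermediateField.adjoin_le_iff.2 ?_) (IntermediateField.adjoin_le_iff.2 ?_)
  · rintro _ ⟨⟨t, i⟩, rfl⟩
    have h5 : ∀ s, (P t).1 (lo s) ∈ gen (L := .base K) (Algebra.ofId K L) (cc o τ P) ∧
        (P t).1 (hi s) ∈ gen (L := .base K) (Algebra.ofId K L) (cc o τ P) := fun s => by
      have h2 := h1 (t, s)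
      have h3 := h1 (τ t, s)
      have h4 : o (τ t) ≠ o t := fun e => (hτ t).2 (ho e)
      simp only [cc, (hτ t).1, hP] at h2 h3
      by_cases h : o t < o (τ t)
      · rw [if_pos h] at h2
        rw [if_neg (by omega)] at h3
        exact ⟨h2, h3⟩
      · rw [if_neg h] at h2
        rw [if_pos (by omega)] at h3
        exact ⟨h3, h2⟩
    rcases vr_cases i with rfl | ⟨s, rfl⟩ | ⟨s, rfl⟩
    exacts [Set.mem_of_eq_of_mem (h0 t) (one_mem _), (h5 s).1, (h5 s).2]
  · rintro _ (⟨a, rfl⟩ | ⟨t, rfl⟩)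
    · exact (xf L P).algebraMap_mem a
    · unfold cc
      split_ifs <;> exact mem_xf P t.1 _

lemma low0 [FA3 K] [Finite T] {G : GD K dd} {S : Sp ((Cd.pi T (xz dd)).amb K)} (θ : Pre j S) (q : ℕ)
    (e : T → ℕ) {P : T → (xz dd).X L} (hL : Good j L) (hP : ∀ t, G.UU.mem L (P t))
    (h : dg (xf L P) = 0) : θ.a L (cfg q e L P) = 0 := by
  obtain ⟨m, hm⟩ := good_adjoin L _ (Set.finite_range fun s : T × Vr dd => (P s.1).1 s.2)
  have h1 : m ≤ j := by
    have := tr_le (L := L.sub (xf L P)) (L' := L) (xf L P).val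
    rw [hL.2, show (L.sub (xf L P)).tr = m from hm.2] at this
    exact_mod_cast this
  refine FA3.low' θ (m := m) (FA3.dm_alg (c := .vec (T × Vr dd)) (x := fun s => (P s.1).1 s.2)
    ⟨xf L P, fun s => mem_xf P s.1 s.2, hm.2.le⟩ fun F hF t => ⟨fun i => ?_, ?_⟩)
    (lt_of_le_of_ne h1 fun e => ?_)
  · exact (isAlgebraic_algebraMap (⟨_, hF (t, i)⟩ : F)).pow _
  · refine (IsAlgebraic.of_pow two_pos ?_).pow _
    rw [(hP t).2.2]
    exact isAlgebraic_algebraMap
      (⟨_, (Rel.aeval (R := Rel.ofSub F) (fun i => ⟨hF (t, i), rfl⟩) _).1⟩ : F)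
  · exact ((deg_pos_iff _).2 (Good.fin (L := L.sub (xf L P)) (xf L P).val hL (e ▸ hm.2))).ne' h

lemma gen' [Base K] [XG K dd] (G : GD K dd) (κ : Type) [Finite κ] :
    ∃ (L : Fld K) (P : κ → (xz dd).X L),
    Good (dd * (2 * Nat.card κ)) L ∧ (∀ i, G.UU.mem L (P i)) ∧ dg (xf L P) ≠ 0 := by
  refine Finite.induction_empty_option (P := fun κ => ∃ (L : Fld K) (P : κ → (xz dd).X L),
    Good (dd * (2 * Nat.card κ)) L ∧ (∀ i, G.UU.mem L (P i)) ∧ dg (xf L P) ≠ 0) ?_ ?_ ?_ κ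
  · rintro _ _ e ⟨L, P, h1, h2, h3⟩
    refine ⟨L, fun b => P (e.symm b), by rwa [← Nat.card_congr e], fun _ => h2 _, ?_⟩
    rwa [xf, ← (e.symm.prodCongr (Equiv.refl (Vr dd))).surjective.range_comp] at h3
  · exact ⟨.base K, PEmpty.elim, by simpa using good_base, fun i => i.elim,
      (deg_of_surj (L := (Fld.base K).sub _) (L' := .base K) fun x =>
        ⟨⟨x, IntermediateField.algebraMap_mem _ x⟩, rfl⟩).trans_ne one_ne_zero⟩
  · rintro κ _ ⟨L, P, h1, h2, h3⟩
    obtain ⟨M, α, y, hy⟩ := XG.ex G h1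
    refine ⟨M, fun o => o.elim y fun i => (xz dd).map α (P i), ?_, ?_, ?_⟩
    · have := hy.gM
      rwa [Nat.card_eq_fintype_card, show dd * (2 * Fintype.card κ) + 2 * dd =
        dd * (2 * (Fintype.card κ + 1)) by ring, ← Fintype.card_option,
        ← Nat.card_eq_fintype_card] at this
    · rintro (_ | i)
      exacts [hy.mem, (G.UU.map_iff α _).2 (h2 i)]
    · have := XG.dgr hy (Set.range fun s : κ × Vr dd => (P s.1).1 s.2)
      refine (Eq.trans (congrArg (fun s => dg (IntermediateField.adjoin K s)) ?_) this).trans_ne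
        (mul_ne_zero two_ne_zero h3)
      ext x
      constructor
      · rintro ⟨⟨_ | t, i⟩, rfl⟩
        exacts [Or.inr ⟨i, rfl⟩, Or.inl ⟨_, ⟨(t, i), rfl⟩, rfl⟩]
      · rintro (⟨_, ⟨⟨t, i⟩, rfl⟩, rfl⟩ | ⟨i, rfl⟩)
        exacts [⟨(some t, i), rfl⟩, ⟨(none, i), rfl⟩]

variable [FA1 K]

lemma endos [Finite κ] [DecidableEq κ] {α : L →ₐ[K] M} {T : κ → M} (h : Free j α T)
    (hp : p.Prime) (h2 : p ≠ 2) (k : ℕ) (s : Finset κ) : ∃ ρ : M →ₐ[K] M,
      (∀ t, ρ (T t) = if t ∈ s then T t ^ p ^ k else T t) ∧ deg ρ = p ^ (k * s.card) := by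
  induction s using Finset.induction_on with
  | empty => exact ⟨AlgHom.id K M, fun t => by simp, by
      simpa using deg_of_surj (ι := AlgHom.id K M) Function.surjective_id⟩
  | insert a s ha ih =>
    obtain ⟨ρ, a₂, a₃⟩ := ih
    obtain ⟨ρ', -, b₂, b₃⟩ := endo h a hp h2 k
    refine ⟨ρ.comp ρ', fun t => ?_, ?_⟩
    · rw [AlgHom.comp_apply, b₂]
      by_cases e : t = a
      · rw [if_pos e, if_pos (e ▸ Finset.mem_insert_self _ _), map_pow, a₂, if_neg (e ▸ ha)]
      · simp only [a₂, Finset.mem_insert, e, false_or, if_false]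
    · rw [deg_comp, a₃, b₃, Finset.card_insert_of_notMem ha, ← pow_add]
      congr 1
      ring

omit [FA1 K] in
lemma good_prod [Finite T] (hL : Good (dd * Nat.card T) L) : Good (Nat.card (T × Fin dd)) L := by
  rwa [Nat.card_prod, Nat.card_eq_fintype_card (α := Fin dd), Fintype.card_fin, mul_comm]

lemma dg_cfg [Base K] [Finite T] [DecidableEq T] {τ : T → T} (hτ : Inv τ) {P : T → (xz dd).X L}
    (hL : Good (dd * Nat.card T) L) (h0 : ∀ t, (P t).1 0 = 1) (hP : ∀ t, P (τ t) = P t)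
    (hp : p.Prime) (h2 : p ≠ 2) (f m : ℕ) (i : T) :
    dg (xf L (cfg (p ^ f) (fun t => if t = i ∨ t = τ i then m else 0) L P)) =
      ((p ^ f) ^ dd) ^ (2 * m) * dg (xf L P) := by
  by_cases h : dg (xf L P) = 0
  · rw [h, mul_zero]
    refine dg_le (IntermediateField.adjoin_le_iff.2 ?_) h
    rintro _ ⟨⟨t, i⟩, rfl⟩
    exact pow_mem (mem_xf P t i) _
  obtain ⟨o, ho⟩ := Countable.exists_injective_nat T
  have hδ : ∀ t, (τ t = i ∨ τ t = τ i) ↔ (t = i ∨ t = τ i) := fun t =>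
    ⟨fun h => h.symm.imp (fun e => by rw [← (hτ t).1, e, (hτ i).1]) fun e => by rw [← e, (hτ t).1],
      fun h => h.symm.imp (fun e => by rw [e, (hτ i).1]) fun e => by rw [e]⟩
  rw [xf_eq ho hτ h0 hP] at h ⊢
  rw [xf_eq ho hτ (fun t => (congrArg (· ^ _) (h0 t)).trans (one_pow _))
    fun t => by simp only [cfg, hδ, hP]]
  obtain ⟨M, α, β, U, e₁, hF, e₂⟩ := free_of (good_prod hL) h
  obtain ⟨ρ, a₂, a₃⟩ := endos hF hp h2 (f * m) (({i, τ i} : Finset T) ×ˢ Finset.univ)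
  have e₃ := map_gen α U (β.comp ρ)
  rw [hF.top, Subsingleton.elim ((β.comp ρ).comp α) (Algebra.ofId K L)] at e₃
  rw [show cc o τ (cfg (p ^ f) (fun t => if t = i ∨ t = τ i then m else 0) L P) =
    fun t => (β.comp ρ) (U t) from funext fun t => ?_, ← e₃, dg_map, dg_top, one_mul,
    deg_comp, a₃, e₂, Finset.card_product, Finset.card_pair (hτ i).2.symm, Finset.card_fin,
    ← pow_mul, ← pow_mul]
  · congr 2
    ring
  have e₄ : cc o τ (cfg (p ^ f) (fun t => if t = i ∨ t = τ i then m else 0) L P) t =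
      cc o τ P t ^ (p ^ f) ^ (if t.1 = i ∨ t.1 = τ i then m else 0) := by
    unfold cc
    by_cases h : o t.1 < o (τ t.1)
    · rw [if_pos h, if_pos h]; rfl
    · rw [if_neg h, if_neg h]; rfl
  rw [e₄, ← e₁, AlgHom.comp_apply, a₂]
  simp only [Finset.mem_product, Finset.mem_insert, Finset.mem_singleton, Finset.mem_univ, and_true]
  split_ifs
  · rw [map_pow, pow_mul]
  · rw [pow_zero, pow_one]

lemma cmp [Base K] {G : GD K dd} {q : ℕ} (hq : Odd q) (φ : AF (dd * Nat.card Bool) (G.UU.pi Bool))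
    (hφ : AntiP φ.a) (e : Bool → ℕ) {y : (xz dd).X L} {y' : (xz dd).X L'}
    (hL : Good (dd * Nat.card Bool) L)
    (hL' : Good (dd * Nat.card Bool) L') (hy : G.UU.mem L y) (hy' : G.UU.mem L' y')
    (h : dg (xf L fun _ : Bool => y) ≠ 0) (h' : dg (xf L' fun _ : Bool => y') ≠ 0) :
    φ.a L (cfg q e L fun _ => y) * dg (xf L' fun _ : Bool => y') =
      dg (xf L fun _ : Bool => y) * φ.a L' (cfg q e L' fun _ => y') := by
  have ho : Function.Injective Bool.toNat := fun a b => by cases a <;> cases b <;> simp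
  have hτ : Inv not := fun a => by cases a <;> simp
  rw [xf_eq ho hτ (fun _ => hy.2.1) fun _ => rfl] at h ⊢
  rw [xf_eq ho hτ (fun _ => hy'.2.1) fun _ => rfl] at h' ⊢
  obtain ⟨M, α, β, U, e₁, hF, e₂⟩ := free_of (good_prod hL) h
  obtain ⟨M', α', β', U', e₁', hF', e₂'⟩ := free_of (good_prod hL') h'
  obtain ⟨ρ, -, a₂, a₃⟩ := FA1.lift hF hF' (AlgHom.id K K)
  obtain ⟨N, κ₁, κ₂, b₁, b₂⟩ := exists_amalgam β (β'.comp ρ)
    ((deg_pos_iff _).1 (e₂ ▸ Nat.pos_of_ne_zero h))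
  have hN := hL'.of_fin b₂
  have d₁ := congrArg (fun f => (deg f : ℂ)) b₁
  simp only [deg_comp, a₃ rfl, deg_of_surj (ι := AlgHom.id K (Fld.base K)) Function.surjective_id,
    one_mul, e₂, e₂', Nat.cast_mul] at d₁
  have c₁ : ∀ b, κ₁ (cc Bool.toNat not (fun _ => y) b) = κ₂ (cc Bool.toNat not (fun _ => y') b) :=
    fun b => by rw [← e₁, ← e₁', ← a₂]; exact AlgHom.congr_fun b₁ _
  have c₂ : ((xz dd).map κ₁ y).1 = ((xz dd).map κ₂ y').1 := funext fun i => by
    rcases vr_cases i with rfl | ⟨s, rfl⟩ | ⟨s, rfl⟩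
    exacts [(congrArg κ₁ hy.2.1).trans ((map_one κ₁).trans ((congrArg κ₂ hy'.2.1).trans
      (map_one κ₂)).symm), c₁ (false, s), c₁ (true, s)]
  have c₃ : ((xz dd).map κ₁ y).2 ^ 2 = ((xz dd).map κ₂ y').2 ^ 2 := by
    rw [((G.UU.map_iff κ₁ y).2 hy).2.2, ((G.UU.map_iff κ₂ y').2 hy').2.2, c₂]
  have c₄ : φ.a N (cfg q e N fun _ => (xz dd).map κ₁ y) =
      φ.a N (cfg q e N fun _ => (xz dd).map κ₂ y') := by
    rcases sq_eq_sq_iff_eq_or_eq_neg.1 c₃ with c | c
    · rw [show (xz dd).map κ₁ y = (xz dd).map κ₂ y' from Prod.ext c₂ c]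
    · rw [show (xz dd).map κ₁ y = ngz N ((xz dd).map κ₂ y') from Prod.ext c₂ c]
      generalize (xz dd).map κ₂ y' = w
      have c₅ := hφ false N (Function.update (cfg q e N fun _ => w) true
        (ngz N (cfg q e N (fun _ => w) true)))
      rw [hφ true, neg_neg] at c₅
      refine Eq.trans (congrArg _ (funext fun b => ?_)) c₅
      cases b <;> exact Prod.ext rfl (hq.pow.neg_pow _)
  rw [ext' φ.toPre q e κ₁ (fun _ => y) hL hN, ext' φ.toPre q e κ₂ (fun _ => y') hL' hN] at c₄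
  have d₂ := deg_ne b₂
  have d₃ : (deg κ₁ : ℂ) ≠ 0 := fun e => mul_ne_zero (Nat.cast_ne_zero.2 h') d₂ (by
    rw [← d₁, e, mul_zero])
  refine mul_left_cancel₀ d₃ ?_
  rw [← mul_assoc, c₄, mul_left_comm, ← mul_assoc, d₁]
  ring

end XWb

theorem XW_thm [Base K] [Fact p.Prime] [CharP K p] [FA1 K] [FA3 K] [X0 dd] [XG K dd] [XV K p dd] :
    XW K p dd where
  shift {G q} hq {T} _ φ {τ} hτ e e' i m v h1 h2 h3 := by
    classical
    have hp : p.Prime := Fact.out
    have p2 : p ≠ 2 := fun e => (X0.num G).2.2.2.1 (by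
      have := CharP.cast_eq_zero K p
      rwa [e, Nat.cast_ofNat] at this)
    obtain ⟨⟨f, rfl⟩, hl⟩ := id hq
    obtain rfl : e' = fun t => e t + if t = i ∨ t = τ i then m else 0 := funext fun t => by
      by_cases a : t = i
      · rw [if_pos (Or.inl a), a, h1]
      · by_cases b : t = τ i
        · rw [if_pos (Or.inr b), b, h2]
        · rw [if_neg (not_or.2 ⟨a, b⟩), h3 t a b, add_zero]
    have hδ : ∀ t, (τ t = i ∨ τ t = τ i) ↔ (t = i ∨ t = τ i) := fun t =>
      ⟨fun h => h.symm.imp (fun e => by rw [← (hτ t).1, e, (hτ i).1]) fun e => by rw [← e, (hτ t).1],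
        fun h => h.symm.imp (fun e => by rw [e, (hτ i).1]) fun e => by rw [e]⟩
    refine ⟨fun H L P hL hU hP => ?_, fun H L P hL hU hP => ?_⟩
    · obtain ⟨a1, -, a2, -⟩ := XV.mp (XV.pow hq m)
      obtain ⟨L', ι, _, b1, ⟨y, rfl, b2⟩, b3⟩ := CKL.surj_lift (Srj.mor a1 a2) ⟨_, rfl, hU i⟩
      have b4 : frb ((p ^ f) ^ m) L' y = (xz dd).map ι (P i) := Option.some.inj b3
      let P₀ : T → (xz dd).X L' := fun t => if t = i ∨ t = τ i then y else (xz dd).map ι (P t)
      have c1 : ∀ t, G.UU.mem L' (P₀ t) := fun t => by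
        simp only [P₀]
        split_ifs
        exacts [b2, (G.UU.map_iff ι _).2 (hU t)]
      have c2 : ∀ t, P₀ (τ t) = P₀ t := fun t => by simp only [P₀, hδ, hP]
      have c3 : cfg (p ^ f) (fun t => if t = i ∨ t = τ i then m else 0) L' P₀ =
          fun t => (xz dd).map ι (P t) := funext fun t => by
        simp only [cfg, P₀]
        split_ifs with h
        · rcases h with rfl | rfl
          · exact b4
          · rw [b4, hP]
        · exact Prod.ext (funext fun _ => pow_one _) (pow_one _)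
      have hL' := hL.of_fin b1
      have c4 := H L' P₀ hL' c1 c2
      have c5 := XWb.dg_cfg hτ hL' (fun t => (c1 t).2.1) c2 hp p2 f m i
      rw [c3, XWb.xf_map, dg_map] at c5
      rw [XWb.cfg_add, c3, XWb.ext' φ.toPre _ e ι P hL hL', ← mul_assoc, mul_comm (dg _ : ℂ),
        ← Nat.cast_pow, ← Nat.cast_pow, ← Nat.cast_mul, ← c5, Nat.cast_mul, mul_comm (dg _ : ℂ), mul_assoc] at c4
      exact mul_left_cancel₀ (deg_ne b1) c4
    · rw [XWb.cfg_add, H L (cfg _ _ L P) hL (fun t => (XV.mp (XV.pow hq _)).1.mem _ _ (hU t))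
        (fun t => by simp only [cfg, hδ, hP]), XWb.dg_cfg hτ hL (fun t => (hU t).2.1) hP hp p2]
      push_cast
      ring
  val {G q} hq φ hφ e := by
    have hp : p.Prime := Fact.out
    have p2 : p ≠ 2 := fun e => (X0.num G).2.2.2.1 (by
      have := CharP.cast_eq_zero K p
      rwa [e, Nat.cast_ofNat] at this)
    have ho : Odd q := by
      obtain ⟨⟨f, rfl⟩, -⟩ := hq
      exact (hp.odd_of_ne_two p2).pow
    have hc : ∀ {L : Fld K} {P : Bool → (xz dd).X L}, (∀ i, P (!i) = P i) → P = fun _ => P true :=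
      fun h => funext fun b => by cases b; exacts [h true, rfl]
    by_cases h : ∃ (L : Fld K) (y : (xz dd).X L), Good (dd * Nat.card Bool) L ∧ G.UU.mem L y ∧
      dg (xf L fun _ : Bool => y) ≠ 0
    · obtain ⟨L', y', a1, a2, a3⟩ := h
      refine ⟨φ.a L' (cfg q e L' fun _ => y') / dg (xf L' fun _ : Bool => y'),
        fun L P hL hU hP => ?_⟩
      by_cases h0 : dg (xf L P) = 0
      · rw [XWb.low0 φ.toPre q e hL hU h0, h0, Nat.cast_zero, zero_mul]
      · rw [hc hP] at h0 ⊢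
        rw [← mul_div_assoc, eq_div_iff (Nat.cast_ne_zero.2 a3)]
        exact XWb.cmp ho φ hφ e hL a1 (hU true) a2 h0 a3
    · refine ⟨0, fun L P hL hU hP => ?_⟩
      rw [mul_zero]
      exact XWb.low0 φ.toPre q e hL hU
        (by_contra fun h0 => h ⟨L, P true, hL, hU true, by rwa [hc hP] at h0⟩)
  gen G κ _ := XWb.gen' G κ

end Pool.Agent.Lib.MP_557161_ag.HG.HN
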