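import Pool.Agent.Lib.MP_557161_ag.HN.StV
import Pool.Agent.Lib.MP_557161_ag.HG.YL

/-!
The fixed point formula for the transpose of the graph of Frobenius.
-/

namespace Pool.Agent.Lib.MP_557161_ag.HG.HN

open Pool.Agent.Lib.MP_557161_ag.DL MvPolynomial

namespace YMa

section Val

variable {M Γ ι : Type} [Field M] [LinearOrderedCommGroupWithZero Γ] (v : Valuation M Γ)

lemma key [Finite ι] [Nonempty ι] {δ η : ι → M} {t : M} {Q : ℕ} (t0 : t ≠ 0) (h1 : 1 < Q)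
    (hδ : ∀ μ, v (δ μ) < 1) (hη : ∀ m, (∀ μ, v (δ μ) ≤ m) → ∀ μ, v (η μ) ≤ m ^ Q)
    (h : (∀ μ, v (t⁻¹ * δ μ) ≤ 1) ∨ ∀ μ, v (t⁻¹ * (δ μ - η μ)) ≤ 1) (μ : ι) :
    v (t⁻¹ * δ μ) ≤ 1 ∧ v (t⁻¹ * η μ) < 1 := by
  obtain ⟨ν, hν⟩ := Finite.exists_max fun μ => v (δ μ)
  have h2 := hη _ hν
  have t1 : 0 < v t := zero_lt_iff.2 ((map_ne_zero v).2 t0)
  simp only [map_mul, map_inv₀, inv_mul_le_iff₀ t1, inv_mul_lt_iff₀ t1, mul_one] at h ⊢
  rcases eq_or_ne (v (δ ν)) 0 with e | e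
  · rw [e, zero_pow (by omega)] at h2
    exact ⟨(hν μ).trans (e ▸ zero_le), (h2 μ).trans_lt t1⟩
  have h3 := pow_lt_self_of_lt_one₀ (zero_lt_iff.2 e) (hδ ν) h1
  have h4 : v (δ ν) ≤ v t := h.elim (· ν) fun h => by
    rw [← v.map_sub_eq_of_lt_left ((h2 ν).trans_lt h3)]
    exact h ν
  exact ⟨(hν μ).trans h4, (h2 μ).trans_lt (h3.trans_le h4)⟩

lemma scl_le {u x r : M} {m : Γ} (h0 : v (u - 1) < 1) (h1 : v (u - 1) ≤ m) (h2 : v r ≤ 1)
    (h3 : v (x - r) ≤ m) (k : ℕ) : v (u⁻¹ ^ k * x - r) ≤ m := by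
  have e : v u = 1 := by simpa using v.map_one_add_of_lt h0
  have u0 : u ≠ 0 := fun h => by simp [h] at e
  induction k with
  | zero => simpa using h3
  | succ k ih =>
    rw [show u⁻¹ ^ (k + 1) * x - r = u⁻¹ * ((u⁻¹ ^ k * x - r) - (u - 1) * r) by
      linear_combination r * inv_mul_cancel₀ u0, map_mul, map_inv₀, e, inv_one, one_mul]
    refine v.map_sub_le ih ?_
    rw [map_mul]
    exact (mul_le_of_le_one_right' h2).trans h1

end Val

variable {K : Type} [Field K] {dd : ℕ} {G : GD K dd} {L M : Fld K} {Q : ℕ} {ε : Bool}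

lemma small_iff {O : Pl M} {x : M} : (Rel.ofPl O).r x 0 ↔ O.O.valuation x < 1 := by
  rw [← ValuationSubring.mem_nonunits_iff]
  refine ⟨fun h => ?_, fun h => ?_⟩
  · rw [ValuationSubring.mem_nonunits_iff_or]
    by_contra! h'
    exact (O.rd_ne_zero_iff h.1).2 h' h.2
  · have h1 : x ∈ O.O := O.O.nonunits_subset h
    refine ⟨h1, by_contra fun h2 => ?_⟩
    rw [ValuationSubring.mem_nonunits_iff_or] at h
    exact h.elim ((O.rd_ne_zero_iff h1).1 h2).1 fun h3 => h3 ((O.rd_ne_zero_iff h1).1 h2).2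

/-- Frobenius, or its composition with the involution. -/
abbrev gg (Q : ℕ) (ε : Bool) (L : Fld K) (y : (xz dd).X L) : (xz dd).X L := sg ε L (frb Q L y)

/-- Constant points. -/
abbrev cst (L : Fld K) (R : (xz dd).X K) : (xz dd).X L := (xz dd).map (algebraMap K L) R

lemma gg_one (y : (xz dd).X L) (i : Vr dd) : (gg Q ε L y).1 i = y.1 i ^ Q := by cases ε <;> rfl

lemma gg_rel {R : Rel M L} {y : (xz dd).X M} {y' : (xz dd).X L} (h : (xz dd).lift R.r y y') :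
    (xz dd).lift R.r (gg Q ε M y) (gg Q ε L y') := by
  cases ε
  exacts [⟨fun i => Rel.pow (h.1 i) Q, Rel.pow h.2 Q⟩,
    ⟨fun i => Rel.pow (h.1 i) Q, Rel.neg (Rel.pow h.2 Q)⟩]

lemma gg_map (κ : L →ₐ[K] M) (y : (xz dd).X L) :
    gg Q ε M ((xz dd).map κ y) = (xz dd).map κ (gg Q ε L y) :=
  ((Cd.lift_hom κ).1 (gg_rel ((Cd.lift_hom κ).2 rfl))).symm

lemma gg_cst (R : (xz dd).X K) : gg Q ε L (cst L R) = cst L (gg Q ε (.base K) R) :=
  gg_map (L := .base K) (Algebra.ofId K L) R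

lemma map_cst (κ : L →ₐ[K] M) (R : (xz dd).X K) : (xz dd).map κ (cst L R) = cst M R :=
  (Cd.lift_hom κ).1 (Cd.lift_const _ R)

lemma gg_scl (a : L) (y : (xz dd).X L) :
    gg Q ε L (G.Γ.scl a y) = G.Γ.scl (a ^ Q) (gg Q ε L y) := by
  cases ε <;> refine Prod.ext (funext fun i => mul_pow _ _ _) ?_ <;>
    simp [sg, frb, ngz, mul_pow, pow_right_comm a]

lemma vz_rel {r : M → L → Prop} {y : (xz dd).X M} {y' : (xz dd).X L} :
    (xz dd).lift r y y' ↔ ∀ μ, r (vz y μ) (vz y' μ) :=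
  ⟨fun h μ => by cases μ; exacts [h.2, h.1 _], fun h => ⟨fun i => h (some i), h none⟩⟩

lemma vz_scl (a : L) (y : (xz dd).X L) (μ : Option (Vr dd)) :
    vz (G.Γ.scl a y) μ = a ^ G.ωK μ * vz y μ := by
  cases μ
  exacts [by simp [vz, GD.ωK], by simp [vz, GD.ωK]]

lemma cn_cst {R : (xz dd).X K} : G.Cn L (cst L R) ↔ G.Cn (.base K) R :=
  G.CC.S.map_iff (M := .base K) (Algebra.ofId K L) R

lemma eq_of_pt {y y' : (xz dd).X L} {i : Vr dd} (h : y.1 i = 1) (h' : y'.1 i = 1)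
    (e : G.Γ.pt y = G.Γ.pt y') : y = y' := by
  obtain ⟨a, -, rfl⟩ := (G.Γ.pt_eq ⟨.inl i, trivial, h.trans_ne one_ne_zero⟩).1 e
  obtain rfl : a = 1 := by simpa [h] using h'
  exact (G.Γ.scl_one y).symm

/-- The fixed points. -/
abbrev Fx (G : GD K dd) (Q : ℕ) (ε : Bool) : Type :=
  {E : (G.Γ.amb K).pt (.base K) // ∃ y, G.Cn (.base K) y ∧ E = G.Γ.pt y ∧
    E = G.Γ.pt (sg ε (.base K) (frb Q (.base K) y))}

lemma fx_rep (E : Fx G Q ε) : ∃ (R : (xz dd).X K) (i : Vr dd), G.Cn (.base K) R ∧ R.1 i = 1 ∧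
    gg Q ε (.base K) R = R ∧ E.1 = G.Γ.pt R := by
  obtain ⟨E, y, h1, rfl, h2⟩ := E
  obtain ⟨i, hi⟩ := Function.ne_iff.1 h1.1
  have c0 : (y.1 i)⁻¹ ≠ 0 := inv_ne_zero hi
  have e : (G.Γ.scl (y.1 i)⁻¹ y).1 i = 1 := inv_mul_cancel₀ hi
  refine ⟨_, i, G.CC.inv (.base K) _ y c0 h1, e, eq_of_pt (G := G) (L := .base K)
    (by rw [gg_one, e, one_pow]) e ?_, (G.Γ.pt_scl c0 y).symm⟩
  rw [gg_scl, G.Γ.pt_scl (pow_ne_zero _ c0), G.Γ.pt_scl c0]
  exact h2.symm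

lemma fx_base [IsAlgClosed K] (h1 : 1 < Q) {y : (xz dd).X L} (h : G.Cn L y)
    (e : gg Q ε L y = y) : ∃ (R : (xz dd).X K) (E : Fx G Q ε), y = cst L R ∧ E.1 = G.Γ.pt R := by
  choose x hx using fun i => YLa.mem_rg (K := K) (x := y.1 i) (by
    by_cases h0 : y.1 i = 0
    · exact h0 ▸ isIntegral_zero
    · refine IsIntegral.of_pow (Nat.sub_pos_of_lt h1) ?_
      rw [pow_sub₀ _ h0 h1.le, ← gg_one (ε := ε), e, pow_one, mul_inv_cancel₀ h0]
      exact isIntegral_one)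
  obtain ⟨t, ht⟩ := YLa.mem_rg (K := K) (x := y.2) (IsIntegral.of_pow two_pos (by
    rw [h.2, ← funext hx]
    exact (Rel.aeval (R := Rel.ofHom (M := .base K) (Algebra.ofId K L)) (fun _ => rfl) G.F :
      _ = _) ▸ isIntegral_algebraMap))
  obtain rfl : y = cst L (x, t) := Prod.ext (funext hx).symm ht.symm
  rw [gg_cst] at e
  exact ⟨_, ⟨_, _, cn_cst.1 h, rfl,
    congrArg _ ((xz dd).map_inj (algebraMap K L).injective e).symm⟩, rfl, rfl⟩

variable {p : ℕ} [Fact p.Prime] [CharP K p]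

lemma loc (h1 : 1 < Q) (hQ : G.Fr p Q) {O : Pl M} {R : (xz dd).X K} {i : Vr dd} (hR : R.1 i = 1)
    (hg : gg Q ε (.base K) R = R) {y : (xz dd).X M} {t : M} (t0 : t ≠ 0)
    (hy : (xz dd).lift (Rel.ofPl O).r y (cst O.res R)) {v v' : Option (Vr dd) → M}
    (hv : v = t⁻¹ • (vz y - vz (cst M R)))
    (hv' : v' = t⁻¹ • (vz y - vz (gg Q ε M (G.Γ.scl (y.1 i)⁻¹ y)))) (h : IntV O v ∨ IntV O v') :
    IntV O v ∧ ∀ μ, (Rel.ofPl O).r (v' μ) (rdV O v μ) := by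
  obtain ⟨⟨f, rfl⟩, -⟩ := hQ
  have : CharP M p := charP_of_injective_algebraMap (algebraMap K M).injective p
  have lR := vz_rel.1 (Cd.lift_const (c := xz dd) (Rel.ofPl O) R)
  have hδ : ∀ μ, O.O.valuation (vz y μ - vz (cst M R) μ) < 1 := fun μ =>
    small_iff.1 (by simpa using Rel.sub (vz_rel.1 hy μ) (lR μ))
  have e1 : vz (cst M R) (some i) = 1 := by simp [vz, hR]
  have e2 : ∀ μ, v' μ = t⁻¹ * ((vz y μ - vz (cst M R) μ) -
      (vz (gg (p ^ f) ε M (G.Γ.scl (y.1 i)⁻¹ y)) μ - vz (cst M R) μ)) := fun μ => by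
    rw [hv', sub_sub_sub_cancel_right]; rfl
  have k := key O.O.valuation t0 h1 hδ (fun m hm μ => ?_) (h.imp
    (fun h μ => (O.O.valuation_le_one_iff _).2 (by subst hv; exact h μ))
    fun h μ => (O.O.valuation_le_one_iff _).2 (e2 μ ▸ h μ))
  · have k1 : IntV O v := fun μ => hv ▸ (O.O.valuation_le_one_iff _).1 (k μ).1
    refine ⟨k1, fun μ => ?_⟩
    have := Rel.sub (R := Rel.ofPl O) ⟨k1 μ, rfl⟩ (small_iff.2 (k μ).2)
    rw [sub_zero] at this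
    rwa [e2, mul_sub, show t⁻¹ * (vz y μ - vz (cst M R) μ) = v μ by rw [hv]; rfl]
  · have k2 := fun k => scl_le O.O.valuation (u := y.1 i) (e1 ▸ hδ (some i)) (e1 ▸ hm (some i))
      ((O.O.valuation_le_one_iff _).2 (lR μ).1) (hm μ) k
    conv_lhs => rw [← hg, ← gg_cst]
    cases μ with
    | none =>
      refine le_trans (le_of_eq ?_) (pow_le_pow_left' (k2 G.e) _)
      rw [← map_pow, sub_pow_char_pow]
      cases ε
      · rfl
      · show O.O.valuation (-_ - -_) = _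
        rw [neg_sub_neg, Valuation.map_sub_swap]
        rfl
    | some l =>
      refine le_trans (le_of_eq ?_) (pow_le_pow_left' (k2 1) _)
      rw [← map_pow, sub_pow_char_pow, pow_one]
      cases ε <;> rfl

omit [Fact p.Prime] [CharP K p] in
lemma live {O : Pl M} {Y : (xz dd).X M} {i : Vr dd} (h1 : 1 < Q) (Yi : Y.1 i ≠ 0) {b t : M}
    (t0 : t ≠ 0) (ht : (Rel.ofPl O).r t 0) {y' : (xz dd).X O.res} {v' : Option (Vr dd) → O.res}
    (hy : (xz dd).lift (Rel.ofPl O).r (gg Q ε M (G.Γ.scl (Y.1 i)⁻¹ Y)) y')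
    (hv : ∀ μ, (Rel.ofPl O).r
      ((t⁻¹ • (vz (G.Γ.scl b Y) - vz (gg Q ε M (G.Γ.scl (Y.1 i)⁻¹ Y)))) μ) (v' μ)) :
    (xz dd).lift (Rel.ofPl O).r (G.Γ.scl (Y.1 i)⁻¹ Y) y' ∧
      (xz dd).lift (Rel.ofPl O).r (G.Γ.scl b Y) y' ∧ gg Q ε _ y' = y' ∧ y'.1 i = 1 := by
  have rt : ∀ x : M, x ^ Q ∈ O.O → x ∈ O.O := fun x h => (O.O.valuation_le_one_iff _).1
    ((pow_le_one_iff (by omega)).1 (map_pow O.O.valuation x Q ▸ (O.O.valuation_le_one_iff _).2 h))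
  have l1 : (xz dd).lift (Rel.ofPl O).r (G.Γ.scl (Y.1 i)⁻¹ Y) _ := (Cd.lift_pl O).2
    ⟨⟨fun l => rt ((G.Γ.scl (Y.1 i)⁻¹ Y).1 l) (by
      rw [← gg_one (ε := ε)]; exact (hy.1 l).1), rt _ (by
      cases ε
      exacts [hy.2.1, neg_mem_iff.1 hy.2.1])⟩, rfl⟩
  have l2 : (xz dd).lift (Rel.ofPl O).r (G.Γ.scl b Y) y' := vz_rel.2 fun μ => by
    have := (Rel.ofPl O).add (vz_rel.1 hy μ) ((Rel.ofPl O).mul ht (hv μ))
    rwa [zero_mul, add_zero, Pi.smul_apply, smul_eq_mul, mul_inv_cancel_left₀ t0, Pi.sub_apply,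
      add_sub_cancel] at this
  have e1 : y'.1 i = 1 := Rel.eq (hy.1 i) (Rel.ofPl O).one (by
    rw [gg_one, show (G.Γ.scl (Y.1 i)⁻¹ Y).1 i = 1 from inv_mul_cancel₀ Yi, one_pow])
  have l3 := G.Γ.lift_scl (e1 ▸ l2.1 i) one_ne_zero l1
  rw [G.Γ.scl_one, G.Γ.scl_scl, show (G.Γ.scl b Y).1 i = b * Y.1 i from rfl,
    mul_inv_cancel_right₀ Yi] at l3
  have e2 := Cd.lift_eq l3 l2 rfl
  rw [e2] at l1
  exact ⟨l1, l2, Cd.lift_eq (gg_rel l1) hy rfl, e1⟩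

omit [Fact p.Prime] [CharP K p] in
lemma scl_pt {d : Cd} (Y : (xz dd).X M) (w : d.X M) (a t c : M) :
    ((G.Γ1 d).prod (.vec G.ωK)).scl (c ^ Q)
      ((gg Q ε M Y, w), t⁻¹ • (vz (G.Γ.scl a Y) - vz (gg Q ε M Y))) =
      ((gg Q ε M (G.Γ.scl c Y), w),
        t⁻¹ • (vz (G.Γ.scl (c ^ Q * a) Y) - vz (gg Q ε M (G.Γ.scl c Y)))) := by
  rw [gg_scl, ← G.Γ.scl_scl]
  refine Prod.ext rfl (funext fun μ => ?_)
  show _ * (t⁻¹ * (_ - _)) = t⁻¹ * (vz (G.Γ.scl _ _) μ - vz (G.Γ.scl _ _) μ)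
  rw [vz_scl (c ^ Q), vz_scl (c ^ Q)]
  ring

end YMa

open YMa in
theorem YM_thm {K : Type} [Field K] [Base K] {p dd : ℕ} [Fact p.Prime] [CharP K p] [X0 dd] [FW0 K]
    [wb : WB K] [xa : XA K dd] [ya : YA K dd] [yt : YT K dd] [yp : YP K dd] : YM K dd p where
  loop {G d W j φ Ψ} hc Q h1 hQ L M N α y hy w hw ε β T hT := by
    classical
    obtain ⟨θ, hθ, hΨ⟩ := hc
    set Y := (xz dd).map β y with hY
    set w' := d.map β (d.map α w) with hw'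
    have ew : w' = d.map (β.comp α) w := d.map_map _ _ _
    have uY : G.UU.mem N Y := (G.UU.map_iff β y).2 hy.mem
    have cY := ya.uu uY
    have Y0 : ∀ i, Y.1 i ≠ 0 := uY.1.2
    have T0 : ∀ b, T b ≠ 0 := fun b e => (FA1.trans hT b).ne 0 (e.trans (map_zero β).symm)
    have gN : Good (j + (2 * dd + 1) + 1) N := by simpa [add_assoc] using hT.gM
    have cg : G.Cn N (gg Q ε N Y) := by
      refine ⟨Function.ne_iff.2 ⟨0, (gg_one Y 0).trans_ne (pow_ne_zero _ (Y0 0))⟩, ?_⟩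
      rw [GD.Cn0, funext (gg_one Y), xa.frob G hQ, ← show Y.2 ^ 2 = _ from cY.2, pow_right_comm]
      cases ε
      exacts [rfl, neg_sq _]
    have c0 : ∀ i, (Y.1 i)⁻¹ ^ Q ≠ 0 := fun i => pow_ne_zero _ (inv_ne_zero (Y0 i))
    have ec : ∀ i, G.Γ.scl ((G.Γ.scl ((Y.1 i)⁻¹ ^ Q * T true) Y).1 i)⁻¹
        (G.Γ.scl ((Y.1 i)⁻¹ ^ Q * T true) Y) = G.Γ.scl (Y.1 i)⁻¹ Y := fun i => by
      rw [G.Γ.scl_scl, show (G.Γ.scl ((Y.1 i)⁻¹ ^ Q * T true) Y).1 i = _ * Y.1 i from rfl, mul_inv,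
        mul_right_comm, inv_mul_cancel₀ (mul_ne_zero (c0 i) (T0 _)), one_mul]
    have gc : ∀ i, G.GenC j (β.comp α) (G.Γ.scl ((Y.1 i)⁻¹ ^ Q * T true) Y) (-T false) := fun i => by
      refine ya.genC hy β _ _ gN (mul_ne_zero (c0 i) (T0 _)) (top_le_iff.1 (hT.top.ge.trans
        (IntermediateField.adjoin_le_iff.2 ?_)))
      have s1 := IntermediateField.subset_adjoin K
        (Set.range β ∪ Set.range ![(Y.1 i)⁻¹ ^ Q * T true, -T false])
      rintro _ (h | ⟨_ | _, rfl⟩)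
      · exact s1 (.inl h)
      · exact neg_mem_iff.1 (s1 (.inr ⟨1, rfl⟩))
      · exact (mul_div_cancel_left₀ (T true) (c0 i) ▸ div_mem (s1 (.inr ⟨0, rfl⟩))
          (pow_mem (inv_mem (s1 (.inl ⟨y.1 i, rfl⟩))) Q) : T true ∈ _)
    choose R ix r1 r2 r3 r4 using fun E : Fx G Q ε => fx_rep E
    choose f ft f1 f2 f3 f4 f5 using fun E : Fx G Q ε => yp.pt (gc (ix E)) (cst L (R E))
      (cn_cst.2 (r1 E)) ((T false)⁻¹ • (vz (G.Γ.scl ((Y.1 (ix E))⁻¹ ^ Q * T true) Y) -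
        vz (cst N (R E)))) (by rw [map_cst, inv_neg, neg_smul, ← smul_neg, neg_sub])
    have on : ∀ O : Dv N (j + (2 * dd + 1)), O.1.ord (-T false) = O.1.ord (T false) := fun O => by
      rw [← neg_one_mul, Pl.ord_mul O.2.1 (by simp) (T0 _),
        Pl.ord_eq_zero_of_mem (by simp) (neg_mem (one_mem _)) (by simp), zero_add]
    have tt : ∀ E, (Rel.ofPl (f E).1).r (T false) 0 := fun E =>
      (Pl.ord_pos_iff (f E).2.1 (T0 _)).1 (by rw [← on, f1]; exact one_pos)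
    have l1 : ∀ E, (xz dd).lift (Rel.ofPl (f E).1).r (G.Γ.scl ((Y.1 (ix E))⁻¹ ^ Q * T true) Y)
        (cst _ (R E)) := fun E => vz_rel.2 fun μ => by
      have := (Rel.ofPl (f E).1).add (vz_rel.1 (Cd.lift_const (c := xz dd) _ (R E)) μ)
        ((Rel.ofPl (f E).1).mul (tt E) ⟨f2 E μ, rfl⟩)
      rwa [zero_mul, add_zero, Pi.smul_apply, smul_eq_mul, mul_inv_cancel_left₀ (T0 _),
        Pi.sub_apply, add_sub_cancel] at this
    have n1 : ∀ (L' : Fld K) E, (cst L' (R E)).1 (ix E) = 1 := fun L' E => by simp [r2]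
    have l2 : ∀ E, (xz dd).lift (Rel.ofPl (f E).1).r (G.Γ.scl (Y.1 (ix E))⁻¹ Y) (cst _ (R E)) :=
      fun E => by
        have := G.Γ.lift_scl ((Rel.ofPl _).inv (n1 _ E ▸ (l1 E).1 (ix E)) one_ne_zero)
          (inv_ne_zero one_ne_zero) (l1 E)
        rwa [ec, inv_one, G.Γ.scl_one] at this
    have nz : ∀ (L' : Fld K) E, G.Γ.nz (cst L' (R E)) := fun L' E =>
      ⟨.inl (ix E), trivial, (n1 L' E).trans_ne one_ne_zero⟩
    obtain ⟨g, hg⟩ : ∃ g, g = fun O : Dv N (j + (2 * dd + 1)) => if 0 < O.1.ord (T false) then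
      (O.1.ord (T false) : ℂ) * θ.r O.1 ((gg Q ε N Y, w'),
        (T false)⁻¹ • (vz (G.Γ.scl (T true) Y) - vz (gg Q ε N Y))) else 0 := ⟨_, rfl⟩
    have t1 : ∀ E, g (f E) = φ.a L w := fun E => by
      have k := (loc h1 hQ (r2 E) (r3 E) (T0 _) (l1 E) rfl rfl (.inl (f2 E))).2
      have k1 := gg_rel (Q := Q) (ε := ε) (l2 E)
      rw [ec] at k
      rw [gg_cst, r3, ← map_cst (ft E).hom] at k1
      rw [hg]
      dsimp only
      rw [← on, f1, if_pos one_pos, Int.cast_one, one_mul, wb.r_eq θ.toPre (c0 (ix E)) (x' := ((_, _), _))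
        (by rw [scl_pt]; exact ⟨⟨k1, ew ▸ Cd.lift_triv (ft E) w⟩, k⟩)
        ⟨.inl (.inl (.inl (ix E))), trivial,
          by exact (map_ne_zero (ft E).hom).2 ((n1 L E).trans_ne one_ne_zero)⟩]
      exact yt.val hθ w hy.gL ((f E).2.good gN) (f3 E) (cn_cst.2 (r1 E)) hw
        (by rw [Nat.cast_one]; exact f4 E)
    have inj : Function.Injective f := fun E E' e => by
      have k : ∀ E, (G.Γ.amb K).red (f E).1 (G.Γ.pt Y) =
          (G.Γ.amb K).map (L := .base K) (Algebra.ofId K (f E).1.res) E.1 := fun E =>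
        (G.Γ.red_pt (inv_ne_zero (Y0 _)) (l2 E) (nz _ E)).trans (by rw [r4]; rfl)
      have k1 := k E
      rw [e, k E'] at k1
      exact Subtype.ext ((G.Γ.amb K).inj _ k1).symm
    have t2 : ∀ O, g O ≠ 0 → O ∈ Set.range f := fun O h0 => by
      rw [hg] at h0
      dsimp only at h0
      split_ifs at h0 with ho
      swap
      · exact absurd rfl h0
      have h2 := right_ne_zero_of_mul h0
      have ht : (Rel.ofPl O.1).r (T false) 0 := (Pl.ord_pos_iff O.2.1 (T0 _)).1 ho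
      obtain ⟨ι, x, p1, -, p2, p3, -⟩ := wb.r_ne θ.toPre h2
      obtain ⟨l, rfl⟩ : ∃ l, ι = .inl (.inl (.inl l)) := by
        rcases ι with ((l | _) | _) | _
        exacts [⟨l, rfl⟩, p1.elim, p1.elim, p1.elim]
      rw [show (((xz dd).prod d).prod (.vec _)).co ((gg Q ε N Y, w'), _) (.inl (.inl (.inl l))) = _
        from gg_one Y l, ← inv_pow] at p2
      have p4 := p2
      rw [scl_pt] at p4
      obtain ⟨q1, -, q2, q3⟩ := live h1 (Y0 l) (T0 _) ht p4.1.1 p4.2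
      obtain ⟨R₁, E, q4, q5⟩ := fx_base h1 p3.1.1.1 q2
      have q6 : G.Γ.pt x.1.1 = G.Γ.pt (cst O.1.res (R E)) := by
        rw [q4]
        exact congrArg ((G.Γ.amb K).map (L := .base K) (Algebra.ofId K O.1.res))
          (q5.symm.trans (r4 E))
      have q7 : x.1.1.1 (ix E) ≠ 0 := by
        obtain ⟨a, -, ha⟩ := (G.Γ.pt_eq ⟨.inl l, trivial, q3.trans_ne one_ne_zero⟩).1 q6
        exact right_ne_zero_of_mul_eq_one (a := a) ((ha ▸ n1 _ E : (G.Γ.scl a x.1.1).1 (ix E) = 1))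
      have q8 := (Rel.ofPl O.1).inv (q1.1 (ix E)) q7
      have p5 := ((G.Γ1 d).prod (.vec G.ωK)).lift_scl (Rel.pow q8 Q)
        (pow_ne_zero _ (inv_ne_zero q7)) p2
      rw [Wt.scl_scl, ← mul_pow, show ((G.Γ.scl (Y.1 l)⁻¹ Y).1 (ix E)) = _ * Y.1 (ix E) from rfl,
        mul_inv, mul_right_comm, inv_mul_cancel₀ (inv_ne_zero (Y0 l)), one_mul] at p5
      generalize Wt.scl _ ((x.1.1.1 (ix E))⁻¹ ^ Q) x = x' at p5
      have p6 := p5
      rw [scl_pt] at p6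
      obtain ⟨s1, s2, -, s3⟩ := live h1 (Y0 _) (T0 _) ht p6.1.1 p6.2
      have s4 : x'.1.1 = cst _ (R E) := eq_of_pt (G := G) s3 (n1 _ E)
        ((G.Γ.red_pt (inv_ne_zero (Y0 _)) s1 ⟨.inl _, trivial, s3.trans_ne one_ne_zero⟩).symm.trans
          ((G.Γ.red_pt (inv_ne_zero (Y0 _)) q1
            ⟨.inl _, trivial, q3.trans_ne one_ne_zero⟩).trans q6))
      rw [wb.r_eq θ.toPre (c0 _) p5
        ⟨.inl (.inl (.inl (ix E))), trivial, s3.trans_ne one_ne_zero⟩] at h2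
      obtain ⟨⟨y₁, w₁⟩, v₁⟩ := x'
      obtain rfl : y₁ = _ := s4
      have lw : d.lift (Rel.ofPl O.1).r (d.map (β.comp α) w) w₁ := ew ▸ p6.1.2
      have tr : Pl.Triv (β.comp α) O.1 := by
        by_contra hn
        have ov := Pl.over_comap (β.comp α) O.1
        have k1 := (Pl.comap (β.comp α) O.1).tr_res_lt (fun e => hn fun x =>
          (ov x).1 (e ▸ ValuationSubring.mem_top _)) hy.gL.2.le
        obtain ⟨m, hm⟩ := Cardinal.lt_aleph0.1 (k1.trans Cardinal.natCast_lt_aleph0)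
        have k2 := Cd.lift_eq lw (Cd.lift_over ov ((Cd.lift_pl _).2
          ⟨(Cd.all_over ov).1 ((Cd.lift_pl _).1 lw).1, rfl⟩)) rfl
        refine h2 (yt.low (m := m) θ v₁ ?_ (by exact_mod_cast hm ▸ k1))
        rw [k2, ← map_cst ov.resHom]
        exact (FA3.dm_map (c := (xz dd).prod d) ov.resHom (x := (_, _))).2 (FA3.dm_tr _ hm.le)
      obtain ⟨k1, k2⟩ := loc h1 hQ (r2 E) (r3 E) (T0 _) s2 rfl rfl
        (.inr (by rw [ec]; exact fun μ => (p6.2 μ).1))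
      rw [ec] at k2
      by_contra hn
      refine h2 (wb.low θ.toPre ⟨_, ?_, f5 E O.1 tr O.2.1 (fun e => hn ⟨E, Subtype.ext e.symm⟩)
        (neg_mem ht.1) (by rw [O.1.rd_neg ht.1, ht.2, neg_zero]) k1⟩ (by omega))
      rw [Cd.lift_eq lw (Cd.lift_triv tr w) rfl, ← map_cst tr.hom]
      refine ⟨(Cd.all_iff ((xz dd).prod d) _ (Cd.map _ tr.hom (cst L (R E), w))).2 fun i => ?_,
        fun μ => ?_⟩
      · rw [Cd.co_map]
        exact IntermediateField.subset_adjoin K _ (.inl ⟨_, rfl⟩)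
      · exact IntermediateField.subset_adjoin K _ (.inr ⟨μ, Rel.eq (k2 μ) (p6.2 μ) rfl⟩)
    have H := (hΨ N _ _ w' _ gN cg ((W.map_iff β _).2 ((W.map_iff α w).2 hw))
      (cY.2.scl (T true)) (T0 false)).2
    unfold GD.jp
    rw [← gg_map, ← H, ← hg, ← Set.indicator_eq_self.2 t2, ← finsum_mem_def,
      finsum_mem_range inj]
    simp only [t1]
    rw [YLa.fin_sum, GD.fx]

end Pool.Agent.Lib.MP_557161_ag.HG.HN
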