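import Pool.Agent.Lib.MP_557161_ag.HN.StV
import Pool.Agent.Lib.MP_557161_ag.HG.YP

/-!
A generic point of a hypersurface near a smooth rational point.
-/

namespace Pool.Agent.Lib.MP_557161_ag.HG.HN

open Pool.Agent.Lib.MP_557161_ag.DL MvPolynomial

variable {K : Type} [Field K] {L M M₀ : Fld K} {α : L →ₐ[K] M} {σ : Type}

lemma YP_le {κ : Type} {T : κ → M} {F : IntermediateField K M} (h : ∀ a, α a ∈ F)
    (h' : ∀ i, T i ∈ F) : gen α T ≤ F := by
  refine IntermediateField.adjoin_le_iff.2 ?_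
  rintro _ (⟨a, rfl⟩ | ⟨i, rfl⟩)
  exacts [h a, h' i]

lemma YP_tr {F : IntermediateField K M} (h : F ≤ α.fieldRange) : (M.sub F).tr ≤ L.tr :=
  tr_le (L := M.sub F) (α.equivFieldRange.symm.toAlgHom.comp (IntermediateField.inclusion h))

lemma YP_gen {Y : σ → M} (top : gen α Y = ⊤) {β : M₀ →ₐ[K] M} {Θ : M} (h : ∀ c, ∃ x, β x = α c)
    (h' : ∀ s, ∃ x, β x = Y s ∨ β x + Θ = Y s) : Gen β Θ := by
  let _ := ValA.alg β
  have _ := ValA.tower β
  rw [ValA.gen_iff, ← IntermediateField.restrictScalars_eq_top_iff (K := K), eq_top_iff, ← top]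
  have h1 : ∀ c, β c ∈ IntermediateField.adjoin M₀ {Θ} :=
    (IntermediateField.adjoin M₀ {Θ}).algebraMap_mem
  refine YP_le (fun c => ?_) fun s => ?_
  · obtain ⟨x, e⟩ := h c
    exact e ▸ h1 x
  · obtain ⟨x, e | e⟩ := h' s
    exacts [e ▸ h1 x, e ▸ add_mem (h1 x) (IntermediateField.mem_adjoin_simple_self M₀ _)]

variable [Fintype σ] [DecidableEq σ] {H : MvPolynomial σ K}

lemma YP_tan {O : Pl M} (h : Pl.Triv α O) {r : σ → L} (hr : aeval r H = 0) {w : σ → M} {ρ : M}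
    (h0 : ρ ≠ 0) (h1 : ρ ∈ O.O) (h2 : O.rd ρ = 0) (hw : ∀ s, w s ∈ O.O)
    (e : aeval (fun s => α (r s) + ρ * w s) H = 0) :
    ∑ s, h.hom (aeval r (pderiv s H)) * O.rd (w s) = 0 := by
  obtain ⟨t, ht, e'⟩ := YP_taylor O.O O.const (fun s => h (r s)) hw h1 H
  have e1 : ∀ P, aeval (fun s => α (r s)) P = α (aeval r P) := aeval_mapV α r
  simp only [e, e1, hr, map_zero, zero_add] at e'
  refine Rel.eq (R := .ofPl O) (Rel.sum _ fun s _ =>
    (Rel.ofPl O).mul ⟨h _, (h.hom_apply _).symm⟩ ⟨hw s, rfl⟩) (b := -(ρ * t))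
    (by simpa using Rel.neg ((Rel.ofPl O).mul ⟨h1, h2⟩ ⟨ht, rfl⟩)) (mul_left_cancel₀ h0 ?_)
  linear_combination -e'

lemma YP_poly {Y : σ → M} (hY : aeval Y H = 0) (top : gen α Y = ⊤)
    (ker : ∀ f : MvPolynomial σ L, aevalTower α Y f = 0 → MvPolynomial.map (algebraMap K L) H ∣ f)
    {r : σ → L} (hr : aeval r H = 0) {μ : σ} (hn : aeval r (pderiv μ H) ≠ 0) {ρ : L} (hρ : ρ ≠ 0)
    {v : σ → M} (hv : ∀ s, Y s = α (r s) + α ρ * v s) {α₀ : L →ₐ[K] M₀} {β : M₀ →ₐ[K] M}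
    (e : β.comp α₀ = α) {U : {ν // ν ≠ μ} → M₀} (hU : ∀ ν, β (U ν) = v ν) :
    ∃ (x : σ → M₀) (h : Polynomial M₀),
      (∀ s, x s = α₀ (r s) ∨ ∃ ν, x s = α₀ (r s) + α₀ ρ * U ν) ∧ Gen β (α ρ * v μ) ∧
      h.coeff 0 = aeval x H ∧ h.coeff 1 = aeval x (pderiv μ H) ∧ h.coeff 1 ≠ 0 ∧
      h.eval₂ β.toRingHom (α ρ * v μ) = 0 ∧
      (∀ O : Pl M₀, (∀ s, x s ∈ O.O) → ∀ n, h.coeff n ∈ O.O) ∧
      (gen α₀ U = ⊤ → ∀ g : Polynomial M₀, g.eval₂ β.toRingHom (α ρ * v μ) = 0 → h ∣ g) := by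
  have eα : ∀ c, β (α₀ c) = α c := fun c => by rw [← e]; rfl
  set Θ := α ρ * v μ with hΘ
  let x : σ → M₀ := fun s => α₀ (r s) + if h : s = μ then 0 else α₀ ρ * U ⟨s, h⟩
  have hμ : x μ = α₀ (r μ) := by simp [x]
  have hν : ∀ ν : {ν // ν ≠ μ}, x ν = α₀ (r ν) + α₀ ρ * U ν := fun ν => by simp [x, ν.2]
  have hx : ∀ s, β (x s) + (if s = μ then Θ else 0) = Y s := fun s => by
    rw [hv]
    split_ifs with h
    · rw [h, hμ, eα]
    · rw [hν ⟨s, h⟩, map_add, map_mul, eα, eα, hU, add_zero]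
  let P : σ → Polynomial M₀ := fun s => Polynomial.C (x s) + Polynomial.X * if s = μ then 1 else 0
  let ψ : Polynomial M₀ →ₐ[K] M := Polynomial.aevalTower β Θ
  have hψ : ∀ s, ψ (P s) = Y s := fun s => by
    rw [← hx]
    simp only [ψ, P, map_add, map_mul, Polynomial.aevalTower_C, Polynomial.aevalTower_X]
    split_ifs <;> simp
  obtain ⟨t, -, ht⟩ := YP_taylor (⊤ : Subring (Polynomial M₀)) (fun _ => trivial)
    (x := fun s => Polynomial.C (x s)) (v := fun s => if s = μ then 1 else 0) (ρ := Polynomial.X)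
    (fun _ => trivial) (fun _ => trivial) trivial H
  have eC : ∀ f, aeval (fun s => Polynomial.C (x s)) f = Polynomial.C (aeval x f) := fun f =>
    (comp_aeval_apply _ (Polynomial.CAlgHom : M₀ →ₐ[K] _) f).symm
  simp only [eC, mul_ite, mul_one, mul_zero, Finset.sum_ite_eq', Finset.mem_univ, if_true] at ht
  have c1 : (aeval P H).coeff 1 = aeval x (pderiv μ H) := by
    simp only [P, mul_ite, mul_one, mul_zero]
    rw [ht]
    generalize aeval x H = a, aeval x (pderiv μ H) = b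
    simp [pow_two, mul_assoc, Polynomial.coeff_X_mul, Polynomial.coeff_C]
  refine ⟨x, aeval P H, fun s => ?_, YP_gen top (fun c => ⟨_, eα c⟩) fun s => ⟨x s, ?_⟩, ?_, c1,
    c1 ▸ fun h0 => hn ?_, ?_, fun O hO => ?_, fun hg g h0 => ?_⟩
  · by_cases h : s = μ
    exacts [.inl (h ▸ hμ), .inr ⟨_, hν ⟨s, h⟩⟩]
  · rw [← hx]
    split_ifs
    exacts [.inr rfl, .inl (add_zero _).symm]
  · simp only [P, mul_ite, mul_one, mul_zero]
    rw [ht]
    generalize aeval x H = a, aeval x (pderiv μ H) = b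
    simp [pow_two, mul_assoc]
  · have := map_dvd (aevalTower (AlgHom.id K L) r) (ker
      (aeval (fun s => if s = μ then C (r s) else X s) (pderiv μ H)) (by
        rw [comp_aeval_apply, ← map_zero β, ← h0, comp_aeval_apply]
        congr 2
        funext s
        split_ifs with h
        · rw [h, hμ, eα, aevalTower_C]
        · rw [aevalTower_X, ← hx, if_neg h, add_zero]))
    rw [YP_map, hr, zero_dvd_iff, comp_aeval_apply] at this
    refine Eq.trans ?_ this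
    congr 2
    funext s
    split_ifs <;> simp
  · refine (comp_aeval_apply _ ψ _).trans ?_
    rw [funext hψ, hY]
  · have hC : ∀ c ∈ O.O, Polynomial.C c ∈ Polynomial.lifts O.O.subtype := fun c h =>
      Polynomial.C_mem_lifts O.O.subtype ⟨c, h⟩
    have : aeval P H ∈ Polynomial.lifts O.O.subtype :=
      eval₂_mem (f := algebraMap K _) (v := P) (p := H) (fun _ _ => hC _ (O.const _))
        fun s => add_mem (hC _ (hO s))
        (mul_mem (Polynomial.X_mem_lifts _) (by split_ifs; exacts [one_mem _, zero_mem _]))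
    intro n
    obtain ⟨c, hc⟩ := (Polynomial.lifts_iff_coeff_lifts _).1 this n
    exact hc ▸ c.2
  · let ι : L →ₐ[K] Polynomial M₀ := Polynomial.CAlgHom.comp α₀
    let Φ := aevalTower ι P
    have a1 : ∀ c, Polynomial.C (α₀ c) ∈ Φ.range := fun c => ⟨C c, aevalTower_C _ _ _⟩
    have a2 : ∀ s, P s - Polynomial.C (α₀ (r s)) ∈ Φ.range := fun s =>
      sub_mem ⟨X s, aevalTower_X _ _ _⟩ (a1 _)
    have a3 : Algebra.adjoin K (Set.range α₀ ∪ Set.range U) ≤ Φ.range.comap Polynomial.CAlgHom := by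
      refine Algebra.adjoin_le (Set.union_subset ?_ ?_)
      · rintro _ ⟨c, rfl⟩
        exact a1 c
      · rintro _ ⟨ν, rfl⟩
        have := mul_mem (a1 ρ⁻¹) (a2 ν)
        simp only [P, hν, if_neg ν.2, mul_zero, add_zero, map_add, add_sub_cancel_left] at this
        rwa [← map_mul, ← mul_assoc, ← map_mul, inv_mul_cancel₀ hρ, map_one, one_mul] at this
    have a4 : ∀ g : Polynomial M₀, ∃ c, c ≠ 0 ∧ Polynomial.C c ∈ Φ.range ∧
        Polynomial.C c * g ∈ Φ.range := fun g => by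
      induction g using Polynomial.induction_on with
      | C a =>
        obtain ⟨r, h1, s, h2, rfl⟩ := IntermediateField.mem_adjoin_iff_div.1
          (show a ∈ gen α₀ U from hg ▸ IntermediateField.mem_top)
        by_cases h : s = 0
        · exact ⟨1, one_ne_zero, by simp, by simp [h]⟩
        · exact ⟨s, h, a3 h2, by rw [← map_mul, mul_div_cancel₀ _ h]; exact a3 h1⟩
      | add f g hf hg =>
        obtain ⟨c, h1, h2, h3⟩ := hf
        obtain ⟨c', h4, h5, h6⟩ := hg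
        refine ⟨c * c', mul_ne_zero h1 h4, map_mul Polynomial.C c c' ▸ mul_mem h2 h5, ?_⟩
        rw [map_mul, mul_add, mul_right_comm, mul_assoc _ _ g]
        exact add_mem (mul_mem h3 h5) (mul_mem h2 h6)
      | monomial n a hf =>
        obtain ⟨c, h1, h2, h3⟩ := hf
        refine ⟨c, h1, h2, ?_⟩
        rw [pow_succ, ← mul_assoc, ← mul_assoc, mul_assoc _ _ (_ ^ n)]
        exact mul_mem h3 (by simpa [P, hμ] using a2 μ)
    obtain ⟨c, h1, -, f, h2⟩ := a4 g
    have h3 : ψ.comp Φ = aevalTower α Y := algHom_ext' (AlgHom.ext fun c => by simp [ψ, Φ, ι, eα])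
      fun s => by simp [Φ, hψ]
    have := map_dvd Φ (ker f (by
      rw [← h3, AlgHom.comp_apply, show Φ f = _ from h2, map_mul, show ψ g = 0 from h0, mul_zero]))
    rwa [show Φ f = _ from h2, (Polynomial.isUnit_C.2 h1.isUnit).dvd_mul_left, YP_map] at this

end Pool.Agent.Lib.MP_557161_ag.HG.HN
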