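import Pool.Agent.Lib.MP_557161_ag.HN.StV
import Pool.Agent.Lib.MP_557161_ag.DL.PS

/-!
Functionals on the square of the double cover that vanish on exterior products are antisymmetric
and live over the torus.
-/

namespace Pool.Agent.Lib.MP_557161_ag.HG.HN

open Pool.Agent.Lib.MP_557161_ag.DL MvPolynomial Submodule

variable {K : Type} [Field K] {dd : ℕ}

namespace YQa

lemma ck_lines [Base K] : CK (Lines K (Vr dd)) := by
  obtain ⟨p, hp, hc⟩ := Base.char (K := K)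
  have := Fact.mk hp
  let := ZMod.algebra K p
  refine (ck_proj (K := K) (0 : Matrix (Vr dd) (Vr dd) (ZMod p)) ⊤).congr fun L ℓ =>
    ⟨fun h => exists_gen_line h.1, ?_⟩
  rintro ⟨x, hx, rfl⟩
  exact (mem_ps_span hx).2 ⟨by rw [DL.ext, smap_top]; trivial, fun _ h => absurd h (Nat.not_lt_zero _)⟩

lemma van_lines [Base K] {B : Amb K} (Z : Sp B) : DL.Van (Lines K (Vr dd)) Z :=
  CKL.van_image (Y' := (Lines K (Vr dd)).prod (Sp.point K)) ⟨fun y => y.1, fun _ h => h.1,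
    fun _ _ _ => rfl, fun _ _ _ _ _ => rfl⟩ (fun _ _ _ _ h => ⟨h, trivial⟩)
    (fun _ _ y hy => ⟨(y, ()), ⟨hy, trivial⟩, rfl⟩) (ck_lines _ _ _ _ (van_point Z))

variable {G : GD K dd}

lemma cn_ngz {L : Fld K} {y : (xz dd).X L} (h : G.Cn L y) : G.Cn L (ngz L y) :=
  ⟨h.1, (neg_sq y.2).trans h.2⟩

lemma fib {L : Fld K} {y y' : (xz dd).X L} (h : G.Cn L y) (h' : G.Cn L y')
    (e : span L {y.1} = span L {y'.1}) :
    G.Γ.pt y' = G.Γ.pt y ∨ G.Γ.pt y' = G.Γ.pt (ngz L y) := by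
  obtain ⟨a, ha⟩ := mem_span_singleton.1 (e.ge (mem_span_singleton_self y'.1))
  have a0 : a ≠ 0 := fun e' => h'.1 (by rw [← ha, e', zero_smul])
  have h1 : y'.2 ^ 2 = (a ^ G.e * y.2) ^ 2 := h'.2.trans (by rw [← ha]; exact (h.2.scl a).symm)
  rcases sq_eq_sq_iff_eq_or_eq_neg.1 h1 with h2 | h2
  · exact Or.inl (by rw [← G.Γ.pt_scl a0 y]; exact congrArg _ (Prod.ext ha.symm h2))
  · exact Or.inr (by
      rw [← G.Γ.pt_scl a0 (ngz L y)]
      exact congrArg _ (Prod.ext ha.symm (h2.trans (mul_neg _ _).symm)))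

lemma hom_x (i : Vr dd) : Hom G.CC 1 fun _ y => y.1 i :=
  ⟨fun _ _ _ _ _ _ _ e => e.1 i, fun _ a y _ _ => by rw [zpow_one]; rfl⟩

/-- Exchange of the two factors. -/
def swp {A : Amb K} (P : Sp A) : Mor (P.prod P) (P.prod P) :=
  ⟨fun y => y.swap, fun _ h => ⟨h.2, h.1⟩, fun _ _ _ => rfl, fun _ _ _ _ _ => rfl⟩

lemma swp_pro {A : Amb K} (P : Sp A) : (swp P).Proper := fun _ _ _ _ h => ⟨h.2, h.1⟩

lemma cmp [YA K dd] {B : Amb K} {Z : Sp B} (m : Mor G.CC.sp Z) : m.Proper := by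
  rintro M O _ - ⟨y, hy, rfl⟩ -
  obtain ⟨i, y', h0, h1, h2⟩ := YA.cmp O hy
  exact ⟨y', h1, (G.Γ.red_pt (inv_ne_zero h0) h2 (G.CC.nz _ y' h1)).symm⟩

lemma left [Base K] [WA K] [YA K dd] (G : GD K dd) {j : ℕ} (φ : Fn j (G.CC.sp.prod G.CC.sp))
    (hk : φ.Kills) (L : Fld K) (y : (xz dd).X L) (E : (G.Γ.amb K).pt L) (hy : G.Cn L y) :
    φ.v L (G.Γ.pt (ngz L y), E) = -φ.v L (G.Γ.pt y, E) := by
  by_cases hE : G.CC.sp.mem E
  swap
  · rw [not_not.1 fun e => hE (φ.supp L (G.Γ.pt (ngz L y), E) e).2.2,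
      not_not.1 fun e => hE (φ.supp L (G.Γ.pt y, E) e).2.2, neg_zero]
  obtain ⟨s, hs, -⟩ := WA.mor (S := G.CC) (T := G.CC) (f := ngz)
    ⟨⟨fun _ _ _ _ _ _ _ e => ⟨e.1, Rel.neg e.2⟩, fun _ _ h => cn_ngz h⟩,
      fun _ _ _ _ _ => Prod.ext rfl (mul_neg _ _).symm⟩
  obtain ⟨π, hπ⟩ := WA.line G.CC 1 (fun _ y => y.1) hom_x fun _ _ h => h.1
  have sp : s.Proper := cmp s
  have πp : π.Proper := cmp π
  have πs : π.Surj := by
    rintro L _ _ ⟨x, hx, rfl⟩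
    obtain ⟨z, hz⟩ := IsAlgClosed.exists_pow_nat_eq (aeval x G.F : L) two_pos
    exact ⟨G.Γ.pt (x, z), ⟨(x, z), ⟨hx, hz⟩, rfl⟩, hπ L (x, z) ⟨hx, hz⟩⟩
  obtain ⟨ψ, hψ⟩ := Fn.exists_sum Finset.univ fun b : Bool =>
    if b then φ.pull (s.prod G.CC.sp) (sp.prod G.CC.sp) else φ
  simp only [Fintype.sum_bool, if_true, Bool.false_eq_true, if_false] at hψ
  have e1 : ∀ (L : Fld K) (y : (xz dd).X L) (E : (G.Γ.amb K).pt L), G.Cn L y → G.CC.sp.mem E →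
      ψ.v L (G.Γ.pt y, E) = φ.v L (G.Γ.pt (ngz L y), E) + φ.v L (G.Γ.pt y, E) :=
    fun L y E h h' => by
      rw [← hs L y h]
      exact (hψ L _).trans (congrArg (· + _) (Fn.pull_of_mem _ _ _ (by exact ⟨⟨y, h, rfl⟩, h'⟩)))
  refine eq_neg_of_add_eq_zero_left ((e1 L y E hy hE).symm.trans ?_)
  refine CKL.van_descent πp πs (van_lines G.CC.sp) ψ (fun L L₁ L₂ ι₁ ι₂ y z hj => ?_) ?_ L _
  · exact (hψ L _).trans ((congrArg₂ (· + ·) (hk.pull s sp L L₁ L₂ ι₁ ι₂ y z hj)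
      (hk L L₁ L₂ ι₁ ι₂ y z hj)).trans (add_zero 0))
  · rintro L _ _ z ⟨y, h, rfl⟩ ⟨y', h', rfl⟩ hz e
    rw [hπ L y h, hπ L y' h'] at e
    rcases fib h h' e with e' | e'
    · rw [e']
    · rw [e', e1 L y z h hz, e1 L _ z (cn_ngz h) hz, add_comm]
      exact congrArg (fun u => φ.v L (G.Γ.pt u, z) + _) (Prod.ext rfl (neg_neg _).symm)

/-- The action of the multiplicative group over a coordinate hyperplane. -/
def act (c : Vr dd → ℤ) {L : Type} [Field L] (t : L) (y : (xz dd).X L) : (xz dd).X L :=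
  (fun l => t ^ (2 * c l) * y.1 l, t * y.2)

/-- An antisymmetric functional vanishes over the coordinate hyperplanes. -/
lemma zero [X0 dd] [WA K] [WN K] {B : Amb K} {Z : Sp B} {j : ℕ} (φ : Fe j (G.CC.sp.prod Z))
    (h : ∀ (L : Fld K) (y : (xz dd).X L) (E : B.pt L), G.Cn L y →
      φ.v L (G.Γ.pt (ngz L y), E) = -φ.v L (G.Γ.pt y, E)) {L : Fld K} {y : (xz dd).X L}
    {E : B.pt L} (hy : G.Cn L y) (i : Vr dd) (h0 : y.1 i = 0) : φ.v L (G.Γ.pt y, E) = 0 := by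
  by_contra hne
  have hE : Z.mem E := (φ.supp L _ hne).2.2
  obtain ⟨c, hc⟩ := X0.bd G i
  obtain ⟨m, hm, hp⟩ := WA.mor (S := G.CC.zer (hom_x i)) (T := G.CC) (f := fun _ y => y)
    ⟨⟨Reg.id _, fun _ _ h => h.1⟩, fun _ _ _ _ _ => rfl⟩
  have mp : m.Proper := hp fun _ _ _ z _ hx hz e => ⟨z, ⟨hz, Rel.eq_zero (e.1 i) hx.2⟩, e⟩
  have am : ∀ (L : Fld K) (t : L) (x : (xz dd).X L), t ≠ 0 → (G.CC.zer (hom_x i)).mem L x →
      (G.CC.zer (hom_x i)).mem L (act c t x) := fun L t x ht hx =>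
    ⟨⟨fun e => hx.1.1 (funext fun l => (mul_eq_zero.1 (congrFun e l)).resolve_left
      (zpow_ne_zero _ ht)), (mul_pow _ _ _).trans ((congrArg (t ^ 2 * ·) hx.1.2).trans
        (hc L t x.1 ht hx.2).symm)⟩, mul_eq_zero_of_right _ hx.2⟩
  have ar : ∀ {M L : Fld K} (R : Rel M L) {t : M} {t' : L} {x : (xz dd).X M} {x' : (xz dd).X L},
      R.r t t' → t' ≠ 0 → (xz dd).lift R.r x x' → (xz dd).lift R.r (act c t x) (act c t' x') :=
    fun R _ _ _ _ e h0 e' => ⟨fun l => R.mul (Rel.zpow e h0 _) (e'.1 l), R.mul e e'.2⟩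
  have ae : ∀ (L : Fld K) (t a : L) (x : (xz dd).X L),
      act c t (G.Γ.scl a x) = G.Γ.scl a (act c t x) := fun L t a x =>
    Prod.ext (funext fun l => mul_left_comm _ _ _) (mul_left_comm _ _ _)
  have key := (WN.conn (S := G.CC.zer (hom_x i)) Z (ASp.gm K) (fun _ q => act c q.1 q.2)
    (fun _ q => act c q.1⁻¹ q.2)
    ⟨fun _ _ R _ _ _ m' e => ar R e.1 m'.1 e.2, fun L q m => am L q.1 q.2 m.1 m.2⟩
    ⟨fun _ _ R _ _ _ m' e => ar R (R.inv e.1 m'.1) (inv_ne_zero m'.1) e.2,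
      fun L q m => am L q.1⁻¹ q.2 (inv_ne_zero m.1) m.2⟩
    (fun L t a x _ _ _ => ⟨ae L t a x, ae L t⁻¹ a x⟩)
    (fun L t x ht _ => Prod.ext (funext fun l => by
      show t⁻¹ ^ (2 * c l) * (t ^ (2 * c l) * x.1 l) = x.1 l
      rw [inv_zpow, inv_mul_cancel_left₀ (zpow_ne_zero _ ht)]) (inv_mul_cancel_left₀ ht _))
    (fun L T hT e => hT (e ▸ isAlgebraic_zero)) 1 (-1) one_ne_zero
    (neg_ne_zero.2 one_ne_zero)).1 (φ.pull (m.prod Z) (mp.prod Z)) L y E ⟨hy, h0⟩ hE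
  have e1 : act c (algebraMap K L 1) y = y := Prod.ext (funext fun l => by simp [act])
    (by simp [act])
  have e2 : act c (algebraMap K L (-1)) y = ngz L y :=
    Prod.ext (funext fun l => by simp [act, ngz, zpow_mul]) (by simp [act, ngz])
  have e3 : ∀ x, (G.CC.zer (hom_x i)).mem L x →
      (φ.pull (m.prod Z) (mp.prod Z)).v L (G.Γ.pt x, E) = φ.v L (G.Γ.pt x, E) := fun x hx => by
    rw [Fe.pull_of_mem _ _ _ (by exact ⟨⟨x, hx, rfl⟩, hE⟩)]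
    exact congrArg (fun u => φ.v L (u, E)) (hm L x hx)
  simp only [e1, e2] at key
  rw [e3 y ⟨hy, h0⟩, e3 _ ⟨cn_ngz hy, h0⟩, h L y E hy] at key
  exact hne (CharZero.eq_neg_self_iff.1 key)

variable (G) in
/-- The part over the torus. -/
noncomputable def TT : QS K G.Γ :=
  G.CC.sub (G.CC.S.opn (fun _ y => ∀ i, y.1 i ≠ 0) fun _ _ _ _ _ _ _ e h i =>
    Rel.ne_zero (e.1 i) (h i)) (fun _ _ m => m.1) fun L a x a0 m =>
      ⟨G.CC.inv L a x a0 m.1, fun i => mul_ne_zero a0 (m.2 i)⟩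

lemma uu_tt {L : Fld K} {y : (xz dd).X L} (h : G.UU.mem L y) : (TT G).mem L y :=
  ⟨⟨fun e => h.1.2 0 (congrFun e 0), h.2.2⟩, h.1.2⟩

lemma red_uu {M : Fld K} {O : Pl M} {y : (xz dd).X M} (h : G.UU.mem M y)
    (h' : (TT G).sp.mem ((G.Γ.amb K).red O (G.Γ.pt y))) :
    ∃ y', G.UU.mem O.res y' ∧ (xz dd).lift (Rel.ofPl O).r y y' := by
  obtain ⟨z, hz, e⟩ := h'
  obtain ⟨i, x, -, i0, l, -, e'⟩ := G.Γ.qred_nz e.symm ((TT G).nz _ z hz)
  have hx : (TT G).mem _ x := (TT G).mem_of_pt hz e'.symm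
  have h0 := inv_ne_zero i0
  generalize ((xz dd).co y i)⁻¹ = a at l h0
  have h1 : (Rel.ofPl O).r a (x.1 0) := by
    have h2 : (Rel.ofPl O).r (a * y.1 0) (x.1 0) := l.1 0
    rwa [show y.1 0 = 1 from h.2.1, mul_one] at h2
  have h3 := G.Γ.lift_scl ((Rel.ofPl O).inv h1 (hx.2 0)) (inv_ne_zero (hx.2 0)) l
  rw [G.Γ.scl_inv h0] at h3
  have h4 := (TT G).inv _ _ x (inv_ne_zero (hx.2 0)) hx
  exact ⟨_, ⟨⟨trivial, h4.2⟩, inv_mul_cancel₀ (hx.2 0), h4.1.2⟩, h3⟩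

end YQa

open YQa in
theorem YQ_thm [Base K] [X0 dd] [WA K] [WB K] [WN K] [YA K dd] : YQ K dd where
  anti G j φ hk L y E hy := by
    refine ⟨left G φ hk L y E hy, ?_⟩
    by_cases hE : G.CC.sp.mem E
    swap
    · rw [not_not.1 fun e => hE (φ.supp L (E, G.Γ.pt (ngz L y)) e).2.1,
        not_not.1 fun e => hE (φ.supp L (E, G.Γ.pt y) e).2.1, neg_zero]
    have tp : (swp G.CC.sp).Proper := swp_pro G.CC.sp
    have h := left G (φ.pull _ tp) (fun L L₁ L₂ ι₁ ι₂ y z hj => ?_) L y E hy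
    · exact (Fn.pull_of_mem _ tp φ (y := (_, E)) ⟨⟨_, cn_ngz hy, rfl⟩, hE⟩).symm.trans (h.trans
        (congrArg Neg.neg (Fn.pull_of_mem _ tp φ (y := (_, E)) ⟨⟨_, hy, rfl⟩, hE⟩)))
    · by_contra h'
      exact h' ((Fn.pull_of_mem _ tp φ (Fn.supp _ _ _ h').2).trans
        (hk L L₂ L₁ ι₂ ι₁ z y (add_comm L₁.tr _ ▸ hj)))
  aff G j φ h := by
    have tp : (swp G.CC.sp).Proper := swp_pro G.CC.sp
    have e1 : ∀ (L : Fld K) (E E' : (G.Γ.amb K).pt L),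
        (φ.pull _ tp).v L (E, E') = φ.v L (E', E) := fun L E E' => by
      by_contra h'
      by_cases m : (G.CC.sp.prod G.CC.sp).mem (L := L) (E, E')
      · exact h' (Fe.pull_of_mem _ tp φ m)
      · rw [not_not.1 fun e => m ((φ.pull _ tp).supp L _ e).2,
          not_not.1 fun e => m (φ.supp L (E', E) e).2.symm] at h'
        exact h' rfl
    obtain ⟨ψ, hψ⟩ := WB.res ((TT G).sp.prod (TT G).sp) φ
      (fun L y m => ⟨m.1.imp fun _ e => ⟨e.1.1, e.2⟩, m.2.imp fun _ e => ⟨e.1.1, e.2⟩⟩) (by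
        rintro L ⟨E, E'⟩ hne
        obtain ⟨⟨y, hy, e⟩, y', hy', e'⟩ := (φ.supp L _ hne).2
        obtain rfl : G.Γ.pt y = E := e
        obtain rfl : G.Γ.pt y' = E' := e'
        refine ⟨⟨y, ⟨hy, fun i h0 => hne ?_⟩, rfl⟩, y', ⟨hy', fun i h0 => hne ?_⟩, rfl⟩
        · exact zero φ (fun L y E m => (h L y E m).1) hy i h0
        · exact (e1 L _ _).symm.trans (zero (φ.pull _ tp) (fun L y E m => by
            rw [e1, e1]
            exact (h L y E m).2) hy' i h0))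
    choose m hm _ using fun b : Bool => WA.morA (S := TT G) (T := G.UU.pi Bool)
      (g := fun _ x => x b) ⟨fun _ _ _ _ _ _ _ e => e b, fun _ _ m => uu_tt (m b)⟩
    let f : Mor (G.UU.pi Bool).sp ((TT G).sp.prod (TT G).sp) :=
      ⟨fun y => ((m true).f y, (m false).f y), fun y hy => ⟨(m true).mem y hy, (m false).mem y hy⟩,
        fun ι y hy => Prod.ext ((m true).nat ι y hy) ((m false).nat ι y hy),
        fun O y hO hy hy' => Prod.ext ((m true).cont O y hO hy hy') ((m false).cont O y hO hy hy')⟩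
    have fp : f.Proper := by
      rintro M O _ - ⟨x, rfl, hx⟩ h'
      choose x' h1 h2 using fun b : Bool => red_uu (O := O) (hx b) (by
        rw [← hm b M x]
        cases b
        exacts [h'.2, h'.1])
      exact ⟨x', Cd.red_some (c := Cd.pi Bool (xz dd)) h2, h1⟩
    refine ⟨ψ.pull f fp, fun L x hx => ?_⟩
    refine (Fe.pull_of_mem f fp ψ ((G.UU.pi Bool).sp_some.2 hx)).trans ((hψ L _).trans ?_)
    rw [← hm true L x, ← hm false L x]

end Pool.Agent.Lib.MP_557161_ag.HG.HN
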