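import Pool.Agent.Lib.MP_557161_ag.HN.StV
import Pool.Agent.Lib.MP_557161_ag.HN.XG

/-!
The top Chern class of the logarithmic tangent bundle of the double cover.
-/

namespace Pool.Agent.Lib.MP_557161_ag.HG.HN

open Pool.Agent.Lib.MP_557161_ag.DL MvPolynomial

variable {K : Type} [Field K] {dd : ℕ}

namespace Zp

lemma deg_fer [TB K] [TD K] {u : ℕ} (hu : 0 < u) (k : ℕ) :
    Row.Deg (k := k) (fer K _ u) (∑ i ∈ Finset.range (k + 1), (-(u : ℤ)) ^ i) := by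
  induction k with
  | zero =>
    rw [show ∑ i ∈ Finset.range (0 + 1), (-(u : ℤ)) ^ i = 1 by simp]
    exact @TB.base K _ _ u
  | succ k ih =>
    have h : ∑ i ∈ Finset.range (k + 1 + 1), (-(u : ℤ)) ^ i =
        1 - u * ∑ i ∈ Finset.range (k + 1), (-(u : ℤ)) ^ i := by
      rw [Finset.sum_range_succ' _ (k + 1), Finset.mul_sum, pow_zero, add_comm, sub_eq_add_neg,
        ← Finset.sum_neg_distrib]
      exact congrArg _ (Finset.sum_congr rfl fun i _ => by ring)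
    rw [h]
    exact @TD.step K _ _ k u _ hu ih

/-- The gradient of the branch polynomial. -/
noncomputable def grad [X0 dd] (G : GD K dd) : Row K (Vr dd) G.u where
  f i := -pderiv i G.F
  hom i := (X0.pd G i).neg
  uni L x h := (X0.sm G L x h).imp fun i hi => by rw [map_neg]; exact neg_ne_zero.2 hi

/-- The reindexing of the coordinates. -/
def eo (σ : Type) : Option σ ≃ Unit ⊕ σ where
  toFun o := o.elim (Sum.inl ()) Sum.inr
  invFun := Sum.elim (fun _ => none) some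
  left_inv o := by cases o <;> rfl
  right_inv o := by cases o <;> rfl

variable {G : GD K dd} {d : Cd} {W : ASp K d} {j : ℕ}

lemma eqm : EqM (G.B1 W) (PW (Vr dd) W) fun _ b => (b.1.1, b.2) where
  mp := ⟨fun _ _ _ _ _ _ _ e => ⟨e.1.1, e.2⟩, fun _ _ h => ⟨⟨trivial, h.1.1⟩, h.2⟩⟩
  eqv _ _ _ _ _ := rfl

lemma pro [X0 dd] [YA K dd] : Pro (G.B1 W).S (PW (Vr dd) W).S fun _ b => (b.1.1, b.2) := by
  intro M O x z _ hx hz e
  have e2 : (Rel.ofPl O).r x.1.2 (O.rd x.1.2) := ⟨YA.int O hx.1.2 fun i => (e.1 i).1, rfl⟩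
  exact ⟨((z.1, O.rd x.1.2), z.2), ⟨⟨hz.1.2, Rel.eq (Rel.pow e2 2) (Rel.aeval e.1 _) hx.1.2⟩, hz.2⟩,
    ⟨e.1, e2⟩, e.2⟩

lemma down [X0 dd] [YA K dd] [TA K] [KN K] {φ : AF j W} {θ₀} (h : G.Th 0 φ θ₀) :
    ∃ θ : QF (j + (2 * dd + 1)) ((grad G).k0 W fun _ : Unit => (G.e : ℤ)).tot,
      PTh _ (2 * dd + 1) φ θ ∧ ∀ (L : Fld K) (y : (xz dd).X L) (w : d.X L) (s : L), G.Cn L y →
        W.mem L w → θ₀.q L ((y, w), zl s) = θ.q L ((y.1, w), Sum.elim (fun _ => s) 0) := by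
  have hc : Fintype.card (Unit ⊕ Vr dd) = 2 * dd + 1 + 1 := by simp [add_comm]
  obtain ⟨θ, hθ⟩ := TA.ex ((grad G).k0 W fun _ : Unit => (G.e : ℤ)) hc φ
  refine ⟨θ, hθ, fun L y w s hy hw => ?_⟩
  obtain ⟨φ₂, h2, hup⟩ := hθ
  obtain ⟨φ₁, h1, hup₀⟩ := h
  have h3 := KN.nat ((grad G).k0 W fun _ : Unit => (G.e : ℤ)) (G.kb W 0) hc eqm pro (eo _)
    (fun μ => by cases μ <;> rfl) (fun L b μ _ => by
      cases μ with
      | none => exact (by simp : 2 * ((0 : ℕ) : L) * b.1.2 = ((0 : ℕ) : L))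
      | some i => exact (map_neg (aeval b.1.1) (pderiv i G.F)).symm)
    θ θ₀ 1 hup hup₀ (fun L b hb => by
      rw [one_mul]; exact (h1 L b.1 b.2 hb.1).trans (h2 L b.1.1 b.2 hb.1.1).symm)
    L (y, w) (Sum.elim (fun _ => s) 0) ⟨hy, hw⟩
  rw [one_mul] at h3
  refine Eq.trans (congrArg (fun v => θ₀.q L ((y, w), v)) (funext fun μ => ?_)) h3
  cases μ <;> rfl

end Zp

theorem ZP_thm {K : Type} [Field K] [FW0 K] {dd : ℕ} [X0 dd] [XG K dd] [YA K dd] [KN K] [TA K]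
    [TB K] [TD K] : ZP K dd where
  val {G d W j φ θ₀} h {L M M₁ α y} hy w hw β₁ s hs := by
    obtain ⟨θ, hθ, hd⟩ := Zp.down h
    obtain ⟨-, -, hu, -, -, -, hn⟩ := X0.num G
    have hD : Row.Deg (k := 2 * dd) (Zp.grad G) G.n := by
      rw [hn]
      exact @TB.hty K _ _ _ _ (Zp.grad G) _ (Zp.deg_fer hu.pos (2 * dd))
    obtain ⟨M₀, α₀, β, x, hc, hx0, hx, hf, hdeg, -⟩ := XG.chart hy 0
    have hx' : ∀ i, β (x i) = y.1 i := fun i => by rw [hx, hy.mem.2.1, div_one]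
    have g0 : Good (j + 2 * dd) M₀ := Xg.card_ne (dd := dd) 0 ▸ hf.gM
    have hF := FA1.fr_free Unit g0
    obtain ⟨ρ, r1, r2, r3⟩ := FA1.lift hF hs β
    have r4 : ∀ a, ρ (frα M₀ Unit a) = β₁ (β a) := fun a => AlgHom.congr_fun r1 a
    have hF' : Free j ((frα M₀ Unit).comp α₀) (Sum.elim (frT M₀ Unit)
        fun i : {i : Vr dd // i ≠ 0} => frα M₀ Unit (x i.1)) := by
      refine FA1.of_gen (FA1.comp hf (by rw [Xg.card_ne]; exact hF))
        (by rw [Nat.card_sum, Nat.card_sum, add_comm]) ?_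
      rintro (i | i)
      exacts [Fa1.right_mem _ _ (Sum.inr i), Fa1.right_mem _ _ (Sum.inl i)]
    have h1 := hD W (fun _ : Unit => (G.e : ℤ)) (by simp [add_comm]) φ θ hθ L _ _
      (fun i => frα M₀ Unit (x i)) (frT M₀ Unit) w (by rw [hx0, map_one]) hF' hw
    have g1 : Good (j + (2 * dd + 1)) (fr M₀ Unit) := by simpa [add_assoc] using hF.gM
    have g2 : Good (j + (2 * dd + 1)) M₁ := by simpa [add_assoc] using hs.gM
    have h2 := θ.ext ρ (Wt.pt _ ((fun i => frα M₀ Unit (x i), d.map ((frα M₀ Unit).comp α₀) w),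
      Sum.elim (frT M₀ Unit) 0)) g1 g2
    rw [Wt.map_pt, r3 rfl, hdeg] at h2
    rw [hd M₁ _ _ s (((G.CC).S.map_iff β₁ y).2 (YA.uu hy.mem))
      ((W.map_iff β₁ _).2 ((W.map_iff α w).2 hw))]
    refine Eq.trans (congrArg (θ.q M₁) ?_) (h2.trans ?_)
    · refine Prod.ext (Prod.ext (funext fun i => ?_) ?_) (funext fun μ => ?_)
      · exact ((r4 _).trans (congrArg β₁ (hx' i))).symm
      · show d.map β₁ (d.map α w) = d.map ρ (d.map _ w)
        rw [d.map_map, d.map_map]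
        exact d.map_congr fun i => ((r4 _).trans (congrArg β₁ (AlgHom.congr_fun hc _))).symm
      · cases μ with
        | inl a => exact (r2 a).symm
        | inr a => exact (map_zero ρ).symm
    · rw [show θ.v _ _ = _ from h1]
      push_cast
      ring

end Pool.Agent.Lib.MP_557161_ag.HG.HN
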