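import Pool.Agent.Lib.MP_557161_ag.HN.StV

/-!
Kernels of rows on projective spaces: existence, free summands.
-/

namespace Pool.Agent.Lib.MP_557161_ag.HG.HN

open Pool.Agent.Lib.MP_557161_ag.DL MvPolynomial

variable {K : Type} [Field K] {d : Cd} {W : ASp K d}

namespace Ta

/-- The pull back from `W`. -/
lemma phi [WB K] (σ : Type) [Finite σ] {j : ℕ} (φ : AF j W) :
    ∃ φ₁ : QF j (PW σ W), ∀ L x w, x ≠ 0 → φ₁.q L (x, w) = φ.a L w := by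
  have hp : ProB (PW σ W) W fun _ b => b.2 := by
    intro M O x z _ m mz e
    obtain ⟨i, -, i0, hi⟩ := WB.prim (.proj σ) O (x := x.1)
      ((Function.ne_iff.1 m.1.2).elim fun i hi => ⟨i, trivial, hi⟩)
    replace i0 : x.1 i ≠ 0 := i0
    refine ⟨(x.1 i)⁻¹, (fun l => O.rd ((x.1 i)⁻¹ * x.1 l), z), inv_ne_zero i0,
      ⟨⟨trivial, Function.ne_iff.2 ⟨i, ?_⟩⟩, mz⟩, fun l => ⟨?_, rfl⟩, e⟩
    · show O.rd ((x.1 i)⁻¹ * x.1 i) ≠ 0
      rw [inv_mul_cancel₀ i0, O.rd_one]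
      exact one_ne_zero
    · show (x.1 i)⁻¹ * x.1 l ∈ O.O
      rw [inv_mul_eq_div]
      exact hi l trivial
  obtain ⟨φ₁, h⟩ := WB.pullB (S := PW σ W) ⟨fun _ _ _ _ _ _ _ e => e.2, fun _ _ m => m.2⟩
    (fun _ _ _ _ _ => rfl) hp φ
  refine ⟨φ₁, fun L x w hx => ?_⟩
  by_cases m : W.mem L w
  · exact h L (x, w) ⟨⟨trivial, hx⟩, m⟩
  · have h1 : φ₁.q L (x, w) = 0 := by
      by_contra h0
      exact m (WB.mem φ₁.toPre h0).2.2
    have h2 : φ.a L w = 0 := by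
      by_contra h0
      exact m (W.sp_some.1 (φ.supp _ _ h0).2)
    rw [h1, h2]

variable {σ : Type} [Fintype σ] {u : ℕ} (ρ : Row K σ u) {Φ : Type} [Fintype Φ] (ω : Φ → ℤ)

lemma mem_iff {L : Fld K} (b : ((Cd.vec σ).prod d).X L) (v : Φ ⊕ σ → L) :
    (ρ.k0 W ω).tot.mem L (b, v) ↔
      (PW σ W).mem L b ∧ ∑ i, aeval b.1 (ρ.f i) * v (Sum.inr i) = 0 := by
  have e : ∑ μ, (ρ.k0 W ω).n L b μ * v μ = ∑ i, aeval b.1 (ρ.f i) * v (Sum.inr i) := by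
    simp [Fintype.sum_sum_type, Row.kb]
  exact ⟨fun m => ⟨m.1.1, e.symm.trans m.2⟩, fun m => ⟨⟨m.1, trivial⟩, e.trans m.2⟩⟩

variable (ω' : ℤ)

/-- The new coordinate is split off. -/
def spl (L : Fld K) (x : (((Cd.vec σ).prod d).prod (.vec (Option Φ ⊕ σ))).X L) :
    ((((Cd.vec σ).prod d).prod (.vec (Φ ⊕ σ))).prod (.vec Unit)).X L :=
  ((x.1, fun ν => x.2 (Sum.map some id ν)), fun _ => x.2 (Sum.inl none))

lemma mem_spl {L : Fld K} (x : (((Cd.vec σ).prod d).prod (.vec (Option Φ ⊕ σ))).X L) :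
    (ρ.k0 W (Φ := Option Φ) fun s => s.elim ω' ω).tot.mem L x ↔
      (ρ.k0 W ω).tot.mem L (spl L x).1 :=
  (mem_iff ρ _ x.1 x.2).trans (mem_iff ρ ω x.1 fun ν => x.2 (Sum.map some id ν)).symm

lemma eqm : EqM (ρ.k0 W (Φ := Option Φ) fun s => s.elim ω' ω).tot
    ((ρ.k0 W ω).tot.pu (.vec fun _ : Unit => ω')) spl := by
  refine ⟨⟨fun _ _ _ _ _ _ _ e => ⟨⟨e.1, fun ν => e.2 _⟩, fun _ => e.2 _⟩,
    fun L x m => ⟨(mem_spl ρ ω ω' x).1 m, trivial⟩⟩,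
    fun L a x _ _ => Prod.ext (Prod.ext rfl (funext fun ν => ?_)) rfl⟩
  cases ν <;> rfl

lemma pro : Pro (ρ.k0 W (Φ := Option Φ) fun s => s.elim ω' ω).tot.S
    ((ρ.k0 W ω).tot.pu (.vec fun _ : Unit => ω')).S spl := by
  refine Pro.of_left (g := fun _ x => (x.1.1, Sum.elim
    (fun o => o.elim (x.2 ()) fun a => x.1.2 (Sum.inl a)) fun i => x.1.2 (Sum.inr i)))
    ⟨fun _ _ _ _ _ _ _ e => ⟨e.1.1, fun ν => ?_⟩,
      fun L x m => (mem_iff ρ _ _ _).2 ((mem_iff ρ ω x.1.1 x.1.2).1 m.1)⟩ (eqm ρ ω ω').mp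
    fun L x _ => Prod.ext rfl (funext fun ν => ?_)
  · rcases ν with (_ | a) | i
    exacts [e.2 (), e.1.2 _, e.1.2 _]
  · rcases ν with (_ | a) | i <;> rfl

/-- A generic point of the large kernel is generic over a generic point of the small kernel. -/
lemma two [FW0 K] [AD K] {r j : ℕ} (hr : Fintype.card Φ + Fintype.card σ = r + 1) {L M : Fld K}
    {α : L →ₐ[K] M} {b : ((Cd.vec σ).prod d).X L} {p : Option Φ ⊕ σ → M}
    (hG : GenA (ρ.k0 W (Φ := Option Φ) fun s => s.elim ω' ω).tot (r + 1) j α b p) :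
    ∃ (M₁ : Fld K) (α₁ : L →ₐ[K] M₁) (β : M₁ →ₐ[K] M) (p₁ : Φ ⊕ σ → M₁), β.comp α₁ = α ∧
      (∀ ν, β (p₁ ν) = p (Sum.map some id ν)) ∧ GenA (ρ.k0 W ω).tot r j α₁ b p₁ ∧
      Good (j + r) M₁ ∧ gen β (fun _ : Unit => p (Sum.inl none)) = ⊤ := by
  classical
  have hb : (PW σ W).mem L b := ((PW σ W).S.map_iff α b).1 hG.mem.1.1
  obtain ⟨i, hi⟩ := ρ.uni L b.1 hb.1.2
  obtain ⟨hs, hf⟩ := (AD.kgen _ (by rw [Fintype.card_sum, Fintype.card_option]; omega)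
    (Sum.inr i) hb hi).1 hG
  obtain ⟨M₁, α₁, β, T, e, hT, f1, f2⟩ := FA1.split hf fun ν => ν.1 ≠ Sum.inl none
  have c2 : Nat.card {ν : {ν : Option Φ ⊕ σ // ν ≠ Sum.inr i} // ¬ ν.1 ≠ Sum.inl none} = 1 :=
    Nat.card_eq_one_iff_unique.2 ⟨⟨fun x y => Subtype.ext (Subtype.ext
      ((not_not.1 x.2).trans (not_not.1 y.2).symm))⟩, ⟨⟨⟨Sum.inl none, nofun⟩, fun h => h rfl⟩⟩⟩
  have c1 : Nat.card {ν : {ν : Option Φ ⊕ σ // ν ≠ Sum.inr i} // ν.1 ≠ Sum.inl none} = r := by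
    have h := f2.gM.2.symm.trans hG.gM.2
    rw [c2, Nat.cast_inj] at h
    omega
  have g1 : Good (j + r) M₁ := c1 ▸ f1.gM
  have ea : ∀ a, β (α₁ a) = α a := fun a => DFunLike.congr_fun e a
  have h1 : ∀ ν, ν ≠ Sum.inr i → ν ≠ Sum.inl none → p ν ∈ β.fieldRange := fun ν h h' =>
    ⟨T ⟨⟨ν, h⟩, h'⟩, hT _⟩
  have h2 : p (Sum.inr i) ∈ β.fieldRange := by
    have h3 : ∑ l, α (aeval b.1 (ρ.f l)) * p (Sum.inr l) = 0 := by
      simpa [Fintype.sum_sum_type, Row.kb] using hs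
    rw [← Finset.add_sum_erase _ _ (Finset.mem_univ i), ← eq_neg_iff_add_eq_zero,
      ← eq_inv_mul_iff_mul_eq₀ ((map_ne_zero α).2 hi)] at h3
    rw [h3]
    exact mul_mem (inv_mem ⟨_, ea _⟩) (neg_mem (sum_mem fun l hl => mul_mem ⟨_, ea _⟩
      (h1 _ (fun h => Finset.ne_of_mem_erase hl (Sum.inr_injective h)) nofun)))
  have h3 : ∀ ν : Φ ⊕ σ, ∃ z, β z = p (Sum.map some id ν) := fun ν => by
    by_cases h : Sum.map some id ν = Sum.inr i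
    · exact h ▸ h2
    · exact h1 _ h (by cases ν <;> exact nofun)
  choose p₁ hp using h3
  refine ⟨M₁, α₁, β, p₁, e, hp, ⟨hG.gL, g1, ?_, ?_⟩, g1, ?_⟩
  · refine top_le_iff.1 (f1.top.ge.trans (IntermediateField.adjoin.mono _ _ _
      (Set.union_subset_union_right _ ?_)))
    rintro _ ⟨⟨⟨ν, h⟩, h'⟩, rfl⟩
    rcases ν with (_ | a) | l
    · exact absurd rfl h'
    · exact ⟨Sum.inl a, β.injective ((hp _).trans (hT ⟨⟨_, h⟩, h'⟩).symm)⟩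
    · exact ⟨Sum.inr l, β.injective ((hp _).trans (hT ⟨⟨_, h⟩, h'⟩).symm)⟩
  · refine ((ρ.k0 W ω).tot.S.map_iff β _).1 ?_
    have h4 := (mem_spl ρ ω ω' _).1 hG.mem
    rw [← e] at h4
    exact (congrArg _ (Prod.ext (Cd.map_map _ α₁ β b) (funext hp))).mpr h4
  · refine top_le_iff.1 (f2.top.ge.trans (IntermediateField.adjoin.mono _ _ _
      (Set.union_subset_union_right _ ?_)))
    rintro _ ⟨ν, rfl⟩
    exact ⟨(), congrArg p (not_not.1 ν.2).symm⟩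

end Ta

theorem TA_thm [FW0 K] [WB K] [AD K] [SE K] [KE K] [KN K] : TA K where
  ex := by
    intro σ Λ _ _ d W ω γ k r hr j φ
    obtain ⟨φ₁, h⟩ := Ta.phi σ φ
    obtain ⟨θ, hθ, -⟩ := KE.ex k hr φ₁
    exact ⟨θ, φ₁, h, hθ⟩
  free := by
    rintro σ _ u ρ d W Φ _ ω ω' r j hr φ θ θ' ⟨φ₁, h₁, hθ⟩ ⟨φ₂, h₂, hθ'⟩ M M' β s x w S v hf
    obtain ⟨Θ, hΘ, -⟩ := SE.ex (fun _ : Unit => ω') (r := 1) Fintype.card_unit θ
    obtain ⟨Θ', hΘ'⟩ := WB.pull (Ta.eqm ρ ω ω') (Ta.pro ρ ω ω') Θ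
    have up : IsUp (ρ.k0 W (Φ := Option Φ) fun s => s.elim ω' ω).tot (r + 1) j φ₁.q Θ'.q := by
      intro L N α b p hG
      obtain ⟨M₁, α₁, β₁, p₁, e, hp, g1, g2, g3⟩ := Ta.two ρ ω ω' hr hG
      rw [hΘ' N _ hG.mem, ← hθ L M₁ α₁ b p₁ g1, ← hΘ M₁ N β₁ _ _
        ⟨g2, hG.gM, g3, ((ρ.k0 W ω).tot.S.map_iff β₁ _).2 g1.mem, trivial⟩, ← e]
      exact congrArg _ (Prod.ext (Prod.ext (Cd.map_map _ α₁ β₁ b) (funext hp)).symm rfl)
    have e0 : (Ta.spl M' ((fun i => β (x i), d.map β w),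
        Sum.elim (fun o : Option Φ => o.elim s fun a => β (S a)) fun i => β (v i))).1 =
        (((Cd.vec σ).prod d).prod (.vec (Φ ⊕ σ))).map β ((x, w), Sum.elim S v) :=
      Prod.ext rfl (funext fun ν => by cases ν <;> rfl)
    have e1 := (Ta.mem_spl (W := W) ρ ω ω' _).trans
      (e0 ▸ (ρ.k0 W ω).tot.S.map_iff β ((x, w), Sum.elim S v))
    by_cases m : (ρ.k0 W ω).tot.mem M ((x, w), Sum.elim S v)
    · have m' := e1.2 m
      have h3 := KN.nat _ _ (r := r + 1) (by rw [Fintype.card_sum, Fintype.card_option]; omega)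
        (f := fun _ b => b) ⟨⟨Reg.id _, fun _ _ h => h⟩, fun _ _ _ _ _ => rfl⟩
        (fun _ _ _ z _ _ hz h => ⟨z, hz, h⟩) (Equiv.refl _) (fun _ => rfl) (fun _ _ _ _ => rfl)
        Θ' θ' 1 up hθ' (fun L b hb => by
          rw [one_mul]
          exact (h₂ L b.1 b.2 hb.1.2).trans (h₁ L b.1 b.2 hb.1.2).symm) M' _
        (Sum.elim (fun o : Option Φ => o.elim s fun a => β (S a)) fun i => β (v i)) m'.1.1
      rw [one_mul, hΘ' M' _ m'] at h3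
      refine h3.trans ?_
      rw [← hΘ M M' β _ (fun _ => s) ⟨hf.gL, by simpa using hf.gM, hf.top,
        ((ρ.k0 W ω).tot.S.map_iff β _).2 m, trivial⟩]
      exact congrArg _ (Prod.ext e0 rfl)
    · have h3 : θ.q M ((x, w), Sum.elim S v) = 0 := by
        by_contra h
        exact m (WB.mem θ.toPre h).2
      rw [h3]
      by_contra h
      exact m (e1.1 (WB.mem θ'.toPre h).2)

end Pool.Agent.Lib.MP_557161_ag.HG.HN
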