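import Pool.Agent.Lib.MP_557161_ag.HN.StV

/-!
The degree of the top Chern class of the kernel of a row only depends on the degree of the forms.
-/

namespace Pool.Agent.Lib.MP_557161_ag.HG.HN

open Pool.Agent.Lib.MP_557161_ag.DL MvPolynomial

namespace TB1

variable {K : Type} [Field K] [FW0 K]

open Classical in
/-- The divisor of zeros of a variable, at a point that is defined over the constants. -/
lemma const {A : Amb K} {P : Sp A} {m : ℕ} (θ : Pre m P) {M N : Fld K} {β : M →ₐ[K] N} {t : N}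
    (F : Free m β fun _ : Unit => t) (y : A.pt M) {val : ℂ}
    (H : HasS (fun O : Dv N m => if 0 < O.1.ord t then
      (O.1.ord t : ℂ) * θ.v O.1.res (A.red O.1 (A.map β y)) else 0) val) : val = θ.v M y := by
  obtain ⟨O, h, -, o2, -, o4, o5⟩ := FA2.zero (i := m) F (by simp) ()
  have h0 : t ≠ 0 := fun e => by
    rw [e, Pl.ord_zero _ O.2.1] at o2
    exact zero_ne_one o2
  rw [← H.2, finsum_eq_single _ O]
  · have : IsEmpty {a : Unit // a ≠ ()} := ⟨fun a => a.2 rfl⟩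
    have e2 := θ.ext h.hom y F.gL (by simpa using o4.gM)
    rw [deg_of_surj (FA1.zero.1 o4).2] at e2
    rw [o2, if_pos one_pos, A.red_triv h, e2]
    simp
  · intro O' hO'
    split_ifs with h1
    · obtain ⟨h3, h4⟩ := (Pl.ord_pos_iff O'.2.1 h0).1 h1
      obtain ⟨m', lt, hm⟩ := o5 O' hO' (fun _ => h3) h4
      have ov := Pl.over_comap β O'.1
      let G := gen ov.resHom fun _ : Unit => O'.1.rd t
      let κ : (Pl.comap β O'.1).res →ₐ[K] O'.1.res.sub G :=
        ov.resHom.codRestrict G.toSubalgebra fun a =>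
          IntermediateField.subset_adjoin _ _ (.inl ⟨a, rfl⟩)
      let ι : O'.1.res.sub G →ₐ[K] O'.1.res := G.val
      have e : ov.resHom = ι.comp κ := rfl
      rw [A.red_map ov, e, A.map_comp,
        θ.low ι _ (lt_of_le_of_lt hm (Nat.cast_lt.2 lt)), mul_zero]
    · rfl

/-- Two rows of the same weights give the same value on the common part of the kernels. -/
lemma same [HT K] {c : Cd} {Γ : Wt c} {Λ : Type} [Fintype Λ] {ω : Λ → ℤ} {S : QS K Γ} {γ : ℤ}
    (k₀ k₁ : KB S Λ ω γ) {r : ℕ} (hr : Fintype.card Λ = r + 1) {j : ℕ} (φ : QF j S)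
    (θ₀ : QF (j + r) k₀.tot) (θ₁ : QF (j + r) k₁.tot) (h₀ : IsUp k₀.tot r j φ.q θ₀.q)
    (h₁ : IsUp k₁.tot r j φ.q θ₁.q) {M : Fld K} (hM : Good (j + r) M) {b : c.X M} {v : Λ → M}
    (mb : S.mem M b) (e₀ : ∑ μ, k₀.n M b μ * v μ = 0) (e₁ : ∑ μ, k₁.n M b μ * v μ = 0) :
    θ₀.q M (b, v) = θ₁.q M (b, v) := by
  obtain ⟨N, β, t, F⟩ : ∃ (N : Fld K) (β : M →ₐ[K] N) (t : N),
      Free (j + r) β fun _ : Unit => t := ⟨_, _, frT M Unit (), FA1.fr_free Unit hM⟩
  have tr : ∀ a a' : M, β a + t * β a' = 0 → a = 0 ∧ a' = 0 := fun a a' e => by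
    have e1 := FA1.trans F () (Polynomial.C a + Polynomial.X * Polynomial.C a')
      (by simpa [mul_comm t] using e)
    exact ⟨by simpa using congrArg (·.coeff 0) e1, by simpa using congrArg (·.coeff 1) e1⟩
  have F' : Free (j + r) β fun _ : Unit => t - 1 := by
    refine FA1.of_gen F rfl fun i => ?_
    have h1 : t - 1 ∈ gen β fun _ : Unit => t - 1 :=
      IntermediateField.subset_adjoin _ _ (.inr ⟨(), rfl⟩)
    simpa using add_mem h1 (one_mem _)
  have n0 : ∀ μ, k₀.n N (c.map β b) μ = β (k₀.n M b μ) := fun μ => (k₀.hom μ).reg.nat β mb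
  have n1 : ∀ μ, k₁.n N (c.map β b) μ = β (k₁.n M b μ) := fun μ => (k₁.hom μ).reg.nat β mb
  obtain ⟨val, H₀, H₁⟩ := HT.ht k₀ k₁ hr
    (fun L x μ => (1 - x.2) * k₀.n L x.1 μ + x.2 * k₁.n L x.1 μ)
    (fun μ => ⟨fun _ _ R _ _ m m' e => R.add
        (R.mul (Rel.sub R.one e.2) ((k₀.hom μ).reg R m.1 m'.1 e.1))
        (R.mul e.2 ((k₁.hom μ).reg R m.1 m'.1 e.1)), fun L a x h0 m => by
      show (1 - x.2) * k₀.n L (Γ.scl a x.1) μ + x.2 * k₁.n L (Γ.scl a x.1) μ = _
      rw [(k₀.hom μ).hom L a x.1 h0 m.1, (k₁.hom μ).hom L a x.1 h0 m.1]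
      ring⟩)
    (fun L b _ => ⟨funext fun μ => by simp, funext fun μ => by simp⟩) φ θ₀ θ₁ h₀ h₁ N (c.map β b) t
    (fun μ => β (v μ)) (by simpa using F.gM) ((S.S.map_iff β b).2 mb)
    (fun e => one_ne_zero (tr 0 1 (by simp [e])).2)
    (fun e => one_ne_zero (tr 1 (-1) (by simp [e])).1)
    (fun e => by
      obtain ⟨μ, hμ⟩ := k₀.uni M b mb
      have e1 : (1 - t) * k₀.n N (c.map β b) μ + t * k₁.n N (c.map β b) μ = 0 := congrFun e μ
      rw [n0, n1] at e1
      refine hμ (tr _ (k₁.n M b μ - k₀.n M b μ) ?_).1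
      rw [map_sub]
      linear_combination e1)
    (by
      have e2 := congrArg β e₀
      have e3 := congrArg β e₁
      rw [map_sum, map_zero] at e2 e3
      simp only [map_mul] at e2 e3
      show ∑ μ, ((1 - t) * k₀.n N (c.map β b) μ + t * k₁.n N (c.map β b) μ) * β (v μ) = 0
      simp only [n0, n1, add_mul, mul_assoc, Finset.sum_add_distrib, ← Finset.mul_sum, e2, e3,
        mul_zero, add_zero])
  exact (const θ₀.toPre F ((Γ.prod (.vec ω)).pt (b, v)) H₀).symm.trans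
    (const θ₁.toPre F' ((Γ.prod (.vec ω)).pt (b, v)) H₁)

end TB1

theorem TB_thm {K : Type} [Field K] [FW0 K] [HT K] [KE K] : TB K where
  hty {k u} ρ val hf d W Φ _ ω r j hc φ θ := by
    rintro ⟨φ₁, hφ, up⟩ L M α x S w x0 F mw
    have hr : Fintype.card (Φ ⊕ Fin (k + 1)) = r + 1 := by
      rw [Fintype.card_sum, Fintype.card_fin, ← hc, add_assoc]
    obtain ⟨θ', up', -⟩ := KE.ex ((fer K (Fin (k + 1)) u).k0 W ω) hr φ₁
    have hM : Good (j + r) M := by
      have h := F.gM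
      rwa [Nat.card_eq_fintype_card, Fintype.card_sum, Fintype.card_subtype_compl,
        Fintype.card_fin, Fintype.card_subtype_eq, Nat.add_sub_cancel, hc] at h
    have mx : (PW (Fin (k + 1)) W).mem M (x, d.map α w) :=
      ⟨⟨trivial, fun e => one_ne_zero (x0.symm.trans (congrFun e 0))⟩, (W.map_iff α w).2 mw⟩
    rw [← hf W ω hc φ θ' ⟨φ₁, hφ, up'⟩ L M α x S w x0 F mw]
    refine TB1.same (ρ.k0 W ω) ((fer K (Fin (k + 1)) u).k0 W ω) hr φ₁ θ θ' up up' hM mx ?_ ?_ <;>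
      simp [Row.kb]
  base {u} d W Φ _ ω r j hc φ θ := by
    rintro ⟨φ₁, hφ, up⟩ L M α x S w x0 F mw
    have e : x = fun i => α ((fun _ => 1 : Fin (0 + 1) → L) i) := funext fun i => by
      rw [map_one, ← x0, Subsingleton.elim (α := Fin 1) i 0]
    have h1 : (fun _ => 1 : Fin (0 + 1) → L) ≠ 0 := fun e => one_ne_zero (congrFun e 0)
    have : IsEmpty {i : Fin (0 + 1) // i ≠ 0} := ⟨fun i => i.2 (Subsingleton.elim (α := Fin 1) _ _)⟩
    have hM : Good (j + r) M := by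
      have h := F.gM
      rwa [Nat.card_eq_fintype_card, Fintype.card_sum,
        Fintype.card_eq_zero (α := {i : Fin (0 + 1) // i ≠ 0}), hc] at h
    have mx : (PW (Fin (0 + 1)) W).mem L (fun _ => 1, w) := ⟨⟨trivial, h1⟩, mw⟩
    have g : GenA ((fer K (Fin (0 + 1)) u).k0 W ω).tot r j α (fun _ => 1, w) (Sum.elim S 0) := by
      refine ⟨F.gL, hM, top_le_iff.1 (F.top ▸ IntermediateField.adjoin.mono _ _ _
        (Set.union_subset_union_right _ ?_)), ⟨(ASp.map_iff _ α _).2 mx, trivial⟩, ?_⟩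
      · rintro _ ⟨a | a, rfl⟩
        exacts [⟨.inl a, rfl⟩, isEmptyElim a]
      · simp [Row.kb]
    rw [e, Int.cast_one, one_mul, ← hφ L _ w h1]
    exact up L M α _ _ g

end Pool.Agent.Lib.MP_557161_ag.HG.HN
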