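import Pool.Agent.Lib.MP_557161_ag.HN.StV
import Pool.Agent.Lib.MP_557161_ag.HN.SE

/-!
The top Chern class of a sum of copies of the hyperplane bundle.
-/

namespace Pool.Agent.Lib.MP_557161_ag.HG.HN

open Pool.Agent.Lib.MP_557161_ag.DL MvPolynomial

namespace Tc

variable {K : Type} [Field K] {σ Φ : Type} [Fintype σ] [Fintype Φ] {u : ℕ} {d : Cd} {W : ASp K d}
  {ω : Φ → ℤ}

/-- The vector of the kernel with free coordinates `S` and `t`. -/
def pv {L : Type} [Field L] (u : ℕ) (x : σ → L) (S : Φ → L) (t : σ → L) : Option Φ ⊕ σ → L :=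
  Sum.elim (fun o => o.elim (-∑ i, x i ^ u * t i) S) t

lemma lin {L : Fld K} (x : σ → L) (w : d.X L) (v : Option Φ ⊕ σ → L) :
    ∑ μ, ((fer K σ u).k1 W ω).n L (x, w) μ * v μ = v (.inl none) + ∑ i, x i ^ u * v (.inr i) := by
  simp [Row.kb, fer, Fintype.sum_sum_type, Fintype.sum_option]

lemma mem {L : Fld K} {x : σ → L} {w : d.X L} (h0 : x ≠ 0) (hw : W.mem L w) (S : Φ → L)
    (t : σ → L) : ((fer K σ u).k1 W ω).tot.mem L ((x, w), pv u x S t) :=
  ⟨⟨⟨⟨trivial, h0⟩, hw⟩, trivial⟩, (lin x w _).trans (neg_add_cancel _)⟩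

omit [Fintype Φ] in
lemma rel {M L : Fld K} {R : Rel M L} {x t : σ → M} {x' t' : σ → L} {S : Φ → M} {S' : Φ → L}
    (hx : ∀ i, R.r (x i) (x' i)) (hS : ∀ a, R.r (S a) (S' a)) (ht : ∀ i, R.r (t i) (t' i)) :
    ∀ μ, R.r (pv u x S t μ) (pv u x' S' t' μ) := by
  rintro ((_ | a) | i)
  exacts [Rel.neg (Rel.sum _ fun i _ => R.mul (Rel.pow (hx i) u) (ht i)), hS a, ht i]

lemma res {M N : Fld K} {β : M →ₐ[K] N} {O : Pl N} {a : M} {b : O.res} {κ : Type} (T : κ → O.res)
    (h : (Rel.ofPl O).r (β a) b) : b ∈ gen (Pl.over_comap β O).resHom T := by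
  rw [← h.2, ← (Pl.over_comap β O).resHom_rd]
  exact Se.gl _ _ _

lemma unsc {c : Cd} {Γ : Wt c} {M L : Fld K} {R : Rel M L} {a : M} {a' : L} {x : c.X M}
    {x' : c.X L} (e : c.lift R.r (Γ.scl a x) x') (h : R.r a a') (h0 : a' ≠ 0) :
    ∃ y, c.lift R.r x y ∧ Γ.pt y = Γ.pt x' :=
  ⟨_, Γ.scl_inv (Rel.ne_zero h h0) x ▸ Γ.lift_scl (R.inv h h0) (inv_ne_zero h0) e,
    Γ.pt_scl (inv_ne_zero h0) x'⟩

lemma low [WB K] {n m : ℕ} (θ : Pre n ((fer K σ u).k1 W ω).tot.sp) {L : Fld K} {x : σ → L}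
    {w : d.X L} {v : Option Φ ⊕ σ → L} (F : IntermediateField K L) (hx : ∀ i, x i ∈ F)
    (hw : ∀ l, d.co w l ∈ F) (hS : ∀ a, v (.inl (some a)) ∈ F) (ht : ∀ i, v (.inr i) ∈ F)
    (h : (L.sub F).tr ≤ m) (hm : m < n) : θ.q L ((x, w), v) = 0 := by
  by_contra hn
  refine hn (Se.low θ F ?_ (h.trans_lt (by exact_mod_cast hm)))
  rintro ((i | l) | (_ | a) | i)
  · exact hx i
  · exact hw l
  · have e : v (.inl none) = -∑ i, x i ^ u * v (.inr i) :=
      eq_neg_of_add_eq_zero_left ((lin x w v).symm.trans (WB.mem θ hn).2.2)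
    show v (.inl none) ∈ F
    rw [e]
    exact neg_mem (sum_mem fun i _ => mul_mem (pow_mem (hx i) u) (ht i))
  · exact hS a
  · exact ht i

end Tc

open Tc in
theorem TC_thm {K : Type} [Field K] [Base K] [FW0 K] [WB K] : TC K where
  one {k u d} W {Φ} _ ω {r j} hr φ θ hθ L M α x S s w x0 hF hw := by
    classical
    obtain ⟨φ₁, h1, h2⟩ := hθ
    have hc : Nat.card (Option Φ ⊕ {i : Fin (k + 1) // i ≠ 0}) = r := by
      rw [Nat.card_eq_fintype_card, Fintype.card_sum, Fintype.card_option,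
        Fintype.card_subtype_compl, Fintype.card_subtype_eq, Fintype.card_fin]
      omega
    have hM : Good (j + r) M := hc ▸ hF.gM
    obtain ⟨N, β, ρ, hρ⟩ : ∃ (N : Fld K) (β : M →ₐ[K] N) (ρ : N),
        Free (j + r) β fun _ : Unit => ρ := ⟨_, _, frT M Unit (), FA1.fr_free Unit hM⟩
    have ρ0 : ρ ≠ 0 := fun e => (FA1.trans hρ ()).ne 0 (e.trans (map_zero β).symm)
    have hN : Good (j + r + 1) N := by simpa using hρ.gM
    obtain ⟨t, t0, t1⟩ : ∃ t : Fin (k + 1) → N, t 0 = β s ∧ ∀ i, i ≠ 0 → t i = ρ * β (x i) :=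
      ⟨fun i => if i = 0 then β s else ρ * β (x i), if_pos rfl, fun i h => if_neg h⟩
    have y0 : β (x 0) = 1 := by rw [x0, map_one]
    have hw' : W.mem M (d.map α w) := (W.map_iff α w).2 hw
    obtain ⟨P, hP⟩ : ∃ P : (((Cd.vec (Fin (k + 1))).prod d).prod
        (.vec (Option Φ ⊕ Fin (k + 1)))).X N, P = ((fun i => β (x i), d.map β (d.map α w)),
          pv u (fun i => β (x i)) (fun a => β (S a)) t) := ⟨_, rfl⟩
    have H : HasS (fun O : Dv N (j + r) => (O.1.ord ρ : ℂ) * θ.r O.1 P) 0 :=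
      θ.rat N _ ρ hN ((QS.sp_pt _).2 (hP ▸ mem
        (fun e => one_ne_zero (y0.symm.trans (congrFun e 0))) ((W.map_iff β _).2 hw') _ _)) ρ0
    obtain ⟨O₀, T₀, a0, a1, a2, a3, a4⟩ := FA2.zero hρ (i := j + r) (by simp) ()
    obtain ⟨U, hU⟩ : ∃ U : (Option Φ ⊕ {i : Fin (k + 1) // i ≠ 0}) ⊕ Unit → N,
        U = Sum.elim (Sum.elim (fun o => o.elim (t 0) fun a => β (S a)) fun i => t i.1)
          fun _ => ρ⁻¹ := ⟨_, rfl⟩
    have Uρ : U (.inr ()) = ρ⁻¹ := by rw [hU]; rfl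
    have US : ∀ a, U (.inl (.inl (some a))) = β (S a) := fun a => by rw [hU]; rfl
    have Ut : ∀ i, ∃ a, U (.inl a) = t i := fun i => by
      by_cases h : i = 0
      exacts [⟨.inl none, by rw [hU, h]; rfl⟩, ⟨.inr ⟨i, h⟩, by rw [hU]; rfl⟩]
    have xt : ∀ i, i ≠ 0 → β (x i) = ρ⁻¹ * t i := fun i h => by
      rw [t1 i h, inv_mul_cancel_left₀ ρ0]
    have F2 : Free j (β.comp α) U := by
      refine FA1.of_gen (FA1.comp hF (hc ▸ hρ)) rfl ?_
      have g := Se.gr (β.comp α) U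
      rintro (((_ | a) | i) | _)
      · obtain ⟨a, e⟩ := Ut 0
        exact (e.trans t0 ▸ g (.inl a) : β s ∈ _)
      · exact (US a ▸ g _ : β (S a) ∈ _)
      · obtain ⟨a, e⟩ := Ut i
        show β (x i) ∈ _
        rw [xt i i.2, ← e, ← Uρ]
        exact mul_mem (g _) (g _)
      · exact inv_mem_iff.1 (Uρ ▸ g (.inr ()))
    obtain ⟨O₁, T₁, b0, b1, b2, b3, b4⟩ := FA2.zero F2 (i := j + r)
      (by rw [Nat.card_sum, hc]; simp [add_assoc]) (.inr ())
    rw [Uρ] at b1 b2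
    have ex : ∀ O : Pl N, (Rel.ofPl O).r ρ⁻¹ 0 → (∀ a, U a ∈ O.O) → ∀ i,
        (Rel.ofPl O).r (β (x i)) (Pi.single (M := fun _ => O.res) 0 1 i) := fun O h h' i => by
      by_cases e : i = 0
      · rw [e, y0, Pi.single_eq_same]
        exact Rel.one _
      · obtain ⟨a, ea⟩ := Ut i
        rw [xt i e, Pi.single_eq_of_ne e, ← zero_mul (O.rd (t i))]
        exact (Rel.ofPl O).mul h ⟨ea ▸ h' _, rfl⟩
    have A : θ.r O₀.1 P = θ.q M ((x, d.map α w), pv u x S (Pi.single 0 s)) := by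
      have := (⟨fun a => a.2 rfl⟩ : IsEmpty {a : Unit // a ≠ ()})
      have tr : ∀ a, (Rel.ofPl O₀.1).r (β a) (T₀.hom a) := fun a => ⟨T₀ a, (T₀.hom_apply a).symm⟩
      refine (WB.r_eq θ.toPre (x' := Cd.map _ T₀.hom ((x, d.map α w), pv u x S (Pi.single 0 s)))
        one_ne_zero ?_ ⟨.inl (.inl 0), trivial, ?_⟩).trans
        ((θ.ext T₀.hom (Wt.pt _ _) hM (O₀.2.good hN)).trans
          (by rw [deg_of_surj (FA1.zero.1 a3).2, Nat.cast_one, one_mul]))
      · rw [Wt.scl_one, hP]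
        refine ⟨⟨fun i => tr _, Cd.lift_triv T₀ _⟩, fun μ => ?_⟩
        have e1 : T₀.hom (pv u x S (Pi.single 0 s) μ) = _ :=
          rel (R := .ofHom T₀.hom) (fun _ => rfl) (fun _ => rfl) (fun _ => rfl) μ
        show (Rel.ofPl O₀.1).r _ (T₀.hom (pv u x S (Pi.single 0 s) μ))
        rw [e1]
        refine rel (fun i => tr _) (fun a => tr _) (fun i => ?_) μ
        by_cases e : i = 0
        · rw [e, t0, Pi.single_eq_same]
          exact tr s
        · rw [t1 i e, Pi.single_eq_of_ne e, map_zero, ← zero_mul (T₀.hom (x i))]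
          exact (Rel.ofPl _).mul ⟨a0 (), a2⟩ (tr _)
      · show T₀.hom (x 0) ≠ 0
        rw [x0, map_one]
        exact one_ne_zero
    have B : θ.r O₁.1 P = φ.a L w := by
      have e0 : ∀ i, T₁.hom (Pi.single (M := fun _ => L) 0 1 i) =
          Pi.single (M := fun _ => O₁.1.res) (0 : Fin (k + 1)) 1 i := fun i => by
        by_cases e : i = 0
        · rw [e, Pi.single_eq_same, Pi.single_eq_same, map_one]
        · rw [Pi.single_eq_of_ne e, Pi.single_eq_of_ne e, map_zero]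
      have n0 : T₁.hom (Pi.single (M := fun _ => L) (0 : Fin (k + 1)) 1 0) ≠ 0 := by
        rw [Pi.single_eq_same, map_one]
        exact one_ne_zero
      have rx := fun i => (e0 i).symm ▸ ex O₁.1 ⟨Uρ ▸ b0 _, b2⟩ b0 i
      refine (WB.r_eq θ.toPre one_ne_zero ?_ ⟨.inl (.inl 0), trivial, by exact n0⟩).trans
        ((h2 L _ T₁.hom (Pi.single 0 1, w) (pv u (fun i => T₁.hom (Pi.single (M := fun _ => L) 0 1 i))
          (fun a => O₁.1.rd (β (S a))) fun i => O₁.1.rd (t i)) ⟨hF.gL, O₁.2.good hN, ?_,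
            mem (fun e => n0 (congrFun e 0)) ((W.map_iff _ w).2 hw) _ _⟩).trans
          (h1 L _ w fun e => one_ne_zero ((Pi.single_eq_same 0 1).symm.trans (congrFun e 0))))
      · rw [Wt.scl_one, hP, d.map_map]
        exact ⟨⟨rx, Cd.lift_triv T₁ w⟩, rel rx (fun a => ⟨US a ▸ b0 _, rfl⟩) fun i =>
          (Ut i).elim fun a e => ⟨e ▸ b0 _, rfl⟩⟩
      · refine eq_top_iff.2 (b3.top ▸ IntermediateField.adjoin.mono _ _ _
          (Set.union_subset_union_right _ ?_))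
        rintro _ ⟨⟨((_ | a) | i) | _, h⟩, rfl⟩
        · exact ⟨.inr 0, by rw [hU]; rfl⟩
        · exact ⟨.inl (some a), by rw [hU]; rfl⟩
        · exact ⟨.inr i, by rw [hU]; rfl⟩
        · exact absurd rfl h
    have C : ∀ O : Dv N (j + r), O ≠ O₀ → O ≠ O₁ → O.1.ord ρ ≠ 0 → θ.r O.1 P = 0 := by
      intro O n0 n1 ho
      by_contra hn
      obtain ⟨i, ⟨⟨x', w'⟩, v'⟩, hi, i0, e, m, e'⟩ := WB.r_ne θ.toPre hn
      obtain (i | i) | i := i
      rotate_left
      · exact hi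
      · exact hi
      refine hn (e'.trans ?_)
      subst hP
      replace i0 : β (x i) ≠ 0 := i0
      have ew : ∀ l, (Rel.ofPl O.1).r (β (α (d.co w l))) (d.co w' l) := fun l => by
        have := (d.lift_iff _ (d.map β (d.map α w)) w').1 e.1.2 l
        rwa [d.co_map, d.co_map] at this
      have e1 : ∀ l, (Rel.ofPl O.1).r ((β (x i))⁻¹ * β (x l)) (x' l) := e.1.1
      have e2 : ∀ l, (Rel.ofPl O.1).r ((β (x i))⁻¹ ^ (1 : ℤ) * t l) (v' (.inr l)) :=
        fun l => e.2 (.inr l)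
      simp only [zpow_one] at e2
      rcases lt_or_gt_of_ne ho with h | h
      · have h' := (Pl.ord_pos_iff O.2.1 (inv_ne_zero ρ0)).1 (by rw [Pl.ord_inv O.2.1]; omega)
        have z : x' 0 ≠ 0 := fun z => m.1.1.1.2 (funext fun l => by
          by_cases el : l = 0
          · exact el ▸ z
          · exact (Rel.eq (e1 l) ((Rel.ofPl O.1).mul h' (e2 l))
              (by rw [xt l el]; ring)).trans (zero_mul _))
        have c := e1 0
        rw [y0, mul_one] at c
        obtain ⟨⟨⟨x'', w''⟩, v''⟩, f, q⟩ := unsc e c z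
        rw [Pre.q, ← q]
        have hU' : ∀ a, U a ∈ O.1.O := by
          rw [hU]
          rintro (((_ | a) | l) | _)
          exacts [(f.2 (.inr 0)).1, (f.2 (.inl (some a))).1, (f.2 (.inr l)).1, h'.1]
        obtain ⟨n, n1, n2⟩ := b4 O n1 hU' (Uρ ▸ h'.2)
        have g := Se.gr (Pl.over_comap (β.comp α) O.1).resHom fun a => O.1.rd (U a)
        refine Tc.low θ.toPre _ (fun l => ?_) (fun l => ?_) (fun a => ?_) (fun l => ?_) n2 n1
        · rw [show x'' l = _ from Rel.eq (f.1.1 l) (ex O.1 h' hU' l) rfl, Pi.single_apply]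
          split_ifs
          exacts [one_mem _, zero_mem _]
        · have := (d.lift_iff _ _ _).1 f.1.2 l
          rw [d.co_map, d.co_map] at this
          exact res (β := β.comp α) _ this
        · rw [← show O.1.rd (β (S a)) = v'' _ from (f.2 (.inl (some a))).2, ← US a]
          exact g _
        · obtain ⟨a, ea⟩ := Ut l
          rw [← show O.1.rd (t l) = v'' _ from (f.2 (.inr l)).2, ← ea]
          exact g _
      · have h' := (Pl.ord_pos_iff O.2.1 ρ0).1 h
        obtain ⟨n, n1, n2⟩ := a4 O n0 (fun _ => h'.1) h'.2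
        refine Tc.low θ.toPre _ (fun l => res (a := (x i)⁻¹ * x l) _ (by simpa using e1 l))
          (fun l => res _ (ew l))
          (fun a => res (a := (x i)⁻¹ ^ ω a * S a) _ (by simpa [pv] using e.2 (.inl (some a))))
          (fun l => ?_) n2 n1
        by_cases el : l = 0
        · exact res (a := (x i)⁻¹ * s) _ (by simpa [el, t0] using e2 l)
        · rw [Rel.eq (e2 l) ((Rel.ofPl O.1).mul h' (e1 l)) (by rw [t1 l el]; ring), zero_mul]
          exact zero_mem _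
    have b1' : O₁.1.ord ρ = -1 := by rw [Pl.ord_inv O₁.2.1] at b1; omega
    have ne : O₀ ≠ O₁ := fun e => by rw [e, b1'] at a1; omega
    have E := H.2
    rw [finsum_eq_sum_of_support_subset (s := {O₀, O₁}) _ fun O hO => by
        by_contra h
        simp only [Finset.coe_insert, Finset.coe_singleton, Set.mem_insert_iff,
          Set.mem_singleton_iff, not_or] at h
        exact right_ne_zero_of_mul hO (C O h.1 h.2 (Int.cast_ne_zero.1 (left_ne_zero_of_mul hO))),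
      Finset.sum_pair ne, a1, b1', A, B] at E
    have e : pv u x S (Pi.single 0 s) = Sum.elim (fun o => o.elim (-s) S) (Pi.single 0 s) := by
      simp [pv, Pi.single_apply, x0]
    rw [← e]
    push_cast at E
    linear_combination E

end Pool.Agent.Lib.MP_557161_ag.HG.HN
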