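import Pool.Agent.Lib.MP_557161_ag.HN.TD1
import Pool.Agent.Lib.MP_557161_ag.HG.FA1

/-!
The recursion for the top Chern class of the kernel of the powers of the variables.
-/

namespace Pool.Agent.Lib.MP_557161_ag.HG.HN

open Pool.Agent.Lib.MP_557161_ag.DL MvPolynomial

namespace TDa

variable {K : Type} [Field K] {d : Cd} {W : ASp K d} {Φ : Type} [Fintype Φ] {k u : ℕ} {ω : Φ → ℤ}
  {j r : ℕ} {φ : AF j W}

lemma card0 (k : ℕ) : Nat.card {i : Fin (k + 1) // i ≠ 0} = k := by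
  simp [Nat.card_eq_fintype_card]

lemma cardB (b : Bool) : Nat.card {a : Bool // a ≠ b} = 1 := by
  cases b <;> simp [Nat.card_eq_fintype_card]

variable [FW0 K] [WB K]

omit [FW0 K] in
lemma same {σ : Type} [Finite σ] {φ₁ φ₂ : QF j (PW σ W)}
    (h1 : ∀ L x w, x ≠ 0 → φ₁.q L (x, w) = φ.a L w) (h2 : ∀ L x w, x ≠ 0 → φ₂.q L (x, w) = φ.a L w) :
    φ₁.q = φ₂.q := by
  funext L ⟨x, w⟩
  by_cases h : x = 0
  · rw [not_not.1 fun e => (WB.mem φ₁.toPre e).2.1.2 h, not_not.1 fun e => (WB.mem φ₂.toPre e).2.1.2 h]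
  · rw [h1 L x w h, h2 L x w h]

variable {L M N : Fld K} {α : L →ₐ[K] M} {β : M →ₐ[K] N} {x : Fin (k + 2) → M} {S : Φ → M}
  {w : d.X L} {s τ : N}

open Classical in
/-- The fibre at `1`. -/
lemma one [TC K] (hu : 0 < u) (hr : Fintype.card Φ + (k + 1) = r)
    {θ : QF (j + (r + 1)) ((fer K (Fin (k + 2)) u).k1 W ω).tot} (hθ : PTh _ (r + 1) φ θ)
    (h0 : x 0 = 1) (hT : Free j α (Sum.elim S fun i : {i : Fin (k + 2) // i ≠ 0} => x i.1))
    (hw : W.mem L w) (hU : Free (j + r) β fun b => bif b then s else τ) :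
    ∑ᶠ O : Dv N (j + (r + 1)), (if 0 < O.1.ord (τ - 1) then (O.1.ord (τ - 1) : ℂ) * θ.r O.1
      ((fun i => β (x i), d.map β (d.map α w)), vv k (fun a => β (S a)) s (s * τ)) else 0) =
      φ.a L w := by
  have hc : Nat.card (Φ ⊕ {i : Fin (k + 2) // i ≠ 0}) = r := by
    rw [Nat.card_sum, card0, Nat.card_eq_fintype_card, hr]
  have t1 : τ - 1 ≠ 0 := sub_ne_zero.2 (map_one β ▸ ne_of hU false 1)
  have hV : Free (j + r) β fun b => bif b then s else τ - 1 := FA1.of_gen hU rfl fun b => by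
    cases b
    · simpa using add_mem (Se.gr β (fun b => bif b then s else τ - 1) false) (one_mem _)
    · exact Se.gr β (fun b => bif b then s else τ - 1) true
  obtain ⟨O, t, o1, o2, o3, o4, o5⟩ := FA2.zero (i := j + (r + 1)) hV (by simp; omega) false
  have rd1 : ∀ O : Pl N, τ - 1 ∈ O.O → O.rd (τ - 1) = 0 → (Rel.ofPl O).r τ 1 := fun O h1 h2 => by
    simpa using (Rel.ofPl O).add (a := τ - 1) ⟨h1, h2⟩ (Rel.ofPl O).one
  rw [finsum_eq_single _ O]
  · have e := rd1 O.1 (o1 false) o3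
    rw [show O.1.ord (τ - 1) = 1 from o2, if_pos one_pos, Int.cast_one, one_mul,
      triv (s := s) θ.toPre h0 t (o1 true) e.1, e.2, mul_one, d.map_map]
    refine TC.one W ω (by omega) φ θ hθ L _ (t.hom.comp α) (fun i => t.hom (x i))
      (fun a => t.hom (S a)) _ w ((congrArg t.hom h0).trans (map_one _)) ?_ hw
    refine FA1.of_gen (FA1.comp hT (by rw [hc]; exact o4)) ?_ ?_
    · simp only [Nat.card_sum, cardB, card0, Finite.card_option]
      omega
    · rintro ((a | i) | ⟨_ | _, hb⟩)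
      · exact Se.gr _ _ (Sum.inl (some a))
      · exact Se.gr _ _ (Sum.inr i)
      · exact absurd rfl hb
      · exact Se.gr _ _ (Sum.inl none)
  · intro O' hO'
    split_ifs with h1
    swap
    · rfl
    obtain ⟨h2, h3⟩ := (Pl.ord_pos_iff O'.2.1 t1).1 h1
    have e := rd1 O'.1 h2 h3
    refine mul_eq_zero_of_right _ ?_
    by_cases hs : s ∈ O'.1.O
    · obtain ⟨m, lt, hm⟩ := o5 O' hO' (fun b => by cases b; exacts [h2, hs]) h3
      exact int θ.toPre h0 _ hs e.1 (Se.gr _ (fun b => O'.1.rd (bif b then s else τ - 1)) true)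
        (e.2 ▸ one_mem _) (hm.trans_lt (by exact_mod_cast lt))
    · by_contra hn
      obtain ⟨l, l0, f⟩ := live θ.toPre hn
      have hc0 : (β (x l))⁻¹ ∈ O'.1.O := by simpa [h0] using f.hx 0
      have hcs : (β (x l))⁻¹ * s ∈ O'.1.O := by
        have := mul_mem f.hB ((Rel.ofPl O'.1).inv e one_ne_zero).1
        rwa [mul_assoc, mul_assoc, mul_inv_cancel₀ (Rel.ne_zero e one_ne_zero), mul_one] at this
      have hc1 : β (x l) ∉ O'.1.O := fun h => hs (by
        simpa only [mul_inv_cancel_left₀ l0] using mul_mem h hcs)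
      have hc2 : O'.1.rd (β (x l))⁻¹ = 0 := by_contra fun h =>
        hc1 (inv_inv (β (x l)) ▸ ((O'.1.rd_ne_zero_iff hc0).1 h).2)
      refine hn ((f.val θ.toPre (i := l) (by
        rw [inv_mul_cancel₀ l0, O'.1.rd_one]; exact one_ne_zero)).trans ?_)
      rw [← map_inv₀] at hc0 hcs hc2 ⊢
      refine lowM θ.toPre _ (fun _ : Unit => O'.1.rd (β (x l)⁻¹ * (s * τ))) ?_ (Se.gr _ _ ())
        (tr_lt (n := j + r) _ _ _ (Pl.tr_res_lt _ (fun h => hc1
          (show x l ∈ (Pl.comap β O'.1).O from h ▸ ValuationSubring.mem_top _)) hU.gL.2.le)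
          (by simp [add_assoc]))
      rw [pow_succ, mul_assoc, O'.1.rd_mul (pow_mem hc0 _) hcs, O'.1.rd_pow hc0, hc2,
        zero_pow hu.ne', zero_mul]
      exact zero_mem _

/-- The coordinates near the hyperplane at infinity. -/
def fam (u : ℕ) (ω : Φ → ℤ) (X : Fin (k + 2) → N) (S : Φ → N) (s τ : N) :
    (Φ ⊕ Option (Fin k)) ⊕ Bool → N :=
  Sum.elim (Sum.elim (fun a => (X 1)⁻¹ ^ ω a * S a)
    fun o => o.elim (X 1)⁻¹ fun i => (X 1)⁻¹ * X i.succ.succ)
    fun b => bif b then (X 1)⁻¹ ^ (u + 1) * s else (X 1)⁻¹ * (s * τ)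

omit [WB K] in
lemma fam_free (u : ℕ) (ω : Φ → ℤ) (hr : Fintype.card Φ + (k + 1) = r)
    (hT : Free j α (Sum.elim S fun i : {i : Fin (k + 2) // i ≠ 0} => x i.1))
    (hU : Free (j + r) β fun b => bif b then s else τ) :
    Free j (β.comp α) (fam u ω (fun i => β (x i)) (fun a => β (S a)) s τ) := by
  have hc : Nat.card (Φ ⊕ {i : Fin (k + 2) // i ≠ 0}) = r := by
    rw [Nat.card_sum, card0, Nat.card_eq_fintype_card, hr]
  have x1 : β (x 1) ≠ 0 := (map_ne_zero β).2 (ne0 hT (Sum.inr ⟨1, one_ne_zero⟩))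
  have s0 : s ≠ 0 := ne0 hU true
  refine FA1.of_gen (FA1.comp hT (hc.symm ▸ hU)) ?_ ?_
  · simp only [Nat.card_sum, card0, Finite.card_option, Nat.card_fin]
  · have g := Se.gr (β.comp α) (fam u ω (fun i => β (x i)) (fun a => β (S a)) s τ)
    generalize gen (β.comp α) (fam u ω (fun i => β (x i)) (fun a => β (S a)) s τ) = F at g ⊢
    have g0 : (β (x 1))⁻¹ ∈ F := g (Sum.inl (Sum.inr none))
    have g1 : β (x 1) ∈ F := inv_inv (β (x 1)) ▸ inv_mem g0
    have g2 : s ∈ F := by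
      have := mul_mem (pow_mem g1 (u + 1)) (g (Sum.inr true))
      rwa [show fam u ω _ _ s τ _ = (β (x 1))⁻¹ ^ (u + 1) * s from rfl, inv_pow,
        mul_inv_cancel_left₀ (pow_ne_zero _ x1)] at this
    rintro ((a | ⟨i, hi⟩) | _ | _)
    · have := mul_mem (zpow_mem g1 (ω a)) (g (Sum.inl (Sum.inl a)))
      rwa [show fam u ω _ _ s τ _ = (β (x 1))⁻¹ ^ ω a * β (S a) from rfl, inv_zpow,
        mul_inv_cancel_left₀ (zpow_ne_zero _ x1)] at this
    · obtain ⟨i, rfl⟩ := Fin.exists_succ_eq.2 hi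
      cases i using Fin.cases with
      | zero => exact g1
      | succ i =>
        have := mul_mem g1 (g (Sum.inl (Sum.inr (some i))))
        rwa [show fam u ω _ _ s τ _ = (β (x 1))⁻¹ * β (x i.succ.succ) from rfl,
          mul_inv_cancel_left₀ x1] at this
    · have := mul_mem (inv_mem g2) (mul_mem g1 (g (Sum.inr false)))
      rwa [show fam u ω _ _ s τ _ = (β (x 1))⁻¹ * (s * τ) from rfl, mul_inv_cancel_left₀ x1,
        inv_mul_cancel_left₀ s0] at this
    · exact g2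

/-- The indices of the row on the hyperplane. -/
def eqv (Φ : Type) (k : ℕ) : Option (Option Φ) ⊕ Fin (k + 1) ≃ Option Φ ⊕ Fin (k + 2) where
  toFun := Sum.elim (fun o => o.elim (Sum.inr 0) Sum.inl) fun i => Sum.inr i.succ
  invFun := Sum.elim (fun o => Sum.inl (some o)) (Fin.cases (Sum.inl none) Sum.inr)
  left_inv := by rintro ((_ | o) | i) <;> rfl
  right_inv := by
    rintro (o | i)
    · rfl
    · cases i using Fin.cases <;> rfl

omit [FW0 K] [WB K] in
/-- The value on the hyperplane. -/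
lemma hyp [KN K] [TA K] {val : ℤ} (hu : 0 < u) (hv : Row.Deg (k := k) (fer K _ u) val)
    (hr : Fintype.card Φ + (k + 1) = r) {θ : QF (j + (r + 1))
      ((fer K (Fin (k + 2)) u).k0 W (Φ := Option Φ) fun s => s.elim (u + 1) ω).tot}
    (hθ : PTh _ (r + 1) φ θ) {y : Fin (k + 2) → M} {A B : M} (y0 : y 0 = 0) (y1 : y 1 = 1)
    (hT : Free j α (Sum.elim (fun o : Option (Option Φ) => o.elim B fun o => o.elim (-A) S)
      fun i : {i : Fin (k + 1) // i ≠ 0} => y i.1.succ)) (hw : W.mem L w) :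
    θ.q M ((y, d.map α w), vv k S A B) = val * φ.a L w := by
  obtain ⟨φ₁, h1, h2⟩ := hθ
  obtain ⟨θ', hθ'⟩ := TA.ex ((fer K (Fin (k + 1)) u).k0 W (Φ := Option (Option Φ))
    fun o => o.elim 1 fun s => s.elim (u + 1) ω) (r := r + 1) (by simp; omega) φ
  have h5 := hv W _ (by simp; omega) φ θ' hθ' L M α (fun i => y i.succ) _ w y1 hT hw
  obtain ⟨φ₂, h3, h4⟩ := hθ'
  have c0 : ∀ {L : Fld K} {x : Fin (k + 1) → L}, x ≠ 0 → (Fin.cons 0 x : Fin (k + 2) → L) ≠ 0 :=
    fun h e => h (funext fun i => congrFun e i.succ)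
  have hf : Mp (PW (Fin (k + 1)) W).S (PW (Fin (k + 2)) W).S fun L b => (Fin.cons 0 b.1, b.2) :=
    ⟨fun _ _ R _ _ _ _ e => ⟨Fin.cases R.zero e.1, e.2⟩, fun _ _ m => ⟨⟨trivial, c0 m.1.2⟩, m.2⟩⟩
  have e := KN.nat ((fer K (Fin (k + 2)) u).k0 W (Φ := Option Φ) fun s => s.elim (u + 1) ω)
    ((fer K (Fin (k + 1)) u).k0 W (Φ := Option (Option Φ))
      fun o => o.elim 1 fun s => s.elim (u + 1) ω) (r := r + 1) (by simp; omega)
    (f := fun L b => (Fin.cons 0 b.1, b.2))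
    ⟨hf, fun L a b _ _ => Prod.ext (funext (Fin.cases (mul_zero a).symm fun _ => rfl)) rfl⟩
    (fun M O b z _ _ hz e => ⟨(fun i => z.1 i.succ, z.2), ⟨⟨trivial, fun h => hz.1.2 (funext
      (Fin.cases (Rel.eq_zero (R := Rel.ofPl O) (e.1 0) rfl) (congrFun h)))⟩, hz.2⟩,
      fun i => e.1 i.succ, e.2⟩)
    (eqv Φ k) (by rintro ((_ | o) | i) <;> rfl) (fun L b μ _ => by
      rcases μ with (_ | o) | i
      · show ((0 : ℕ) : L) = aeval (Fin.cons 0 b.1 : Fin (k + 2) → L) (X 0 ^ u)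
        simp [hu.ne']
      · rfl
      · show aeval b.1 (X i ^ u) = aeval (Fin.cons 0 b.1 : Fin (k + 2) → L) (X i.succ ^ u)
        simp) θ θ' 1 h2 h4
    (fun L b m => by rw [one_mul, h3 L b.1 b.2 m.1.2, h1 L _ b.2 (c0 m.1.2)])
    M (fun i => y i.succ, d.map α w) (vv k S A B)
    ⟨⟨trivial, fun h => one_ne_zero (y1.symm.trans (congrFun h 0))⟩, (W.map_iff α w).2 hw⟩
  have e1 : (Fin.cons 0 fun i => y i.succ : Fin (k + 2) → M) = y :=
    funext (Fin.cases y0.symm fun _ => rfl)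
  have e2 : (fun μ => vv k S A B (eqv Φ k μ)) =
      Sum.elim (fun o : Option (Option Φ) => o.elim B fun o => o.elim (-A) S) 0 := by
    funext μ
    rcases μ with (_ | o) | i
    · simp [vv, eqv]
    · rfl
    · simp [vv, eqv]
  simp only [one_mul, e1, e2] at e
  rw [← e, h5]

open Classical in
/-- The fibre at `0`. -/
lemma zero [KN K] [TA K] {val : ℤ} (hu : 0 < u) (hv : Row.Deg (k := k) (fer K _ u) val)
    (hr : Fintype.card Φ + (k + 1) = r) {θ : QF (j + r) ((fer K (Fin (k + 2)) u).k0 W ω).tot}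
    (hθ : PTh _ r φ θ) {θ₀ : QF (j + (r + 1))
      ((fer K (Fin (k + 2)) u).k0 W (Φ := Option Φ) fun s => s.elim (u + 1) ω).tot}
    (hθ₀ : PTh _ (r + 1) φ θ₀)
    (h0 : x 0 = 1) (hT : Free j α (Sum.elim S fun i : {i : Fin (k + 2) // i ≠ 0} => x i.1))
    (hw : W.mem L w) (hU : Free (j + r) β fun b => bif b then s else τ) :
    ∑ᶠ O : Dv N (j + (r + 1)), (if 0 < O.1.ord τ then (O.1.ord τ : ℂ) * θ₀.r O.1
      ((fun i => β (x i), d.map β (d.map α w)), vv k (fun a => β (S a)) s (s * τ)) else 0) =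
      θ.q M ((x, d.map α w), Sum.elim S 0) + u * (val * φ.a L w) := by
  have x1 : β (x 1) ≠ 0 := (map_ne_zero β).2 (ne0 hT (Sum.inr ⟨1, one_ne_zero⟩))
  have s0 : s ≠ 0 := ne0 hU true
  have t0 : τ ≠ 0 := ne0 hU false
  have r1 : ∀ O : Pl N, O.rd ((β (x 1))⁻¹ * β (x 1)) = 1 := fun O => by
    rw [inv_mul_cancel₀ x1, O.rd_one]
  have c1 : (β (x 1))⁻¹ * β (x 0) = (β (x 1))⁻¹ := by rw [h0, map_one, mul_one]
  have hww : d.map β (d.map α w) = d.map (β.comp α) w := d.map_map _ _ _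
  obtain ⟨O, t, o1, o2, o3, o4, o5⟩ := FA2.zero (i := j + (r + 1)) hU (by simp; omega) false
  obtain ⟨P, t', p1, p2, p3, p4, p5⟩ := FA2.zero (i := j + (r + 1)) (fam_free u ω hr hT hU)
    (by simp; omega) (Sum.inl (Sum.inr none))
  have ne : O ≠ P := fun e => by
    subst e
    exact ((O.1.rd_ne_zero_iff (p1 (Sum.inl (Sum.inr none)))).2
      ⟨inv_ne_zero x1, (inv_inv (β (x 1))).symm ▸ t (x 1)⟩) p3
  rw [finsum_eq_sum_of_support_subset (s := {O, P}), Finset.sum_pair ne]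
  · congr 1
    · rw [show O.1.ord τ = 1 from o2, if_pos one_pos, Int.cast_one, one_mul,
        triv (s := s) (τ := τ) θ₀.toPre h0 t (o1 true) (o1 false), show O.1.rd τ = 0 from o3, mul_zero]
      refine Eq.trans ?_ (TA.free (fer K (Fin (k + 2)) u) ω (u + 1) (by simp; omega) φ θ θ₀ hθ hθ₀ M _
        t.hom (-O.1.rd s) x (d.map α w) S 0 (FA1.of_gen o4 (by simp [cardB]) ?_))
      · congr 3
        funext μ
        rcases μ with o | i
        · rfl
        · simp [vv]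
      · rintro ⟨_ | _, hb⟩
        · exact absurd rfl hb
        · simpa using neg_mem (Se.gr t.hom (fun _ : Unit => -O.1.rd s) ())
    · have un : ∀ b, P.1.ord (fam u ω (fun i => β (x i)) (fun a => β (S a)) s τ (Sum.inr b)) = 0 :=
        fun b => Pl.ord_eq_zero_of_mem' P.2.1 (p1 _)
          ((P.1.rd_ne_zero_iff (p1 _)).1 (ne0 p4 ⟨Sum.inr b, Sum.inr_ne_inl⟩)).2
      have u1 : P.1.ord ((β (x 1))⁻¹ ^ (u + 1) * s) = 0 := un true
      have u2 : P.1.ord ((β (x 1))⁻¹ * (s * τ)) = 0 := un false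
      have u3 : P.1.ord (β (x 1))⁻¹ = 1 := p2
      rw [Pl.ord_mul P.2.1 (pow_ne_zero _ (inv_ne_zero x1)) s0, Pl.ord_pow P.2.1, u3] at u1
      rw [Pl.ord_mul P.2.1 (inv_ne_zero x1) (mul_ne_zero s0 t0), Pl.ord_mul P.2.1 s0 t0, u3] at u2
      have f : Rd P.1 u ω (β (x 1))⁻¹ (fun i => β (x i)) (d.map β (d.map α w)) (fun a => β (S a))
          s τ := ⟨inv_ne_zero x1, Fin.cases (c1.symm ▸ p1 (Sum.inl (Sum.inr none))) (Fin.cases
            ((inv_mul_cancel₀ x1).symm ▸ one_mem _) fun i => p1 (Sum.inl (Sum.inr (some i)))),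
          hww ▸ ((Cd.lift_pl P.1).1 (Cd.lift_triv t' w)).1, fun a => p1 (Sum.inl (Sum.inl a)),
          p1 (Sum.inr true), p1 (Sum.inr false)⟩
      rw [show P.1.ord τ = u by push_cast at u1; omega, if_pos (by exact_mod_cast hu),
        Int.cast_natCast, f.val θ₀.toPre (i := 1) ((r1 P.1).symm ▸ one_ne_zero), rp, hww,
        ((Cd.lift_pl P.1).1 (Cd.lift_triv t' w)).2]
      refine congrArg _ (hyp hu hv hr hθ₀ ((congrArg P.1.rd c1).trans p3) (r1 P.1)
        (FA1.of_gen p4 ?_ ?_) hw)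
      · simp [Nat.card_eq_fintype_card]
        omega
      · rintro ⟨(a | _ | i) | _ | _, hb⟩
        · exact Se.gr _ _ (Sum.inl (some (some a)))
        · exact absurd rfl hb
        · exact Se.gr _ _ (Sum.inr (⟨i.succ, i.succ_ne_zero⟩ : {i : Fin (k + 1) // i ≠ 0}))
        · exact Se.gr _ _ (Sum.inl none)
        · exact neg_mem_iff.1 (Se.gr _ _ (Sum.inl (some none)))
  · intro O' hn
    by_contra hO'
    simp only [Finset.coe_insert, Finset.coe_singleton, Set.mem_insert_iff, Set.mem_singleton_iff,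
      not_or] at hO'
    refine hn ?_
    show ite _ _ _ = _
    split_ifs with h1
    swap
    · rfl
    obtain ⟨h2, h3⟩ := (Pl.ord_pos_iff O'.2.1 t0).1 h1
    refine mul_eq_zero_of_right _ ?_
    by_cases hs : s ∈ O'.1.O
    · obtain ⟨m, lt, hm⟩ := o5 O' hO'.1 (fun b => by cases b; exacts [h2, hs]) h3
      exact int θ₀.toPre h0 _ hs h2 (Se.gr _ (fun b => O'.1.rd (bif b then s else τ)) true)
        (h3 ▸ zero_mem _) (hm.trans_lt (by exact_mod_cast lt))
    by_contra hn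
    obtain ⟨l, l0, f⟩ := live θ₀.toPre hn
    have hc0 : (β (x l))⁻¹ ∈ O'.1.O := by simpa [h0] using f.hx 0
    have hc2 : O'.1.rd (β (x l))⁻¹ = 0 := by_contra fun h => hs (by
      have := mul_mem (pow_mem ((O'.1.rd_ne_zero_iff hc0).1 h).2 (u + 1)) f.hA
      rwa [inv_pow, inv_mul_cancel_left₀ (pow_ne_zero _ f.c0)] at this)
    have rl : O'.1.rd ((β (x l))⁻¹ * β (x l)) = 1 := by rw [inv_mul_cancel₀ l0, O'.1.rd_one]
    have hw' : ∀ {κ : Type} (t : κ → O'.1.res) (i), O'.1.rd (d.co (d.map β (d.map α w)) i) ∈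
        gen (Pl.over_comap (β.comp α) O'.1).resHom t := fun t i => by
      rw [hww, d.co_map]
      exact mem_res _ _ _ _
    by_cases h4 : O'.1.rd ((β (x l))⁻¹ * β (x 1)) = 0
    · have r0 : O'.1.rd ((β (x l))⁻¹ * β (x 0)) = 0 := by rw [h0, map_one, mul_one, hc2]
      obtain ⟨l, rfl⟩ := Fin.exists_succ_eq.2 fun e : l = 0 => one_ne_zero (rl.symm.trans (e ▸ r0))
      have l1 : (0 : Fin (k + 1)) ≠ l := fun e => one_ne_zero (rl.symm.trans (e ▸ h4))
      refine hn ((f.val θ₀.toPre (i := l.succ) (rl.symm ▸ one_ne_zero)).trans ?_)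
      let t : (Φ ⊕ {i : Fin (k + 1) // i ≠ l}) ⊕ Unit → O'.1.res := Sum.elim (Sum.elim
        (fun a => O'.1.rd ((β (x l.succ))⁻¹ ^ ω a * β (S a))) fun i => if i.1 = 0 then
          O'.1.rd ((β (x l.succ))⁻¹ ^ (u + 1) * s) else O'.1.rd ((β (x l.succ))⁻¹ * β (x i.1.succ)))
        fun _ => O'.1.rd ((β (x l.succ))⁻¹ * (s * τ))
      refine low θ₀.toPre (gen (Pl.over_comap (β.comp α) O'.1).resHom t)
        (fun i => ?_) (hw' t)
        (fun a => Se.gr _ t (Sum.inl (Sum.inl a))) ?_ (Se.gr _ t (Sum.inr ()))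
        (tr_lt (n := j + 1) _ _ _ ((FA2.res_le _ _ hT.gL.2.le).trans_lt (by
          exact_mod_cast j.lt_succ_self)) (by simp [Nat.card_eq_fintype_card]; omega))
      · obtain rfl | ⟨i, rfl⟩ := i.eq_zero_or_eq_succ
        · exact Set.mem_of_eq_of_mem r0 (zero_mem _)
        by_cases e : i = 0
        · subst e
          exact Set.mem_of_eq_of_mem h4 (zero_mem _)
        · by_cases e' : i = l
          · subst e'
            exact Set.mem_of_eq_of_mem rl (one_mem _)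
          · simpa [t, e] using Se.gr (Pl.over_comap (β.comp α) O'.1).resHom t
              (Sum.inl (Sum.inr ⟨i, e'⟩))
      · simpa [t] using Se.gr (Pl.over_comap (β.comp α) O'.1).resHom t (Sum.inl (Sum.inr ⟨0, l1⟩))
    · have g := (Rel.ofPl O'.1).inv ⟨f.hx 1, rfl⟩ h4
      have e : ((β (x l))⁻¹ * β (x 1))⁻¹ * (β (x l))⁻¹ = (β (x 1))⁻¹ := by field_simp
      have f' := f.unit g.1 (g.2.symm ▸ inv_ne_zero h4)
      have g' := (Rel.ofPl O'.1).mul g ⟨hc0, hc2⟩
      rw [e] at f' g'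
      obtain ⟨m, lt, hm⟩ := p5 O' hO'.2 (by
        rintro ((a | _ | i) | _ | _)
        exacts [f'.hS a, g'.1, f'.hx _, f'.hB, f'.hA]) (g'.2.trans (mul_zero _))
      have gr := Se.gr (Pl.over_comap (β.comp α) O'.1).resHom
        fun a => O'.1.rd (fam u ω (fun i => β (x i)) (fun a => β (S a)) s τ a)
      refine hn ((f'.val θ₀.toPre (i := 1) ((r1 O'.1).symm ▸ one_ne_zero)).trans ?_)
      exact low θ₀.toPre _ (Fin.cases (c1.symm ▸ gr (Sum.inl (Sum.inr none))) (Fin.cases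
        ((r1 O'.1).symm ▸ one_mem _) fun i => gr (Sum.inl (Sum.inr (some i))))) (hw' _)
        (fun a => gr (Sum.inl (Sum.inl a))) (gr (Sum.inr true)) (gr (Sum.inr false))
        (hm.trans_lt (by exact_mod_cast lt))

end TDa

open TDa in
theorem TD_thm {K : Type} [Field K] [FW0 K] [WB K] [KN K] [HT K] [TA K] [TC K] : TD K where
  step {k u} val hu hv d W Φ _ ω r j hr φ θ hθ L M α x S w h0 hT hw := by
    have hM : Good (j + r) M := by
      have := hT.gM
      rwa [Nat.card_sum, card0, Nat.card_eq_fintype_card, hr] at this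
    obtain ⟨N, β, s, τ, hU⟩ : ∃ (N : Fld K) (β : M →ₐ[K] N) (s τ : N),
        Free (j + r) β fun b => bif b then s else τ :=
      ⟨_, _, frT M Bool true, frT M Bool false, by
        convert FA1.fr_free Bool hM with b
        cases b <;> rfl⟩
    have hc : Fintype.card (Option Φ ⊕ Fin (k + 2)) = r + 1 + 1 := by simp; omega
    obtain ⟨θ₀, hθ₀⟩ := TA.ex ((fer K (Fin (k + 2)) u).k0 W (Φ := Option Φ)
      fun s => s.elim (u + 1) ω) hc φ
    obtain ⟨θ₁, hθ₁⟩ := TA.ex ((fer K (Fin (k + 2)) u).k1 W ω) hc φ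
    have e0 := zero hu hv hr hθ hθ₀ h0 hT hw hU
    have e1 := one hu hr hθ₁ h0 hT hw hU
    obtain ⟨φ₀, a0, b0⟩ := hθ₀
    obtain ⟨φ₁, a1, b1⟩ := hθ₁
    have x0 : β (x 0) = 1 := (congrArg β h0).trans (map_one β)
    obtain ⟨v, h1, h2⟩ := HT.ht ((fer K (Fin (k + 2)) u).k0 W (Φ := Option Φ)
      fun s => s.elim (u + 1) ω) ((fer K (Fin (k + 2)) u).k1 W ω) hc
      (fun L b => Sum.elim (fun o : Option Φ => o.elim b.2 fun _ => 0) fun i => b.1.1 i ^ u)
      (by
        rintro ((_ | a) | i)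
        · exact ⟨fun _ _ _ _ _ _ _ e => e.2, fun L a b _ _ => by simp⟩
        · exact ⟨fun _ _ R _ _ _ _ _ => R.zero, fun L a b _ _ => (mul_zero _).symm⟩
        · exact ⟨fun _ _ _ _ _ _ _ e => Rel.pow (e.1.1 i) u, fun L a b _ _ => by
            show (a * b.1.1 i) ^ u = a ^ ((u : ℤ) + 1 - 1) * b.1.1 i ^ u
            rw [add_sub_cancel_right, zpow_natCast, mul_pow]⟩)
      (fun L b _ => by
        constructor <;> funext μ <;> rcases μ with (_ | a) | i <;> simp [Row.kb, fer])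
      φ₀ θ₀ θ₁ b0 (same a1 a0 ▸ b1) N (fun i => β (x i), d.map β (d.map α w)) τ
      (vv k (fun a => β (S a)) s (s * τ)) (by simpa [add_assoc] using hU.gM)
      ⟨⟨trivial, fun h => one_ne_zero (x0.symm.trans (congrFun h 0))⟩,
        (W.map_iff β _).2 ((W.map_iff α w).2 hw)⟩ (ne0 hU false) (map_one β ▸ ne_of hU false 1)
      (fun h => ne0 hU false (congrFun h (Sum.inl none)))
      (by simp [vv, Fin.sum_univ_succ, x0, mul_comm])
    have e := (e0.symm.trans h1.2).trans (h2.2.symm.trans e1)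
    push_cast
    linear_combination e

end Pool.Agent.Lib.MP_557161_ag.HG.HN
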