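import Pool.Agent.Lib.MP_557161_ag.HN.StV
import Pool.Agent.Lib.MP_557161_ag.HG.FA1

/-!
The contraction with the diagonal: assembly of its laws.
-/

namespace Pool.Agent.Lib.MP_557161_ag.HG.HN

open Pool.Agent.Lib.MP_557161_ag.DL

variable {K : Type} [Field K] {p dd : ℕ} {G : GD K dd} {Q : ℕ}

namespace ZOa

theorem ngz_ngz (L : Fld K) (y : (xz dd).X L) : ngz L (ngz L y) = y := Prod.ext rfl (neg_neg _)

theorem sg_sg (ε : Bool) (L : Fld K) (y : (xz dd).X L) : sg ε L (sg ε L y) = y := by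
  cases ε
  exacts [rfl, ngz_ngz L y]

theorem mem_ngz {L : Fld K} {y : (xz dd).X L} : G.UU.mem L (ngz L y) ↔ G.UU.mem L y :=
  ⟨fun h => ⟨h.1, h.2.1, (neg_sq y.2).symm.trans h.2.2⟩,
    fun h => ⟨h.1, h.2.1, (neg_sq y.2).trans h.2.2⟩⟩

theorem mem_sg (ε : Bool) {L : Fld K} {y : (xz dd).X L} (h : G.UU.mem L y) :
    G.UU.mem L (sg ε L y) := by
  cases ε
  exacts [h, mem_ngz.2 h]

theorem map_sg (ε : Bool) {L M : Fld K} (α : L →ₐ[K] M) (y : (xz dd).X L) :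
    (xz dd).map α (sg ε L y) = sg ε M ((xz dd).map α y) := by
  cases ε
  exacts [rfl, Prod.ext rfl (map_neg α _)]

theorem lift_sg (ε : Bool) {M L : Fld K} {R : Rel M L} {x : (xz dd).X M} {x' : (xz dd).X L}
    (e : (xz dd).lift R.r x x') : (xz dd).lift R.r (sg ε M x) (sg ε L x') := by
  cases ε
  exacts [e, ⟨e.1, Rel.neg e.2⟩]

theorem frb_ngz [Fact p.Prime] [CharP K p] (h : G.Fr p Q) (L : Fld K) (y : (xz dd).X L) :
    frb Q L (ngz L y) = ngz L (frb Q L y) := by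
  obtain ⟨⟨f, rfl⟩, -⟩ := h
  have : CharP L p := charP_of_injective_algebraMap (algebraMap K L).injective p
  exact Prod.ext rfl (map_neg (iterateFrobenius L p f) y.2)

theorem mem_frb [Fact p.Prime] [CharP K p] [XA K dd] (h : G.Fr p Q) {L : Fld K}
    {y : (xz dd).X L} (m : G.UU.mem L y) : G.UU.mem L (frb Q L y) :=
  ⟨⟨trivial, fun i => pow_ne_zero _ (m.1.2 i)⟩, (congrArg (· ^ Q) m.2.1).trans (one_pow Q),
    (pow_right_comm _ _ _).trans ((congrArg (· ^ Q) m.2.2).trans (XA.frob G h L y.1).symm)⟩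

variable {c d : Cd} {S : ASp K c} {W : ASp K d} {j : ℕ}

theorem mp_sg (ε : Bool) : Mp (G.UU.prod S) (G.UU.prod S) fun L x => (sg ε L x.1, x.2) :=
  ⟨fun _ _ _ _ _ _ _ e => ⟨lift_sg ε e.1, e.2⟩, fun _ _ m => ⟨mem_sg ε m.1, m.2⟩⟩

theorem pro_sg (ε : Bool) {g : ∀ L : Fld K, ((xz dd).prod c).X L → d.X L}
    (h : Pro (G.UU.prod S) W g) : Pro (G.UU.prod S) W fun L x => g L (sg ε L x.1, x.2) :=
  fun M O x z hO hx hz e => by
  obtain ⟨x', h1, h2⟩ := h M O (sg ε M x.1, x.2) z hO ⟨mem_sg ε hx.1, hx.2⟩ hz e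
  refine ⟨(sg ε _ x'.1, x'.2), ⟨mem_sg ε h1.1, h1.2⟩, ?_, h2.2⟩
  have := lift_sg ε (R := Rel.ofPl O) h2.1
  rwa [sg_sg] at this

theorem off (Φ : AF j ((G.UU.prod G.UU).prod W)) {L : Fld K} {A B : (xz dd).X L} (w : d.X L)
    (h : ¬ (Good j L ∧ G.UU.mem L A ∧ G.UU.mem L B ∧ W.mem L w)) : Φ.a L ((A, B), w) = 0 := by
  by_contra c
  have h1 := ASp.sp_some _ |>.1 (Φ.supp L _ c).2
  exact h ⟨(Φ.supp L _ c).1, h1.1.1, h1.1.2, h1.2⟩

theorem z_ne [XA K dd] [XG K dd] {L M : Fld K} {α : L →ₐ[K] M} {y : (xz dd).X M}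
    (h : G.GenU j α y) : y.2 ≠ 0 := fun h0 => by
  obtain ⟨M₀, α₀, β, x, -, h1, h2, h3, -⟩ := XG.chart h 0
  refine XA.nsq' G x 0 h1 h3 0 (β.injective ?_)
  have h4 : (fun i => β (x i)) = y.1 := funext fun i => by rw [h2, h.mem.2.1, div_one]
  have h5 : β (MvPolynomial.aeval x G.F) = MvPolynomial.aeval y.1 G.F := by
    rw [← h4]
    exact (MvPolynomial.comp_aeval_apply _ _ _)
  show β _ = β _
  rw [h5, map_pow, map_zero, ← h0]
  exact h.mem.2.2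

variable [X0 dd]

/-- The relation. -/
def AC (G : GD K dd) : CRel G := fun _ _ j φ Φ =>
  ∃ Ψ, G.Con φ Ψ ∧ G.IsAff (j := j + 2 * dd) (1 / 4) Ψ Φ

omit [X0 dd] in
theorem anti [FA1 K] {a : ℂ} {Ψ : QF (j + 2) (G.JT W)} {Φ : AF j ((G.UU.prod G.UU).prod W)}
    (h : G.IsAff a Ψ Φ) (L : Fld K) (A B : (xz dd).X L) (w : d.X L) :
    Φ.a L ((ngz L A, B), w) = -Φ.a L ((A, B), w) ∧
      Φ.a L ((A, ngz L B), w) = -Φ.a L ((A, B), w) := by
  by_cases m : Good j L ∧ G.UU.mem L A ∧ G.UU.mem L B ∧ W.mem L w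
  · obtain ⟨m0, m1, m2, m3⟩ := m
    have f := FA1.fr_free Bool m0
    rw [h L _ _ _ _ _ w f (mem_ngz.2 m1) m2 m3, h L _ _ _ _ _ w f m1 (mem_ngz.2 m2) m3,
      h L _ _ _ _ _ w f m1 m2 m3]
    simp only [Fintype.sum_bool, sg, sn, cond_true, cond_false, ngz_ngz]
    constructor <;> ring
  · rw [off Φ w m, off Φ w (by rwa [mem_ngz]), off Φ w (by rwa [mem_ngz]), neg_zero]
    exact ⟨rfl, rfl⟩

theorem kills [FA1 K] [YN K dd] {φ : AF j W} {Φ} (h : AC G φ Φ) (q : d.ι → Prop)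
    (hq : KlP d q j φ.a) :
    KlP (((xz dd).prod (xz dd)).prod d) (Sum.elim (fun _ => True) q) (j + 2 * dd) Φ.a := by
  obtain ⟨Ψ, h1, h2⟩ := h
  rintro L L₁ L₂ ι₁ ι₂ ⟨⟨A, B⟩, w⟩ k1 k2 k3
  by_cases m : Good (j + 2 * dd) L ∧ G.UU.mem L A ∧ G.UU.mem L B ∧ W.mem L w
  swap
  · exact off Φ _ m
  obtain ⟨m0, m1, m2, m3⟩ := m
  obtain ⟨N, α, T, f⟩ : ∃ (N : Fld K) (α : L →ₐ[K] N) (T : Bool → N), Free (j + 2 * dd) α T :=
    ⟨_, _, _, FA1.fr_free Bool m0⟩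
  have b : ∀ x : L, x ∈ Set.range ι₁ → α x ∈ gen (α.comp ι₁) T := by
    rintro _ ⟨x, rfl⟩
    exact Fa1.left_mem (α.comp ι₁) T x
  have b' : ∀ (ε : Bool) (y : (xz dd).X L), (∀ i, (xz dd).co y i ∈ Set.range ι₁) →
      ∀ i, (xz dd).co ((xz dd).map α (sg ε L y)) i ∈ gen (α.comp ι₁) T := fun ε y hy i => by
    rw [map_sg]
    cases ε
    · exact (xz dd).co_map _ _ _ ▸ b _ (hy i)
    · cases i with
      | inl i => exact b _ (hy (Sum.inl i))
      | inr i => exact neg_mem (b _ (hy (Sum.inr i)))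
  have e : ∀ ε ε', Ψ.q N (G.jp α T (sg ε L A) (sg ε' L B) w) = 0 := fun ε ε' => by
    refine YN.kills h1 q hq N (N.sub (gen (α.comp ι₁) T)) L₂ (gen (α.comp ι₁) T).val (α.comp ι₂) _
      (fun i hi => ?_) (fun i hi => ?_) ?_
    · refine (fun (x : N) (hx : x ∈ gen (α.comp ι₁) T) => (⟨⟨x, hx⟩, rfl⟩ :
        x ∈ Set.range (gen (α.comp ι₁) T).val)) _ ?_
      rcases i with ((i | i) | i) | i
      · exact b' ε' B (fun i => k1 (Sum.inl (Sum.inr i)) trivial) i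
      · exact d.co_map _ _ _ ▸ b _ (k1 (Sum.inr i) hi)
      · show (xz dd).co (G.Γ.scl (T true) ((xz dd).map α (sg ε L A))) i ∈ _
        rw [G.Γ.co_scl]
        exact mul_mem (zpow_mem (Fa1.right_mem _ T true) _)
          (b' ε A (fun i => k1 (Sum.inl (Sum.inl i)) trivial) i)
      · exact Fa1.right_mem _ T false
    · rcases i with ((i | i) | i) | i
      · exact absurd trivial hi
      · obtain ⟨x, hx⟩ := k2 (Sum.inr i) hi
        exact ⟨x, (congrArg α hx).trans (d.co_map _ _ _).symm⟩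
      · exact absurd trivial hi
      · exact absurd trivial hi
    · refine (add_le_add_left (FA1.tr_gen (α.comp ι₁) T) _).trans ?_
      rw [add_right_comm]
      refine (add_le_add_left k3 _).trans (le_of_eq ?_)
      rw [Nat.card_eq_fintype_card, Fintype.card_bool, ← Nat.cast_add]
      rfl
  rw [h2 L _ _ _ _ _ _ f m1 m2 m3]
  simp only [e, mul_zero, Finset.sum_const_zero]

theorem diag [FA1 K] [XA K dd] [XG K dd] [YA K dd] [YT K dd] [ZX K dd] [ZG K dd] [ZP K dd]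
    {φ : AF j W} {Ψ} (h : G.Con φ Ψ) {L M N : Fld K} {α : L →ₐ[K] M} {y : (xz dd).X M}
    (hy : G.GenU j α y) (w : d.X L) (hw : W.mem L w) (β : M →ₐ[K] N) (T : Bool → N)
    (f : Free (j + 2 * dd) β T) :
    Ψ.q N (G.jp β T y y (d.map α w)) - Ψ.q N (G.jp β T (ngz M y) y (d.map α w)) =
      2 * G.n * φ.a L w := by
  obtain ⟨θ₁, h1, h2⟩ := h
  obtain ⟨θ₀, h0⟩ := YT.ex G 0 φ
  obtain ⟨i, hi⟩ : ∃ i, i + 1 = j + 2 * dd := ⟨j + 2 * dd - 1, by have := G.pos; omega⟩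
  obtain ⟨ϖ, h3⟩ := YT.pl (i := i) θ₁ (by omega)
  have h4 : G.IsPl i θ₀.q W ϖ := ⟨fun N N' α T y w k1 k2 k3 k4 => (h3.1 N N' α T y w k1 k2 k3 k4).trans
    (YT.ram h0 h1 _ _ _ _ ((congrArg α k3).trans (map_zero α))).symm, h3.2⟩
  have m := (W.map_iff α w).2 hw
  have f1 : Free (j + 2 * dd) (frα M Unit) fun _ : Unit => frT M Unit () := FA1.fr_free Unit hy.gM
  have e1 := ZX.dg (i := j + 2 * dd) rfl h2 (YA.uu hy.mem) m β T f _ _ f1
  have e2 := ZX.gr (i := i) (by omega) h2 h3 (YA.uu hy.mem) (z_ne hy) m β T (hi ▸ f)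
  have e3 := ZG.deg h0 h1 hi h4 (YA.uu hy.mem) (z_ne hy) m _ _ (hi ▸ f1)
  have e4 := ZP.val h0 hy w hw _ _ f1
  rw [e1, ← e2.2, e3.2, ← e4]
  ring

end ZOa

open ZOa in
theorem ZO_thm [Fact p.Prime] [CharP K p] [FA1 K] [X0 dd] [XA K dd] [XG K dd] [YA K dd] [YT K dd]
    [YD K dd] [YN K dd] [YU K dd] [YL K dd p] [YM K dd p] [YW K dd] [ZX K dd] [ZG K dd] [ZP K dd] :
    ZO K p dd where
  ex G := by
    refine ⟨AC G, fun {d W j} φ => ?_, ?_, ?_, kills, ?_, ?_, ?_⟩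
    · obtain ⟨θ, h1⟩ := YT.ex G 1 φ
      obtain ⟨Ψ, h2⟩ := YD.ex G θ
      obtain ⟨Φ, h3⟩ := YW.aff (j := j + 2 * dd) G (1 / 4) Ψ
      exact ⟨Φ, Ψ, ⟨θ, h1, h2⟩, h3⟩
    · rintro d W j φ Φ ⟨Ψ, -, h⟩ L A B w
      exact anti h L A B w
    · rintro d d' W W' j φ φ' Φ Φ' ⟨Ψ, h1, h2⟩ ⟨Ψ', h3, h4⟩ g hg hp χ hχ L A B w hw
      by_cases m : Good (j + 2 * dd) L ∧ G.UU.mem L A ∧ G.UU.mem L B
      · have f := FA1.fr_free Bool m.1
        rw [h2 L _ _ _ _ _ _ f m.2.1 m.2.2 (hg.mem L w hw), h4 L _ _ _ _ _ _ f m.2.1 m.2.2 hw]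
        simp only [GD.jp, YN.nat h1 h3 hg hp χ hχ _ _ _ _ _ ((W'.map_iff (frα L Bool) w).2 hw),
          Fintype.sum_bool, hg.reg.nat (frα L Bool) hw]
        ring
      · rw [off Φ _ fun h => m ⟨h.1, h.2.1, h.2.2.1⟩, off Φ' _ fun h => m ⟨h.1, h.2.1, h.2.2.1⟩,
          mul_zero]
    · rintro c d S W j φ Φ ⟨Ψ, h1, h2⟩ g hg hp L M α y hy R u hR hu
      have f := FA1.fr_free Bool hy.gM
      have e : ∀ ε ε', Ψ.q _ (G.jp (frα M Bool) (frT M Bool) (sg ε M ((xz dd).map α R)) (sg ε' M y)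
          (g M (y, c.map α u))) = φ.a L (g L (sg ε' L (sg ε L R), u)) := fun ε ε' => by
        have := YU.unit h1 (hg.comp (mp_sg ε')) (pro_sg ε' hp) (XG.neg hy ε') (sg ε L R) u
          (mem_sg ε hR) hu _ _ f
        simp only [sg_sg] at this
        rw [← map_sg]
        exact this
      rw [h2 M _ _ _ _ _ _ f ((G.UU.map_iff α R).2 hR) hy.mem
        (hg.mem M _ ⟨hy.mem, (S.map_iff α u).2 hu⟩)]
      simp only [e]
      simp only [Fintype.sum_bool, sg, sn, cond_true, cond_false, ngz_ngz]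
      ring
    · rintro d W j φ Φ ⟨Ψ, h1, h2⟩ Q hQ hF L M α y hy w hw
      have f := FA1.fr_free Bool hy.gM
      have m := (W.map_iff α w).2 hw
      have e : ∀ ε ε', sg ε M (frb Q M y) = sg (xor ε ε') M (frb Q M (sg ε' M y)) := fun ε ε' => by
        cases ε <;> cases ε' <;> simp [sg, frb_ngz hF, ngz_ngz]
      have e1 : ∀ ε ε', Ψ.q _ (G.jp (frα M Bool) (frT M Bool) (sg ε M (frb Q M y)) (sg ε' M y)
          (d.map α w)) = G.fx Q (xor ε ε') * φ.a L w := fun ε ε' => by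
        rw [e ε ε']
        exact YL.loop h1 hQ hF (XG.neg hy ε') w hw _ _ _ f
      have e2 : ∀ ε ε', Ψ.q _ (G.jp (frα M Bool) (frT M Bool) (sg ε M y) (sg ε' M (frb Q M y))
          (d.map α w)) = G.fx Q (xor ε' ε) * φ.a L w := fun ε ε' => by
        rw [e ε' ε]
        exact YM.loop h1 hQ hF (XG.neg hy ε) w hw _ _ _ f
      rw [h2 M _ _ _ _ _ _ f (mem_frb hF hy.mem) hy.mem m,
        h2 M _ _ _ _ _ _ f hy.mem (mem_frb hF hy.mem) m]
      simp only [e1, e2]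
      simp only [Fintype.sum_bool, sn, cond_true, cond_false, Bool.xor_self, Bool.xor_false,
        Bool.false_xor]
      constructor <;> ring
    · rintro d W j φ Φ ⟨Ψ, h1, h2⟩ L M α y hy w hw
      have f := FA1.fr_free Bool hy.gM
      have e1 := diag h1 hy w hw _ _ f
      have e2 := diag h1 (XG.neg hy true) w hw _ _ f
      rw [h2 M _ _ _ _ _ _ f hy.mem hy.mem ((W.map_iff α w).2 hw)]
      simp only [Fintype.sum_bool, sg, sn, cond_true, cond_false, ngz_ngz] at e2 ⊢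
      linear_combination e1 / 4 + e2 / 4

end Pool.Agent.Lib.MP_557161_ag.HG.HN
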