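import Pool.Agent.Lib.MP_557161_ag.HN.StV
import Pool.Agent.Lib.MP_557161_ag.HN.XW
import Pool.Agent.Lib.MP_557161_ag.HN.XI
import Pool.Agent.Lib.MP_557161_ag.HN.ZO
import Pool.Agent.Lib.MP_557161_ag.HG.XQ

/-!
From linear forms on cycles of the square to functionals on the part over the torus.
-/

namespace Pool.Agent.Lib.MP_557161_ag.HG.HN

open Pool.Agent.Lib.MP_557161_ag.DL MvPolynomial
open Pool.Agent.Lib.MP_60ec62_ag.DL (Cyc)
open Bridge (vv dg FF PP)

variable {K : Type} [Field K] {p dd : ℕ}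

namespace XQb

variable {G : GD K dd} {L M : Fld K}

lemma nu_map (κ : M →ₐ[K] L) (y : (xz dd).X M) :
    (fun s => κ (G.nu y s)) = G.nu ((xz dd).map κ y) := funext fun s => by
  rcases s with _ | m
  exacts [rfl, map_prod κ (fun i => y.1 (m i)) Finset.univ]

lemma ff_top {α : Fld.base K →ₐ[K] M} {y : (xz dd).X M} (h0 : y.1 0 = 1)
    (h : gen α ((xz dd).co y) = ⊤) (u : G.σ → M) : FF u (G.nu y) = ⊤ := by
  have he : 0 < G.e := by
    have := G.hu
    omega
  have h1 : G.nu y (some fun _ => 0) = 1 := by simp [GD.nu, h0]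
  have h2 : ∀ s, G.nu y s ∈ FF u (G.nu y) := fun s =>
    IntermediateField.subset_adjoin _ _ (Or.inr ⟨(s, some fun _ => 0), by
      simp only [h1, div_one]⟩)
  rw [eq_top_iff, ← h]
  refine Fa1.gen_le (fun a => ?_) ?_
  · rw [Subsingleton.elim α (Algebra.ofId K M)]
    exact IntermediateField.algebraMap_mem _ a
  · rintro (i | i)
    · have h3 := h2 (some (Function.update (fun _ => 0) ⟨0, he⟩ i))
      have h4 : G.nu y (some (Function.update (fun _ => 0) ⟨0, he⟩ i)) = y.1 i := by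
        show ∏ j, y.1 (Function.update (fun _ => (0 : Vr dd)) (⟨0, he⟩ : Fin G.e) i j) = _
        rw [Finset.prod_eq_single ⟨0, he⟩ (fun j _ hj => by
          rw [Function.update_of_ne hj, h0]) (fun e => absurd (Finset.mem_univ _) e),
          Function.update_self]
      rwa [h4] at h3
    · exact h2 none

lemma exists_gen {y : (xz dd).X L} (hL : Good (2 * dd) L) (hy : G.UU.mem L y)
    (h : dg (xf L fun _ : Bool => y) ≠ 0) : ∃ (M : Fld K) (α : Fld.base K →ₐ[K] M) (β : M →ₐ[K] L)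
      (y₀ : (xz dd).X M), G.GenU 0 α y₀ ∧ (xz dd).map β y₀ = y := by
  obtain ⟨α, β, T, -, hT, ht⟩ := Fa1.exists_sub (L := .base K) (Algebra.ofId K L) ((xz dd).co y)
  have e1 : (xz dd).map β ((xz dd).mk' T) = y :=
    (xz dd).inj (funext fun i => by rw [(xz dd).co_map, (xz dd).co_mk, hT])
  have hF : (xf L fun _ : Bool => y) ≤ gen (L := .base K) (Algebra.ofId K L) ((xz dd).co y) :=
    IntermediateField.adjoin_le_iff.2 (by
      rintro _ ⟨⟨t, i⟩, rfl⟩
      exact Fa1.right_mem _ ((xz dd).co y) (Sum.inl i))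
  have h1 := tr_le (L := L.sub (xf L fun _ : Bool => y)) (L' := L.sub _)
    (IntermediateField.inclusion hF)
  rw [XWa.tr_of_dg hL h] at h1
  exact ⟨_, α, β, (xz dd).mk' T, ⟨good_base, (zero_add (2 * dd)).symm ▸
    hL.down (ι := β) (le_antisymm ((tr_le β).trans hL.2.le) h1),
    (G.UU.map_iff β _).1 (e1.symm ▸ hy), by rw [(xz dd).co_mk, ht]⟩, e1⟩

lemma gr_val [XG K dd] [XI K p dd] (Y : Sm K G.σ) (hY : Y.I = dpI G.e G.F) {Q : ℕ}
    (hQ : G.Fr p Q) (b : Cyc (MvPolynomial (G.σ ⊕ G.σ) K) →ₗ[ℚ] ℚ) {y : (xz dd).X L}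
    (hL : Good (2 * dd) L) (hy : G.UU.mem L y) (h : dg (xf L fun _ : Bool => y) ≠ 0) :
    2 * ((dg (FF (G.nu (frb Q L y)) (G.nu y)) : ℚ) *
      b (Finsupp.single (PP (G.nu (frb Q L y)) (G.nu y)) 1)) =
      dg (xf L fun _ : Bool => y) * b (Y.grC Q) := by
  obtain ⟨M, α, β, y₀, hU, rfl⟩ := exists_gen hL hy h
  have h2 := XG.dgr hU ∅
  have h1 : ∀ F : IntermediateField K (Fld.base K), dg F = 1 := fun F =>
    deg_of_surj (L := (Fld.base K).sub F) (L' := .base K) fun x => ⟨⟨x, F.algebraMap_mem x⟩, rfl⟩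
  rw [Set.image_empty, Set.empty_union, h1] at h2
  have h3 : (xf M fun _ : Bool => y₀) = IntermediateField.adjoin K (Set.range y₀.1) :=
    congrArg (IntermediateField.adjoin K) ((Prod.snd_surjective (α := Bool)).range_comp y₀.1)
  have e2 : frb Q L ((xz dd).map β y₀) = (xz dd).map β (frb Q M y₀) :=
    Prod.ext (funext fun _ => (map_pow β _ _).symm) (map_pow β _ _).symm
  have e3 : G.nu ((xz dd).map β (frb Q M y₀)) = _ := (nu_map β (frb Q M y₀)).symm
  have e4 : G.nu ((xz dd).map β y₀) = _ := (nu_map β y₀).symm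
  have e5 : dg (xf L fun _ : Bool => (xz dd).map β y₀) = 2 * 1 * deg β := by
    rw [XWb.xf_map β fun _ => y₀, Bridge.dg_map, h3, h2]
  have e6 : dg (FF (G.nu (frb Q L ((xz dd).map β y₀))) (G.nu ((xz dd).map β y₀))) = 1 * deg β := by
    rw [e2, e3, e4]
    exact (congrArg dg (Bridge.FF_map β _ _)).trans (by
      rw [Bridge.dg_map, ff_top hU.mem.2.1 hU.top, Bridge.dg_top])
  have e7 : PP (G.nu (frb Q L ((xz dd).map β y₀))) (G.nu ((xz dd).map β y₀)) =
      PP (G.nu (frb Q M y₀)) (G.nu y₀) := by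
    rw [e2, e3, e4]
    exact Bridge.PP_map β _ _
  rw [XI.gr G Y hY Q hQ hU, e5, e6, e7]
  push_cast
  ring

lemma cmp [X0 dd] [YA K dd] (O : Pl M) {E : (G.Γ.amb K).pt M} (h : G.CC.sp.mem E) :
    G.CC.sp.mem ((G.Γ.amb K).red O E) := by
  obtain ⟨y, hy, rfl⟩ := h
  obtain ⟨i, y', h1, h2, h3⟩ := YA.cmp O hy
  exact ⟨y', h2, (G.Γ.red_pt (inv_ne_zero h1) h3 (G.CC.nz _ _ h2)).symm⟩

lemma ver [WA K] (G : GD K dd) : ∃ m : Mor G.CC.sp (Lines K G.σ), ∀ (L : Fld K) (y : (xz dd).X L),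
    G.Cn L y → m.f (L := L) (G.Γ.pt y) = Submodule.span L {G.nu y} :=
  WA.line G.CC G.e (fun _ y => G.nu y) (fun s => ⟨fun _ _ _ _ _ _ _ e => by
      rcases s with _ | m
      exacts [e.2, Rel.prod Finset.univ fun i _ => e.1 (m i)],
    fun _ a y _ _ => (congrFun (XIn.nu_scl G a y) s).trans (by rw [zpow_natCast]; rfl)⟩)
    fun _ _ h => XIn.nu_ne G h.1

end XQb

theorem XQ_thm [Base K] [Fact p.Prime] [CharP K p] [FA3 K] [WA K] [X0 dd] [XA K dd] [XG K dd]
    [XI K p dd] [XV K p dd] [YA K dd] [YQ K dd] : XQ K p dd where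
  brg G Y hY q hq b hb := by
    classical
    have hI : Homog Y.I := wHomog_iff_homog.1 Y.hI
    let φ₀ : Fn (dd * Nat.card Bool) ((DL.XS Y.I hI).prod (DL.XS Y.I hI)) :=
      { v := vv b hI _
        supp := fun L y e => by_contra fun e' => e (if_neg e')
        ext := Bridge.vv_ext b hI
        low := Bridge.vv_low b hI
        rat := fun M y f hM hy hf => (Bridge.vv_rat b hI (fun z g h γ k1 k2 k3 k4 k5 k6 => hb
          (Submodule.mem_sup_left (Submodule.mem_sup_left (Submodule.subset_span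
            ⟨z, g, h, γ, k1, k2, k3, k4, k5, k6, rfl⟩)))) (fun Z hZ => hb (Submodule.mem_sup_left
              (Submodule.mem_sup_right (Submodule.subset_span
                ⟨Z, by rintro _ ⟨s, t, rfl⟩; exact hZ s t, rfl⟩)))) y hM hy hf).out }
    have k0 : φ₀.Kills := Bridge.vv_kills b hI fun a c k1 k2 k3 k4 k5 => hb (Submodule.mem_sup_right
      (Submodule.mem_iSup_of_mem _ (Submodule.subset_span ⟨a, c, k1, k2, k3, k4, k5, rfl⟩)))
    obtain ⟨ν, hν⟩ := XQb.ver G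
    have hx : ∀ {L : Fld K} {E : (G.Γ.amb K).pt L}, G.CC.sp.mem E → (DL.XS Y.I hI).mem (ν.f E) := by
      rintro L _ ⟨y, hy, rfl⟩
      exact ⟨G.nu y, XIn.nu_ne G hy.1, hY ▸ XI.zl (p := p) G L y hy.2, hν L y hy⟩
    let m : Mor (G.CC.sp.prod G.CC.sp) ((DL.XS Y.I hI).prod (DL.XS Y.I hI)) :=
      ⟨fun y => (ν.f y.1, ν.f y.2), fun _ h => ⟨hx h.1, hx h.2⟩,
        fun ι y h => Prod.ext (ν.nat ι y.1 h.1) (ν.nat ι y.2 h.2),
        fun O y hO h h' => Prod.ext (ν.cont O y.1 hO h.1 h'.1) (ν.cont O y.2 hO h.2 h'.2)⟩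
    have hm : m.Proper := fun O _ _ h _ => ⟨XQb.cmp O h.1, XQb.cmp O h.2⟩
    have k1 : (φ₀.pull m hm).Kills := fun L L₁ L₂ ι₁ ι₂ y z h => by
      by_contra e
      have h1 := ((φ₀.pull m hm).supp _ _ e).2
      exact e ((Fn.pull_of_mem _ _ _ h1).trans ((congrArg (φ₀.v L) (Prod.ext
        (ν.nat ι₁ y ((G.CC.sp.map_iff ι₁ y).1 h1.1))
        (ν.nat ι₂ z ((G.CC.sp.map_iff ι₂ z).1 h1.2)))).trans (k0 L L₁ L₂ ι₁ ι₂ _ _ h)))
    have an := YQ.anti G _ k1
    have hv : ∀ (L : Fld K) (A B : (xz dd).X L), Good (dd * Nat.card Bool) L → G.Cn L A → G.Cn L B →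
        (φ₀.pull m hm).v L (G.Γ.pt A, G.Γ.pt B) =
          Bridge.wt b (Submodule.span L {G.nu A}) (Submodule.span L {G.nu B}) :=
      fun L A B h hA hB => by
        have h' : (G.CC.sp.prod G.CC.sp).mem (L := L) (G.Γ.pt A, G.Γ.pt B) :=
          ⟨⟨A, hA, rfl⟩, B, hB, rfl⟩
        rw [← hν L A hA, ← hν L B hB]
        exact (Fn.pull_of_mem m hm φ₀ h').trans (if_pos ⟨h, m.mem _ h'⟩)
    generalize φ₀.pull m hm = φ₁ at k1 an hv
    obtain ⟨φ, h1⟩ := YQ.aff G (XQa.cx φ₁) fun L y E hy =>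
      ⟨(congrArg Rat.cast (an L y E hy).1).trans (Rat.cast_neg _),
        (congrArg Rat.cast (an L y E hy).2).trans (Rat.cast_neg _)⟩
    replace h1 : ∀ (L : Fld K) (x : Bool → (xz dd).X L), (∀ t, G.UU.mem L (x t)) →
        φ.a L x = (φ₁.v L (G.Γ.pt (x true), G.Γ.pt (x false)) : ℂ) := h1
    have h0 : ∀ (L : Fld K) (x : Bool → (xz dd).X L), ¬ (∀ t, G.UU.mem L (x t)) → φ.a L x = 0 :=
      fun L x h => by_contra fun e => h ((G.UU.pi Bool).sp_some.1 (φ.supp L _ e).2)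
    refine ⟨φ, fun i L x => ?_, fun L L₁ L₂ ι₁ ι₂ w a1 a2 a3 => ?_, fun j L P hL hU hP => ?_⟩
    · have c1 : (∀ t, G.UU.mem L (Function.update x i (ngz L (x i)) t)) ↔
          ∀ t, G.UU.mem L (x t) := forall_congr' fun t => by
        by_cases e : t = i
        · rw [e, Function.update_self, ZOa.mem_ngz]
        · rw [Function.update_of_ne e]
      by_cases h : ∀ t, G.UU.mem L (x t)
      · rw [h1 L x h, h1 L _ (c1.2 h)]
        cases i
        · rw [Function.update_self, Function.update_of_ne (by decide),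
            (an L _ _ (YA.uu (h false))).2, Rat.cast_neg]
        · rw [Function.update_self, Function.update_of_ne (by decide),
            (an L _ _ (YA.uu (h true))).1, Rat.cast_neg]
      · rw [h0 L x h, h0 L _ fun e => h (c1.1 e), neg_zero]
    · by_cases h : ∀ t, G.UU.mem L (w t)
      · choose A hA using fun i => a1 (true, i) rfl
        choose B hB using fun i => a2 (false, i) Bool.false_ne_true
        have e1 : w true = (xz dd).map ι₁ ((xz dd).mk' A) :=
          (xz dd).inj (funext fun i => by rw [(xz dd).co_map, (xz dd).co_mk, hA])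
        have e2 : w false = (xz dd).map ι₂ ((xz dd).mk' B) :=
          (xz dd).inj (funext fun i => by rw [(xz dd).co_map, (xz dd).co_mk, hB])
        rw [h1 L w h, e1, e2, ← G.Γ.map_pt, ← G.Γ.map_pt, k1 L L₁ L₂ ι₁ ι₂ _ _ a3, Rat.cast_zero]
      · exact h0 L w h
    · obtain ⟨y, rfl⟩ : ∃ y, P = fun _ => y :=
        ⟨P true, funext fun t => by cases t; exacts [hP true, rfl]⟩
      by_cases h : dg (xf L fun _ : Bool => y) = 0
      · rw [XWb.low0 φ.toPre q _ hL hU h, h, Nat.cast_zero, zero_mul]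
      have hQ := XV.pow hq j
      have c1 := ZOa.mem_frb hQ (hU true)
      have e1 : cfg q (fun b => bif b then j else 0) L (fun _ => y) false = y :=
        Prod.ext (funext fun _ => pow_one _) (pow_one _)
      have e2 : cfg q (fun b => bif b then j else 0) L (fun _ => y) true = frb (q ^ j) L y := rfl
      have c3 : φ₁.v L (G.Γ.pt (frb (q ^ j) L y), G.Γ.pt y) = _ :=
        (hv L _ _ hL (YA.uu c1) (YA.uu (hU true))).trans
          (Bridge.wt_span b (XIn.nu_ne G (YA.uu c1).1) (XIn.nu_ne G (YA.uu (hU true)).1))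
      have c4 := XQb.gr_val Y hY hQ b (by simpa [mul_comm] using hL) (hU true) h
      rw [← c3] at c4
      rw [h1 L _ fun t => by cases t; exacts [e1.symm ▸ hU true, c1], e1, e2, ← mul_div_assoc,
        eq_div_iff two_ne_zero, mul_comm]
      exact_mod_cast c4

end Pool.Agent.Lib.MP_557161_ag.HG.HN
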