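import Pool.Agent.Lib.MP_557161_ag.HN.StV
import Pool.Agent.Lib.MP_557161_ag.HN.XG

/-!
Points of the double cover.
-/

namespace Pool.Agent.Lib.MP_557161_ag.HG.HN

open Pool.Agent.Lib.MP_557161_ag.DL MvPolynomial

variable {K : Type} [Field K] {dd : ℕ}

namespace Ya

variable {G : GD K dd} {L M N : Fld K}

lemma int (O : Pl M) {y : (xz dd).X M} (h : G.Cn0 M y) (hy : IntV O y.1) : y.2 ∈ O.O := by
  have h1 : y.2 ^ 2 ∈ O.O :=
    h ▸ (Rel.aeval (R := Rel.ofPl O) (x' := rdV O y.1) (fun i => ⟨hy i, rfl⟩) G.F).1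
  refine (O.O.mem_or_inv_mem y.2).elim id fun h2 => ?_
  by_cases h0 : y.2 = 0
  · rw [h0]; exact zero_mem _
  · have := mul_mem h1 h2
    rwa [pow_two, mul_inv_cancel_right₀ h0] at this

lemma cmp (O : Pl M) {y : (xz dd).X M} (h : G.Cn M y) : ∃ i y', y.1 i ≠ 0 ∧
    G.Cn O.res y' ∧ (xz dd).lift (Rel.ofPl O).r (G.Γ.scl (y.1 i)⁻¹ y) y' := by
  obtain ⟨i, hi⟩ := Finite.exists_max fun i => O.O.valuation (y.1 i)
  have h0 : y.1 i ≠ 0 := fun e => h.1 (funext fun l => by
    have := hi l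
    rwa [e, map_zero, le_zero_iff, map_eq_zero] at this)
  have h1 : IntV O (G.Γ.scl (y.1 i)⁻¹ y).1 := fun l => by
    show (y.1 i)⁻¹ * y.1 l ∈ O.O
    rw [← ValuationSubring.valuation_le_one_iff, map_mul, map_inv₀,
      inv_mul_le_one₀ (zero_lt_iff.2 ((map_ne_zero _).2 h0))]
    exact hi l
  have h2 := h.2.scl (y.1 i)⁻¹
  have e : (xz dd).lift (Rel.ofPl O).r (G.Γ.scl (y.1 i)⁻¹ y)
      (rdV O (G.Γ.scl (y.1 i)⁻¹ y).1, O.rd (G.Γ.scl (y.1 i)⁻¹ y).2) :=
    ⟨fun l => ⟨h1 l, rfl⟩, int O h2 h1, rfl⟩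
  refine ⟨i, _, h0, ⟨fun h3 => ?_, Rel.eq (Rel.pow e.2 2) (Rel.aeval e.1 _) h2⟩, e⟩
  exact one_ne_zero ((Rel.eq (Rel.ofPl O).one (e.1 i) (inv_mul_cancel₀ h0).symm).trans
    (congrFun h3 i))

/-- The first order Taylor formula. -/
lemma tay {σ : Type} [Fintype σ] (f : MvPolynomial σ K) :
    ∃ H : MvPolynomial ((σ ⊕ σ) ⊕ Unit) K, ∀ (A : Type) [CommRing A] [Algebra K A] (y v : σ → A)
      (t : A), t * aeval (Sum.elim (Sum.elim y v) fun _ => t) H = aeval (y + t • v) f - aeval y f ∧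
      aeval (Sum.elim (Sum.elim y v) fun _ => (0 : A)) H = ∑ i, aeval y (pderiv i f) * v i := by
  classical
  induction f using MvPolynomial.induction_on with
  | C c => exact ⟨0, fun A _ _ y v t => by simp⟩
  | add p q hp hq =>
    obtain ⟨H, h⟩ := hp
    obtain ⟨H', h'⟩ := hq
    refine ⟨H + H', fun A _ _ y v t => ?_⟩
    simp only [map_add, add_mul, Finset.sum_add_distrib, mul_add, (h A y v t).1, (h' A y v t).1,
      (h A y v t).2, (h' A y v t).2, and_true]
    ring
  | mul_X p i hp =>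
    obtain ⟨H, h⟩ := hp
    refine ⟨H * (X (.inl (.inl i)) + X (.inr ()) * X (.inl (.inr i))) +
      rename (fun s => .inl (.inl s)) p * X (.inl (.inr i)), fun A _ _ y v t => ?_⟩
    have e : ∀ s : A, aeval (Sum.elim (Sum.elim y v) fun _ : Unit => s)
        (rename (fun s => .inl (.inl s)) p) = aeval y p := fun s => aeval_rename _ _ _
    constructor
    · simp only [map_add, map_mul, aeval_X, e, Sum.elim_inl, Sum.elim_inr, Pi.add_apply,
        Pi.smul_apply, smul_eq_mul]
      linear_combination (y i + t * v i) * (h A y v t).1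
    · simp only [map_add, map_mul, aeval_X, e, Sum.elim_inl, Sum.elim_inr, (h A y v t).2,
        Derivation.leibniz, smul_eq_mul, pderiv_X, Pi.single_apply, add_mul,
        Finset.sum_add_distrib, apply_ite (aeval y), map_zero, mul_ite, ite_mul, mul_one,
        mul_zero, zero_mul, add_zero, Finset.sum_ite_eq, Finset.mem_univ, if_true, Finset.sum_mul]
      rw [add_comm]
      congr 1
      exact Finset.sum_congr rfl fun l _ => by ring

lemma hom_smul {A σ : Type} [CommRing A] [Algebra K A] {f : MvPolynomial σ K} {n : ℕ}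
    (hf : f.IsHomogeneous n) (c : A) (x : σ → A) : aeval (c • x) f = c ^ n * aeval x f := by
  rw [f.as_sum, map_sum, map_sum, Finset.mul_sum]
  refine Finset.sum_congr rfl fun m hm => ?_
  have := hf (mem_support_iff.1 hm)
  rw [aeval_monomial, aeval_monomial, ← this, Finsupp.weight_apply, Finsupp.prod, Finsupp.prod,
    Finsupp.sum, ← Finset.prod_pow_eq_pow_sum, mul_left_comm, ← Finset.prod_mul_distrib]
  simp [mul_pow]

lemma tay_hom {σ : Type} {f : MvPolynomial σ K} {k : ℕ} (hf : f.IsHomogeneous k)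
    {H : MvPolynomial ((σ ⊕ σ) ⊕ Unit) K}
    (h : ∀ (y v : σ → Polynomial L) (t : Polynomial L),
      t * aeval (Sum.elim (Sum.elim y v) fun _ => t) H = aeval (y + t • v) f - aeval y f)
    (a t : L) (y v : σ → L) : aeval (Sum.elim (Sum.elim (a • y) (a • v)) fun _ => t) H =
      a ^ k * aeval (Sum.elim (Sum.elim y v) fun _ => t) H := by
  have h1 := h (Polynomial.C a • fun i => Polynomial.C (y i))
    (Polynomial.C a • fun i => Polynomial.C (v i)) Polynomial.X
  rw [smul_comm, ← smul_add, hom_smul hf, hom_smul hf,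
    ← mul_sub, ← h, mul_left_comm, mul_right_inj' Polynomial.X_ne_zero] at h1
  have h2 := congrArg ((Polynomial.aeval t).restrictScalars K) h1
  rw [map_mul, map_pow, comp_aeval_apply, comp_aeval_apply] at h2
  convert h2 using 3
  · funext s
    rcases s with (s | s) | s <;> simp
  · simp
  · congr 1
    funext s
    rcases s with (s | s) | s <;> simp

lemma taylor [X0 dd] (G : GD K dd) :
    ∃ H : MvPolynomial ((Option (Vr dd) ⊕ Option (Vr dd)) ⊕ Unit) K,
    ∀ (L : Fld K) (y y' : (xz dd).X L) (v : Option (Vr dd) → L) (t : L),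
      (vz y = vz y' + t • v → t * aeval (Sum.elim (Sum.elim (vz y') v) fun _ => t) H =
        (y.2 ^ 2 - aeval y.1 G.F) - (y'.2 ^ 2 - aeval y'.1 G.F)) ∧
      aeval (Sum.elim (Sum.elim (vz y') v) fun _ => (0 : L)) H = ∑ μ, G.row (1 : L) y' μ * v μ ∧
      ∀ a : L, a ≠ 0 → aeval (Sum.elim (Sum.elim (vz (G.Γ.scl a y')) fun μ => a ^ G.ωK μ * v μ)
        fun _ => t) H = a ^ (2 * G.e) * aeval (Sum.elim (Sum.elim (vz y') v) fun _ => t) H := by
  obtain ⟨H, h⟩ := tay G.F
  refine ⟨2 * X (.inl (.inl none)) * X (.inl (.inr none)) + X (.inr ()) * X (.inl (.inr none)) ^ 2 -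
    rename (Sum.map (Sum.map some some) id) H, fun L y y' v t => ?_⟩
  have e : ∀ (y : (xz dd).X L) (v : Option (Vr dd) → L) (t : L),
      aeval (Sum.elim (Sum.elim (vz y) v) fun _ : Unit => t)
        (2 * X (.inl (.inl none)) * X (.inl (.inr none)) + X (.inr ()) * X (.inl (.inr none)) ^ 2 -
          rename (Sum.map (Sum.map some some) id) H) = 2 * y.2 * v none + t * v none ^ 2 -
        aeval (Sum.elim (Sum.elim y.1 fun i => v (some i)) fun _ => t) H := fun y v t => by
    simp only [map_sub, map_add, map_mul, map_pow, aeval_X, map_ofNat, aeval_rename]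
    congr 3
    funext s
    rcases s with (s | s) | s <;> rfl
  refine ⟨fun hy => ?_, ?_, fun a ha => ?_⟩
  · have h1 : y.1 = y'.1 + t • fun i => v (some i) := funext fun i => congrFun hy (some i)
    have h2 : y.2 = y'.2 + t * v none := congrFun hy none
    rw [e, mul_sub, (h L _ _ t).1, ← h1, h2]
    ring
  · rw [e, (h L _ _ t).2, Fintype.sum_option]
    simp only [GD.row, Option.elim, neg_mul, Finset.sum_neg_distrib]
    ring
  · have h1 : (fun i => a ^ G.ωK (some i) * v (some i)) = a • fun i => v (some i) :=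
      funext fun i => congrArg (· * v (some i)) (zpow_one a)
    have h2 : a ^ G.ωK none = a ^ G.e := zpow_natCast a _
    rw [e, e, h1, h2]
    show 2 * (a ^ G.e * y'.2) * _ + _ - aeval (Sum.elim (Sum.elim (a • y'.1) _) _) H = _
    rw [tay_hom G.homF fun y v t => (h _ y v t).1]
    ring

lemma red {R : Type} [CommRing R] (F : MvPolynomial (Vr dd) R)
    (f : MvPolynomial (Option (Vr dd)) R) : ∃ (a b : MvPolynomial (Vr dd) R) (g : _),
      f = rename some a + rename some b * X none + (X none ^ 2 - rename some F) * g := by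
  induction f using MvPolynomial.induction_on with
  | C c => exact ⟨C c, 0, 0, by simp⟩
  | add p q hp hq =>
    obtain ⟨a, b, g, rfl⟩ := hp
    obtain ⟨a', b', g', rfl⟩ := hq
    refine ⟨a + a', b + b', g + g', ?_⟩
    simp only [map_add]
    ring
  | mul_X p s hp =>
    obtain ⟨a, b, g, rfl⟩ := hp
    cases s with
    | none =>
      refine ⟨b * F, a, rename some b + g * X none, ?_⟩
      simp only [map_mul]
      ring
    | some i =>
      refine ⟨a * X i, b * X i, g * X (some i), ?_⟩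
      simp only [map_mul, rename_X]
      ring

lemma kerC [XA K dd] {i : ℕ} {α : L →ₐ[K] M} {y : (xz dd).X M} (hL : Good i L)
    (hM : Good (i + (2 * dd + 1)) M) (h : G.Cn0 M y) (ht : gen α (vz y) = ⊤)
    (f : MvPolynomial (Option (Vr dd)) L) (hf : eval₂ α.toRingHom (vz y) f = 0) :
    X none ^ 2 - rename some (MvPolynomial.map (algebraMap K L) G.F) ∣ f := by
  obtain ⟨α₀, β, x, hc, hx, ht₀⟩ := Fa1.exists_sub α y.1
  have hs : y.2 ^ 2 = β (aeval x G.F) := by
    rw [Xg.map_aeval, funext hx]; exact h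
  have hg : Gen β y.2 := by
    rw [← Xg.gen_one, eq_top_iff, ← ht]
    refine Fa1.gen_le (fun a => ?_) ?_
    · rw [← show β (α₀ a) = α a from AlgHom.congr_fun hc a]; exact Fa1.left_mem β _ _
    · rintro (_ | l)
      · exact Fa1.right_mem β (fun _ : Unit => y.2) ()
      · show y.1 l ∈ _
        rw [← hx l]; exact Fa1.left_mem β _ _
  have hF : Free i α₀ x := by
    refine ⟨hL, ?_, ht₀⟩
    rw [Nat.card_eq_fintype_card, Fintype.card_fin]
    exact hM.down (ι := β) ((Xg.fin_sq hs hg).tr_eq.symm.trans hM.2)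
  have h1 : ∀ P : MvPolynomial (Vr dd) L, eval₂ α.toRingHom y.1 P = 0 → P = 0 := fun P hP =>
    by_contra fun h0 => (map_ne_zero β).2 (Fa1.ne hF P h0) (by
      rw [Fa1.map_ev, hc, funext hx]; exact hP)
  have h2 : eval₂ α.toRingHom y.1 (MvPolynomial.map (algebraMap K L) G.F) = y.2 ^ 2 := by
    rw [show y.2 ^ 2 = _ from h, eval₂_map, aeval_def]
    congr 1
    exact RingHom.ext fun c => α.commutes c
  have h3 : ∀ P : MvPolynomial (Vr dd) L,
      eval₂ α.toRingHom (vz y) (rename some P) = eval₂ α.toRingHom y.1 P :=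
    fun P => eval₂_rename _ _ _ _
  obtain ⟨a, b, g, rfl⟩ := red (MvPolynomial.map (algebraMap K L) G.F) f
  simp only [eval₂_add, eval₂_mul, eval₂_sub, eval₂_pow, eval₂_X, h3, h2] at hf
  have h4 : a ^ 2 - b ^ 2 * MvPolynomial.map (algebraMap K L) G.F = 0 := h1 _ (by
    simp only [eval₂_mul, eval₂_sub, eval₂_pow, h2]
    have e : vz y none = y.2 := rfl
    rw [e] at hf
    linear_combination (eval₂ α.toRingHom y.1 a - eval₂ α.toRingHom y.1 b * y.2) * hf)
  rw [sub_eq_zero] at h4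
  obtain rfl : b = 0 := by
    by_contra hb
    obtain ⟨c, rfl⟩ := (IsIntegrallyClosed.pow_dvd_pow_iff two_ne_zero).1 ⟨_, h4⟩
    rw [mul_pow, mul_right_inj' (pow_ne_zero 2 hb)] at h4
    exact XA.nsq G L c h4
  obtain rfl : a = 0 := pow_eq_zero_iff two_ne_zero |>.1 (by simpa using h4)
  exact ⟨g, by simp⟩

lemma genC {j : ℕ} {α : L →ₐ[K] M} {y : (xz dd).X M} (h : G.GenU j α y) (β : M →ₐ[K] N) (b t : N)
    (hN : Good (j + (2 * dd + 1) + 1) N) (hb : b ≠ 0) (ht : gen β ![b, t] = ⊤) :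
    G.GenC j (β.comp α) (G.Γ.scl b ((xz dd).map β y)) t := by
  refine ⟨h.gL, hN, GD.Cn0.scl ?_ b, ?_⟩
  · show β y.2 ^ 2 = aeval (fun i => β (y.1 i)) G.F
    rw [← Xg.map_aeval, ← map_pow, h.mem.2.2]
  set T : Option (Vr dd) ⊕ Unit → N :=
    Sum.elim (vz (G.Γ.scl b ((xz dd).map β y))) fun _ : Unit => t
  have h1 : ∀ i, b * β (y.1 i) ∈ gen (β.comp α) T := fun i =>
    Fa1.right_mem (β.comp α) T (.inl (some i))
  have h2 : b ∈ gen (β.comp α) T := by
    have := h1 0
    rwa [h.mem.2.1, map_one, mul_one] at this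
  have h3 : gen α ((xz dd).co y) ≤ (gen (β.comp α) T).comap β := by
    refine Fa1.gen_le (fun a => Fa1.left_mem (β.comp α) T a) ?_
    rintro (i | i)
    · have := mul_mem (inv_mem h2) (h1 i)
      rwa [inv_mul_cancel_left₀ hb] at this
    · have h4 : b ^ G.e * β y.2 ∈ gen (β.comp α) T := Fa1.right_mem (β.comp α) T (.inl none)
      have := mul_mem (inv_mem (pow_mem h2 G.e)) h4
      rwa [inv_mul_cancel_left₀ (pow_ne_zero _ hb)] at this
  rw [h.top] at h3
  rw [eq_top_iff, ← ht]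
  refine Fa1.gen_le (fun a => h3 IntermediateField.mem_top) fun i => ?_
  fin_cases i
  · exact h2
  · exact Fa1.right_mem (β.comp α) T (.inr ())

end Ya

theorem YA_thm [X0 dd] [XA K dd] : YA K dd where
  cmp := Ya.cmp
  int := Ya.int
  uu h := ⟨fun e => h.1.2 0 (congrFun e 0), h.2.2⟩
  taylor := Ya.taylor
  kerC := Ya.kerC
  genC := Ya.genC

end Pool.Agent.Lib.MP_557161_ag.HG.HN
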