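import Pool.Agent.Lib.MP_557161_ag.HN.StV

/-!
The specialisation to the normal cone of the diagonal.
-/

namespace Pool.Agent.Lib.MP_557161_ag.HG.HN

open Pool.Agent.Lib.MP_557161_ag.DL MvPolynomial

namespace YD1

variable {K : Type} [Field K] {dd : ℕ} {d : Cd} {G : GD K dd}

/-- The inverse of `vz`. -/
def uz {L : Type} (u : Option (Vr dd) → L) : (xz dd).X L := (fun i => u (some i), u none)

lemma vz_uz {L : Type} (u : Option (Vr dd) → L) : vz (uz u) = u :=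
  funext fun μ => by cases μ <;> rfl

lemma vz_rel {M L : Fld K} {R : Rel M L} {y : (xz dd).X M} {y' : (xz dd).X L}
    (e : (xz dd).lift R.r y y') (μ : Option (Vr dd)) : R.r (vz y μ) (vz y' μ) := by
  cases μ
  exacts [e.2, e.1 _]

lemma vz_scl {L : Fld K} (a : L) (y : (xz dd).X L) (μ : Option (Vr dd)) :
    vz (G.Γ.scl a y) μ = a ^ G.ωK μ * vz y μ := by
  cases μ with
  | none => exact congrArg (· * y.2) (zpow_natCast a G.e).symm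
  | some i => exact congrArg (· * y.1 i) (zpow_one a).symm

/-- The value of the equation of the deformation space. -/
noncomputable abbrev ev (H : MvPolynomial ((Option (Vr dd) ⊕ Option (Vr dd)) ⊕ Unit) K)
    {L : Fld K} (y' : (xz dd).X L) (v : Option (Vr dd) → L) (t : L) : L :=
  aeval (Sum.elim (Sum.elim (vz y') v) fun _ => t) H

variable {H : MvPolynomial ((Option (Vr dd) ⊕ Option (Vr dd)) ⊕ Unit) K}
  (hH : ∀ (L : Fld K) (y y' : (xz dd).X L) (v : Option (Vr dd) → L) (t : L),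
    (vz y = vz y' + t • v → t * ev H y' v t =
      (y.2 ^ 2 - aeval y.1 G.F) - (y'.2 ^ 2 - aeval y'.1 G.F)) ∧
    ev H y' v 0 = ∑ μ, G.row (1 : L) y' μ * v μ ∧
    ∀ a : L, a ≠ 0 → ev H (G.Γ.scl a y') (fun μ => a ^ G.ωK μ * v μ) t =
      a ^ (2 * G.e) * ev H y' v t) (W : ASp K d)
include hH

lemma hom : Hom (((G.B1 W).pu (.vec G.ωK)).pu (.triv .one)) (2 * G.e : ℕ)
    fun _ x => ev H x.1.1.1 x.1.2 x.2 where
  reg _ _ _ _ _ _ _ e := Rel.aeval (by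
    rintro ((μ | μ) | μ)
    exacts [vz_rel e.1.1.1 μ, e.1.2 μ, e.2]) H
  hom L a x h0 _ := by
    rw [zpow_natCast]
    exact (hH L x.1.1.1 x.1.1.1 x.1.2 x.2).2.2 a h0

/-- The deformation space. -/
noncomputable def DD : QS K (((G.Γ1 d).prod (.vec G.ωK)).prod (.triv .one)) :=
  QS.zer _ (hom hH W)

lemma hs : Hom (DD hH W) 0 fun _ x => x.2 :=
  ⟨fun _ _ _ _ _ _ _ e => e.2, fun _ _ _ _ _ => by rw [zpow_zero, one_mul]⟩

/-- The open part of the deformation space. -/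
noncomputable def DU : QS K (((G.Γ1 d).prod (.vec G.ωK)).prod (.triv .one)) :=
  (DD hH W).sub ((DD hH W).S.opn (fun _ x => x.2 ≠ 0) fun _ _ _ _ _ _ _ e h => Rel.ne_zero e.2 h)
    (fun _ _ m => m.1) fun L a x h0 m => ⟨(DD hH W).inv L a x h0 m.1, m.2⟩

variable [X0 dd]

lemma mem0 {L : Fld K} {x : (((xz dd).prod d).prod (.vec (Option (Vr dd)))).X L} :
    ((DD hH W).zer (hs hH W)).mem L (x, 0) ↔ (G.kb W 1).tot.mem L x := by
  have e : ev H x.1.1 x.2 0 = ∑ μ, G.row ((1 : ℕ) : L) x.1.1 μ * x.2 μ := by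
    rw [Nat.cast_one]; exact (hH L x.1.1 x.1.1 x.2 0).2.1
  exact ⟨fun m => ⟨m.1.1.1, e.symm.trans m.1.2⟩, fun m => ⟨⟨⟨m.1, trivial⟩, e.trans m.2⟩, rfl⟩⟩

lemma mem1 {L : Fld K} {x : ((((xz dd).prod d).prod (.vec (Option (Vr dd)))).prod .one).X L}
    (m : ((DD hH W).zer (hs hH W)).mem L x) : (G.kb W 1).tot.mem L x.1 := by
  obtain ⟨x, t⟩ := x
  obtain rfl : t = 0 := m.2
  exact (mem0 hH W).1 m

variable [WB K]

lemma term {j : ℕ} {θ : Pre j (G.kb W 1).tot.sp} {θ' : Pre j ((DD hH W).zer (hs hH W)).sp}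
    (h : ∀ L x, ((DD hH W).zer (hs hH W)).mem L x → θ'.q L x = θ.q L x.1)
    {M : Fld K} {O : Pl M} (o : O.IsDVR) (x : (((xz dd).prod d).prod (.vec (Option (Vr dd)))).X M)
    {t : M} (h0 : t ≠ 0) :
    (O.ord t : ℂ) * θ'.r O (x, t) = if 0 < O.ord t then (O.ord t : ℂ) * θ.r O x else 0 := by
  have A : θ'.r O (x, t) ≠ 0 → 0 < O.ord t ∧ θ'.r O (x, t) = θ.r O x := by
    intro h1
    obtain ⟨i, x', -, i0, e, m, e'⟩ := WB.r_ne θ' h1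
    refine ⟨(Pl.ord_pos_iff o h0).2 ⟨e.2.1, e.2.2.trans m.2⟩, ?_⟩
    rw [e', h _ _ m]
    exact (WB.r_eq θ (inv_ne_zero i0) e.1 (QS.nz _ _ _ (mem1 hH W m))).symm
  split_ifs with h1
  · congr 1
    by_cases h2 : θ.r O x = 0
    · by_contra h3
      exact h3 (A (h2 ▸ h3)).2
    · obtain ⟨i, x', -, i0, e, m, e'⟩ := WB.r_ne θ h2
      have m' := (mem0 hH W).2 m
      rw [e', WB.r_eq θ' (x := (x, t)) (x' := (x', 0)) (inv_ne_zero i0)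
        ⟨e, (Pl.ord_pos_iff o h0).1 h1⟩ (QS.nz _ _ _ m'), h _ _ m']
  · by_contra h2
    exact h1 (A (right_ne_zero_of_mul h2)).1

lemma ex [WC K] {j : ℕ} (θ : QF j (G.kb W 1).tot) : ∃ Ψ, G.IsDf θ Ψ := by
  have hf : Mp ((DD hH W).zer (hs hH W)).S (G.kb W 1).tot.S fun _ x => x.1 :=
    ⟨fun _ _ _ _ _ _ _ e => e.1, fun _ _ m => mem1 hH W m⟩
  have hg : Mp (G.kb W 1).tot.S ((DD hH W).zer (hs hH W)).S fun _ x => (x, 0) :=
    ⟨fun _ _ R _ _ _ _ e => ⟨e, R.zero⟩, fun _ _ m => (mem0 hH W).2 m⟩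
  obtain ⟨φ, hφ⟩ := WB.pull (S := (DD hH W).zer (hs hH W)) ⟨hf, fun _ _ _ _ _ => rfl⟩
    (Pro.of_left hg hf fun _ _ m => Prod.ext rfl m.2.symm) θ
  obtain ⟨ψ, hψ⟩ := WC.cart (hs hH W) φ
  obtain ⟨ψ', hψ'⟩ := WB.res (DU hH W).sp ψ (fun _ _ ⟨x, m, e⟩ => ⟨x, m.1, e⟩) fun L y h => by
    obtain ⟨x, rfl⟩ := Wt.pt_surj _ y
    obtain ⟨g, m⟩ := WB.mem ψ.toPre h
    refine ⟨x, ⟨m, fun h0 => h ?_⟩, rfl⟩
    have := (hψ L x 1 g m one_ne_zero fun h1 => absurd h0 h1).2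
    rw [← show _ = ψ.v L _ from this]
    refine finsum_eq_zero_of_forall_eq_zero fun O => ?_
    rw [Wt.ow, Pl.ord_eq_zero_of_mem one_ne_zero (one_mem _) (by rw [inv_one]; exact one_mem _),
      zero_mul, sub_zero, Int.cast_zero, zero_mul]
  have hf' : Mp (G.JT W).S (DU hH W).S fun _ x =>
      ((x.1.1, x.2⁻¹ • (vz x.1.2 - vz x.1.1.1)), x.2) := by
    refine ⟨fun _ _ R _ _ _ m' e => ⟨⟨e.1.1, fun μ => R.mul (R.inv e.2 m'.2)
      (Rel.sub (vz_rel e.1.2 μ) (vz_rel e.1.1.1 μ))⟩, e.2⟩,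
      fun L x m => ⟨⟨⟨⟨m.1.1, trivial⟩, trivial⟩, ?_⟩, m.2⟩⟩
    have := (hH L x.1.2 x.1.1.1 (x.2⁻¹ • (vz x.1.2 - vz x.1.1.1)) x.2).1 (by
      rw [smul_inv_smul₀ m.2, add_sub_cancel])
    rw [sub_eq_zero.2 m.1.2.2, sub_eq_zero.2 m.1.1.1.2, sub_self] at this
    exact (mul_eq_zero.1 this).resolve_left m.2
  have hg' : Mp (DU hH W).S (G.JT W).S fun _ x =>
      ((x.1.1, uz (vz x.1.1.1 + x.2 • x.1.2)), x.2) := by
    refine ⟨fun _ _ R _ _ _ _ e => ⟨⟨e.1.1, fun i => R.add (e.1.1.1.1 i) (R.mul e.2 (e.1.2 _)),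
      R.add e.1.1.1.2 (R.mul e.2 (e.1.2 _))⟩, e.2⟩,
      fun L x m => ⟨⟨m.1.1.1.1, trivial, ?_⟩, m.2⟩⟩
    have := (hH L _ x.1.1.1 x.1.2 x.2).1 (vz_uz _)
    rw [show ev H x.1.1.1 x.1.2 x.2 = 0 from m.1.2, mul_zero, sub_eq_zero.2 m.1.1.1.1.1.2,
      sub_zero] at this
    exact sub_eq_zero.1 this.symm
  obtain ⟨Ψ, hΨ⟩ := WB.pull (S := G.JT W) (T := DU hH W) ⟨hf', fun L a x _ _ =>
    Prod.ext (Prod.ext rfl (funext fun μ => by
      show x.2⁻¹ * (vz (G.Γ.scl a x.1.2) μ - vz (G.Γ.scl a x.1.1.1) μ) =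
        a ^ G.ωK μ * (x.2⁻¹ * (vz x.1.2 μ - vz x.1.1.1 μ))
      rw [vz_scl, vz_scl]
      ring)) rfl⟩
    (Pro.of_left hg' hf' fun L x m => Prod.ext (Prod.ext rfl (by
      show uz (vz x.1.1.1 + x.2 • x.2⁻¹ • (vz x.1.2 - vz x.1.1.1)) = x.1.2
      rw [smul_inv_smul₀ m.2, add_sub_cancel]
      rfl)) rfl) ψ'
  refine ⟨Ψ, fun M y' y w t g m1 m2 m3 t0 => ?_⟩
  have m : (G.JT W).mem M (((y', w), y), t) := ⟨⟨⟨m1, m2⟩, trivial, m3⟩, t0⟩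
  have := hψ M _ t g (hf'.mem M _ m).1 t0 fun _ => rfl
  simp only [Wt.ow, zero_mul, sub_zero] at this
  rw [funext fun O : Dv M j => term hH W hφ O.2.1 _ t0] at this
  exact ⟨this.1, this.2.trans ((hΨ M _ m).trans (hψ' M _)).symm⟩

end YD1

theorem YD_thm {K : Type} [Field K] {dd : ℕ} [X0 dd] [WB K] [WC K] [YA K dd] : YD K dd where
  ex G _ W _ θ := (YA.taylor G).elim fun _ hH => YD1.ex hH W θ

end Pool.Agent.Lib.MP_557161_ag.HG.HN
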