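import Pool.Agent.Lib.MP_557161_ag.HN.StV
import Pool.Agent.Lib.MP_557161_ag.HG.YK

/-!
The intersection with the diagonal is natural and vanishes on exterior products.
-/

namespace Pool.Agent.Lib.MP_557161_ag.HG.HN

open Pool.Agent.Lib.MP_557161_ag.DL YKp

namespace YNp

variable {K : Type} [Field K] [WB K]

lemma red_zero {c : Cd} {Γ : Wt c} {D : QS K Γ} {j : ℕ} (φ : Pre j D.sp) {q : c.ι → Prop}
    (hq : Γ.Ad q) (hk : KlP c q j φ.q) {L L₁ : Fld K} {ι : L₁ →ₐ[K] L} {w : c.X L}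
    (hw : Spl q (j + 1) ι w) {O : Pl L} (hO : ¬ Pl.Triv ι O) : φ.r O w = 0 := by
  obtain ⟨L₂, ι₂, k1, k2, k3⟩ := hw
  by_contra n
  apply n
  obtain ⟨i, x', hi, -, e, -, e'⟩ := WB.r_ne φ n
  obtain ⟨a, ha⟩ := k1 i (by_contra fun n => one_ne_zero ((Γ.one i hi).symm.trans (hq i n)))
  obtain ⟨L₃, ι₃, k4, k5, k6⟩ := Spl.red (w := Γ.scl (c.co w i)⁻¹ w) ⟨L₂, ι₂, fun l hl => by
    obtain ⟨b, hb⟩ := k1 l hl
    exact ⟨a⁻¹ ^ Γ.ω l * b, by rw [Γ.co_scl, map_mul, map_zpow₀, map_inv₀, ha, hb]⟩,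
    fun l hl => by simpa only [Γ.co_scl, hq l hl, zpow_zero, one_mul] using k2 l hl, k3⟩ hO
  rw [e', ← ((Cd.lift_pl O).1 e).2]
  exact hk _ _ _ _ ι₃ _ k4 k5 k6

variable {dd : ℕ} [X0 dd] {G : GD K dd} {d d' : Cd} {W : ASp K d} {W' : ASp K d'} {j : ℕ}

lemma red_nat (θ : QF j (G.kb W 1).tot) (θ' : QF j (G.kb W' 1).tot)
    {g : ∀ L : Fld K, d'.X L → d.X L} (h1 : Mp W' W g) (h2 : Pro W' W g) (χ : ℂ)
    (h : ∀ (L : Fld K) y (w : d'.X L) v, W'.mem L w →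
      θ'.q L ((y, w), v) = χ * θ.q L ((y, g L w), v))
    {M : Fld K} {O : Pl M} (hO : O.IsDVR) (y : (xz dd).X M) {w : d'.X M} (hw : W'.mem M w)
    (v : Option (Vr dd) → M) : θ'.r O ((y, w), v) = χ * θ.r O ((y, g M w), v) := by
  have key : ∀ (a : M) (y₁ : (xz dd).X O.res) (w₁ : d'.X O.res) (v₁ : Option (Vr dd) → O.res),
      a ≠ 0 → G.Cn O.res y₁ → W'.mem O.res w₁ → (xz dd).lift (Rel.ofPl O).r (G.Γ.scl a y) y₁ →
      d'.lift (Rel.ofPl O).r w w₁ →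
      (Cd.vec (Option (Vr dd))).lift (Rel.ofPl O).r ((Wt.vec G.ωK).scl a v) v₁ →
      θ'.r O ((y, w), v) = χ * θ.r O ((y, g M w), v) := by
    intro a y₁ w₁ v₁ a0 m1 m2 e1 e2 e3
    obtain ⟨i, hi⟩ := G.CC.nz _ _ m1
    rw [WB.r_eq θ'.toPre (x' := ((y₁, w₁), v₁)) a0 ⟨⟨e1, e2⟩, e3⟩ ⟨Sum.inl (Sum.inl i), hi⟩,
      WB.r_eq θ.toPre (x' := ((y₁, g _ w₁), v₁)) a0 ⟨⟨e1, h1.reg _ hw m2 e2⟩, e3⟩
        ⟨Sum.inl (Sum.inl i), hi⟩]
    exact h _ _ _ _ m2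
  by_cases n' : θ'.r O ((y, w), v) = 0
  · by_cases n : θ.r O ((y, g M w), v) = 0
    · rw [n, n', mul_zero]
    · obtain ⟨i, x, -, i0, e, m, -⟩ := WB.r_ne θ.toPre n
      obtain ⟨w₁, m₁, e₁⟩ := h2 M O w x.1.2 hO hw m.1.1.2 e.1.2
      exact key _ _ w₁ _ (inv_ne_zero i0) m.1.1.1 m₁ e.1.1 e₁ e.2
  · obtain ⟨i, x, -, i0, e, m, -⟩ := WB.r_ne θ'.toPre n'
    exact key _ _ _ _ (inv_ne_zero i0) m.1.1.1 m.1.1.2 e.1.1 e.1.2 e.2

end YNp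

open YNp in
theorem YN_thm {K : Type} [Field K] {dd : ℕ} [X0 dd] [WB K] [YT K dd] : YN K dd where
  nat := by
    rintro G d d' W W' j φ φ' Ψ Ψ' ⟨θ, a1, a2⟩ ⟨θ', b1, b2⟩ g h1 h2 χ h L y' y t w hw
    by_cases m : Good (j + (2 * dd + 1) + 1) L ∧ G.Cn L y' ∧ G.Cn0 L y ∧ t ≠ 0
    · obtain ⟨m1, m2, m3, m4⟩ := m
      have s := a2 L y' y (g L w) t m1 m2 (h1.mem _ _ hw) m3 m4
      have s' := b2 L y' y w t m1 m2 hw m3 m4
      rw [← s.2, ← s'.2, mul_finsum]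
      refine finsum_congr fun O => ?_
      beta_reduce
      split_ifs
      · rw [red_nat θ θ' h1 h2 χ (YT.nat a1 b1 h1 h2 χ h) O.2.1 y' hw, mul_left_comm]
      · rw [mul_zero]
    · have e : Ψ.q L (((y', g L w), y), t) = 0 := by_contra fun n =>
        let ⟨k, k'⟩ := WB.mem Ψ.toPre n
        m ⟨k, k'.1.1.1, k'.1.2.2, k'.2⟩
      have e' : Ψ'.q L (((y', w), y), t) = 0 := by_contra fun n =>
        let ⟨k, k'⟩ := WB.mem Ψ'.toPre n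
        m ⟨k, k'.1.1.1, k'.1.2.2, k'.2⟩
      rw [e, e', mul_zero]
  kills := by
    rintro G d W j φ Ψ ⟨θ, a1, a2⟩ q hk L L₁ L₂ ι₁ ι₂ ⟨⟨⟨y', w⟩, y⟩, t⟩ k1 k2 k3
    by_contra h0
    obtain ⟨g, m⟩ := WB.mem Ψ.toPre h0
    have t0 : t ≠ 0 := m.2
    refine h0 (hasS_zero (a2 L y' y w t g m.1.1.1 m.1.1.2 m.1.2.2 t0) fun O => ?_)
    split_ifs with hp
    · have ht : t ∈ ι₁.fieldRange := k1 (Sum.inr ()) trivial
      refine mul_eq_zero_of_right _ (red_zero θ.toPre (ι := ι₁) ?_ (YT.kills a1 q hk)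
        ⟨L₂, ι₂, ?_, ?_, k3⟩ fun hO => ?_)
      · rintro ((i | i) | i) hi
        exacts [absurd trivial hi, rfl, absurd trivial hi]
      · rintro ((i | i) | i) hi
        · exact k1 (Sum.inl (Sum.inl (Sum.inl i))) trivial
        · exact k1 (Sum.inl (Sum.inl (Sum.inr i))) hi
        · show t⁻¹ * (vz y i - vz y' i) ∈ ι₁.fieldRange
          refine mul_mem (inv_mem ht) (sub_mem ?_ ?_)
          · cases i
            exacts [k1 (Sum.inl (Sum.inr (Sum.inr ()))) trivial,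
              k1 (Sum.inl (Sum.inr (Sum.inl _))) trivial]
          · cases i
            exacts [k1 (Sum.inl (Sum.inl (Sum.inl (Sum.inr ())))) trivial,
              k1 (Sum.inl (Sum.inl (Sum.inl (Sum.inl _)))) trivial]
      · rintro ((i | i) | i) hi
        exacts [absurd trivial hi, k2 (Sum.inl (Sum.inl (Sum.inr i))) hi, absurd trivial hi]
      · obtain ⟨s, rfl⟩ := ht
        exact hp.ne' (Pl.ord_eq_zero_of_mem t0 (hO s) (map_inv₀ ι₁ s ▸ hO _))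
    · rfl

end Pool.Agent.Lib.MP_557161_ag.HG.HN
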