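import Pool.Agent.Lib.MP_557161_ag.HN.YP1

/-!
The place of the blow-up of a rational point.
-/

namespace Pool.Agent.Lib.MP_557161_ag.HG.HN

open Pool.Agent.Lib.MP_557161_ag.DL MvPolynomial

variable {K : Type} [Field K] {dd : ℕ} {G : GD K dd} {L M : Fld K} {α : L →ₐ[K] M}

variable (G) in
/-- The equation of the cone. -/
noncomputable def YPH : MvPolynomial (Option (Vr dd)) K := X none ^ 2 - rename some G.F

lemma YP_cn {y : (xz dd).X L} (h : G.Cn0 L y) : aeval (vz y) (YPH G) = 0 := by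
  rw [YPH, map_sub, map_pow, aeval_X, aeval_rename]
  exact sub_eq_zero.2 h

lemma YP_row (α : L →ₐ[K] M) (y : (xz dd).X L) (s : Option (Vr dd)) :
    G.row (1 : M) ((xz dd).map α y) s = α (aeval (vz y) (pderiv s (YPH G))) := by
  cases s with
  | none =>
    rw [YPH, map_sub, pderiv_eq_zero_of_notMem_vars (f := rename some G.F)
      fun h => by simpa using vars_rename _ _ h]
    simp [GD.row, vz, map_ofNat]
  | some i =>
    rw [YPH, map_sub, pderiv_rename (Option.some_injective _), map_sub, aeval_rename, map_sub]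
    simp only [GD.row, Option.elim_some]
    rw [show (vz y ∘ some) = y.1 from rfl, ← aeval_mapV α y.1]
    simp [pderiv_X]
    rfl

lemma YP_trans [FA1 K] {j : ℕ} {L' : Fld K} {α₁ : L →ₐ[K] L'} {α' : L' →ₐ[K] M} {y : (xz dd).X M}
    {t : L'} (hy : G.GenC j (α'.comp α₁) y (α' t)) (g : Gen α₁ t) :
    gen α' (vz y) = ⊤ ∧ Trans' α₁ t := by
  have top : gen α' (vz y) = ⊤ := top_unique (hy.top ▸ YP_le (fun a => YP_gl α' _ _) fun s => by
    cases s
    exacts [YP_gr α' _ _, YP_gl α' _ _])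
  refine ⟨top, by_contra fun e => ?_⟩
  let x : Vr dd → M.sub (gen α' y.1) := fun i => ⟨y.1 i, YP_gr α' _ i⟩
  have h1 : Gen (L := M.sub (gen α' y.1)) (gen α' y.1).val y.2 :=
    YP_gen top (fun c => ⟨⟨_, YP_gl α' _ c⟩, rfl⟩) fun s => by
      cases s
      exacts [⟨0, .inr (zero_add _)⟩, ⟨x _, .inl rfl⟩]
  have h2 := (h1.fin fun e' => Polynomial.X_pow_sub_C_ne_zero two_pos (aeval x G.F) (e' _ (by
    rw [Polynomial.eval₂_sub, Polynomial.eval₂_X_pow, Polynomial.eval₂_C, sub_eq_zero]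
    exact hy.mem.trans (aeval_mapV (L := M.sub (gen α' y.1)) (gen α' y.1).val x G.F)))).tr_eq
  have h3 := FA1.tr_gen α' y.1
  rw [← h2, hy.gM.2, (g.fin e).tr_eq, hy.gL.2, ← Nat.cast_add, Nat.cast_le] at h3
  simp at h3

theorem YP_thm [FA1 K] [FA2 K] [X0 dd] [YA K dd] [XH K] : YP K dd where
  pt {G j L M α y t} hy R hR v hv := by
    obtain ⟨i, hi⟩ := X0.sm G L R.1 hR.1
    obtain ⟨μ, hn⟩ : ∃ μ, aeval (vz R) (pderiv μ (YPH G)) ≠ 0 :=
      ⟨some i, fun e => hi (neg_eq_zero.1 ((YP_row (.id K L) R (some i)).trans e))⟩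
    obtain ⟨L', α₁, α', t', rfl, rfl, g1⟩ := exists_gen α t
    obtain ⟨top, tr⟩ := YP_trans hy g1
    have hF₁ : Free j α₁ fun _ : Unit => t' := FA1.one.2 ⟨hy.gL, tr, g1⟩
    have t0 : t' ≠ 0 := map_zero α₁ ▸ tr.ne 0
    have t1 := (map_ne_zero α').2 t0
    have gL : Good (j + 1) L' := hy.gL.succ tr g1
    have gM : Good (j + 1 + (2 * dd + 1)) M := Nat.add_right_comm _ _ _ ▸ hy.gM
    have cN : Nat.card {ν // ν ≠ μ} = 2 * dd + 1 := by simp
    have ea : ∀ P, aeval (fun s => α₁ (vz R s)) P = α₁ (aeval (vz R) P) := aeval_mapV α₁ _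
    have hD : ∀ s, vz y s = α' (α₁ (vz R s)) + α' (-t') * v s := fun s => by
      have : vz ((xz dd).map (α'.comp α₁) R) s = α' (α₁ (vz R s)) := by cases s <;> rfl
      rw [hv, Pi.smul_apply, Pi.sub_apply, this, map_neg, smul_eq_mul, neg_mul,
        mul_inv_cancel_left₀ t1]
      ring
    have poly := fun {M₀ : Fld K} {α₀ : L' →ₐ[K] M₀} {β : M₀ →ₐ[K] M} e U hU =>
      YP_poly (YP_cn hy.mem) top (fun f hf => by
        simpa only [YPH, map_sub, map_pow, map_X, map_rename] using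
          YA.kerC gL gM hy.mem top f hf)
        (by rw [ea, YP_cn hR.2, map_zero]) (by rw [ea]; exact (map_ne_zero _).2 hn)
        (neg_ne_zero.2 t0) hD (α₀ := α₀) (β := β) e (U := U) hU
    let u : {ν // ν ≠ μ} → M := fun ν => v ν
    obtain ⟨M₀, α₀, β, U, rfl, hU, hF⟩ := FA1.sub α' u gL (by
      obtain ⟨x, h, -, h1, -, -, h2, h3, -⟩ := poly (M₀ := M.sub (gen α' u))
        (α₀ := α'.codRestrict (gen α' u).toSubalgebra (YP_gl α' u)) (β := (gen α' u).val) rfl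
        (fun ν => ⟨u ν, YP_gr α' u ν⟩) fun _ => rfl
      rw [← (h1.fin fun e => h2 (by rw [e h h3, Polynomial.coeff_zero])).tr_eq, cN, gM.2])
    obtain ⟨x, h, hx, p1, p2, p3, -, p4, p5, p6⟩ := poly rfl U hU
    have hT := FA1.comp hF₁ (by simpa using hF)
    set T : Unit ⊕ {ν // ν ≠ μ} → M₀ := Sum.elim (fun _ => α₀ t') U with eT
    have cT : j + Nat.card (Unit ⊕ {ν // ν ≠ μ}) = j + (2 * dd + 1) + 1 := by
      rw [Nat.card_sum, cN, Nat.card_unique]; ring
    obtain ⟨O₀, h₀, z1, z2, z3, z4, z5⟩ := FA2.zero hT cT (.inl ())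
    have rx : ∀ s, (Rel.ofPl O₀.1).r (x s) (h₀.hom (vz R s)) := fun s => by
      have r0 : (Rel.ofPl O₀.1).r (α₀ (α₁ (vz R s))) (h₀.hom (vz R s)) :=
        ⟨h₀ _, (h₀.hom_apply _).symm⟩
      rcases hx s with e | ⟨ν, e⟩ <;> rw [e]
      · exact r0
      · simpa [eT] using (Rel.ofPl O₀.1).add r0
          ((Rel.ofPl O₀.1).mul (Rel.neg ⟨z1 (.inl ()), z3⟩) ⟨z1 (.inr ν), rfl⟩)
    have ra : ∀ P, O₀.1.rd (aeval x P) = h₀.hom (aeval (vz R) P) := fun P =>
      (Rel.aeval rx P).2.trans (aeval_mapV h₀.hom _ P)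
    set ρ := β (α₀ (-t')) with eρ
    have ρ0 : ρ ≠ 0 := by rw [eρ, map_neg, map_neg]; exact neg_ne_zero.2 t1
    obtain ⟨O, ov, w1, w2, w3, w4, w5⟩ := XH.hen O₀ (ρ * v μ) h (cT ▸ hT.gM) p1
      (p5 _ fun s => (rx s).1) (by rw [p2, ra, YP_cn hR.2, map_zero])
      (by rw [p3, ra]; exact (map_ne_zero _).2 hn) fun g => ⟨p6 hF.top g, fun ⟨c, e⟩ => by
        rw [e, Polynomial.eval₂_mul, show h.eval₂ _ (ρ * v μ) = 0 from p4, zero_mul]⟩
    have ht : Pl.Triv ((β.comp α₀).comp α₁) O.1 := fun c => (ov _).1 (h₀ c)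
    have hρ : ∀ O' : Pl M, β (α₀ t') ∈ O'.O → O'.rd (β (α₀ t')) = 0 → ρ ∈ O'.O ∧ O'.rd ρ = 0 :=
      fun O' a b => by
        rw [eρ, map_neg, map_neg, O'.rd_neg a, b, neg_zero]
        exact ⟨neg_mem a, rfl⟩
    have hH := YP_cn hy.mem
    rw [funext hD] at hH
    obtain ⟨d1, d2⟩ := hρ O.1 ((ov _).1 (z1 (.inl ())))
      ((ov.resHom_rd _).symm.trans (by rw [show O₀.1.rd (α₀ t') = 0 from z3, map_zero]))
    have d3 : ∀ s, s ≠ μ → v s ∈ O.1.O := fun s hs =>
      (hU ⟨s, hs⟩).subst (motive := (· ∈ O.1.O)) ((ov _).1 (z1 (.inr ⟨s, hs⟩)))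
    have d4 : v μ ∈ O.1.O := by
      by_contra e
      have e0 : v μ ≠ 0 := fun e' => e (e' ▸ zero_mem _)
      have e1 : (v μ)⁻¹ ∈ O.1.O := (O.1.O.mem_or_inv_mem _).resolve_left e
      have e2 : O.1.rd (v μ)⁻¹ = 0 :=
        by_contra fun e' => e (inv_inv (v μ) ▸ ((O.1.rd_ne_zero_iff e1).1 e').2)
      have := YP_tan ht (YP_cn hR.2) (w := fun s => v s * (v μ)⁻¹) (mul_ne_zero ρ0 e0) w1 w2
        (fun s => by
          by_cases hs : s = μ
          · rw [hs, mul_inv_cancel₀ e0]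
            exact one_mem _
          · exact mul_mem (d3 s hs) e1) (by
          refine Eq.trans ?_ hH
          congr 2
          funext s
          rw [mul_assoc, mul_left_comm (v μ), mul_inv_cancel₀ e0, mul_one]
          rfl)
      rw [Finset.sum_eq_single μ (fun s _ hs => by rw [O.1.rd_mul (d3 s hs) e1, e2]; simp) (by simp),
        mul_inv_cancel₀ e0] at this
      simp [hn] at this
    have d5 : IntV O.1 v := fun s => by
      by_cases hs : s = μ
      exacts [hs ▸ d4, d3 s hs]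
    refine ⟨O, ht, (w3 _).trans z2, d5, top_unique fun z _ => ?_, ?_,
      fun O' h' hO hne h1 h2 hv' => ?_⟩
    · obtain ⟨z, rfl⟩ := w4 z
      refine YP_le (F := (gen ht.hom (rdV O.1 v)).comap ov.resHom) (fun c => ?_) ?_
        (z4.top ▸ IntermediateField.mem_top)
      · show ov.resHom (h₀.hom c) ∈ gen ht.hom (rdV O.1 v)
        rw [h₀.hom_apply, ov.resHom_rd]
        exact (ht.hom_apply c).subst (motive := (· ∈ gen ht.hom (rdV O.1 v))) (YP_gl _ _ c)
      · rintro ⟨_ | ν, ha⟩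
        · exact absurd rfl ha
        · show ov.resHom (O₀.1.rd (U ν)) ∈ gen ht.hom (rdV O.1 v)
          rw [ov.resHom_rd, hU]
          exact YP_gr _ _ ν.1
    · exact (Finset.sum_congr rfl fun s _ => congrArg (· * _) (YP_row _ R s)).trans
        (YP_tan ht (YP_cn hR.2) ρ0 d1 d2 d5 hH)
    · obtain ⟨q1, q2⟩ := hρ O' h1 h2
      have ov' := Pl.over_comap β O'
      set O₁ := Pl.comap β O'
      have h3 : O₁.rd (α₀ t') = 0 := (map_eq_zero ov'.resHom).1 ((ov'.resHom_rd _).trans h2)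
      have h4 : O₁.O ≠ ⊤ := fun e => (O₁.rd_ne_zero_iff (x := α₀ t') h1).2
        ⟨(map_ne_zero α₀).2 t0, e ▸ ValuationSubring.mem_top _⟩ h3
      have h₁ : Pl.Triv (α₀.comp α₁) O₁ := h'
      let F := gen (Pl.over_comap (α₀.comp α₁) O₁).resHom fun a => O₁.rd (T a)
      let κ : O₁.res.sub F →ₐ[K] O'.res := ov'.resHom.comp F.val
      have k1 : ∀ c, h'.hom c ∈ κ.fieldRange := fun c =>
        ⟨⟨_, YP_gl _ _ ((Pl.comap (α₀.comp α₁) O₁).rd c)⟩,
          (congrArg ov'.resHom ((Pl.over_comap (α₀.comp α₁) O₁).resHom_rd c)).trans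
            ((ov'.resHom_rd _).trans (h'.hom_apply c).symm)⟩
      have k2 : ∀ s, s ≠ μ → O'.rd (v s) ∈ κ.fieldRange := fun s hs =>
        ⟨⟨_, YP_gr _ _ (Sum.inr (⟨s, hs⟩ : {ν // ν ≠ μ}))⟩,
          (ov'.resHom_rd (U ⟨s, hs⟩)).trans (congrArg O'.rd (hU ⟨s, hs⟩))⟩
      refine (YP_tr (α := κ) (YP_le k1 fun s => ?_)).trans ?_
      · by_cases hs : s = μ
        · have := YP_tan h' (YP_cn hR.2) ρ0 q1 q2 hv' hH
          rw [← Finset.add_sum_erase _ _ (Finset.mem_univ μ), add_eq_zero_iff_eq_neg, mul_comm,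
            ← eq_div_iff ((map_ne_zero _).2 hn)] at this
          rw [hs, rdV, this]
          exact div_mem (neg_mem (sum_mem fun s hs =>
            mul_mem (k1 _) (k2 s (Finset.ne_of_mem_erase hs)))) (k1 _)
        · exact k2 s hs
      · by_cases e : O₁.res.tr = (j + (2 * dd + 1) : ℕ)
        · obtain ⟨m, h5, h6⟩ := z5 ⟨O₁, ov'.isDVR hO h4, e⟩ (fun e' => hne (w5 O' (e' ▸ ov')
            (mul_mem q1 (hv' μ)) (by rw [O'.rd_mul q1 (hv' μ), q2, zero_mul]))) (by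
              rintro (_ | ν)
              exacts [h1, (ov' _).2 ((hU ν).symm.subst (motive := (· ∈ O'.O)) (hv' ν))]) h3
          exact h6.trans (Nat.cast_le.2 (by omega))
        · have h5 := Pl.tr_res_lt O₁ h4 (cT ▸ hT.gM.2).le
          rw [Nat.cast_add_one, Cardinal.lt_natCast_add_one_iff] at h5
          have h6 := h5.lt_of_ne e
          rw [← add_assoc, Nat.cast_add_one, Cardinal.lt_natCast_add_one_iff] at h6
          exact (tr_le (L := O₁.res.sub F) F.val).trans h6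

end Pool.Agent.Lib.MP_557161_ag.HG.HN
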