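import Pool.Agent.Lib.MP_557161_ag.HN.StV

/-!
The intersection with the zero section of the tangent bundle.
-/

namespace Pool.Agent.Lib.MP_557161_ag.HG.HN

open Pool.Agent.Lib.MP_557161_ag.DL

variable {K : Type} [Field K] {dd : ℕ} [X0 dd]

namespace YTa

omit [X0 dd] in
lemma card : Fintype.card (Option (Vr dd)) = 2 * dd + 1 + 1 := by simp

variable {G : GD K dd} {d d' : Cd} {W : ASp K d} {W' : ASp K d'} {j t : ℕ}

lemma off [WB K] {k : ℕ} (θ : QF k (G.kb W t).tot) {L : Fld K} {y : (xz dd).X L} {w : d.X L}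
    (v : Option (Vr dd) → L) (h : ¬ (G.Cn L y ∧ W.mem L w)) : θ.q L ((y, w), v) = 0 :=
  by_contra fun e => h (WB.mem θ.toPre e).2.1.1

lemma exK [WB K] [KE K] [YA K dd] (G : GD K dd) (t : ℕ) (φ : AF j W) :
    ∃ θ, G.Th t φ θ ∧ ∀ q : d.ι → Prop, KlP d q j φ.a →
      KlP (((xz dd).prod d).prod (.vec (Option (Vr dd))))
        (Sum.elim (Sum.elim (fun _ => True) q) fun _ => True) (j + (2 * dd + 1)) θ.q := by
  obtain ⟨φ₁, h₁⟩ := WB.pullB (S := G.B1 W) (T := W) (g := fun _ x => x.2)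
    ⟨fun _ _ _ _ _ _ _ e => e.2, fun _ _ m => m.2⟩ (fun _ _ _ _ _ => rfl)
    (fun M O x z _ hx hz e => by
      obtain ⟨i, y', h0, hc, hl⟩ := YA.cmp O hx.1
      exact ⟨(x.1.1 i)⁻¹, (y', z), inv_ne_zero h0, ⟨hc, hz⟩, hl, e⟩) φ
  obtain ⟨θ, hu, hk⟩ := KE.ex (G.kb W t) card φ₁
  refine ⟨θ, ⟨φ₁, fun L y w hy => ?_, hu⟩, fun q hq => hk _ ?_ ?_ ?_⟩
  · by_cases hw : W.mem L w
    · exact h₁ L (y, w) ⟨hy, hw⟩
    · exact (by_contra fun e => hw (WB.mem φ₁.toPre e).2.2).trans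
        (by_contra fun e => hw (W.sp_some.1 (φ.supp _ _ e).2)).symm
  · rintro (i | i) hi
    exacts [absurd trivial hi, rfl]
  · intro μ L F x _ hx
    exact (G.row_rel (Rel.ofSub F) ((Rel.ofSub F).natCast t) ((Cd.lift_sub F).2
      ⟨((xz dd).all_iff _ _).2 fun i => hx (Sum.inl i) trivial, rfl⟩) μ).1
  · intro L L₁ L₂ ι₁ ι₂ x h1 h2 hle
    by_contra e
    exact e ((h₁ L x (WB.mem φ₁.toPre e).2).trans
      (hq L L₁ L₂ ι₁ ι₂ x.2 (fun i => h1 (Sum.inr i)) (fun i => h2 (Sum.inr i)) hle))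

lemma nat [WB K] [KN K] {φ : AF j W} {φ' : AF j W'} {θ θ'} (h : G.Th t φ θ) (h' : G.Th t φ' θ')
    {g : ∀ L : Fld K, d'.X L → d.X L} (hg : Mp W' W g) (hp : Pro W' W g) (χ : ℂ)
    (hφ : ∀ L w, W'.mem L w → φ'.a L w = χ * φ.a L (g L w)) (L : Fld K) (y : (xz dd).X L)
    (w : d'.X L) (v : Option (Vr dd) → L) (hw : W'.mem L w) :
    θ'.q L ((y, w), v) = χ * θ.q L ((y, g L w), v) := by
  obtain ⟨φ₁, h₁, hu⟩ := h
  obtain ⟨φ₁', h₁', hu'⟩ := h'
  by_cases hy : G.Cn L y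
  · refine KN.nat (G.kb W t) (G.kb W' t) card (f := fun L x => (x.1, g L x.2))
      ⟨⟨fun _ _ R _ _ m m' e => ⟨e.1, hg.reg R m.2 m'.2 e.2⟩,
        fun L x m => ⟨m.1, hg.mem L x.2 m.2⟩⟩, fun _ _ _ _ _ => rfl⟩ ?_ (Equiv.refl _)
      (fun _ => rfl) (fun _ _ _ _ => rfl) θ θ' χ hu hu' ?_ L (y, w) v ⟨hy, hw⟩
    · intro M O x z hO m mz e
      obtain ⟨w', h1, h2⟩ := hp M O x.2 z.2 hO m.2 mz.2 e.2
      exact ⟨(z.1, w'), ⟨mz.1, h1⟩, e.1, h2⟩
    · intro L b m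
      exact (h₁' L b.1 b.2 m.1).trans ((hφ L b.2 m.2).trans
        (congrArg _ (h₁ L b.1 (g L b.2) m.1).symm))
  · rw [off θ' v fun e => hy e.1, off θ v fun e => hy e.1, mul_zero]

lemma uq [WB K] [KN K] {φ : AF j W} {θ θ'} (h : G.Th t φ θ) (h' : G.Th t φ θ') (L : Fld K)
    (x : (((xz dd).prod d).prod (.vec (Option (Vr dd)))).X L) : θ'.q L x = θ.q L x := by
  obtain ⟨⟨y, w⟩, v⟩ := x
  by_cases hw : W.mem L w
  · exact (nat h h' (g := fun _ w => w) ⟨Reg.id W, fun _ _ m => m⟩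
      (fun _ _ _ z _ _ hz e => ⟨z, hz, e⟩) 1 (fun _ _ _ => (one_mul _).symm) L y w v hw).trans
      (one_mul _)
  · rw [off θ' v fun e => hw e.2, off θ v fun e => hw e.2]

omit [X0 dd] in
lemma homz (G : GD K dd) (W : ASp K d) : Hom (G.B1 W) G.e fun _ b => b.1.2 :=
  ⟨fun _ _ _ _ _ _ _ e => e.1.2, fun _ a x _ _ => by rw [zpow_natCast]⟩

/-- The row on the ramification divisor. -/
noncomputable def kz (G : GD K dd) (W : ASp K d) :
    KB ((G.B1 W).zer (homz G W)) (Option (Vr dd)) G.ωK (2 * G.e) where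
  n := (G.kb W 0).n
  hom μ := ⟨((G.kb W 0).hom μ).reg.mono fun _ _ m => m.1,
    fun L a x h0 m => ((G.kb W 0).hom μ).hom L a x h0 m.1⟩
  uni L b m := (G.kb W 0).uni L b m.1

lemma ram [WB K] [KE K] [KN K] {φ : AF j W} {θ₀ θ₁} (h₀ : G.Th 0 φ θ₀) (h₁ : G.Th 1 φ θ₁)
    (L : Fld K) (y : (xz dd).X L) (w : d.X L) (v : Option (Vr dd) → L) (hz : y.2 = 0) :
    θ₀.q L ((y, w), v) = θ₁.q L ((y, w), v) := by
  by_cases hm : G.Cn L y ∧ W.mem L w
  swap
  · rw [off θ₀ v hm, off θ₁ v hm]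
  obtain ⟨φ₀, e₀, u₀⟩ := h₀
  obtain ⟨φ₁, e₁, u₁⟩ := h₁
  have hf : EqM ((G.B1 W).zer (homz G W)) (G.B1 W) fun _ x => x :=
    ⟨⟨Reg.id _, fun _ _ m => m.1⟩, fun _ _ _ _ _ => rfl⟩
  have hp : Pro ((G.B1 W).zer (homz G W)).S (G.B1 W).S fun _ x => x :=
    fun _ O _ z _ m mz e => ⟨z, ⟨mz, Rel.eq_zero (R := Rel.ofPl O) e.1.2 m.2⟩, e⟩
  obtain ⟨ψ, hψ⟩ := WB.pull hf hp φ₀
  obtain ⟨θ, hu, -⟩ := KE.ex (kz G W) card ψ
  have a₀ := KN.nat (G.kb W 0) (kz G W) card hf hp (Equiv.refl _) (fun _ => rfl)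
    (fun _ _ _ _ => rfl) θ₀ θ 1 u₀ hu (fun L b m => (hψ L b m).trans (one_mul _).symm)
    L (y, w) v ⟨hm, hz⟩
  have a₁ := KN.nat (G.kb W 1) (kz G W) card hf hp (Equiv.refl _) (fun _ => rfl)
    (fun L b μ m => by
      cases μ with
      | none =>
        show 2 * ((0 : ℕ) : L) * b.1.2 = 2 * ((1 : ℕ) : L) * b.1.2
        rw [show b.1.2 = 0 from m.2, mul_zero, mul_zero]
      | some i => rfl) θ₁ θ 1 u₁ hu
    (fun L b m => (hψ L b m).trans ((e₀ L b.1 b.2 m.1.1).trans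
      ((e₁ L b.1 b.2 m.1.1).symm.trans (one_mul _).symm))) L (y, w) v ⟨hm, hz⟩
  exact (one_mul _).symm.trans (a₀.symm.trans (a₁.trans (one_mul _)))

lemma deg_id (L : Fld K) : deg (AlgHom.id K L) = 1 := Module.finrank_self L

lemma two [FA1 K] {i : ℕ} (θ : QF (i + 2) (G.kb W t).tot) {N M M' : Fld K} {α : N →ₐ[K] M}
    {α' : N →ₐ[K] M'} {T : Bool → M} {T' : Bool → M'} (h : Free i α T) (h' : Free i α' T')
    (y : (xz dd).X N) (w : d.X N) :
    θ.q M (((xz dd).map α y, d.map α w), pln T ((xz dd).map α y)) =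
      θ.q M' (((xz dd).map α' y, d.map α' w), pln T' ((xz dd).map α' y)) := by
  obtain ⟨ρ, h1, h2, h3⟩ := FA1.lift h h' (AlgHom.id K N)
  have h4 : ∀ x, ρ (α x) = α' x := fun x => DFunLike.congr_fun h1 x
  have hc : Nat.card Bool = 2 := by simp
  have e := θ.ext ρ (((G.Γ1 d).prod (.vec G.ωK)).pt
    (((xz dd).map α y, d.map α w), pln T ((xz dd).map α y))) (hc ▸ h.gM) (hc ▸ h'.gM)
  rw [h3 rfl, deg_id, Nat.cast_one, one_mul, Wt.map_pt] at e
  refine e.symm.trans (congrArg (θ.q M') (Prod.ext (Prod.ext ?_ ?_) (funext fun μ => ?_)))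
  · exact ((xz dd).map_map α ρ y).trans (congrArg (fun f => (xz dd).map f y) (funext h4))
  · exact (d.map_map α ρ w).trans (congrArg (fun f => d.map f w) (funext h4))
  · cases μ with
    | none => exact h2 false
    | some l =>
      show ρ (T true * α (y.1 l)) = T' true * α' (y.1 l)
      rw [map_mul, h2, h4]

lemma scl_free [FA1 K] {i : ℕ} {N M : Fld K} {α : N →ₐ[K] M} {T : Bool → M} (h : Free i α T)
    {a : N} (h0 : a ≠ 0) : Free i α fun b => bif b then T true else T false / α a := by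
  refine FA1.of_gen h rfl fun b => ?_
  have m1 : ∀ b, (bif b then T true else T false / α a) ∈
      gen α fun b => bif b then T true else T false / α a :=
    fun b => IntermediateField.subset_adjoin _ _ (Or.inr ⟨b, rfl⟩)
  have m2 : α a ∈ gen α fun b => bif b then T true else T false / α a :=
    IntermediateField.subset_adjoin _ _ (Or.inl ⟨a, rfl⟩)
  cases b with
  | true => exact m1 true
  | false =>
    have := mul_mem (m1 false) m2
    rwa [cond_false, div_mul_cancel₀ _ ((map_ne_zero α).2 h0)] at this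

open Classical in
lemma pl [FA1 K] {i : ℕ} (θ : QF (i + 2) (G.kb W t).tot) : ∃ ϖ, G.IsPl i θ.q W ϖ := by
  refine ⟨fun N E => if h : Good i N ∧ ∃ x : ((xz dd).prod d).X N, G.Cn N x.1 ∧ x.1.2 = 0 ∧
      W.mem N x.2 ∧ E = (G.Γ1 d).pt x then
    θ.q (fr N Bool) (((xz dd).map (frα N Bool) h.2.choose.1, d.map (frα N Bool) h.2.choose.2),
      pln (frT N Bool) ((xz dd).map (frα N Bool) h.2.choose.1)) else 0, ?_, ?_⟩
  · intro N N' α T y w hT hy hz hw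
    have h : Good i N ∧ ∃ x : ((xz dd).prod d).X N, G.Cn N x.1 ∧ x.1.2 = 0 ∧
        W.mem N x.2 ∧ (G.Γ1 d).pt (y, w) = (G.Γ1 d).pt x := ⟨hT.gL, (y, w), hy, hz, hw, rfl⟩
    refine (dif_pos h).trans ?_
    obtain ⟨a, h0, ha⟩ := ((G.Γ1 d).pt_eq ((G.B1 W).nz N (y, w) ⟨hy, hw⟩)).1
      h.2.choose_spec.2.2.2
    refine (congrArg (fun x : ((xz dd).prod d).X N => θ.q (fr N Bool)
      (((xz dd).map (frα N Bool) x.1, d.map (frα N Bool) x.2),
        pln (frT N Bool) ((xz dd).map (frα N Bool) x.1))) ha).trans ?_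
    have h1 : frα N Bool a ≠ 0 := (map_ne_zero _).2 h0
    have hF := FA1.fr_free Bool hT.gL
    have hF' := scl_free hF (pow_ne_zero G.e h0)
    rw [map_pow] at hF'
    refine Eq.trans ?_ (two θ hF' hT y w)
    refine (congrArg (θ.v _) ?_).trans
      (congrArg (θ.v _) (((G.Γ1 d).prod (.vec G.ωK)).pt_scl h1 _))
    refine congrArg _ (Prod.ext (Prod.ext (G.Γ.map_scl (frα N Bool).toRingHom a y) rfl)
      (funext fun μ => ?_))
    cases μ with
    | none =>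
      show frT N Bool false = frα N Bool a ^ (G.e : ℤ) * (frT N Bool false / frα N Bool a ^ G.e)
      rw [zpow_natCast, mul_div_cancel₀ _ (pow_ne_zero G.e h1)]
    | some l =>
      show frT N Bool true * frα N Bool (a * y.1 l) =
        frα N Bool a ^ (1 : ℤ) * (frT N Bool true * frα N Bool (y.1 l))
      rw [map_mul, zpow_one]; ring
  · intro N E h
    have h' := of_not_not fun e => h (dif_neg e)
    obtain ⟨x, hx⟩ := h'.2
    exact ⟨h'.1, x.1, x.2, hx⟩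

end YTa

theorem YT_thm [FW0 K] [WB K] [AD K] [KE K] [KN K] [YA K dd] : YT K dd where
  ex G _ _ _ t φ := (YTa.exK G t φ).imp fun _ h => h.1
  kills := by
    intro G d W j t φ θ h q hq L L₁ L₂ ι₁ ι₂ x h1 h2 hle
    obtain ⟨θ', h', hk⟩ := YTa.exK G t φ
    exact (YTa.uq h' h L x).trans (hk q hq L L₁ L₂ ι₁ ι₂ x h1 h2 hle)
  nat h h' _ hg hp χ hφ L y w v hw := YTa.nat h h' hg hp χ hφ L y w v hw
  low θ _ _ v hd hm := (AD.kb _ YTa.card).elim fun E => AD.low E θ.toPre v hd hm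
  val := by
    rintro G d W j t φ θ ⟨φ₁, h₁, hu⟩ L M α y w v gL gM top hy hw hs
    exact (hu L M α (y, w) v ⟨gL, gM, top,
      ⟨((G.B1 W).S.map_iff α (y, w)).2 ⟨hy, hw⟩, trivial⟩, hs⟩).trans (h₁ L y w hy)
  ram h₀ h₁ L y w v hz := YTa.ram h₀ h₁ L y w v hz
  pl := by
    rintro G d W i _ t θ rfl
    exact YTa.pl θ

end Pool.Agent.Lib.MP_557161_ag.HG.HN
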