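import Pool.Agent.Lib.MP_557161_ag.HN.StY
import Pool.Agent.Lib.MP_557161_ag.HG.ZR

/-!
The relation between the graphs of the powers of Frobenius, in every even dimension.
-/

namespace Pool.Agent.Lib.MP_557161_ag.HG.HN

open Pool.Agent.Lib.MP_557161_ag.DL
open XRa (inv_bool inv_not inv_tp)

variable {K : Type} [Field K] {p dd : ℕ}

namespace ZRb

lemma cfg_cfg {T : Type} (q : ℕ) (e e' : T → ℕ) (L : Fld K) (P : T → (xz dd).X L) :
    cfg q e' L (cfg q e L P) = cfg q (e + e') L P := by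
  funext i
  simp only [cfg, frb, Pi.add_apply, pow_add, pow_mul]

variable {G : GD K dd} {q : ℕ}

/-- The alternating sum on a product of two powers. -/
lemma alt [ALT K dd] {T : Type} [Finite T] [DecidableEq T] (E : Fin G.n ⊕ Fin G.n ≃ T)
    (sd : T → Bool) (s1 : ∀ i, sd (E (Sum.inl i)) = true) (s2 : ∀ i, sd (E (Sum.inr i)) = false)
    (ψ : AF (dd * Nat.card T) (G.UU.pi T)) (h1 : AntiP ψ.a) (h2 : KlS sd ψ.a) (L : Fld K)
    (x w : Fin G.n → (xz dd).X L) : ∑ σ : Equiv.Perm (Fin G.n), ((Equiv.Perm.sign σ : ℤ) : ℂ) *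
      ψ.a L (fun t => Sum.elim (fun i => x (σ i)) w (E.symm t)) = 0 := by
  let g : ∀ L : Fld K, ((Cd.pi (Fin G.n) (xz dd)).prod (Cd.pi (Fin G.n) (xz dd))).X L → (Cd.pi T (xz dd)).X L :=
    fun _ z t => Sum.elim z.1 z.2 (E.symm t)
  let g' : ∀ L : Fld K, (Cd.pi T (xz dd)).X L → ((Cd.pi (Fin G.n) (xz dd)).prod (Cd.pi (Fin G.n) (xz dd))).X L :=
    fun _ z => (fun i => z (E (Sum.inl i)), fun i => z (E (Sum.inr i)))
  have gl : ∀ L z i, g L z (E (Sum.inl i)) = z.1 i := fun L z i => by simp [g]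
  have gr : ∀ L z i, g L z (E (Sum.inr i)) = z.2 i := fun L z i => by simp [g]
  have gg : ∀ L z, g' L (g L z) = z := fun L z => Prod.ext (funext (gl L z)) (funext (gr L z))
  have m1 : Mp ((G.UU.pi (Fin G.n)).prod (G.UU.pi (Fin G.n))) (G.UU.pi T) g :=
    ⟨fun _ _ R _ _ _ _ h t => by
      obtain ⟨i | i, rfl⟩ := E.surjective t
      · rw [gl, gl]; exact h.1 i
      · rw [gr, gr]; exact h.2 i, fun L z m t => by
      obtain ⟨i | i, rfl⟩ := E.surjective t
      · rw [gl]; exact m.1 i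
      · rw [gr]; exact m.2 i⟩
  have m2 : Mp (G.UU.pi T) ((G.UU.pi (Fin G.n)).prod (G.UU.pi (Fin G.n))) g' :=
    ⟨fun _ _ R _ _ _ _ h => ⟨fun _ => h _, fun _ => h _⟩, fun L z m => ⟨fun _ => m _, fun _ => m _⟩⟩
  let Ψ : AF (dd * Nat.card T) ((G.UU.pi (Fin G.n)).prod (G.UU.pi (Fin G.n))) :=
    Fe.pull m1.mor ((Pro.of_left m2 m1 fun L z _ => gg L z).mor m1) ψ
  have hΨ : ∀ L z, Ψ.a L z = ψ.a L (g L z) := fun L z => by
    by_cases h : ((G.UU.pi (Fin G.n)).prod (G.UU.pi (Fin G.n))).mem L z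
    · exact Fe.pull_of_mem _ _ _ ((ASp.sp_some _).2 h)
    · refine (if_neg fun h' => h ((ASp.sp_some _).1 h')).trans (by_contra fun h' => h ?_)
      exact gg L z ▸ m2.mem L _ ((ASp.sp_some _).1 (ψ.supp L _ (Ne.symm h')).2)
  have h := ALT.alt G (Fin G.n) (Nat.card_fin _) _ _ Ψ (fun L x w m₁ m₂ d1 d2 hm => ?_)
    (fun i L x w => ?_) L x w
  · simpa only [hΨ] using h
  · obtain ⟨F₁, a1, t1⟩ := d1
    obtain ⟨F₂, a2, t2⟩ := d2
    rw [hΨ]
    refine h2 L (L.sub F₁) (L.sub F₂) F₁.val F₂.val _ (fun s hs => ?_) (fun s hs => ?_)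
      ((add_le_add t1 t2).trans (by exact_mod_cast hm))
    · obtain ⟨t, k⟩ := s
      obtain ⟨i | i, rfl⟩ := E.surjective t
      · exact ⟨⟨_, ((Cd.pi (Fin G.n) (xz dd)).all_iff _ x).1 a1 (i, k)⟩,
          congrArg ((xz dd).co · k) (gl L (x, w) i).symm⟩
      · exact absurd ((s2 i).symm.trans hs) (by simp)
    · obtain ⟨t, k⟩ := s
      obtain ⟨i | i, rfl⟩ := E.surjective t
      · exact absurd (s1 i) hs
      · exact ⟨⟨_, ((Cd.pi (Fin G.n) (xz dd)).all_iff _ w).1 a2 (i, k)⟩,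
          congrArg ((xz dd).co · k) (gr L (x, w) i).symm⟩
  · rw [hΨ, hΨ, ← h1 (E (Sum.inl i)) L, gl]
    congr 1
    funext t
    obtain ⟨k | k, rfl⟩ := E.surjective t
    · rw [gl]
      by_cases e : k = i
      · subst e; simp
      · rw [Function.update_of_ne (fun e' => e (by simpa using e')), gl]
        exact Function.update_of_ne e _ _
    · rw [gr, Function.update_of_ne (by simp), gr]

/-- The iterated contraction. -/
lemma iter [XC] [ZS K p dd] (hq : 1 < q) (hF : G.Fr p q)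
    (φ : AF (dd * Nat.card Bool) (G.UU.pi Bool)) (h1 : AntiP φ.a) (h2 : KlS id φ.a) (sd : ℕ → Bool)
    (r : ℕ) : ∃ Φ : AF (dd * Nat.card (Tw r)) (G.UU.pi (Tw r)), AntiP Φ.a ∧ KlS (side sd r) Φ.a ∧
      ∀ (τ : Tw r → Tw r) (e : Tw r → ℕ) (w : ℂ), Inv τ →
        DV G q φ.a not (fun b => bif b then (ev (lamP ((q : ℂ) ^ dd) (G.PP q)) r τ e).2.1
          else (ev (lamP ((q : ℂ) ^ dd) (G.PP q)) r τ e).2.2) w →
        DV G q Φ.a τ e ((ev (lamP ((q : ℂ) ^ dd) (G.PP q)) r τ e).1 * w / 2 ^ r) := by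
  induction r with
  | zero =>
    refine ⟨φ, h1, h2, fun τ e w hτ h => ?_⟩
    obtain rfl : τ = not := inv_bool hτ
    have e1 : (fun b : Bool => bif b then e true else e false) = e :=
      funext fun b => by cases b <;> rfl
    have e2 : (ev (lamP ((q : ℂ) ^ dd) (G.PP q)) 0 not e).1 * w / 2 ^ 0 = w := by simp [ev]
    rw [e2]
    exact e1 ▸ h
  | succ r ih =>
    obtain ⟨Φ, a1, a2, a3⟩ := ih
    obtain ⟨Ψ, b1, b2, b3⟩ := ZS.step hq hF Φ a1
    refine ⟨Ψ, b1, b2 _ (sd r) a2, fun τ e w hτ h => ?_⟩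
    have h3 := b3 τ e _ hτ (a3 _ _ w (XC.inv hτ) h)
    have e2 : ∀ a b : ℂ, a * b * w / 2 ^ (r + 1) = a * (b * w / 2 ^ r) / 2 := fun a b => by ring
    exact (e2 _ _).symm ▸ h3

/-- The relation, up to a power of the variable. -/
lemma rel [ALT K dd] [XC] [XV K p dd] [XW K p dd] [ZS K p dd] (hq : 1 < q) (hF : G.Fr p q) {r : ℕ}
    (sd : ℕ → Bool) (E : Fin G.n ⊕ Fin G.n ≃ Tw r) (s1 : ∀ i, side sd r (E (Sum.inl i)) = true)
    (s2 : ∀ i, side sd r (E (Sum.inr i)) = false) (e : Tw r → ℕ)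
    (hne : dsum E (lamP ((q : ℂ) ^ dd) (G.PP q)) ((q : ℂ) ^ dd) e ≠ 0) : ∃ f : Polynomial ℂ, f.eval ((q : ℂ) ^ dd) ≠ 0 ∧
      ∀ φ : AF (dd * Nat.card Bool) (G.UU.pi Bool), AntiP φ.a → KlS id φ.a → ∀ v : ℕ → ℂ,
      (∀ j, DV G q φ.a not (fun b => bif b then j else 0) (v j)) →
      ∀ t, (f.sum fun j a => a * v (j + t)) = 0 := by
  have hβ : (q : ℂ) ^ dd ≠ 0 := pow_ne_zero _ (Nat.cast_ne_zero.2 (by omega))
  set lam := lamP ((q : ℂ) ^ dd) (G.PP q) with hlam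
  let c : Equiv.Perm (Fin G.n) → ℂ := fun π => (ev lam r (tp E π) e).1
  let x : Equiv.Perm (Fin G.n) → ℕ := fun π => (ev lam r (tp E π) e).2.1
  let y : Equiv.Perm (Fin G.n) → ℕ := fun π => (ev lam r (tp E π) e).2.2
  let Y := ∑ π, y π
  have hY : ∀ π, y π ≤ Y := fun π =>
    Finset.single_le_sum (fun _ _ => Nat.zero_le _) (Finset.mem_univ π)
  refine ⟨∑ π, Polynomial.monomial (x π + (Y - y π))
    (((Equiv.Perm.sign π : ℤ) : ℂ) * (c π * ((q : ℂ) ^ dd) ^ (2 * y π))), ?_, ?_⟩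
  · refine fun h => mul_ne_zero (pow_ne_zero Y hβ) hne ?_
    rw [← h, Polynomial.eval_finsetSum, dsum, Finset.mul_sum]
    refine Finset.sum_congr rfl fun π _ => ?_
    have e1 : ((q : ℂ) ^ dd) ^ Y = ((q : ℂ) ^ dd) ^ (Y - y π) * ((q : ℂ) ^ dd) ^ y π := by
      rw [← pow_add, Nat.sub_add_cancel (hY π)]
    rw [Polynomial.eval_monomial, e1]
    ring
  intro φ a1 a2 v hv t
  obtain ⟨φ', b0, b1, b2⟩ := XV.pull hF φ fun b => bif b then t + Y else 0
  obtain ⟨Φ, c1, c2, c3⟩ := iter hq hF φ' (b1 a1) (b2 _ a2) sd r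
  obtain ⟨ψ, d0, d1, d2⟩ := XV.pull hF Φ e
  obtain ⟨L, P, hL, hP, hd⟩ := XW.gen (p := p) G (Fin G.n)
  have h := alt E _ s1 s2 ψ (d1 c1) (d2 _ c2) L P P
  have hcard : Nat.card (Tw r) = 2 * Nat.card (Fin G.n) := by
    rw [← Nat.card_congr E, Nat.card_sum, two_mul]
  have key : ∀ π : Equiv.Perm (Fin G.n),
      ψ.a L (fun t => Sum.elim (fun i => P (π i)) P (E.symm t)) = Bridge.dg (xf L P) *
        (c π * (((q : ℂ) ^ dd) ^ (2 * y π) * v (x π + (Y - y π) + t)) / 2 ^ r) := fun π => by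
    have e1 : DV G q φ'.a not (fun b => bif b then x π else y π)
        (((q : ℂ) ^ dd) ^ (2 * y π) * v (x π + (Y - y π) + t)) := fun L P g1 g2 g3 => by
      rw [b0, cfg_cfg]
      refine (XW.shift hF φ inv_not _ _ true (y π) _ ?_ ?_ ?_).2 (hv _) L P g1 g2 g3
      · have := hY π
        show x π + (t + Y) = x π + (Y - y π) + t + y π
        omega
      · show y π + 0 = 0 + y π
        omega
      · rintro (_ | _) h h'
        exacts [absurd rfl h', absurd rfl h]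
    have e2 : xf L (fun t => Sum.elim (fun i => P (π i)) P (E.symm t)) = xf L P := by
      refine congrArg (IntermediateField.adjoin K) (Set.Subset.antisymm ?_ ?_)
      · rintro _ ⟨⟨t, k⟩, rfl⟩
        obtain ⟨i | i, rfl⟩ := E.surjective t
        · exact ⟨(π i, k), by simp⟩
        · exact ⟨(i, k), by simp⟩
      · rintro _ ⟨⟨i, k⟩, rfl⟩
        exact ⟨(E (Sum.inr i), k), by simp⟩
    rw [d0, ← e2]
    refine c3 _ e _ (inv_tp E π) e1 L _ (hcard ▸ hL) (fun t => ?_) fun t => ?_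
    · obtain ⟨i | i, rfl⟩ := E.surjective t <;> simpa using hP _
    · obtain ⟨i | i, rfl⟩ := E.surjective t <;> simp [tp]
  have h0 : (Bridge.dg (xf L P) : ℂ) / 2 ^ r ≠ 0 :=
    div_ne_zero (Nat.cast_ne_zero.2 hd) (pow_ne_zero _ two_ne_zero)
  refine (mul_eq_zero.1 ?_).resolve_left h0
  have e3 := map_sum (Polynomial.lsum (R := ℂ) fun j => LinearMap.mulRight ℂ (v (j + t)))
    (fun π => Polynomial.monomial (x π + (Y - y π))
      (((Equiv.Perm.sign π : ℤ) : ℂ) * (c π * ((q : ℂ) ^ dd) ^ (2 * y π)))) Finset.univ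
  simp only [Polynomial.lsum_apply, LinearMap.mulRight_apply] at e3
  rw [e3, ← h, Finset.mul_sum]
  refine Finset.sum_congr rfl fun π _ => ?_
  rw [key, Polynomial.sum_monomial_index _ (fun j a => a * v (j + t)) (zero_mul _)]
  ring

end ZRb

open ZRb in
theorem ZR_thm [ALT K dd] [XA K dd] [XC] [XV K p dd] [XW K p dd] [ZS K p dd] : ZR K p dd where
  rel {G q} hq hF n r hn sd E s1 s2 e hne := by
    subst hn
    obtain ⟨f, f1, f2⟩ := rel hq hF sd E s1 s2 e hne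
    obtain ⟨g, g1, g2⟩ := Polynomial.exists_eq_pow_rootMultiplicity_mul_and_not_dvd f
      (fun h => f1 (by rw [h, Polynomial.eval_zero])) 0
    rw [Polynomial.dvd_iff_isRoot] at g2
    generalize Polynomial.rootMultiplicity 0 f = s at g1
    rw [Polynomial.C_0, sub_zero] at g1
    subst g1
    refine ⟨g, fun h => f1 (by rw [Polynomial.eval_mul, h, mul_zero]), g2, fun φ a1 a2 v hv t => ?_⟩
    obtain ⟨ψ, b0, b1, b2⟩ := XV.desc hF φ fun b => bif b then s else 0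
    choose w hw using fun j => XW.val hF ψ (b1 a1) fun b => bif b then j else 0
    have h := f2 ψ (b1 a1) (b2 _ a2) (fun j => if s ≤ j then v (j - s) else w j) (fun j => ?_) t
    · rw [ZRa.sum_shift g s t fun j => if s ≤ j then v (j - s) else w j] at h
      simpa using h
    · split_ifs with hj
      · intro L P g1 g2 g3
        rw [← hv (j - s) L P g1 g2 g3, b0, cfg_cfg]
        congr 2
        funext b
        cases b
        · rfl
        · exact (Nat.sub_add_cancel hj).symm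
      · exact hw j

end Pool.Agent.Lib.MP_557161_ag.HG.HN
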