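import Pool.Agent.Lib.MP_557161_ag.HN.ZX1

/-!
The self intersection of the diagonal, and its intersection with the graph of the involution.
-/

namespace Pool.Agent.Lib.MP_557161_ag.HG.HN

open Pool.Agent.Lib.MP_557161_ag.DL

namespace ZX1

variable {K : Type} [Field K] {dd : ℕ} [X0 dd] {G : GD K dd} {d : Cd} {W : ASp K d}
  {L M N : Fld K} [FW0 K]

omit [X0 dd] in
lemma free_ne {j : ℕ} {α : L →ₐ[K] M} {κ : Type} [Finite κ] {T : κ → M} (h : Free j α T) (i : κ) :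
    T i ≠ 0 := fun e =>
  Polynomial.X_ne_zero (FA1.trans h i Polynomial.X (by rw [Polynomial.eval₂_X, e]))

omit [X0 dd] in
lemma free_fam {j : ℕ} {α : L →ₐ[K] M} {T : Bool → M} (h : Free j α T) {s r : M}
    (h1 : T false ∈ gen α (fam s r)) (ha : T true = 1 + s * T false) : Free j α (fam s r) :=
  FA1.of_gen h rfl fun b => by
    cases b
    · exact h1
    · rw [ha]
      exact add_mem (one_mem _) (mul_mem (Se.gr α (fam s r) true) h1)

omit [X0 dd] [FW0 K] in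
lemma map_sg (β : M →ₐ[K] N) (ε : Bool) (y : (xz dd).X M) :
    (xz dd).map β (sg ε M y) = sg ε N ((xz dd).map β y) := by
  cases ε
  exacts [rfl, Prod.ext rfl (map_neg β _)]

open Classical in
/-- The terms of the specialisation. -/
noncomputable def tm {k : ℕ} (θ : Pre k (G.kb W 1).tot.sp) (β : M →ₐ[K] N) (a t : N) (ε : Bool)
    (y : (xz dd).X M) (w : d.X M) (O : Pl N) : ℂ :=
  if 0 < O.ord t then (O.ord t : ℂ) * θ.r O (pnt G β a t ε y w) else 0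

omit [FW0 K] in
lemma tm_ne {k : ℕ} {θ : Pre k (G.kb W 1).tot.sp} {β : M →ₐ[K] N} {a t : N} {ε : Bool}
    {y : (xz dd).X M} {w : d.X M} {O : Pl N} (hO : O.IsDVR) (ht : t ≠ 0)
    (h : tm θ β a t ε y w O ≠ 0) :
    (Rel.ofPl O).r t 0 ∧ θ.r O (pnt G β a t ε y w) ≠ 0 := by
  unfold tm at h
  split_ifs at h with h1
  · exact ⟨(Pl.ord_pos_iff hO ht).1 h1, right_ne_zero_of_mul h⟩
  · exact absurd rfl h

omit [FW0 K] in
lemma tm_scl {k : ℕ} (θ : Pre k (G.kb W 1).tot.sp) (β : M →ₐ[K] N) (a t : N) (ε : Bool) {c : M}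
    (h0 : c ≠ 0) (y : (xz dd).X M) (w : d.X M) (O : Pl N) :
    tm θ β a t ε (G.Γ.scl c y) w O = tm θ β a t ε y w O := by
  rw [tm, tm, r_scl θ β a t ε h0]

omit [FW0 K] in
lemma hasS {k : ℕ} {θ : QF k (G.kb W 1).tot} {Ψ : QF (k + 1) (G.JT W)} (h : G.IsDf θ Ψ)
    {y : (xz dd).X M} {w : d.X M} (hy : G.Cn M y) (hw : W.mem M w) (β : M →ₐ[K] N)
    (T : Bool → N) (hN : Good (k + 1) N) (ht : T false ≠ 0) (ε : Bool) :
    HasS (fun O : Dv N k => tm θ.toPre β (T true) (T false) ε y w O.1)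
      (Ψ.q N (G.jp β T (sg ε M y) y w)) := by
  have hy' : G.Cn N ((xz dd).map β y) := (G.CC.S.map_iff β y).2 hy
  have h0 : G.Cn0 N (sg ε N ((xz dd).map β y)) := by
    cases ε
    exacts [hy'.2, (neg_sq _).trans hy'.2]
  have := h N ((xz dd).map β y) (G.Γ.scl (T true) (sg ε N ((xz dd).map β y))) (d.map β w)
    (T false) hN hy' ((W.map_iff β w).2 hw) (h0.scl _) ht
  rw [GD.jp, map_sg]
  exact this

variable [WB K]

omit [FW0 K] in
/-- The other places do not contribute to the self intersection. -/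
lemma dg_other {k : ℕ} (θ : Pre k (G.kb W 1).tot.sp) {β : M →ₐ[K] N} {a t s : N} (ht : t ≠ 0)
    (ha : a = 1 + s * t) (y : (xz dd).X M) (w : d.X M) {O' : Pl N} (hO : O'.IsDVR)
    (h : (∀ b, fam s t b ∈ O'.O) → O'.rd t = 0 → ∃ m, m < k ∧
      (O'.res.sub (gen (Pl.over_comap β O').resHom fun b => O'.rd (fam s t b))).tr ≤ m) :
    tm θ β a t false y w O' = 0 := by
  by_contra hn
  obtain ⟨h0, h1⟩ := tm_ne hO ht hn
  have ov := Pl.over_comap β O'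
  obtain ⟨c, y', c0, e, hy⟩ := norm θ ov h1
  rw [← r_scl θ β a t false c0] at h1
  have e' := Cd.lift_over ov e
  have hy' : G.Cn O'.res ((xz dd).map ov.resHom y') := (G.CC.S.map_iff ov.resHom y').2 hy
  obtain ⟨w₁, v, e1, -, e2, h2⟩ := drop θ h1 e' hy'
  obtain ⟨w', -, rfl⟩ := down ov e1
  obtain ⟨s', hs⟩ := rel_s G ht ha e' hy'.1 e2
  obtain ⟨m, m1, m2⟩ := h (fun b => by cases b; exacts [h0.1, hs.1]) h0.2
  refine h2 (low θ ov.resHom _ y' w' (fun μ => ?_) m1 m2)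
  rw [Rel.eq (e2 μ) (rel_dg G ht ha hs h0 e' μ) rfl, ← hs.2]
  refine mul_mem (Se.gr _ (fun b => O'.rd (fam s t b)) true) ?_
  cases μ with
  | none => exact mul_mem (natCast_mem _ _) (Se.gl _ _ _)
  | some i => exact Se.gl _ _ _

lemma dg {i : ℕ} {θ : QF (i + 1) (G.kb W 1).tot} {Ψ : QF (i + 1 + 1) (G.JT W)} (h : G.IsDf θ Ψ)
    {M₁ : Fld K} {y : (xz dd).X M} {w : d.X M} (hy : G.Cn M y) (hw : W.mem M w) (β : M →ₐ[K] N)
    (T : Bool → N) (hT : Free i β T) (β₁ : M →ₐ[K] M₁) (s₁ : M₁)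
    (h₁ : Free i β₁ fun _ : Unit => s₁) : Ψ.q N (G.jp β T y y w) =
      θ.q M₁ (((xz dd).map β₁ y, d.map β₁ w), s₁ • G.eul ((xz dd).map β₁ y)) := by
  have ht := free_ne hT false
  have ha : T true = 1 + (T true - 1) / T false * T false := by
    rw [div_mul_cancel₀ _ ht, add_sub_cancel]
  generalize (T true - 1) / T false = s at ha
  have hF := free_fam hT (s := s) (r := T false) (Se.gr β (fam s (T false)) false) ha
  obtain ⟨O, tv, z1, z2, z3, z4, z5⟩ := FA2.zero hF (i := i + 1) (by simp) false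
  replace z2 : O.1.ord (T false) = 1 := z2
  have z6 : Free i tv.hom fun _ : Unit => O.1.rd s := FA1.of_gen z4 (by
    rw [Nat.card_eq_fintype_card, Nat.card_eq_fintype_card]
    rfl) fun b => by
      obtain ⟨_ | _, hb⟩ := b
      · exact absurd rfl hb
      · exact Se.gr _ (fun _ : Unit => O.1.rd s) ()
  obtain ⟨ρ, r1, r2, r3⟩ := FA1.lift h₁ z6 (AlgHom.id K M)
  have r4 : ∀ x, ρ (β₁ x) = tv.hom x := DFunLike.congr_fun r1
  have e := Cd.lift_triv tv y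
  have H := (hasS h hy hw β T (by simpa using hT.gM) ht false).2
  rw [finsum_eq_single _ O fun O' hO => dg_other θ.toPre ht ha y w O'.2.1 (z5 O' hO), tm, z2,
    if_pos one_pos, Int.cast_one, one_mul, r_eq θ.toPre
      (x' := (((xz dd).map tv.hom y, d.map tv.hom w), O.1.rd s • G.eul ((xz dd).map tv.hom y)))
      ⟨⟨e, Cd.lift_triv tv w⟩,
        rel_dg G (R := Rel.ofPl O.1) ht ha ⟨z1 true, rfl⟩ ⟨z1 false, z3⟩ e⟩
      ((G.CC.S.map_iff tv.hom y).2 hy)] at H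
  refine H.symm.trans ?_
  have E := θ.ext ρ (((G.Γ1 d).prod (.vec G.ωK)).pt
    (((xz dd).map β₁ y, d.map β₁ w), s₁ • G.eul ((xz dd).map β₁ y)))
    (by simpa using h₁.gM) (by simpa using z6.gM)
  rw [r3 rfl, deg_of_surj Function.surjective_id, Nat.cast_one, one_mul, Wt.map_pt] at E
  refine Eq.trans (congrArg (θ.q _) (Prod.ext (Prod.ext (Prod.ext (funext fun l => (r4 _).symm)
    (r4 _).symm) ?_) (funext fun μ => ?_))) E
  · exact (d.map_congr fun l => (r4 _).symm).trans (d.map_map β₁ ρ w).symm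
  · cases μ with
    | none =>
      show O.1.rd s * (G.e * tv.hom y.2) = ρ (s₁ * (G.e * β₁ y.2))
      rw [map_mul, map_mul, map_natCast, r4, r2 ()]
    | some l =>
      show O.1.rd s * tv.hom (y.1 l) = ρ (s₁ * β₁ (y.1 l))
      rw [map_mul, r4, r2 ()]

section Graph

variable {i : ℕ} (θ : Pre (i + 2) (G.kb W 1).tot.sp) {β : M →ₐ[K] N} {a t s : N}
  {y : (xz dd).X M} {w : d.X M} {O : Pl M}

omit [FW0 K] [WB K] in
lemma two_ne (G : GD K dd) (L : Fld K) : (2 : L) ≠ 0 := fun e =>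
  (X0.num G).2.2.2.1 ((algebraMap K L).injective (by rw [map_ofNat, map_zero, e]))

omit [FW0 K] in
/-- The places with a nonzero term. -/
lemma gr_live {O' : Pl N} (ov : Pl.Over β O O') (hO : O'.IsDVR) (ht : t ≠ 0) (ha : a = 1 + s * t)
    {y' : (xz dd).X O.res} (e : (xz dd).lift (Rel.ofPl O).r y y') (hy : G.Cn O.res y')
    (hn : tm θ β a t true y w O' ≠ 0) : (∀ b, fam s (β y.2 / t) b ∈ O'.O) ∧ y'.2 = 0 ∧
      (∃ w', d.lift (Rel.ofPl O).r w w' ∧ W.mem O.res w') ∧ ∀ m, m < i + 2 →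
      ¬ (O'.res.sub (gen ov.resHom fun b => O'.rd (fam s (β y.2 / t) b))).tr ≤ m := by
  obtain ⟨h0, h1⟩ := tm_ne hO ht hn
  have e' := Cd.lift_over ov e
  have hy' : G.Cn O'.res ((xz dd).map ov.resHom y') := (G.CC.S.map_iff ov.resHom y').2 hy
  obtain ⟨w₁, v, e1, hw, e2, h2⟩ := drop θ h1 e' hy'
  obtain ⟨w', e3, rfl⟩ := down ov e1
  obtain ⟨s', hs⟩ := rel_s G ht ha e' hy'.1 e2
  obtain ⟨r', hr⟩ := rel_r G (two_ne G _) ha hs h0 (e2 none)
  have h3 := (Rel.ofPl O').mul hr h0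
  rw [div_mul_cancel₀ _ ht, mul_zero] at h3
  refine ⟨fun b => by cases b; exacts [hr.1, hs.1],
    (map_eq_zero ov.resHom).1 (Rel.eq e'.2 h3 rfl), ⟨w', e3, (W.map_iff ov.resHom w').1 hw⟩,
    fun m m1 m2 => h2 (low θ ov.resHom _ y' w' (fun μ => ?_) m1 m2)⟩
  rw [Rel.eq (e2 μ) (rel_gr G ht ha hs h0 hr e' μ) rfl, ← hs.2, ← hr.2]
  cases μ with
  | none =>
    exact mul_mem (neg_mem (ofNat_mem _ 2))
      (Se.gr _ (fun b => O'.rd (fam s (β y.2 / t) b)) false)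
  | some l =>
    exact mul_mem (Se.gr _ (fun b => O'.rd (fam s (β y.2 / t) b)) true) (Se.gl _ _ _)

/-- The Gauss place. -/
lemma gr_main {ϖ} (hϖ : G.IsPl i θ.q W ϖ) {T : Bool → N} (hT : Free (i + 1) β T)
    (ha : T true = 1 + s * T false) (h0 : y.2 ≠ 0) (O : Dv M i) {y' : (xz dd).X O.1.res}
    {w' : d.X O.1.res} (e : (xz dd).lift (Rel.ofPl O.1).r y y') (hy : G.Cn O.1.res y')
    (hz : y'.2 = 0) (e₁ : d.lift (Rel.ofPl O.1).r w w') (hw : W.mem O.1.res w') :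
    ∃ O' : Dv N (i + 2), Pl.Over β O.1 O'.1 ∧
      (O.1.ord y.2 : ℂ) * ϖ O.1.res ((G.Γ1 d).pt (y', w')) =
        tm θ β (T true) (T false) true y w O'.1 ∧
      ∀ O'' : Dv N (i + 2), Pl.Over β O.1 O''.1 →
        tm θ β (T true) (T false) true y w O''.1 ≠ 0 → O'' = O' := by
  have ht := free_ne hT false
  have hb : β y.2 ≠ 0 := (map_ne_zero β).2 h0
  have hq : T false = β y.2 * (β y.2 / T false)⁻¹ := by field_simp
  have hF := free_fam hT (s := s) (r := β y.2 / T false) (by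
    rw [hq]
    exact mul_mem (Se.gl _ _ _) (inv_mem (by
      rw [← hq]
      exact Se.gr β (fam s (β y.2 / T false)) false))) ha
  obtain ⟨O', ov, o2, o3, o4, o5⟩ := DNa.gauss hF (J := i + 2) (by simp) O
  refine ⟨O', ov, ?_, fun O'' ov' hn => by_contra fun ne => ?_⟩
  · have r0 : O'.1.rd (β y.2 / T false) ≠ 0 := free_ne o4 false
    have hr : (Rel.ofPl O'.1).r (β y.2 / T false) (O'.1.rd (β y.2 / T false)) := ⟨o2 false, rfl⟩
    have hs : (Rel.ofPl O'.1).r s (O'.1.rd s) := ⟨o2 true, rfl⟩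
    have e' := Cd.lift_over ov e
    have hi := (Rel.ofPl O'.1).inv hr r0
    have o6 : O'.1.ord (T false) = O.1.ord y.2 := by
      rw [hq, Pl.ord_mul O'.2.1 hb (inv_ne_zero (Rel.ne_zero hr r0)), o3,
        Pl.ord_eq_zero_of_mem' O'.2.1 hi.1 (by rw [inv_inv]; exact hr.1), add_zero]
    have o7 : 0 < O.1.ord y.2 := (Pl.ord_pos_iff O.2.1 h0).2 ⟨e.2.1, e.2.2.trans hz⟩
    have h2 := two_ne G O'.1.res
    have o8 : Free i ov.resHom (fam (O'.1.rd s) (-2 * O'.1.rd (β y.2 / T false))) :=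
      FA1.of_gen o4 rfl fun b => by
        cases b
        · show O'.1.rd (β y.2 / T false) ∈ _
          rw [← inv_mul_cancel_left₀ (neg_ne_zero.2 h2) (O'.1.rd (β y.2 / T false))]
          refine mul_mem (inv_mem (neg_mem (ofNat_mem _ 2))) ?_
          rw [inv_mul_cancel_left₀ (neg_ne_zero.2 h2)]
          exact Se.gr _ (fam (O'.1.rd s) (-2 * O'.1.rd (β y.2 / T false))) false
        · exact Se.gr _ (fam (O'.1.rd s) (-2 * O'.1.rd (β y.2 / T false))) true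
    rw [tm, o6, if_pos o7, hϖ.1 _ _ ov.resHom _ y' w' o8 hy hz hw, r_eq θ
      (x' := (((xz dd).map ov.resHom y', d.map ov.resHom w'),
        pln (fam (O'.1.rd s) (-2 * O'.1.rd (β y.2 / T false))) ((xz dd).map ov.resHom y')))
      ⟨⟨e', Cd.lift_over ov e₁⟩,
        rel_gr G ht ha hs ((Pl.ord_pos_iff O'.2.1 ht).1 (o6 ▸ o7)) hr e'⟩
      ((G.CC.S.map_iff ov.resHom y').2 hy)]
  · obtain ⟨k1, -, -, k2⟩ := gr_live θ ov' O''.2.1 ht ha e hy hn
    obtain ⟨m, k3, k4⟩ := o5 O'' ov' ne k1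
    exact k2 m k3 k4

omit [X0 dd] [FW0 K] in
lemma ramT_eq (ϖ : ∀ N : Fld K, ((G.Γ1 d).amb K).pt N → ℂ) (hO : O.IsDVR) (h0 : y.2 ≠ 0) {c : M}
    (c0 : c ≠ 0) {y' : (xz dd).X O.res} {w' : d.X O.res}
    (e : (xz dd).lift (Rel.ofPl O).r (G.Γ.scl c y) y') (hy : G.Cn O.res y')
    (e₁ : d.lift (Rel.ofPl O).r w w') : G.ramT ϖ y w O =
      (O.ord (G.Γ.scl c y).2 : ℂ) * ϖ O.res ((G.Γ1 d).pt (y', w')) := by
  obtain ⟨l, hl⟩ := Function.ne_iff.1 hy.1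
  have h1 : (G.Γ1 d).ow O G.e y.2 (y, w) = O.ord (c ^ (G.e : ℤ) * y.2) := by
    refine WB.ow_eq (G.Γ1 d) (x := (y, w)) _ hO c0 h0 ?_
      ⟨.inl (.inl l), trivial, fun h => hl ((e.1 l).2.symm.trans h)⟩
    rintro ((l | l) | l) h
    exacts [(e.1 l).1, h.elim, h.elim]
  rw [GD.ramT, (G.Γ1 d).red_pt (x := (y, w)) (x' := (y', w')) c0 ⟨e, e₁⟩
    ⟨.inl (.inl l), trivial, hl⟩, h1, zpow_natCast]

end Graph

lemma gr {i : ℕ} {θ : QF (i + 2) (G.kb W 1).tot} {Ψ : QF (i + 2 + 1) (G.JT W)} (h : G.IsDf θ Ψ)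
    {ϖ} (hϖ : G.IsPl i θ.q W ϖ) {y : (xz dd).X M} {w : d.X M} (hy : G.Cn M y) (h0 : y.2 ≠ 0)
    (hw : W.mem M w) (β : M →ₐ[K] N) (T : Bool → N) (hT : Free (i + 1) β T) :
    HasS (fun O : Dv M i => G.ramT ϖ y w O.1) (Ψ.q N (G.jp β T (ngz M y) y w)) := by
  have ht := free_ne hT false
  have ha : T true = 1 + (T true - 1) / T false * T false := by
    rw [div_mul_cancel₀ _ ht, add_sub_cancel]
  generalize (T true - 1) / T false = s at ha
  have hz : ∀ {c : M}, c ≠ 0 → (G.Γ.scl c y).2 ≠ 0 := fun c0 =>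
    mul_ne_zero (pow_ne_zero _ c0) h0
  have main : ∀ (O : Dv M i) {c : M} {y' w'}, c ≠ 0 →
      (xz dd).lift (Rel.ofPl O.1).r (G.Γ.scl c y) y' → G.Cn O.1.res y' → y'.2 = 0 →
      d.lift (Rel.ofPl O.1).r w w' → W.mem O.1.res w' →
      ∃ O' : Dv N (i + 2), Pl.Over β O.1 O'.1 ∧
        G.ramT ϖ y w O.1 = tm θ.toPre β (T true) (T false) true y w O'.1 ∧
        ∀ O'' : Dv N (i + 2), Pl.Over β O.1 O''.1 →
          tm θ.toPre β (T true) (T false) true y w O''.1 ≠ 0 → O'' = O' := by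
    intro O c y' w' c0 e hy' z0 e₁ hw'
    obtain ⟨O', o1, o2, o3⟩ := gr_main θ.toPre hϖ hT ha (hz c0) O e hy' z0 e₁ hw'
    simp only [tm_scl θ.toPre β _ _ true c0] at o2 o3
    exact ⟨O', o1, (ramT_eq ϖ O.2.1 h0 c0 e hy' e₁).trans o2, o3⟩
  have live : ∀ (O : Pl M) (O' : Dv N (i + 2)) (ov : Pl.Over β O O'.1),
      tm θ.toPre β (T true) (T false) true y w O'.1 ≠ 0 → ∃ (c : M) (y' : (xz dd).X O.res)
        (w' : d.X O.res), c ≠ 0 ∧ (xz dd).lift (Rel.ofPl O).r (G.Γ.scl c y) y' ∧ G.Cn O.res y' ∧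
        y'.2 = 0 ∧ d.lift (Rel.ofPl O).r w w' ∧ W.mem O.res w' ∧ ∃ u : Bool → O'.1.res,
          ∀ m, m < i + 2 → ¬ (O'.1.res.sub (gen ov.resHom u)).tr ≤ m := by
    intro O O' ov hn
    obtain ⟨c, y', c0, e, hy'⟩ := norm θ.toPre ov (tm_ne O'.2.1 ht hn).2
    rw [← tm_scl θ.toPre β _ _ true c0] at hn
    obtain ⟨-, k1, ⟨w', k2, k3⟩, k4⟩ := gr_live θ.toPre ov O'.2.1 ht ha e hy' hn
    exact ⟨c, y', w', c0, e, hy', k1, k2, k3, _, k4⟩
  refine transfer _ _ (fun (O : Dv M i) (O' : Dv N (i + 2)) => Pl.Over β O.1 O'.1 ∧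
    G.ramT ϖ y w O.1 = tm θ.toPre β (T true) (T false) true y w O'.1 ∧
      tm θ.toPre β (T true) (T false) true y w O'.1 ≠ 0) (fun O hO => ?_) (fun O' hO => ?_)
    (fun _ _ h => h.2.1) ?_ ?_
    (hasS h hy hw β T (by simpa [Nat.add_assoc] using hT.gM) ht true)
  · obtain ⟨-, y₁, w₁, k1, k2, k3, k4⟩ := hϖ.2 _ _ (right_ne_zero_of_mul hO)
    obtain ⟨l, hl⟩ := Function.ne_iff.1 k1.1
    have n₁ : (G.Γ1 d).nz (y₁, w₁) := ⟨.inl (.inl l), trivial, hl⟩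
    obtain ⟨_, x', -, i0, e, -, q⟩ := (G.Γ1 d).qred_nz k4 n₁
    obtain ⟨b, b0, rfl⟩ := ((G.Γ1 d).pt_eq n₁).1 q.symm
    obtain ⟨O', o1, o2, -⟩ := main O (inv_ne_zero i0) e.1 (G.CC.inv _ b _ b0 k1)
      (mul_eq_zero_of_right _ k2) e.2 k3
    exact ⟨O', o1, o2, o2 ▸ hO⟩
  · have ov := Pl.over_comap β O'.1
    obtain ⟨c, y', w', c0, e, hy', k1, k2, k3, u, k4⟩ := live _ O' ov hO
    have nt : ¬ Pl.Triv β O'.1 := fun tv =>
      ((Pl.comap β O'.1).rd_ne_zero_iff e.2.1).2 ⟨hz c0, tv _⟩ (e.2.2.trans k1)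
    have dv : (Pl.comap β O'.1).IsDiv i :=
      (FA2.comap_dv (k := 2) hT.gL O'.2.1 nt u (by simp)).resolve_right
        fun ⟨m, m1, m2⟩ => k4 m m1 m2
    obtain ⟨O₁, -, o2, o3⟩ := main ⟨_, dv⟩ c0 e hy' k1 k2 k3
    obtain rfl := o3 O' ov hO
    exact ⟨⟨_, dv⟩, ov, o2, hO⟩
  · rintro O O₁ O₂ ⟨o1, -, o2⟩ ⟨o1', -, o2'⟩
    obtain ⟨c, y', w', c0, e, hy', k1, k2, k3, -⟩ := live _ O₁ o1 o2
    obtain ⟨O', -, -, o3⟩ := main O c0 e hy' k1 k2 k3
    exact (o3 _ o1 o2).trans (o3 _ o1' o2').symm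
  · rintro O₁ O₂ O' ⟨h₁, -⟩ ⟨h₂, -⟩
    exact Subtype.ext (h₁.eq_comap.trans h₂.eq_comap.symm)

end ZX1

theorem ZX_thm {K : Type} [Field K] {dd : ℕ} [X0 dd] [FW0 K] [WB K] : ZX K dd where
  dg hk h := by
    subst hk
    exact fun hy hw β T hT β₁ s h₁ => ZX1.dg h hy hw β T hT β₁ s h₁
  gr hk h := by
    subst hk
    exact fun hϖ _ _ _ _ hy h0 hw β T hT => ZX1.gr h hϖ hy h0 hw β T hT

end Pool.Agent.Lib.MP_557161_ag.HG.HN
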