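import Pool.Agent.Lib.MP_557161_ag.HN.All1
import Pool.Agent.Lib.MP_557161_ag.HG.XC
import Pool.Agent.Lib.MP_557161_ag.HG.XH
import Pool.Agent.Lib.MP_557161_ag.HG.XT
import Pool.Agent.Lib.MP_557161_ag.HG.XZ
import Pool.Agent.Lib.MP_557161_ag.HG.ZA
import Pool.Agent.Lib.MP_557161_ag.HG.ZA1
import Pool.Agent.Lib.MP_557161_ag.HG.ZB
import Pool.Agent.Lib.MP_557161_ag.HG.ZD
import Pool.Agent.Lib.MP_557161_ag.HG.ZT
import Pool.Agent.Lib.MP_557161_ag.HN.FN
import Pool.Agent.Lib.MP_557161_ag.HN.X0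
import Pool.Agent.Lib.MP_557161_ag.HN.XA
import Pool.Agent.Lib.MP_557161_ag.HN.XG
import Pool.Agent.Lib.MP_557161_ag.HN.XI
import Pool.Agent.Lib.MP_557161_ag.HN.XJ
import Pool.Agent.Lib.MP_557161_ag.HN.XK
import Pool.Agent.Lib.MP_557161_ag.HN.XQ
import Pool.Agent.Lib.MP_557161_ag.HN.XV
import Pool.Agent.Lib.MP_557161_ag.HN.XW
import Pool.Agent.Lib.MP_557161_ag.HN.YA
import Pool.Agent.Lib.MP_557161_ag.HN.YD
import Pool.Agent.Lib.MP_557161_ag.HN.YL
import Pool.Agent.Lib.MP_557161_ag.HN.YM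
import Pool.Agent.Lib.MP_557161_ag.HN.YN
import Pool.Agent.Lib.MP_557161_ag.HN.YP
import Pool.Agent.Lib.MP_557161_ag.HN.YQ
import Pool.Agent.Lib.MP_557161_ag.HN.YT
import Pool.Agent.Lib.MP_557161_ag.HN.YU
import Pool.Agent.Lib.MP_557161_ag.HN.YW
import Pool.Agent.Lib.MP_557161_ag.HN.TA
import Pool.Agent.Lib.MP_557161_ag.HN.TB
import Pool.Agent.Lib.MP_557161_ag.HN.TC
import Pool.Agent.Lib.MP_557161_ag.HN.TD
import Pool.Agent.Lib.MP_557161_ag.HN.ZG
import Pool.Agent.Lib.MP_557161_ag.HN.ZO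
import Pool.Agent.Lib.MP_557161_ag.HN.ZP
import Pool.Agent.Lib.MP_557161_ag.HN.ZR
import Pool.Agent.Lib.MP_557161_ag.HN.ZS
import Pool.Agent.Lib.MP_557161_ag.HN.ZX

/-!
The conjecture of Tate in the middle codimension for the double covers, assembled.
-/

namespace Pool.Agent.Lib.MP_557161_ag.HG.HN

open Pool.Agent.Lib.MP_557161_ag.DL

theorem geo {K : Type} [Field K] [Base K] {p dd : ℕ} [Fact p.Prime] [CharP K p] :
    XA K dd ∧ XI K p dd ∧ XV K p dd ∧ ZR K p dd ∧ XQ K p dd := by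
  have : FW0 K := FW0_thm
  have : FWp K p := FWp_thm
  obtain ⟨_, _, _, _, _, _, _, _, _, _, _, _⟩ := tools (K := K)
  have : X0 dd := X0_thm
  have : XJ dd := XJ_thm
  have : XH K := XH_thm
  have : XC := XC_thm
  have xa : XA K dd := XA_thm
  have : XG K dd := XG_thm
  have xi : XI K p dd := XI_thm
  have xv : XV K p dd := XV_thm
  have : XW K p dd := XW_thm
  have : YA K dd := YA_thm
  have : YT K dd := YT_thm
  have : YD K dd := YD_thm
  have : YN K dd := YN_thm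
  have : YP K dd := YP_thm
  have : YU K dd := YU_thm
  have : YL K dd p := YL_thm
  have : YM K dd p := YM_thm
  have : YW K dd := YW_thm p
  have : YQ K dd := YQ_thm
  have : TA K := TA_thm
  have : TB K := TB_thm
  have : TC K := TC_thm
  have : TD K := TD_thm
  have : ZX K dd := ZX_thm
  have : ZG K dd := ZG_thm
  have : ZP K dd := ZP_thm
  have : ZO K p dd := ZO_thm
  have : ZS K p dd := ZS_thm
  have : ALT K dd := ALT_thm
  exact ⟨xa, xi, xv, ZR_thm, XQ_thm⟩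

theorem final {k : Type} [Field k] [Finite k] {dd : ℕ} (G : GD k dd) (L : ℕ → Type)
    [∀ m, Field (L m)] [∀ m, Algebra k (L m)] (hL : ∀ m, Module.finrank k (L m) = m + 1) :
    SmProj (dpI G.e G.F) (2 * dd) ∧ ∃ ζ : ℂ → ℂ, IsZeta (dpI G.e G.F) (2 * dd) L ζ ∧
    (((-3 : ℤ) : WithTop ℤ) ≤ meromorphicOrderAt ζ dd +
      meromorphicOrderAt ζ (dd + Real.pi * Complex.I / Real.log (Nat.card k)) →
    (∀ F : ∀ P : Var (dpI G.e G.F) dd, Res (dpI G.e G.F) P.1, ∃ ρ : ℕ,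
      Module.rank ℤ (Num (dpI G.e G.F) dd dd F) = ρ ∧
        meromorphicOrderAt ζ dd = (-(ρ : ℤ) : ℤ)) ∧
    ([ZY] → TateAt (Nat.card k) dd (upI (dpI G.e G.F)))) := by
  have hb := T0.fbar k
  have : Fact (ringChar k).Prime := ⟨hb.prime⟩
  have := hb.char
  obtain ⟨_, _, _, _, _⟩ := geo (K := AlgebraicClosure k) (p := ringChar k) (dd := dd)
  have : X0 dd := X0_thm
  have : XJ dd := XJ_thm
  have : XK dd := XK_thm
  have : XT := XT_thm
  have : XZ := XZ_thm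
  have : ZA1 := ZA1_thm
  have : ZA := ZA_thm
  have : ZB := ZB_thm
  have : ZD := ZD_thm
  have : ZT := ZT_thm
  obtain ⟨ζ, h1, h2⟩ := zeta_dec (p := ringChar k) G L hL
  exact ⟨⟨G.hI, G.hs, G.hd, fun i P => nonempty_res G.hI P.2.2.1 P.2.2.2.1,
    fun i n h P Q F => chi_eventually G.hI G.hs G.hd h P Q F⟩, ζ, h1, h2⟩

end Pool.Agent.Lib.MP_557161_ag.HG.HN
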