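import Pool.Agent.Lib.MP_557161_ag.HN.Itf

/-!
From the double cover to the torus side of the chains: definitions and statements.
-/

namespace Pool.Agent.Lib.MP_557161_ag.HG.HN

open Pool.Agent.Lib.MP_557161_ag.DL MvPolynomial

variable {K : Type} [Field K] {dd : ℕ}

/-- The hypergeometric data. -/
structure HD (K : Type) [Field K] (dd : ℕ) where
  b : Option (Vr dd) → ℕ
  lam : K
  hb : b none = ∑ l, b (some l) + dd
  l0 : lam ≠ 0
  two : (2 : K) ≠ 0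
  ch : ∀ l, ((2 * b l + 1 : ℕ) : K) ≠ 0
  disc : lam ^ (2 * b none + 1) * ∏ l, ((2 * b (some l) + 1 : ℕ) : K) ^ (2 * b (some l) + 1) ≠
    (-((2 * b none + 1 : ℕ) : K)) ^ (2 * b none + 1)

/-- The sign of the phase. -/
def sgO {F : Type} [Ring F] (l : Option (Vr dd)) : F := l.elim (-1) fun _ => 1

lemma rel_sgO {M L : Fld K} (R : Rel M L) (l : Option (Vr dd)) : R.r (sgO l) (sgO l) := by
  cases l
  exacts [Rel.neg R.one, R.one]

namespace HD

variable (H : HD K dd)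

/-- The exponents. -/
abbrev aa (l : Option (Vr dd)) : ℕ := 2 * H.b l + 1

/-- The common denominator. -/
def N : ℕ := 2 * ∏ l, H.aa l

/-- The parameter. -/
def t : K := (-(H.aa none : K) / H.lam) ^ H.aa none / ∏ l, (H.aa (some l) : K) ^ H.aa (some l)

/-- The torus `∏ X ^ a = 1` times the line. -/
noncomputable def V3 : ASp K (xz dd) :=
  ((ASp.univ K (xz dd)).opn (fun _ x => ∀ i, x.1 i ≠ 0)
    fun _ _ _ _ _ _ _ e h i => Rel.ne_zero (e.1 i) (h i)).cl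
    (fun _ x => ∏ i, x.1 i ^ H.aa (some i) = 1)
    fun _ _ R _ _ _ _ e h => Rel.eq (Rel.prod _ fun i _ => Rel.pow (e.1 i) _) R.one h

/-- The double cover of the torus. -/
noncomputable def U3 : ASp K (xz dd) :=
  H.V3.cl (fun L x => x.2 ^ 2 = ∑ i, x.1 i + algebraMap K L H.lam)
    fun _ _ R _ _ _ _ e h => Rel.eq (Rel.pow e.2 2)
      (R.add (Rel.sum _ fun i _ => e.1 i) (R.const _)) h

/-- The shape of points `(π, ρ)`. -/
abbrev ysh (dd : ℕ) : Cd := (Cd.vec (Option (Vr dd))).prod .one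

/-- The torus with coordinates `(π, ρ)`. -/
noncomputable def TY : ASp K (ysh dd) :=
  ((ASp.univ K (ysh dd)).opn (fun _ x => ∀ l, x.1 l ≠ 0)
    fun _ _ _ _ _ _ _ e h i => Rel.ne_zero (e.1 i) (h i)).cl
    (fun L x => x.2 ^ 2 = x.1 none ∧
      ∏ l, x.1 (some l) ^ H.aa (some l) = algebraMap K L H.t * x.1 none ^ H.aa none)
    fun _ _ R _ _ _ _ e h => ⟨Rel.eq (Rel.pow e.2 2) (e.1 _) h.1,
      Rel.eq (Rel.prod _ fun i _ => Rel.pow (e.1 _) _) (R.mul (R.const _) (Rel.pow (e.1 _) _)) h.2⟩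

/-- The indices of the roots. -/
abbrev Ix : Type := Σ l : Option (Vr dd), Fin (H.aa l)

/-- The shape of points `(u, ρ)`. -/
abbrev ush : Cd := (Cd.vec H.Ix).prod .one

/-- The torus with coordinates `(u, ρ)`. -/
noncomputable def TU : ASp K H.ush :=
  ((ASp.univ K H.ush).opn (fun _ x => ∀ a, x.1 a ≠ 0)
    fun _ _ _ _ _ _ _ e h i => Rel.ne_zero (e.1 i) (h i)).cl
    (fun L x => x.2 ^ 2 = ∏ k, x.1 ⟨none, k⟩ ^ H.aa none ∧
      ∏ l, ∏ k, x.1 ⟨some l, k⟩ ^ H.aa (some l) =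
        algebraMap K L H.t * ∏ k, x.1 ⟨none, k⟩ ^ H.aa none)
    fun _ _ R _ _ _ _ e h =>
      have := Rel.prod (R := R) Finset.univ fun k _ => Rel.pow (e.1 ⟨none, k⟩) (H.aa none)
      ⟨Rel.eq (Rel.pow e.2 2) this h.1, Rel.eq
        (Rel.prod _ fun _ _ => Rel.prod _ fun _ _ => Rel.pow (e.1 _) _) (R.mul (R.const _) this) h.2⟩

variable (κ : Type) [Fintype κ]

/-- The points `((X, z), s)`. -/
noncomputable def E3 : Ph K (.pi κ ((xz dd).prod .one)) where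
  S := (H.V3.prod (.gm K)).pi κ
  φ L x := ∑ i, (x i).2 * (∑ l, (x i).1.1 l + algebraMap K L H.lam - (x i).1.2 ^ 2)
  reg _ _ R _ _ _ _ e := Rel.sum _ fun i _ => R.mul (e i).2
    (Rel.sub (R.add (Rel.sum _ fun l _ => (e i).1.1 l) (R.const _)) (Rel.pow (e i).1.2 2))

/-- The points `(v, (π, ρ))`. -/
noncomputable def EY : Ph K ((Cd.vec κ).prod (.pi κ (ysh dd))) where
  S := (ASp.univ K (.vec κ)).prod (H.TY.pi κ)
  φ _ x := -∑ i, x.1 i ^ 2 + ∑ i, ∑ l, sgO l * (H.aa l * (x.2 i).1 l)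
  reg _ _ R _ _ _ _ e := R.add (Rel.neg (Rel.sum _ fun i _ => Rel.pow (e.1 i) 2))
    (Rel.sum _ fun i _ => Rel.sum _ fun l _ => R.mul (rel_sgO R l) (R.mul (R.natCast _) ((e.2 i).1 l)))

/-- The points `(v, (u, ρ))`. -/
noncomputable def EU : Ph K ((Cd.vec κ).prod (.pi κ H.ush)) where
  S := (ASp.univ K (.vec κ)).prod (H.TU.pi κ)
  φ _ x := -∑ i, x.1 i ^ 2 + ∑ i, ∑ a : H.Ix, sgO a.1 * (x.2 i).1 a ^ H.aa a.1
  reg _ _ R _ _ _ _ e := R.add (Rel.neg (Rel.sum _ fun i _ => Rel.pow (e.1 i) 2))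
    (Rel.sum _ fun i _ => Rel.sum _ fun a _ => R.mul (rel_sgO R _) (Rel.pow ((e.2 i).1 a) _))

end HD

namespace HD

variable (H : HD K dd) (p : ℕ) (κ : Type) [Fintype κ] [DecidableEq κ]

/-- The vanishing statement on `E3`. -/
def ST3 : Prop :=
  ∀ {d : Cd} (W : ASp K d) (j : ℕ) (Φ : NF p j (H.E3 κ) W),
    (∀ σ : Equiv.Perm κ, Φ.Eqv (fun _ x i => x (σ i)) ((Equiv.Perm.sign σ : ℤ) : ℂ)) →
    (∀ i, Φ.Eqv (fun L x => Function.update x i (ngz L (x i).1, (x i).2)) (-1)) →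
    ∀ L x y w, Φ.b L x y w = 0

/-- The vanishing statement on `EY`. -/
def ST5 : Prop :=
  ∀ {d : Cd} (W : ASp K d) (j : ℕ) (Φ : NF p j (H.EY κ) W), (∀ σ, Φ.Eqv (cperm σ) 1) →
    (∀ i, Φ.Eqv (cact i ngl) (-1)) → ∀ L x y w, Φ.b L x y w = 0

/-- The vanishing statement on `EU` for symmetric functionals. -/
def ST8 : Prop :=
  ∀ {d : Cd} (W : ASp K d) (j : ℕ) (Φ : NF p j (H.EU κ) W), (∀ σ, Φ.Eqv (cperm σ) 1) →
    (∀ i, Φ.Eqv (cact i ngl) (-1)) →
    (∀ i (σ : Equiv.Perm H.Ix), (∀ a, (σ a).1 = a.1) → Φ.Eqv (cact i (uperm σ)) 1) →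
    ∀ L x y w, Φ.b L x y w = 0

open Classical in
/-- The vanishing statement on `EU` for the standard character. -/
def ST10 : Prop :=
  ∀ (ζ : K) (ω : ℂ), IsPrimitiveRoot ζ H.N → IsPrimitiveRoot ω H.N →
  ∀ {d : Cd} (W : ASp K d) (j : ℕ) (Φ : NF p j (H.EU κ) W), (∀ σ, Φ.Eqv (cperm σ) 1) →
    (∀ i, Φ.Eqv (cact i ngl) (-1)) →
    (∀ i (a : H.Ix), Φ.Eqv (cact i (umul fun a' => if a' = a then ζ ^ (H.N / H.aa a.1) else 1))
      (ω ^ (H.N / H.aa a.1 * a.2.1))) →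
    ∀ L x y w, Φ.b L x y w = 0

end HD

/-- From the double cover to the double cover of the torus. -/
class A1 (K : Type) [Field K] (dd : ℕ) : Prop where
  red : ∀ G : GD K dd, ∃ H : HD K dd, H.aa none = G.n ∧ ∀ (κ : Type) [Fintype κ] [DecidableEq κ],
    AltV H.U3 ngz κ → AltS G.UU ngz κ

/-- Passage to an Artin-Schreier cover. -/
class A2a (K : Type) [Field K] (p dd : ℕ) : Prop where
  red : ∀ (H : HD K dd) (κ : Type) [Fintype κ] [DecidableEq κ], H.ST3 p κ → AltV H.U3 ngz κ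

/-- Separation of the quadratic variables. -/
class A2b (K : Type) [Field K] (p dd : ℕ) : Prop where
  red : ∀ (H : HD K dd) (κ : Type) [Fintype κ] [DecidableEq κ], H.ST5 p κ → H.ST3 p κ

/-- The relation of Hasse and Davenport: passage to the roots. -/
class A4 (K : Type) [Field K] (p dd : ℕ) : Prop where
  red : ∀ (H : HD K dd) (κ : Type) [Fintype κ] [DecidableEq κ], H.ST8 p κ → H.ST5 p κ

open Classical in
/-- Repeated characters do not contribute. -/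
class A5a (K : Type) [Field K] (p dd : ℕ) : Prop where
  rep : ∀ (H : HD K dd) (κ : Type) [Fintype κ] [DecidableEq κ] {d : Cd} (W : ASp K d) (j : ℕ)
    (Φ : NF p j (H.EU κ) W) (i : κ) (l : Option (Vr dd)) (k k' : Fin (H.aa l)) (ξ : K), k ≠ k' →
    IsPrimitiveRoot ξ (H.aa l) → Φ.Eqv (cact i (uperm (Equiv.swap ⟨l, k⟩ ⟨l, k'⟩))) 1 →
    Φ.Eqv (cact i (umul fun a => if a = ⟨l, k⟩ then ξ else if a = ⟨l, k'⟩ then ξ⁻¹ else 1)) 1 →
    ∀ L x y w, Φ.b L x y w = 0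

/-- Reduction to the standard character. -/
class A5 (K : Type) [Field K] (p dd : ℕ) : Prop where
  red : ∀ (H : HD K dd) (κ : Type) [Fintype κ] [DecidableEq κ], H.ST10 p κ → H.ST8 p κ

/-- Descent to the hypergeometric torus. -/
class A6 (K : Type) [Field K] (p dd : ℕ) : Prop where
  van : ∀ (H : HD K dd) (κ : Type) [Fintype κ] [DecidableEq κ], Nat.card κ = H.aa none → H.ST10 p κ

end Pool.Agent.Lib.MP_557161_ag.HG.HN
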