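import Pool.Agent.Lib.MP_557161_ag.HN.DN

/-!
The intersection with a divisor commutes with the flat pull back.
-/

namespace Pool.Agent.Lib.MP_557161_ag.HG.HN

open Pool.Agent.Lib.MP_557161_ag.DL

namespace WG1

lemma transfer {α β : Type*} (g : α → ℂ) (g' : β → ℂ) (R : α → β → Prop)
    (h1 : ∀ a, g a ≠ 0 → ∃ b, R a b) (h2 : ∀ b, g' b ≠ 0 → ∃ a, R a b)
    (h3 : ∀ a b, R a b → g a = g' b) (h4 : ∀ a b b', R a b → R a b' → b = b')
    (h5 : ∀ a a' b, R a b → R a' b → a = a') : ∑ᶠ a, g a = ∑ᶠ b, g' b := by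
  classical
  choose e he using h1
  let E : Function.support g → Function.support g' := fun a =>
    ⟨e a.1 a.2, fun h => a.2 ((h3 _ _ (he a.1 a.2)).trans h)⟩
  have hE : Function.Bijective E := by
    refine ⟨fun a a' h => Subtype.ext (h5 _ _ _ (he a.1 a.2) ?_), fun b => ?_⟩
    · have h' : e a.1 a.2 = e a'.1 a'.2 := congrArg Subtype.val h
      rw [h']
      exact he a'.1 a'.2
    · obtain ⟨a, ha⟩ := h2 b.1 b.2
      have ha0 : g a ≠ 0 := fun h => b.2 ((h3 _ _ ha).symm.trans h)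
      exact ⟨⟨a, ha0⟩, Subtype.ext (h4 _ _ _ (he a ha0) ha)⟩
  rw [← finsum_mem_support, ← finsum_set_coe_eq_finsum_mem,
    finsum_eq_of_bijective E hE (g := fun b => g' b.1) fun a => h3 _ _ (he a.1 a.2),
    finsum_set_coe_eq_finsum_mem (f := g'), finsum_mem_support]

variable {K : Type} [Field K] {c : Cd} {Γ : Wt c}

/-- A functional on a subspace is a functional on the space. -/
def wk {S D : QS K Γ} (h : ∀ L x, D.mem L x → S.mem L x) {j : ℕ} (φ : Pre j D.sp) : Pre j S.sp :=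
  ⟨φ.v, fun L y e => ⟨(φ.supp L y e).1, (φ.supp L y e).2.imp fun x m => ⟨h L x m.1, m.2⟩⟩,
    φ.ext, φ.low⟩

variable [WB K] {Λ : Type} [Fintype Λ] {ω : Λ → ℤ} {L M : Fld K} {α : L →ₐ[K] M}

lemma ow {O : Pl L} {O' : Pl M} (h : Pl.Over α O O') (d : O'.IsDVR) {b : c.X L} (hb : Γ.nz b)
    (p : Λ → M) (k : ℤ) {τ : L} (h0 : τ ≠ 0) : ∃ f : L,
      (Γ.prod (.vec ω)).ow O' k (α τ) (c.map α b, p) = O'.ord (α f) ∧
      (O.IsDVR → Γ.ow O k τ b = O.ord f) := by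
  obtain ⟨i, hi, i0, hl⟩ := WB.prim Γ O hb
  have e : ∀ l, α (c.co b i)⁻¹ * (c.prod (.vec Λ)).co (c.map α b, p) (.inl l) =
      α (c.co b l / c.co b i) := fun l => by
    rw [div_eq_inv_mul, map_mul, ← c.co_map α b l]
    rfl
  refine ⟨(c.co b i)⁻¹ ^ k * τ, ?_, fun d' => WB.ow_eq Γ k d' (inv_ne_zero i0) h0
    (fun l h1 => by rw [← div_eq_inv_mul]; exact hl l h1)
    ⟨i, hi, by rw [inv_mul_cancel₀ i0, O.rd_one]; exact one_ne_zero⟩⟩
  rw [map_mul, map_zpow₀]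
  refine WB.ow_eq _ k d ((map_ne_zero α).2 (inv_ne_zero i0)) ((map_ne_zero α).2 h0) ?_
    ⟨.inl i, hi, by rw [e, div_self i0, map_one, O'.rd_one]; exact one_ne_zero⟩
  rintro (l | l) h1
  · rw [e]
    exact (h _).1 (hl l h1)
  · exact h1.elim

end WG1

open DNa in
theorem WG_thm {K : Type} [Field K] [FW0 K] [WB K] [AD K] : WG K :=
  ⟨fun {c Γ Λ _ ω S T r} E {k s} h h' {j} φ₀ θ₀ ψ Ψ hu hψ hΨ L M α b p g => by
  classical
  have hb := base E g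
  let φ : Pre j S.sp := WG1.wk (D := S.zer h) (fun _ _ m => m.1) φ₀
  let θ : Pre (j + r) T.sp := WG1.wk (D := T.zer h') (fun _ _ m => m.1) θ₀
  have hφ : IsUp T r j φ.q θ.q := fun L M α b p g => by
    have e := h.reg.nat α (base E g)
    by_cases h0 : s L b = 0
    · exact hu L M α b p ⟨g.gL, g.gM, g.top, g.mem, e.trans ((map_eq_zero α).2 h0)⟩
    · exact (not_not.1 fun e' => h0 ((map_eq_zero α).1 (e.symm.trans (WB.mem θ₀ e').2.2))).trans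
        (not_not.1 fun e' => h0 (WB.mem φ₀ e').2.2).symm
  obtain ⟨τ, h0, hτ⟩ : ∃ τ : L, τ ≠ 0 ∧ (s L b ≠ 0 → τ = s L b) := by
    by_cases h0 : s L b = 0
    exacts [⟨1, one_ne_zero, fun e => absurd h0 e⟩, ⟨_, h0, fun _ => rfl⟩]
  have e := h.reg.nat α hb
  have H := (hψ L b τ g.gL hb h0 hτ).2
  have H' := (hΨ M (c.map α b, p) (α τ) (Nat.add_right_comm j 1 r ▸ g.gM) g.mem
    ((map_ne_zero α).2 h0) fun e' => (congrArg α (hτ fun e1 => e'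
      (e.trans ((map_eq_zero α).2 e1)))).trans e.symm).2
  rw [← H, ← H']
  refine (WG1.transfer _ _ (fun (O : Dv L j) (O' : Dv M (j + r)) => Pl.Over α O.1 O'.1 ∧
    (∀ f, O'.1.ord (α f) = O.1.ord f) ∧ θ.r O'.1 (c.map α b, p) = φ.r O.1 b ∧
      θ.r O'.1 (c.map α b, p) ≠ 0) (fun O hO => ?_) (fun O' hO => ?_) ?_ ?_ ?_).symm
  · have h1 : φ.r O.1 b ≠ 0 := right_ne_zero_of_mul hO
    obtain ⟨l, x, -, h2, h3, h4, -⟩ := WB.r_ne φ h1
    obtain ⟨O', o1, o2, o3, -⟩ := main E θ φ hφ g O ⟨_, _, inv_ne_zero h2, h3, h4⟩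
    exact ⟨O', o1, o2, o3, o3 ▸ h1⟩
  · have h1 : θ.r O'.1 (c.map α b, p) ≠ 0 := right_ne_zero_of_mul hO
    have h2 : ¬ Pl.Triv α O'.1 := fun t => left_ne_zero_of_mul hO (by
      obtain ⟨f, e1, -⟩ := WG1.ow (ω := ω) (Pl.over_comap α O'.1) O'.2.1 (S.nz _ _ hb) p k h0
      rw [e1, Pl.ord_eq_zero_of_mem' O'.2.1 (t f) (by rw [← map_inv₀]; exact t _), Int.cast_zero])
    have h3 := red0 E θ (Pl.over_comap α O'.1) h1
    have h4 : (Pl.comap α O'.1).IsDiv j := by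
      obtain ⟨a, b', h0, e, hb'⟩ := h3
      obtain ⟨i, hi⟩ := E.cov _ b' hb'
      have h5 := (drop (p := fun μ => α a ^ ω μ * p μ) E θ (Pl.over_comap α O'.1)
        (by rwa [Pre.r, pt_scl α h0]) e hi).2
      exact (FA2.comap_dv g.gL O'.2.1 h2 _ (E.card i).le).resolve_right
        fun ⟨m, k1, k2⟩ => h5 m k1 k2
    obtain ⟨O₁, o1, o2, o3, o4⟩ := main E θ φ hφ g ⟨_, h4⟩ h3
    obtain rfl := o4 O' (Pl.over_comap α O'.1) h1
    exact ⟨_, o1, o2, o3, h1⟩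
  · rintro O O' ⟨o1, o2, o3, -⟩
    obtain ⟨f, e1, e2⟩ := WG1.ow (ω := ω) o1 O'.2.1 (S.nz _ _ hb) p k h0
    exact congrArg₂ (fun (x : ℤ) (y : ℂ) => (x : ℂ) * y)
      ((e2 O.2.1).trans (e1.trans (o2 f)).symm) o3.symm
  · rintro O O₁ O₂ ⟨o1, -, -, o4⟩ ⟨o1', -, -, o4'⟩
    obtain ⟨O', -, -, -, k⟩ := main E θ φ hφ g O (red0 E θ o1 o4)
    exact (k _ o1 o4).trans (k _ o1' o4').symm
  · rintro O₁ O₂ O' ⟨h₁, -⟩ ⟨h₂, -⟩
    exact Subtype.ext (h₁.eq_comap.trans h₂.eq_comap.symm)⟩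

end Pool.Agent.Lib.MP_557161_ag.HG.HN
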