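import Pool.Agent.Lib.MP_557161_ag.HN.St4
import Pool.Agent.Lib.MP_557161_ag.HG.A2b

/-!
Separation of the quadratic variables.
-/

namespace Pool.Agent.Lib.MP_557161_ag.HG.HN

open Pool.Agent.Lib.MP_557161_ag.DL

variable {K : Type} [Field K] {dd : ℕ}

namespace A2bn

open A2bAux (rot rot_rel rot_zero rot_one rot_inv rot_sq)

variable (H : HD K dd) (γ : K) {L : Fld K}

/-- The map on one copy. -/
def f1 (L : Fld K) (v : L) (y : (HD.ysh dd).X L) : ((xz dd).prod .one).X L :=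
  ((fun l => H.aa (some l) * y.1 (some l) / (algebraMap K L γ * y.2) ^ 2,
    v / (algebraMap K L γ * y.2)), (algebraMap K L γ * y.2) ^ 2)

/-- The inverse map on one copy. -/
def g1 (L : Fld K) (z : ((xz dd).prod .one).X L) (r : L) : (HD.ysh dd).X L :=
  (fun l => l.elim (r ^ 2) fun l => z.1.1 l * z.2 / H.aa (some l), r)

lemma aa_ne (L : Fld K) (l : Option (Vr dd)) : (H.aa l : L) ≠ 0 := by
  rw [← map_natCast (algebraMap K L)]
  exact (map_ne_zero _).2 (H.ch l)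

lemma sum_aa : ∑ l, H.aa (some l) = H.aa none := by
  have := H.hb
  simp only [HD.aa, Finset.sum_add_distrib, ← Finset.mul_sum, Finset.sum_const, Finset.card_univ,
    Fintype.card_fin, smul_eq_mul]
  omega

lemma ty_ne {y : (HD.ysh dd).X L} (h : H.TY.mem L y) : y.2 ≠ 0 := fun e =>
  h.1.2 none (by rw [← h.2.1, e, zero_pow two_ne_zero])

variable {H γ} (hγ : γ ^ 2 = -(H.aa none : K) / H.lam)

include hγ

lemma ga_ne (L : Fld K) : algebraMap K L γ ≠ 0 := (map_ne_zero _).2 fun e => by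
  rw [e, zero_pow two_ne_zero] at hγ
  exact div_ne_zero (neg_ne_zero.2 (H.ch none)) H.l0 hγ.symm

lemma t_eq (L : Fld K) : algebraMap K L H.t * ∏ l, (H.aa (some l) : L) ^ H.aa (some l) =
    (algebraMap K L γ ^ 2) ^ H.aa none := by
  rw [HD.t, ← hγ, map_div₀, map_prod, map_pow, map_pow]
  simp only [map_pow, map_natCast]
  exact div_mul_cancel₀ _ (Finset.prod_ne_zero_iff.2 fun l _ => pow_ne_zero _ (aa_ne H L _))

lemma f1_mem (v : L) {y : (HD.ysh dd).X L} (h : H.TY.mem L y) :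
    (H.V3.prod (.gm K)).mem L (f1 H γ L v y) := by
  have h1 : (algebraMap K L γ * y.2) ^ 2 ≠ 0 := pow_ne_zero _ (mul_ne_zero (ga_ne hγ L) (ty_ne H h))
  refine ⟨⟨⟨trivial, fun l => div_ne_zero (mul_ne_zero (aa_ne H L _) (h.1.2 _)) h1⟩, ?_⟩, h1⟩
  show ∏ l, (H.aa (some l) * y.1 (some l) / (algebraMap K L γ * y.2) ^ 2) ^ H.aa (some l) = 1
  simp only [div_pow, mul_pow _ (y.1 _)]
  rw [Finset.prod_div_distrib, Finset.prod_mul_distrib, Finset.prod_pow_eq_pow_sum, sum_aa, h.2.2,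
    div_eq_one_iff_eq (pow_ne_zero _ h1), mul_pow, mul_pow, h.2.1, ← t_eq hγ L]
  ring

lemma f1_ph (v : L) {y : (HD.ysh dd).X L} (h : H.TY.mem L y) :
    (f1 H γ L v y).2 * (∑ l, (f1 H γ L v y).1.1 l + algebraMap K L H.lam - (f1 H γ L v y).1.2 ^ 2) =
      -v ^ 2 + ∑ l, sgO l * (H.aa l * y.1 l) := by
  have h1 := ga_ne hγ L
  have h2 := ty_ne H h
  have h3 : algebraMap K L γ ^ 2 * algebraMap K L H.lam = -(H.aa none : L) := by
    rw [← map_pow, ← map_mul, hγ, div_mul_cancel₀ _ H.l0, map_neg, map_natCast]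
  rw [Fintype.sum_option, ← h.2.1]
  simp only [f1, sgO, Option.elim, one_mul, ← Finset.sum_div]
  field_simp
  linear_combination y.2 ^ 2 * h3

lemma g1_mem {z : ((xz dd).prod .one).X L} (h : (H.V3.prod (.gm K)).mem L z) {r : L}
    (e : (algebraMap K L γ * r) ^ 2 = z.2) : H.TY.mem L (g1 H L z r) := by
  have h1 : r ≠ 0 := fun e' => h.2 (by rw [← e, e', mul_zero, zero_pow two_ne_zero])
  refine ⟨⟨trivial, ?_⟩, rfl, ?_⟩
  · rintro (_ | l)
    exacts [pow_ne_zero _ h1, div_ne_zero (mul_ne_zero (h.1.1.2 l) h.2) (aa_ne H L _)]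
  show ∏ l, (z.1.1 l * z.2 / H.aa (some l)) ^ H.aa (some l) = _ * (r ^ 2) ^ H.aa none
  simp only [div_pow, mul_pow (z.1.1 _)]
  rw [Finset.prod_div_distrib, Finset.prod_mul_distrib, Finset.prod_pow_eq_pow_sum, sum_aa, h.1.2,
    div_eq_iff (Finset.prod_ne_zero_iff.2 fun l _ => pow_ne_zero _ (aa_ne H L _)), ← e, mul_pow,
    mul_pow, ← t_eq hγ L]
  ring

omit hγ in
lemma fg {z : ((xz dd).prod .one).X L} (h : (H.V3.prod (.gm K)).mem L z) {r : L}
    (e : (algebraMap K L γ * r) ^ 2 = z.2) :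
    f1 H γ L (z.1.2 * (algebraMap K L γ * r)) (g1 H L z r) = z := by
  have h1 : algebraMap K L γ * r ≠ 0 := fun e' => h.2 (by rw [← e, e', zero_pow two_ne_zero])
  have h2 : z.2 ≠ 0 := h.2
  refine Prod.ext (Prod.ext (funext fun l => ?_) (mul_div_cancel_right₀ _ h1)) e
  have h3 := aa_ne H L (some l)
  show H.aa (some l) * (z.1.1 l * z.2 / H.aa (some l)) / (algebraMap K L γ * r) ^ 2 = z.1.1 l
  rw [e]
  field_simp

lemma gf (v : L) {y : (HD.ysh dd).X L} (h : H.TY.mem L y) :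
    (f1 H γ L v y).1.2 * (algebraMap K L γ * y.2) = v ∧ g1 H L (f1 H γ L v y) y.2 = y := by
  have h1 := mul_ne_zero (ga_ne hγ L) (ty_ne H h)
  refine ⟨div_mul_cancel₀ _ h1, Prod.ext (funext ?_) rfl⟩
  rintro (_ | l)
  · exact h.2.1
  have h3 := aa_ne H L (some l)
  show H.aa (some l) * y.1 (some l) / (algebraMap K L γ * y.2) ^ 2 * (algebraMap K L γ * y.2) ^ 2 /
    H.aa (some l) = y.1 (some l)
  rw [div_mul_cancel₀ _ (pow_ne_zero _ h1), mul_div_cancel_left₀ _ h3]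

variable (H γ) (κ : Type) [Fintype κ]

/-- The map from `EY` to `E3`. -/
def ff (L : Fld K) (x : ((Cd.vec κ).prod (.pi κ (HD.ysh dd))).X L) : (Cd.pi κ ((xz dd).prod .one)).X L :=
  fun i => f1 H γ L (x.1 i) (x.2 i)

variable {H γ}

lemma pmp : PMp (H.EY κ) (H.E3 κ) (ff H γ κ) where
  reg _ L R _ _ _ m' e i := by
    have h1 := mul_ne_zero (ga_ne hγ L) (ty_ne H (m'.2 i))
    have h2 := R.mul (R.const γ) (e.2 i).2
    exact ⟨⟨fun l => Rel.div (R.mul (R.natCast _) ((e.2 i).1 _)) (Rel.pow h2 2) (pow_ne_zero _ h1),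
      Rel.div (e.1 i) h2 h1⟩, Rel.pow h2 2⟩
  mem _ _ m i := f1_mem hγ _ (m.2 i)
  ph L x m := by
    refine (Finset.sum_congr rfl fun i _ => f1_ph hγ (x.1 i) (m.2 i)).trans ?_
    rw [Finset.sum_add_distrib, Finset.sum_neg_distrib]
    rfl

lemma pro : Pro (H.EY κ).S (H.E3 κ).S (ff H γ κ) := by
  intro M O x z _ hx hz e
  have h1 : ∀ i, (Rel.ofPl O).r (x.2 i).2 (O.rd (x.2 i).2) := fun i => by
    refine ⟨(O.O.mem_or_inv_mem _).elim id fun h => ?_, rfl⟩
    have h2 := ga_ne hγ M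
    have h3 := ty_ne H (hx.2 i)
    have h4 : (x.2 i).2 = (algebraMap K M γ * (x.2 i).2) ^ 2 * algebraMap K M γ⁻¹ ^ 2 *
        ((x.2 i).2)⁻¹ := by
      rw [map_inv₀]
      field_simp
    rw [h4]
    exact mul_mem (mul_mem (e i).2.1 (pow_mem (O.const _) _)) h
  have h2 := fun i => (Rel.ofPl O).mul ((Rel.ofPl O).const γ) (h1 i)
  refine ⟨(fun i => (z i).1.2 * (algebraMap K O.res γ * O.rd (x.2 i).2),
    fun i => g1 H _ (z i) (O.rd (x.2 i).2)), ⟨trivial, fun i => g1_mem hγ (hz i)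
      (Rel.eq (Rel.pow (h2 i) 2) (e i).2 rfl)⟩, fun i => ?_, fun i => ?_⟩
  · rw [← (gf hγ (x.1 i) (hx.2 i)).1]
    exact (Rel.ofPl O).mul (e i).1.2 (h2 i)
  · rw [← (gf hγ (x.1 i) (hx.2 i)).2]
    refine ⟨?_, h1 i⟩
    rintro (_ | l)
    exacts [Rel.pow (h1 i) 2, Rel.div ((Rel.ofPl O).mul ((e i).1.1 l) (e i).2)
      ((Rel.ofPl O).natCast _) (aa_ne H _ _)]

lemma srj : Srj (H.EY κ).S (H.E3 κ).S (ff H γ κ) := by
  intro L _ z hz
  choose r hr using fun i => IsAlgClosed.exists_pow_nat_eq (z i).2 two_pos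
  have h1 : ∀ i, (algebraMap K L γ * (r i / algebraMap K L γ)) ^ 2 = (z i).2 := fun i => by
    rw [mul_div_cancel₀ _ (ga_ne hγ L), hr]
  exact ⟨(fun i => (z i).1.2 * (algebraMap K L γ * (r i / algebraMap K L γ)),
    fun i => g1 H _ (z i) (r i / algebraMap K L γ)), ⟨trivial, fun i => g1_mem hγ (hz i) (h1 i)⟩,
    funext fun i => fg (hz i) (h1 i)⟩

omit hγ

variable {κ} [DecidableEq κ] {p j : ℕ} {d : Cd} {W : ASp K d}

lemma rot_eq [FC2 K p] (Φ : NF p j (H.EY κ) W) {a b : κ} (hab : a ≠ b) (L : Fld K) (x y w)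
    (m : (H.EY κ).S.mem L x) :
    Φ.b L (Function.update (fun k => x.1 (Equiv.swap a b k)) a (-x.1 b), x.2) y w = Φ.b L x y w := by
  have := FC2.conn (E := H.EY κ) ((ASp.univ K .one).opn (fun _ t => 1 + t ^ 2 ≠ 0)
      fun _ _ R _ _ _ _ e h => Rel.ne_zero (R.add R.one (Rel.pow e 2)) h)
    (fun _ x => (rot a b x.1 x.2.1, x.2.2)) (fun _ x => (rot a b (-x.1) x.2.1, x.2.2))
    ⟨fun _ _ R _ _ _ m' e => ⟨rot_rel R e.1 e.2.1 m'.1.2, e.2.2⟩, fun _ _ m => ⟨trivial, m.2.2⟩⟩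
    ⟨fun _ _ R _ _ _ m' e => ⟨rot_rel R (Rel.neg e.1) e.2.1 (by rw [neg_sq]; exact m'.1.2), e.2.2⟩,
      fun _ _ m => ⟨trivial, m.2.2⟩⟩
    (fun L t x ht _ => ⟨Prod.ext (rot_inv hab ht.2 _) rfl,
      congrArg (fun s => -s + _) (rot_sq hab ht.2 _)⟩)
    (fun L T hT => ⟨trivial, fun e => hT ⟨Polynomial.X ^ 2 + Polynomial.C 1,
      Polynomial.X_pow_add_C_ne_zero two_pos _, by simpa [add_comm] using e⟩⟩) 1 0
    ⟨trivial, by simpa [one_add_one_eq_two] using H.two⟩ ⟨trivial, by simp⟩ Φ L x y w m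
  have h2 : (2 : L) ≠ 0 := by
    rw [← map_ofNat (algebraMap K L)]
    exact (map_ne_zero _).2 H.two
  simpa only [map_one, map_zero, rot_zero, rot_one hab _ h2] using this

end A2bn

open A2bn in
theorem A2b_thm [Base K] {p : ℕ} [FC1 K p] [FC2 K p] : A2b K p dd where
  red H κ _ _ h5 d W j Φ hσ hz := by
    obtain ⟨γ, hγ⟩ := IsAlgClosed.exists_pow_nat_eq (-(H.aa none : K) / H.lam) two_pos
    have pm := pmp hγ κ
    obtain ⟨Ψ, hΨ⟩ := FC1.pull pm (pro hγ κ) Φ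
    have hv : ∀ i L x y w, (H.EY κ).S.mem L x →
        Ψ.b L (Function.update x.1 i (-x.1 i), x.2) y w = -Ψ.b L x y w := fun i L x y w m => by
      rw [hΨ L _ y w m, hΨ L (Function.update x.1 i (-x.1 i), x.2) y w ⟨trivial, m.2⟩,
        ← neg_one_mul (Φ.b _ _ _ _), ← hz i L _ y w (pm.mem L x m)]
      congr 1
      funext k
      by_cases e : k = i
      · subst e
        simp [ff, f1, ngz, neg_div]
      · simp [ff, Function.update_of_ne e]
    have hp : ∀ (σ : Equiv.Perm κ) L x y w, (H.EY κ).S.mem L x →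
        Ψ.b L (fun k => x.1 (σ k), x.2) y w = ((Equiv.Perm.sign σ : ℤ) : ℂ) * Ψ.b L x y w := by
      intro σ
      induction σ using Equiv.Perm.swap_induction_on with
      | one => intro L x y w _; simp
      | swap_mul σ a b hab ih =>
        intro L x y w m
        have h1 := hv a L (fun k => x.1 (Equiv.swap a b k), x.2) y w ⟨trivial, m.2⟩
        have h2 := rot_eq Ψ hab L x y w m
        simp only [Equiv.swap_apply_left] at h1
        refine (ih L (fun k => x.1 (Equiv.swap a b k), x.2) y w ⟨trivial, m.2⟩).trans ?_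
        rw [← h2, h1, Equiv.Perm.sign_mul, Equiv.Perm.sign_swap hab]
        simp
    have h0 := h5 W j Ψ (fun σ L x y w m => ?_) (fun i L x y w m => ?_)
    · intro L x y w
      by_contra e
      exact e ((FC1.srj pm.toMp (srj hγ κ) (Reg.id _) (Reg.id _) Φ Φ 0 (fun L x y w m => by
        rw [← hΨ L x y w m, h0, zero_mul]) L x y w (FC1.mem Φ e).2.1).trans (zero_mul _))
    · have h1 := hp σ⁻¹ L x y w m
      have h2 := hσ σ L _ y w (pm.mem L (fun k => x.1 (σ⁻¹ k), x.2) ⟨trivial, m.2⟩)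
      rw [← hΨ L (fun k => x.1 (σ⁻¹ k), x.2) y w ⟨trivial, m.2⟩, h1, ← mul_assoc,
        Equiv.Perm.sign_inv, ← Int.cast_mul, ← Units.val_mul, Int.units_mul_self] at h2
      rw [hΨ L (cperm σ L x) y w ⟨trivial, fun i => m.2 (σ i)⟩]
      simp only [ff, Equiv.Perm.inv_def, Equiv.symm_apply_apply, Units.val_one, Int.cast_one,
        one_mul] at h2 ⊢
      exact h2
    · have m' : (H.EY κ).S.mem L (cact i ngl L x) := ⟨trivial, fun k => by
        by_cases e : k = i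
        · subst e
          simp only [cact, Function.update_self]
          exact ⟨(m.2 k).1, (neg_sq _).trans (m.2 k).2.1, (m.2 k).2.2⟩
        · simp only [cact, Function.update_of_ne e]
          exact m.2 k⟩
      rw [hΨ L _ y w m, hΨ L _ y w m', ← hz i L _ y w (pm.mem L x m)]
      congr 1
      funext k
      by_cases e : k = i
      · subst e
        simp [ff, f1, ngz, ngl, cact, div_neg]
      · simp [ff, cact, Function.update_of_ne e]

end Pool.Agent.Lib.MP_557161_ag.HG.HN
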