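import Pool.Agent.Lib.MP_557161_ag.HN.St4

/-!
The relation of Hasse and Davenport: passage to the roots.
-/

namespace Pool.Agent.Lib.MP_557161_ag.HG.HN

open Pool.Agent.Lib.MP_557161_ag.DL MvPolynomial

namespace Rtn

variable {K : Type} [Field K] {dd : ℕ} (H : HD K dd) (κ : Type) [Fintype κ]

/-- The indices of the free elementary symmetric functions. -/
abbrev J : Type := κ × Σ l : Option (Vr dd), Fin (H.b l)

/-- The shape of points `(v, (π, ρ))`. -/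
abbrev cY (dd : ℕ) : Cd := (Cd.vec κ).prod (.pi κ (HD.ysh dd))

/-- The shape of points `((v, (π, ρ)), e)`. -/
abbrev cE : Cd := (cY κ dd).prod (.vec (J H κ))

variable (P : ∀ l, MvPolynomial (Fin (H.b l)) ℤ)
  (Q : ∀ l, Fin (H.b l) → MvPolynomial (Fin (H.b l)) ℤ)

/-- The space with the additional variables. -/
noncomputable def EE : Ph K (cE H κ) where
  S := (H.EY κ).S.prod (.univ K _)
  φ L x := (H.EY κ).φ L x.1 + ∑ i, ∑ l, sgO l * aeval (fun k => x.2 (i, ⟨l, k⟩)) (P l)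
  reg _ _ R _ _ m m' e := R.add ((H.EY κ).reg R m.1 m'.1 e.1) (Rel.sum _ fun i _ => Rel.sum _
    fun l _ => R.mul (rel_sgO R l) (Rel.aevalZ (fun k => e.2 (i, ⟨l, k⟩)) _))

/-- The equations of the critical point. -/
noncomputable def ff (L : Fld K) (x : (cE H κ).X L) (j : J H κ) : L :=
  sgO j.2.1 * ((H.aa j.2.1 : L) * aeval (fun k => x.2 (j.1, ⟨j.2.1, k⟩)) (Q j.2.1 j.2.2))

lemma ff_reg : Reg (EE H κ P).S (.vec (J H κ)) (ff H κ Q) := fun _ _ R _ _ _ _ e j =>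
  R.mul (rel_sgO R _) (R.mul (R.natCast _) (Rel.aevalZ (fun k => e.2 (j.1, ⟨j.2.1, k⟩)) _))

variable {H κ}

/-- The roots in one block. -/
abbrev bl {F : Type} (u : H.Ix → F) (l : Option (Vr dd)) (k : Fin (2 * H.b l + 1)) : F := u ⟨l, k⟩

/-- The map from the roots to the products. -/
noncomputable def gy (L : Fld K) (x : H.ush.X L) : (HD.ysh dd).X L :=
  (fun l => ∏ k, bl x.1 l k, x.2 / (∏ k, bl x.1 none k) ^ H.b none)

/-- The map from the roots to the elementary symmetric functions. -/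
noncomputable def gg (L : Fld K) (x : ((Cd.vec κ).prod (.pi κ H.ush)).X L) :
    ((cE H κ).prod (.vec (J H κ))).X L :=
  (((x.1, fun i => gy L (x.2 i)), fun j => es (bl (x.2 j.1).1 j.2.1) (j.2.2 + 1)),
    fun j => es (bl (x.2 j.1).1 j.2.1) (H.b j.2.1 + 1 + j.2.2))

lemma tu_iff {L : Fld K} {x : H.ush.X L} : H.TU.mem L x ↔ (∀ l, ∏ k, bl x.1 l k ≠ 0) ∧
    x.2 ^ 2 = (∏ k, bl x.1 none k) ^ H.aa none ∧ ∏ l, (∏ k, bl x.1 (some l) k) ^ H.aa (some l) =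
      algebraMap K L H.t * (∏ k, bl x.1 none k) ^ H.aa none := by
  simp only [← Finset.prod_pow, Finset.prod_ne_zero_iff, Finset.mem_univ, true_imp_iff]
  exact ⟨fun h => ⟨fun l k => h.1.2 _, h.2⟩, fun h => ⟨⟨trivial, fun a => h.1 a.1 a.2⟩, h.2⟩⟩

lemma gy_mem {L : Fld K} {x : H.ush.X L} (h : H.TU.mem L x) : H.TY.mem L (gy L x) := by
  obtain ⟨h1, h2, h3⟩ := tu_iff.1 h
  refine ⟨⟨trivial, h1⟩, ?_, h3⟩
  show (x.2 / (∏ k, bl x.1 none k) ^ H.b none) ^ 2 = ∏ k, bl x.1 none k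
  rw [div_pow, h2, div_eq_iff (pow_ne_zero _ (pow_ne_zero _ (h1 none)))]
  ring

lemma gy_rel {M L : Fld K} (R : Rel M L) {x : H.ush.X M} {x' : H.ush.X L} (h : H.TU.mem L x')
    (e : H.ush.lift R.r x x') : (HD.ysh dd).lift R.r (gy M x) (gy L x') :=
  ⟨fun l => Rel.prod Finset.univ fun k _ => e.1 ⟨l, k⟩, Rel.div e.2
    (Rel.pow (Rel.prod _ fun _ _ => e.1 _) _) (pow_ne_zero _ ((tu_iff.1 h).1 none))⟩

lemma gg_mp : Mp (H.EU κ).S ((EE H κ P).lin _ (ff_reg H κ P Q)).S gg :=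
  ⟨fun _ _ R _ _ _ m' e => ⟨⟨⟨e.1, fun i => gy_rel R (m'.2 i) (e.2 i)⟩,
    fun j => Rel.aevalZ (fun _ => (e.2 j.1).1 _) _⟩, fun j => Rel.aevalZ (fun _ => (e.2 j.1).1 _) _⟩,
    fun _ _ m => ⟨⟨⟨trivial, fun i => gy_mem (m.2 i)⟩, trivial⟩, trivial⟩⟩

lemma gg_pmp (hN : ∀ l (F : Fld K) (u : Fin (2 * H.b l + 1) → F), ∑ k, u k ^ (2 * H.b l + 1) =
      aeval (fun k : Fin (H.b l) => es u (k + 1)) (P l) + ∑ k : Fin (H.b l), es u (H.b l + 1 + k) *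
        (((2 * H.b l + 1 : ℕ) : F) * aeval (fun k : Fin (H.b l) => es u (k + 1)) (Q l k)) +
        ((2 * H.b l + 1 : ℕ) : F) * ∏ k, u k) :
    PMp (H.EU κ) ((EE H κ P).lin _ (ff_reg H κ P Q)) gg := by
  refine ⟨gg_mp P Q, fun L x _ => ?_⟩
  show -∑ i, x.1 i ^ 2 + ∑ i, ∑ l, sgO l * ((H.aa l : L) * ∏ k, bl (x.2 i).1 l k) +
    ∑ i, ∑ l, sgO l * aeval (fun k : Fin (H.b l) => es (bl (x.2 i).1 l) (k + 1)) (P l) +
    ∑ j : J H κ, es (bl (x.2 j.1).1 j.2.1) (H.b j.2.1 + 1 + j.2.2) * (sgO j.2.1 * ((H.aa j.2.1 : L) *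
      aeval (fun k : Fin (H.b j.2.1) => es (bl (x.2 j.1).1 j.2.1) (k + 1)) (Q j.2.1 j.2.2))) =
    -∑ i, x.1 i ^ 2 + ∑ i, ∑ a : H.Ix, sgO a.1 * (x.2 i).1 a ^ H.aa a.1
  rw [Fintype.sum_prod_type, add_assoc, add_assoc, ← Finset.sum_add_distrib,
    ← Finset.sum_add_distrib]
  refine congrArg _ (Finset.sum_congr rfl fun i _ => ?_)
  rw [Fintype.sum_sigma, Fintype.sum_sigma, ← Finset.sum_add_distrib, ← Finset.sum_add_distrib]
  refine Finset.sum_congr rfl fun l _ => ?_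
  have := congrArg (sgO l * ·) (hN l L (bl (x.2 i).1 l))
  simp only [mul_add, Finset.mul_sum] at this
  refine Eq.trans ?_ this.symm
  simp only [mul_left_comm (sgO l : L)]
  ring

variable [A3 K]

lemma gg_pro : Pro (H.EU κ).S ((EE H κ P).lin _ (ff_reg H κ P Q)).S gg := by
  intro M O x z _ hx hz e
  have hu : ∀ i a, (x.2 i).1 a ∈ O.O := fun i a => by
    refine A3.int O _ (bl (x.2 i).1 a.1) (fun k h0 hk => ?_) a.2
    rcases le_or_gt k (H.b a.1) with h | h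
    · have := (e.1.2 (i, ⟨a.1, ⟨k - 1, by omega⟩⟩)).1
      rwa [show k = k - 1 + 1 by omega]
    rcases hk.lt_or_eq with h' | rfl
    · have := (e.2 (i, ⟨a.1, ⟨k - H.b a.1 - 1, by omega⟩⟩)).1
      rwa [show k = H.b a.1 + 1 + (k - H.b a.1 - 1) by omega]
    · rw [A3.top]
      exact ((e.1.1.2 i).1 a.1).1
  have hr : ∀ i, (x.2 i).2 ∈ O.O := fun i => by
    have := mul_mem (e.1.1.2 i).2.1 (pow_mem ((e.1.1.2 i).1 none).1 (H.b none))
    rwa [show (gg M x).1.1.2 i = gy M (x.2 i) from rfl, gy,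
      div_mul_cancel₀ _ (pow_ne_zero _ ((tu_iff.1 (hx.2 i)).1 none))] at this
  have e' : ∀ i, H.ush.lift (Rel.ofPl O).r (x.2 i) (fun a => O.rd ((x.2 i).1 a), O.rd (x.2 i).2) :=
    fun i => ⟨fun a => ⟨hu i a, rfl⟩, hr i, rfl⟩
  refine ⟨(z.1.1.1, fun i => (fun a => O.rd ((x.2 i).1 a), O.rd (x.2 i).2)),
    ⟨trivial, fun i => tu_iff.2 ?_⟩, e.1.1.1, e'⟩
  have e1 := fun l => Rel.prod (R := Rel.ofPl O) Finset.univ fun k _ => (e' i).1 ⟨l, k⟩
  obtain ⟨-, h2, h3⟩ := tu_iff.1 (hx.2 i)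
  exact ⟨fun l => (Rel.eq (e1 l) ((e.1.1.2 i).1 l) rfl).trans_ne ((hz.1.1.2 i).1.2 l),
    Rel.eq (Rel.pow (e' i).2 2) (Rel.pow (e1 none) _) h2,
    Rel.eq (Rel.prod _ fun l _ => Rel.pow (e1 (some l)) _)
      ((Rel.ofPl O).mul ((Rel.ofPl O).const _) (Rel.pow (e1 none) _)) h3⟩

lemma gg_srj : Srj (H.EU κ).S ((EE H κ P).lin _ (ff_reg H κ P Q)).S gg := by
  intro L _ z hz
  have := fun i l => A3.srj L (2 * H.b l + 1) fun k =>
    if h : k - 1 < H.b l then z.1.2 (i, ⟨l, ⟨k - 1, h⟩⟩)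
    else if h : k - H.b l - 1 < H.b l then z.2 (i, ⟨l, ⟨k - H.b l - 1, h⟩⟩) else (z.1.1.2 i).1 l
  choose u hu using this
  have hp : ∀ i l, ∏ k, u i l k = (z.1.1.2 i).1 l := fun i l => by
    rw [← A3.top, hu i l _ (by omega) le_rfl, dif_neg (by omega), dif_neg (by omega)]
  refine ⟨(z.1.1.1, fun i => (fun a => u i a.1 a.2,
    (z.1.1.2 i).2 * (z.1.1.2 i).1 none ^ H.b none)), ⟨trivial, fun i => tu_iff.2 ?_⟩, ?_⟩
  · obtain ⟨⟨-, h1⟩, h2, h3⟩ := hz.1.1.2 i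
    simp only [bl, hp]
    refine ⟨h1, ?_, h3⟩
    rw [mul_pow, h2]
    ring
  · refine Prod.ext (Prod.ext (Prod.ext ?_ (funext fun i => Prod.ext (funext fun l => ?_) ?_))
      (funext fun j => ?_)) (funext fun j => ?_)
    · rfl
    · exact hp i l
    · show _ * _ / (∏ k, u i none k) ^ H.b none = _
      rw [hp, mul_div_cancel_right₀ _ (pow_ne_zero _ ((hz.1.1.2 i).1.2 none))]
    · have := j.2.2.2
      show es (u j.1 j.2.1) _ = _
      rw [hu _ _ _ (by omega) (by omega), dif_pos (by omega)]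
      rfl
    · have := j.2.2.2
      show es (u j.1 j.2.1) _ = _
      rw [hu _ _ _ (by omega) (by omega), dif_neg (by omega), dif_pos (by omega)]
      exact congrArg (fun k => z.2 (j.1, ⟨j.2.1, k⟩)) (Fin.ext
        (show H.b j.2.1 + 1 + j.2.2 - H.b j.2.1 - 1 = j.2.2 by omega))

lemma bl_perm {L : Fld K} (σ : Equiv.Perm H.Ix) (h : ∀ a, (σ a).1 = a.1) (u : H.Ix → L) (l) (m) :
    es (bl (fun a => u (σ a)) l) m = es (bl u l) m := by
  have : ∀ k, ∃ k', σ ⟨l, k⟩ = ⟨l, k'⟩ := fun k => by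
    have := h ⟨l, k⟩
    generalize σ ⟨l, k⟩ = a at this
    obtain ⟨l', k'⟩ := a
    subst this
    exact ⟨k', rfl⟩
  choose s hs using this
  have hi : Function.Injective s := fun k k' e =>
    sigma_mk_injective (β := fun l => Fin (H.aa l)) (σ.injective (by rw [hs, hs, e]))
  rw [← A3.perm L _ (bl u l) (Equiv.ofBijective s (Finite.injective_iff_bijective.1 hi))]
  exact congrArg (es · m) (funext fun k => congrArg u (hs k))

lemma up_mem {L : Fld K} (σ : Equiv.Perm H.Ix) (h : ∀ a, (σ a).1 = a.1) {x : H.ush.X L}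
    (hx : H.TU.mem L x) : H.TU.mem L (uperm σ L x) ∧ gy L (uperm σ L x) = gy L x := by
  have e : ∀ l, ∏ k, bl (uperm σ L x).1 l k = ∏ k, bl x.1 l k := fun l => by
    rw [← A3.top, ← A3.top]
    exact bl_perm σ h x.1 l _
  refine ⟨tu_iff.2 ?_, ?_⟩
  · simp only [e]
    exact tu_iff.1 hx
  · simp only [gy, e]
    rfl

omit [A3 K]

lemma sg_ne {F : Type} [Field F] (l : Option (Vr dd)) : (sgO l : F) ≠ 0 := by
  cases l <;> simp [sgO]

lemma zer_iff (hQ : ∀ l (F : Fld K) (e : Fin (H.b l) → F), (∀ k, aeval e (Q l k) = 0) ↔ e = 0)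
    {L : Fld K} {x : (cE H κ).X L} :
    ((EE H κ P).zer _ (ff_reg H κ P Q)).S.mem L x ↔ (H.EY κ).S.mem L x.1 ∧ x.2 = 0 := by
  have ha : ∀ l, (H.aa l : L) ≠ 0 := fun l => by
    simpa only [map_natCast] using (map_ne_zero (algebraMap K L)).2 (H.ch l)
  refine ⟨fun h => ⟨h.1.1, funext fun j => congrFun ((hQ j.2.1 L fun k => x.2 (j.1, ⟨j.2.1, k⟩)).1
    fun k => ?_) j.2.2⟩, fun h => ⟨⟨h.1, trivial⟩, fun j => ?_⟩⟩
  · exact ((mul_eq_zero.1 ((mul_eq_zero.1 (h.2 (j.1, ⟨j.2.1, k⟩))).resolve_left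
      (sg_ne _))).resolve_left (ha _))
  · rw [ff, (hQ j.2.1 L _).2 (by rw [h.2]; rfl), mul_zero, mul_zero]

variable [DecidableEq κ]

omit [Fintype κ] in
lemma upd_mem {c : Cd} {S : ASp K c} {L : Fld K} {x : κ → c.X L} (h : ∀ i, S.mem L (x i)) (i : κ)
    {u : c.X L} (hu : S.mem L u) (k : κ) : S.mem L (Function.update x i u k) := by
  by_cases e : k = i
  · subst e
    rwa [Function.update_self]
  · rw [Function.update_of_ne e]
    exact h k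

omit [Fintype κ] in
lemma upd_fst {A B : Type} (x : κ → A × B) (i k : κ) (u : B) :
    (Function.update x i ((x i).1, u) k).1 = (x k).1 := by
  by_cases e : k = i
  · subst e
    rw [Function.update_self]
  · rw [Function.update_of_ne e]

lemma ngY_mem {L : Fld K} {x : (cY κ dd).X L} (i : κ) (h : (H.EY κ).S.mem L x) :
    (H.EY κ).S.mem L (cact i ngl L x) :=
  ⟨trivial, upd_mem h.2 i ⟨(h.2 i).1, (neg_sq _).trans (h.2 i).2.1, (h.2 i).2.2⟩⟩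

lemma ngU_mem {L : Fld K} {x} (i : κ) (h : (H.EU κ).S.mem L x) :
    (H.EU κ).S.mem L (cact i ngl L x) :=
  ⟨trivial, upd_mem h.2 i (u := ngl L (x.2 i))
    ⟨(h.2 i).1, (neg_sq _).trans (h.2 i).2.1, (h.2 i).2.2⟩⟩

lemma ngY_mp (i : κ) : Mp (EE H κ P).S (EE H κ P).S fun L x => (cact i ngl L x.1, x.2) :=
  ⟨fun _ _ _ _ _ _ _ e => ⟨⟨e.1.1, Rel.update (q := fun _ => (HD.ysh dd).lift _) e.1.2 i
    ⟨(e.1.2 i).1, Rel.neg (e.1.2 i).2⟩⟩, e.2⟩, fun _ _ h => ⟨ngY_mem i h.1, trivial⟩⟩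

lemma ngY_inv {L : Fld K} (i : κ) (x : (cY κ dd).X L) : cact i ngl L (cact i ngl L x) = x := by
  simp [cact, ngl]

/-- The induced permutation of the indices. -/
def jp (σ : Equiv.Perm κ) : Equiv.Perm (J H κ) := σ.prodCongr (Equiv.refl _)

omit [DecidableEq κ] in
lemma cp_mp (σ : Equiv.Perm κ) :
    Mp (EE H κ P).S (EE H κ P).S fun L x => (cperm σ L x.1, fun j => x.2 (jp σ j)) :=
  ⟨fun _ _ _ _ _ _ _ e => ⟨⟨e.1.1, fun i => e.1.2 (σ i)⟩, fun _ => e.2 _⟩,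
    fun _ _ h => ⟨⟨trivial, fun i => h.1.2 (σ i)⟩, trivial⟩⟩

end Rtn

open Rtn in
theorem A4_thm {K : Type} [Field K] [Base K] {p dd : ℕ} [Fact p.Prime] [CharP K p] [FW0 K] [FWp K p]
    [A3 K] : A4 K p dd := by
  refine ⟨fun H κ _ _ h8 d W j Φ h1 h2 L x y w => ?_⟩
  choose P Q hN hP hQ using fun l => A3.newton (K := K) (H.b l)
  have hz := fun L x => zer_iff (κ := κ) P Q hQ (L := L) (x := x)
  have hm : PMp ((EE H κ P).zer _ (ff_reg H κ P Q)) (H.EY κ) fun _ x => x.1 :=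
    ⟨⟨fun _ _ _ _ _ _ _ e => e.1, fun _ _ h => h.1.1⟩, fun L x h => by
      show _ = _ + ∑ i, ∑ l, sgO l * aeval (fun k => x.2 (i, ⟨l, k⟩)) (P l)
      have : ∀ j, x.2 j = 0 := congrFun ((hz L x).1 h).2
      simp only [this, hP, mul_zero, Finset.sum_const_zero, add_zero]⟩
  obtain ⟨Φ', hΦ⟩ := FC1.pull hm (Pro.of_left (g := fun _ x => (x, 0))
    ⟨fun _ _ R _ _ _ _ e => ⟨e, fun _ => R.zero⟩, fun L x h => (hz L _).2 ⟨h, rfl⟩⟩ hm.toMp
    fun L x h => Prod.ext rfl ((hz L x).1 h).2.symm) Φ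
  obtain ⟨Ψ, hv, he⟩ := FC5.s5 _ _ Φ'
  have e1 := fun σ => he _ _ (jp σ) 1 ⟨cp_mp P σ, cp_mp P σ.symm,
    fun _ _ _ => by simp [cperm, jp, Prod.map_map], fun _ _ _ => by simp [cperm, jp, Prod.map_map]⟩
    (fun L x _ => ⟨congrArg₂ (· + ·) (congrArg (_ + ·) (Equiv.sum_comp σ fun i => ∑ l, sgO l *
      ((H.aa l : L) * (x.1.2 i).1 l))) (Equiv.sum_comp σ fun i => ∑ l, sgO l *
        aeval (fun k => x.2 (i, ⟨l, k⟩)) (P l)), fun _ => rfl⟩) fun L x y w h => by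
      have h' := (hz L x).1 h
      rw [hΦ _ _ _ _ h, hΦ _ _ _ _ ((hz L _).2 ⟨((cp_mp P σ).mem L x h.1).1, by rw [h'.2]; rfl⟩)]
      exact h1 σ L _ y w h'.1
  have e2 := fun i => he _ _ 1 (-1) ⟨ngY_mp P i, ngY_mp P i,
    fun _ _ _ => Prod.ext (ngY_inv i _) rfl, fun _ _ _ => Prod.ext (ngY_inv i _) rfl⟩
    (fun L x _ => ⟨by simp only [EE, HD.EY, cact, ngl, upd_fst], fun _ => rfl⟩) fun L x y w h => by
      have h' := (hz L x).1 h
      rw [hΦ _ _ _ _ h, hΦ _ _ _ _ ((hz L (cact i ngl L x.1, x.2)).2 ⟨ngY_mem i h'.1, h'.2⟩)]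
      exact h2 i L _ y w h'.1
  obtain ⟨Ψ', hΨ⟩ := FC1.pull (gg_pmp P Q hN) (gg_pro P Q) Ψ
  have h0 := h8 W _ Ψ' (fun σ L x y w h => by
      rw [hΨ _ _ _ _ h, hΨ _ _ _ _ ⟨trivial, fun i => h.2 (σ i)⟩]
      exact e1 σ L _ y w ((gg_mp P Q).mem L x h))
    (fun i L x y w h => by
      rw [hΨ _ _ _ _ h, hΨ _ _ _ _ (ngU_mem i h), ← e2 i L _ y w ((gg_mp P Q).mem L x h)]
      simp only [gg, cact, ngl, upd_fst, Function.apply_update fun _ => gy L]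
      simp only [gy, neg_div]
      rfl)
    fun i σ hσ L x y w h => by
      have hu := up_mem σ hσ (h.2 i)
      have hb : ∀ k l m, es (bl (Function.update x.2 i (uperm σ L (x.2 i)) k).1 l) m =
          es (bl (x.2 k).1 l) m := fun k l m => by
        by_cases e : k = i
        · subst e
          rw [Function.update_self]
          exact bl_perm σ hσ _ l m
        · rw [Function.update_of_ne e]
      rw [hΨ _ _ _ _ h, hΨ L (cact i (uperm σ) L x) _ _ ⟨trivial, upd_mem h.2 i hu.1⟩, one_mul]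
      simp only [gg, cact, hb, Function.apply_update fun _ => gy L, hu.2, Function.update_eq_self]
  have h3 := FC1.srj (gg_mp P Q) (gg_srj P Q) (Reg.id _) (Reg.id _) Ψ Ψ 0 fun L x y w h => by
    rw [← hΨ _ _ _ _ h, h0, zero_mul]
  by_contra hne
  obtain ⟨g, hx, -⟩ := FC1.mem Φ hne
  have hx' := (hz L (x, 0)).2 ⟨hx, rfl⟩
  have h4 := hv L _ _ _ (x, 0) y w (FA1.fr_free _ g) hx'
  have h5 := h4 ▸ mul_ne_zero (pow_ne_zero _ (neg_ne_zero.2 one_ne_zero)) (hΦ _ _ y w hx' ▸ hne)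
  exact h5 ((h3 _ _ _ _ (FC1.mem Ψ h5).2.1).trans (zero_mul _))

end Pool.Agent.Lib.MP_557161_ag.HG.HN
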