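import Pool.Agent.Lib.MP_557161_ag.HN.StW

/-!
Generic points of affine bundles.
-/

namespace Pool.Agent.Lib.MP_557161_ag.HG.HN

open Pool.Agent.Lib.MP_557161_ag.DL

variable {K : Type} [Field K] {c : Cd} {Γ : Wt c} {Λ : Type} [Fintype Λ] {ω : Λ → ℤ}
  {S : QS K Γ}

namespace AD0

lemma gen_l {L M : Fld K} (α : L →ₐ[K] M) {κ : Type} (T : κ → M) (a : L) : α a ∈ gen α T :=
  IntermediateField.subset_adjoin _ _ (.inl ⟨a, rfl⟩)

lemma gen_r {L M : Fld K} (α : L →ₐ[K] M) {κ : Type} (T : κ → M) (i : κ) : T i ∈ gen α T :=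
  IntermediateField.subset_adjoin _ _ (.inr ⟨i, rfl⟩)

lemma gen_le {L M : Fld K} (α : L →ₐ[K] M) {κ κ' : Type} {T : κ → M} {T' : κ' → M}
    (h : ∀ i, T i ∈ gen α T') : gen α T ≤ gen α T' := by
  refine IntermediateField.adjoin_le_iff.2 ?_
  rintro _ (⟨a, rfl⟩ | ⟨i, rfl⟩)
  exacts [gen_l α T' a, h i]

lemma free {T : QS K (Γ.prod (.vec ω))} {r : ℕ} (E : AB S T r) {j : ℕ} {L M : Fld K}
    {α : L →ₐ[K] M} {b : c.X L} {p : Λ → M} (i : E.ι) (hb : (E.U i).mem L b) :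
    GenA T r j α b p ↔ T.mem M (c.map α b, p) ∧ Free j α fun k => p (E.e i k) := by
  have hb' : (E.U i).mem M (c.map α b) := ((E.U i).S.map_iff α b).2 hb
  refine ⟨fun h => ⟨h.mem, h.gL, (E.card i).symm ▸ h.gM, top_le_iff.1 (h.top.ge.trans ?_)⟩,
    fun h => ⟨h.2.gL, E.card i ▸ h.2.gM, top_le_iff.1 (h.2.top.ge.trans ?_), h.1⟩⟩
  · refine gen_le α fun μ => ?_
    have := (E.reg i).all_sub (gen α fun k => p (E.e i k))
      (x := (c.map α b, fun k => p (E.e i k))) ⟨hb', trivial⟩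
      ⟨(c.all_iff _ _).2 fun l => by rw [c.co_map]; exact gen_l α _ _, gen_r α _⟩ μ
    exact (congrFun (E.uq i M _ p hb' h.mem) μ).symm ▸ this
  · exact gen_le α fun k => gen_r α p _

/-- The trivial atlas. -/
def sb (ω : Λ → ℤ) (S : QS K Γ) {r : ℕ} (h : Fintype.card Λ = r) : AB S (S.pu (.vec ω)) r where
  sub _ _ m := m.1
  ι := Unit
  U _ := S
  usub _ _ _ m := m
  opn _ _ _ _ _ _ m _ _ := m
  cov _ _ m := ⟨(), m⟩
  κ _ := Λ
  card _ := Nat.card_eq_fintype_card.trans h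
  e _ := id
  τ _ _ _ t := t
  reg _ _ _ _ _ _ _ _ e := e.2
  mem _ _ _ _ m := ⟨m, trivial⟩
  co _ _ _ _ _ _ := rfl
  uq _ _ _ _ _ _ := rfl

variable {γ : ℤ} (k : KB S Λ ω γ)

/-- The set where a given entry of the row does not vanish. -/
def ch (μ : Λ) : QS K Γ :=
  S.sub (S.S.opn (fun L b => k.n L b μ ≠ 0) fun _ _ R _ _ m m' e h =>
      Rel.ne_zero ((k.hom μ).reg R m m' e) h)
    (fun _ _ m => m.1) fun L a x h0 m => ⟨S.inv L a x h0 m.1,
      ((k.hom μ).hom L a x h0 m.1).trans_ne (mul_ne_zero (zpow_ne_zero _ h0) m.2)⟩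

open Classical in
/-- The solution of the linear equation. -/
noncomputable def sol (μ : Λ) {L : Type} [Field L] (n : Λ → L) (t : {ν // ν ≠ μ} → L) (ν : Λ) :
    L := if h : ν = μ then -(∑ l : {ν // ν ≠ μ}, n l * t l) / n μ else t ⟨ν, h⟩

open Classical in
lemma sum_eq (μ : Λ) {L : Type} [Field L] (f : Λ → L) :
    ∑ ν, f ν = f μ + ∑ l : {ν // ν ≠ μ}, f l := Fintype.sum_eq_add_sum_subtype_ne f μ

lemma sol_ne (μ : Λ) {L : Type} [Field L] (n : Λ → L) (t : {ν // ν ≠ μ} → L) (l : {ν // ν ≠ μ}) :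
    sol μ n t l = t l := dif_neg l.2

lemma sol_sum (μ : Λ) {L : Type} [Field L] {n : Λ → L} (h : n μ ≠ 0) (t : {ν // ν ≠ μ} → L) :
    ∑ ν, n ν * sol μ n t ν = 0 := by
  rw [sum_eq μ, sol, dif_pos rfl]
  simp only [sol_ne]
  field_simp
  ring

lemma sol_uq (μ : Λ) {L : Type} [Field L] {n p : Λ → L} (h : n μ ≠ 0) (e : ∑ ν, n ν * p ν = 0) :
    p = sol μ n fun l => p l := by
  funext ν
  unfold sol
  split_ifs with h'
  · rw [sum_eq μ] at e
    rw [h', eq_div_iff h, mul_comm]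
    exact eq_neg_of_add_eq_zero_left e
  · rfl

/-- The atlas of the kernel of a unimodular row. -/
noncomputable def kb {r : ℕ} (h : Fintype.card Λ = r + 1) : AB S k.tot r where
  sub _ _ m := m.1.1
  ι := Λ
  U := ch k
  usub _ _ _ m := m.1
  opn μ _ _ R _ _ m m' e := ⟨m, Rel.ne_zero ((k.hom μ).reg R m m'.1 e) m'.2⟩
  cov L b m := (k.uni L b m).imp fun _ h => ⟨m, h⟩
  κ μ := {ν // ν ≠ μ}
  card μ := by
    classical
    rw [Nat.card_eq_fintype_card, Fintype.card_subtype_compl, Fintype.card_subtype_eq, h]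
    rfl
  e _ := Subtype.val
  τ μ L b t := sol μ (k.n L b) t
  reg μ _ _ R _ _ m m' e ν := by
    dsimp only [sol]
    split_ifs
    · exact Rel.div (Rel.neg (Rel.sum _ fun l _ =>
        R.mul ((k.hom l).reg R m.1.1 m'.1.1 e.1) (e.2 l))) ((k.hom μ).reg R m.1.1 m'.1.1 e.1)
        m'.1.2
    · exact e.2 _
  mem μ _ _ t m := ⟨⟨m.1, trivial⟩, sol_sum μ m.2 t⟩
  co μ _ _ t l _ := sol_ne μ _ t l
  uq μ _ _ _ m m' := sol_uq μ m.2 m'.2

end AD0

theorem AD_thm [FW0 K] [WB K] : AD K where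
  free := AD0.free
  ex := fun {c _ _ _ _ _ _ _} E {_ L b} hL hb => by
    obtain ⟨i, hi⟩ := E.cov L b hb
    have hi' : (E.U i).mem _ (c.map (frα L (E.κ i)) b) := ((E.U i).S.map_iff _ b).2 hi
    refine ⟨_, frα L (E.κ i), E.τ i _ (c.map (frα L (E.κ i)) b) (frT L (E.κ i)),
      (AD0.free E i hi).2 ⟨E.mem i _ _ _ hi', ?_⟩⟩
    simp only [E.co i _ _ _ _ hi']
    exact FA1.fr_free _ hL
  low := fun {c _ Λ _ _ _ _ r} E {j m} θ {L b} p hb hm => by
    by_contra h0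
    have hT := (WB.mem θ h0).2
    obtain ⟨i, hi⟩ := E.cov L b (E.sub L _ hT)
    have hr : Reg ((E.U i).S.prod (.univ K (.vec (E.κ i)))) (c.prod (.vec Λ))
        fun L x => (x.1, E.τ i L x.1 x.2) := fun _ _ R _ _ a a' e => ⟨e.1, E.reg i R a a' e⟩
    have := FA3.dm_reg (x := (b, fun k => p (E.e i k))) hr ⟨hi, trivial⟩
      (FA3.dm_pair hb (FA3.dm_vec _))
    rw [E.card i] at this
    dsimp only at this
    rw [← E.uq i L b p hi hT] at this
    exact h0 (WB.low θ this (by omega))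
  sb ω S _ h := ⟨AD0.sb ω S h⟩
  kb k _ h := ⟨AD0.kb k h⟩
  kgen := fun {c _ _ _ _ S _} k {_} h {_ L M α b p} μ hb h0 => by
    refine (AD0.free (AD0.kb k h) μ ⟨hb, h0⟩).trans (and_congr_left fun _ => ?_)
    have e : ∀ ν, k.n M (c.map α b) ν = α (k.n L b ν) := fun ν => (k.hom ν).reg.nat α hb
    rw [← show ∑ ν, k.n M (c.map α b) ν * p ν = _ from Finset.sum_congr rfl fun ν _ => by rw [e]]
    exact ⟨fun m => m.2, fun m => ⟨⟨(S.S.map_iff α b).2 hb, trivial⟩, m⟩⟩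

end Pool.Agent.Lib.MP_557161_ag.HG.HN
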