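import Pool.Agent.Lib.MP_557161_ag.HN.StW

/-!
The flat pull back of cycles along an affine bundle.
-/

namespace Pool.Agent.Lib.MP_557161_ag.HG.HN

open Pool.Agent.Lib.MP_557161_ag.DL IntermediateField

namespace DNa

variable {K : Type} [Field K] {c : Cd} {Γ : Wt c} {Λ : Type} [Fintype Λ] {ω : Λ → ℤ}
  {S : QS K Γ} {T : QS K (Γ.prod (.vec ω))} {r j : ℕ} {L M L' M' : Fld K} {α : L →ₐ[K] M}
  {b : c.X L} {p : Λ → M}

lemma base (E : AB S T r) (h : GenA T r j α b p) : S.mem L b :=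
  (S.S.map_iff α b).1 (E.sub M _ h.mem)

lemma scl_eq (α : L →ₐ[K] M) (a : L) (b : c.X L) (p : Λ → M) :
    (c.map α (Γ.scl a b), fun μ => α a ^ ω μ * p μ) =
      (Γ.prod (.vec ω)).scl (α a) (c.map α b, p) :=
  Prod.ext (Γ.map_scl α.toRingHom a b) rfl

lemma pt_scl (α : L →ₐ[K] M) {a : L} (h0 : a ≠ 0) (b : c.X L) (p : Λ → M) :
    (Γ.prod (.vec ω)).pt (c.map α (Γ.scl a b), fun μ => α a ^ ω μ * p μ) =
      (Γ.prod (.vec ω)).pt (c.map α b, p) :=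
  (congrArg _ (scl_eq α a b p)).trans (Wt.pt_scl _ ((map_ne_zero α).2 h0) _)

lemma scl (h : GenA T r j α b p) {a : L} (h0 : a ≠ 0) :
    GenA T r j α (Γ.scl a b) fun μ => α a ^ ω μ * p μ := by
  have h1 := (map_ne_zero α).2 h0
  refine ⟨h.gL, h.gM, eq_top_iff.2 (h.top.ge.trans (adjoin_le_iff.2 ?_)),
    scl_eq (ω := ω) α a b p ▸ T.inv M _ _ h1 h.mem⟩
  rintro _ (⟨x, rfl⟩ | ⟨μ, rfl⟩)
  · exact subset_adjoin _ _ (Or.inl ⟨x, rfl⟩)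
  · rw [← inv_mul_cancel_left₀ (zpow_ne_zero (ω μ) h1) (p μ), ← map_zpow₀, ← map_inv₀]
    exact mul_mem (subset_adjoin _ _ (Or.inl ⟨_, rfl⟩))
      (subset_adjoin _ _ (Or.inr ⟨μ, by rw [map_zpow₀]⟩))

lemma dm (E : AB S T r) {i : E.ι} (hb : (E.U i).mem L b) (hp : T.mem M (c.map α b, p)) :
    (c.prod (.vec Λ)).all (· ∈ gen α fun k => p (E.e i k)) (c.map α b, p) := by
  have h1 : c.all (· ∈ gen α fun k => p (E.e i k)) (c.map α b) := (c.all_iff _ _).2 fun l => by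
    rw [c.co_map]
    exact subset_adjoin _ _ (Or.inl ⟨_, rfl⟩)
  have h2 := ((E.U i).S.map_iff α b).2 hb
  have h3 := (E.reg i).all_sub (gen α fun k => p (E.e i k)) (x := (c.map α b, fun k => p (E.e i k)))
    ⟨h2, trivial⟩ ⟨h1, fun k => subset_adjoin _ _ (Or.inr ⟨k, rfl⟩)⟩
  rw [← E.uq i M _ p h2 hp] at h3
  exact ⟨h1, h3⟩

lemma gauss [FA2 K] {κ : Type} [Finite κ] {J : ℕ} {t : κ → M} (h : Free (j + 1) α t)
    (hJ : j + Nat.card κ = J) (O : Dv L j) : ∃ (O' : Dv M J) (h : Pl.Over α O.1 O'.1),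
      (∀ a, t a ∈ O'.1.O) ∧ (∀ f, O'.1.ord (α f) = O.1.ord f) ∧
      Free j h.resHom (fun a => O'.1.rd (t a)) ∧
      ∀ (O'' : Dv M J) (h' : Pl.Over α O.1 O''.1), O'' ≠ O' → (∀ a, t a ∈ O''.1.O) →
        ∃ m, m < J ∧ (O''.1.res.sub (gen h'.resHom fun a => O''.1.rd (t a))).tr ≤ m := by
  subst hJ
  exact FA2.gauss h O

variable [WB K] {O : Pl L} {O' : Pl M} {b' : c.X O.res}

lemma red0 (E : AB S T r) {J : ℕ} (θ : Pre J T.sp) (h : Pl.Over α O O')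
    (h0 : θ.r O' (c.map α b, p) ≠ 0) :
    ∃ a b', a ≠ 0 ∧ c.lift (Rel.ofPl O).r (Γ.scl a b) b' ∧ S.mem O.res b' := by
  obtain ⟨i | i, x, h1, h2, h3, h4, -⟩ := WB.r_ne θ h0
  · replace h2 : c.co (c.map α b) i ≠ 0 := h2
    replace h3 : c.lift (Rel.ofPl O').r (Γ.scl (c.co (c.map α b) i)⁻¹ (c.map α b)) x.1 := h3.1
    rw [c.co_map] at h2 h3
    rw [← map_inv₀, ← show c.map α _ = Γ.scl (α _) (c.map α b) from Γ.map_scl α.toRingHom _ b] at h3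
    have h5 := (Cd.lift_pl O).2 ⟨(Cd.all_over h).1 ((Cd.lift_pl O').1 h3).1, rfl⟩
    refine ⟨_, _, inv_ne_zero fun e => h2 (by rw [e, map_zero]), h5,
      (S.S.map_iff h.resHom _).1 ?_⟩
    rw [Cd.lift_eq (Cd.lift_over h h5) h3 rfl]
    exact E.sub _ _ h4
  · exact h1.elim

lemma drop (E : AB S T r) {J : ℕ} (θ : Pre J T.sp) (h : Pl.Over α O O')
    (h0 : θ.r O' (c.map α b, p) ≠ 0) (e : c.lift (Rel.ofPl O).r b b') {i : E.ι}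
    (hb : (E.U i).mem O.res b') : (∀ μ, p μ ∈ O'.O) ∧ ∀ m, m < J →
      ¬ (O'.res.sub (gen h.resHom fun k => O'.rd (p (E.e i k)))).tr ≤ m := by
  obtain ⟨l, x, -, h2, h3, h4, h5⟩ := WB.r_ne θ h0
  have h6 := Cd.lift_over h e
  obtain ⟨u, u0, hu⟩ := Γ.unit_of_lift (inv_ne_zero h2) h6 h3.1
    ((Γ.nz_map h.resHom.toRingHom).2 ((E.U i).nz _ _ hb)) (S.nz _ _ (E.sub _ _ h4))
  have h7 := (Γ.prod (.vec ω)).lift_scl ((Rel.ofPl O').inv hu u0) (inv_ne_zero u0) h3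
  rw [Wt.scl_inv _ (inv_ne_zero h2)] at h7
  have h8 := T.inv _ _ _ (inv_ne_zero u0) h4
  have h9 : θ.q _ ((Γ.prod (.vec ω)).scl u⁻¹ x) = θ.q _ x :=
    congrArg (θ.v _) (Wt.pt_scl _ (inv_ne_zero u0) x)
  generalize (Γ.prod (.vec ω)).scl u⁻¹ x = y at h7 h8 h9
  obtain ⟨y, z⟩ := y
  obtain rfl : c.map h.resHom b' = y := Cd.lift_eq h6 h7.1 rfl
  obtain rfl : (fun μ => O'.rd (p μ)) = z := funext fun μ => (h7.2 μ).2
  exact ⟨fun μ => (h7.2 μ).1, fun m hm ht =>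
    h0 (h5.trans (h9.symm.trans (WB.low θ ⟨_, dm E hb h8, ht⟩ hm)))⟩

variable [FW0 K] [AD K]

omit [WB K] in
lemma cmp (E : AB S T r) {j' : ℕ} (ι : L →ₐ[K] L') {α' : L' →ₐ[K] M'} {p' : Λ → M'}
    (h : GenA T r j α b p) (h' : GenA T r j' α' (c.map ι b) p') : ∃ ρ : M →ₐ[K] M',
      (c.prod (.vec Λ)).map ρ (c.map α b, p) = (c.map α' (c.map ι b), p') ∧
        (j = j' → deg ρ = deg ι) := by
  obtain ⟨i, hi⟩ := E.cov L b (base E h)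
  have hi' := ((E.U i).S.map_iff ι b).2 hi
  obtain ⟨ρ, h1, h2, h3⟩ := FA1.lift ((AD.free E i hi).1 h).2 ((AD.free E i hi').1 h').2 ι
  have h4 : c.map ρ (c.map α b) = c.map α' (c.map ι b) := by
    rw [c.map_map, c.map_map]
    exact c.map_congr fun l => DFunLike.congr_fun h1 _
  have h5 := ((E.U i).S.map_iff α b).2 hi
  have h6 := (E.reg i).nat ρ (x := (c.map α b, fun k => p (E.e i k))) ⟨h5, trivial⟩
  refine ⟨ρ, Prod.ext h4 ?_, h3⟩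
  rw [← E.uq i M _ p h5 h.mem] at h6
  refine h6.symm.trans (Eq.trans ?_ (E.uq i M' _ p' (((E.U i).S.map_iff α' _).2 hi') h'.mem).symm)
  exact congrArg₂ (E.τ i M') h4 (funext h2)

omit [WB K] in
lemma key (E : AB S T r) (θ : Pre (j + r) T.sp) (L : Fld K) (y : (Γ.amb K).pt L) :
    ∃ v : ℂ, (v ≠ 0 → Good j L ∧ S.sp.mem y) ∧ ∀ (M : Fld K) (α : L →ₐ[K] M) b p,
      GenA T r j α b p → Γ.pt b = y → θ.q M (c.map α b, p) = v := by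
  by_cases h : ∃ (M : Fld K) (α : L →ₐ[K] M) (b : c.X L) (p : Λ → M), GenA T r j α b p ∧ Γ.pt b = y
  · obtain ⟨M, α, b, p, h, rfl⟩ := h
    refine ⟨θ.q M (c.map α b, p), fun _ => ⟨h.gL, S.sp_pt.2 (base E h)⟩, fun M' α' b' p' h' e => ?_⟩
    obtain ⟨a, h0, rfl⟩ := (Γ.pt_eq (S.nz _ _ (base E h))).1 e.symm
    have e1 : c.map (AlgHom.id K L) (Γ.scl a b) = Γ.scl a b := c.map_id _
    obtain ⟨ρ, h1, h2⟩ := cmp E (AlgHom.id K L) (scl h h0) (e1.symm ▸ h')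
    have h3 := θ.ext ρ ((Γ.prod (.vec ω)).pt (c.map α (Γ.scl a b), fun μ => α a ^ ω μ * p μ))
      h.gM h'.gM
    rw [Wt.map_pt, h1, e1, h2 rfl, deg_of_surj Function.surjective_id, Nat.cast_one, one_mul,
      pt_scl α h0] at h3
    exact h3
  · exact ⟨0, fun e => absurd rfl e, fun M α b p h' e => absurd ⟨M, α, b, p, h', e⟩ h⟩

lemma main (E : AB S T r) (θ : Pre (j + r) T.sp) (φ : Pre j S.sp) (hφ : IsUp T r j φ.q θ.q)
    (h : GenA T r (j + 1) α b p) (O : Dv L j)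
    (hO : ∃ a b', a ≠ 0 ∧ c.lift (Rel.ofPl O.1).r (Γ.scl a b) b' ∧ S.mem O.1.res b') :
    ∃ O' : Dv M (j + r), Pl.Over α O.1 O'.1 ∧ (∀ f, O'.1.ord (α f) = O.1.ord f) ∧
      θ.r O'.1 (c.map α b, p) = φ.r O.1 b ∧ ∀ O'' : Dv M (j + r), Pl.Over α O.1 O''.1 →
        θ.r O''.1 (c.map α b, p) ≠ 0 → O'' = O' := by
  obtain ⟨a, b', h0, e, hb⟩ := hO
  have e1 : φ.r O.1 b = φ.q _ b' := WB.r_eq φ h0 e (S.nz _ _ hb)
  have h1 := scl h h0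
  simp only [Pre.r, ← pt_scl α h0 b p] at e1 ⊢
  rw [e1]
  generalize Γ.scl a b = b₁ at e h1
  generalize (fun μ => α a ^ ω μ * p μ) = p₁ at h1
  obtain ⟨i, hi⟩ := E.cov _ b' hb
  have hi' := E.opn i (Rel.ofPl O.1) (base E h1) hi e
  obtain ⟨O', o1, o2, o3, o4, o5⟩ := gauss ((AD.free E i hi').1 h1).2 (by rw [E.card i]) O
  refine ⟨O', o1, o3, ?_, fun O'' h' h2 => by_contra fun ne => ?_⟩
  · have k1 := ((E.U i).S.map_iff α _).2 hi'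
    have k2 := ((E.U i).S.map_iff o1.resHom _).2 hi
    have k3 := E.reg i (Rel.ofPl O'.1) (x := (c.map α b₁, fun k => p₁ (E.e i k)))
      (x' := (c.map o1.resHom b', fun k => O'.1.rd (p₁ (E.e i k)))) ⟨k1, trivial⟩ ⟨k2, trivial⟩
      ⟨Cd.lift_over o1 e, fun k => ⟨o2 k, rfl⟩⟩
    beta_reduce at k3
    rw [← E.uq i M _ p₁ k1 h1.mem] at k3
    have k4 := E.mem i _ _ (fun k => O'.1.rd (p₁ (E.e i k))) k2
    refine (WB.r_eq θ one_ne_zero (x := (c.map α b₁, p₁)) ?_ (T.nz _ _ k4)).trans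
      (hφ _ _ _ _ _ ((AD.free E i hi).2 ⟨k4, ?_⟩))
    · rw [Wt.scl_one]
      exact ⟨Cd.lift_over o1 e, k3⟩
    · rwa [funext fun k => E.co i _ _ _ k k2]
  · obtain ⟨k1, k2⟩ := drop E θ h' h2 e hi
    obtain ⟨m, k3, k4⟩ := o5 O'' h' ne fun k => k1 _
    exact k2 m k3 k4

lemma rat (E : AB S T r) (θ : QF (j + r) T) (φ : Pre j S.sp) (hφ : IsUp T r j φ.q θ.q)
    (hL : Good (j + 1) L) (hb : S.mem L b) {f : L} (hf : f ≠ 0) : φ.Rat L (Γ.pt b) f := by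
  obtain ⟨M, α, p, h⟩ := AD.ex E hL hb
  refine Hi.transfer _ _ (fun (O : Dv L j) (O' : Dv M (j + r)) => Pl.Over α O.1 O'.1 ∧
    (∀ f, O'.1.ord (α f) = O.1.ord f) ∧ θ.r O'.1 (c.map α b, p) = φ.r O.1 b ∧
      θ.r O'.1 (c.map α b, p) ≠ 0) (fun O hO => ?_) (fun O' hO => ?_) ?_ ?_ ?_
    (θ.rat M _ (α f) (Nat.add_right_comm j 1 r ▸ h.gM) (T.sp_pt.2 h.mem) ((map_ne_zero α).2 hf))
  · have h1 : φ.r O.1 b ≠ 0 := right_ne_zero_of_mul hO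
    obtain ⟨l, x, -, h2, h3, h4, -⟩ := WB.r_ne φ h1
    obtain ⟨O', o1, o2, o3, -⟩ := main E θ.toPre φ hφ h O ⟨_, _, inv_ne_zero h2, h3, h4⟩
    exact ⟨O', o1, o2, o3, o3 ▸ h1⟩
  · have h1 : θ.r O'.1 (c.map α b, p) ≠ 0 := right_ne_zero_of_mul hO
    have h2 : ¬ Pl.Triv α O'.1 := fun t => left_ne_zero_of_mul hO (by
      rw [Pl.ord_eq_zero_of_mem' O'.2.1 (t f) (by rw [← map_inv₀]; exact t _), Int.cast_zero])
    have h3 := red0 E θ.toPre (Pl.over_comap α O'.1) h1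
    have h4 : (Pl.comap α O'.1).IsDiv j := by
      obtain ⟨a, b', h0, e, hb'⟩ := h3
      obtain ⟨i, hi⟩ := E.cov _ b' hb'
      have h5 := (drop (p := fun μ => α a ^ ω μ * p μ) E θ.toPre (Pl.over_comap α O'.1)
        (by rwa [Pre.r, pt_scl α h0]) e hi).2
      exact (FA2.comap_dv hL O'.2.1 h2 _ (E.card i).le).resolve_right fun ⟨m, k1, k2⟩ => h5 m k1 k2
    obtain ⟨O₁, o1, o2, o3, o4⟩ := main E θ.toPre φ hφ h ⟨_, h4⟩ h3
    obtain rfl := o4 O' (Pl.over_comap α O'.1) h1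
    exact ⟨_, o1, o2, o3, h1⟩
  · rintro O O' ⟨-, o2, o3, -⟩
    exact congrArg₂ (fun (x : ℤ) (y : ℂ) => (x : ℂ) * y) (o2 f).symm o3.symm
  · rintro O O₁ O₂ ⟨o1, -, -, o4⟩ ⟨o1', -, -, o4'⟩
    obtain ⟨O', -, -, -, k⟩ := main E θ.toPre φ hφ h O (red0 E θ.toPre o1 o4)
    exact (k _ o1 o4).trans (k _ o1' o4').symm
  · rintro O₁ O₂ O' ⟨h₁, -⟩ ⟨h₂, -⟩
    exact Subtype.ext (h₁.eq_comap.trans h₂.eq_comap.symm)

end DNa

open DNa in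
theorem DN_thm {K : Type} [Field K] [FW0 K] [WB K] [AD K] : DN K :=
  ⟨fun {c Γ Λ _ ω S T r} E {j} θ => by
  choose v h1 h2 using key E θ.toPre
  let φ : Pre j S.sp := ⟨v, h1, fun {L L'} ι y hL hL' => by
    obtain ⟨b, rfl⟩ := Γ.pt_surj y
    by_cases hb : S.mem L b
    · obtain ⟨M, α, p, h⟩ := AD.ex E hL hb
      obtain ⟨M', α', p', h'⟩ := AD.ex E hL' ((S.S.map_iff ι b).2 hb)
      obtain ⟨ρ, k1, k2⟩ := cmp E ι h h'
      rw [← h2 L _ M α b p h rfl, ← h2 L' _ M' α' _ p' h' (Γ.map_pt ι b).symm, ← k1, ← k2 rfl]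
      exact θ.ext ρ ((Γ.prod (.vec ω)).pt (c.map α b, p)) h.gM h'.gM
    · rw [not_not.1 fun e => hb (S.sp_pt.1 (h1 _ _ e).2), mul_zero]
      exact not_not.1 fun e => hb (S.sp_pt.1 ((S.sp.map_iff ι _).1 (h1 _ _ e).2)),
    fun {L L'} ι y hL => by
    obtain ⟨b, rfl⟩ := Γ.pt_surj y
    by_contra e
    obtain ⟨M', α', p', h'⟩ := AD.ex E (h1 _ _ e).1 (b := c.map ι b) (S.sp_pt.1 (h1 _ _ e).2)
    obtain ⟨m, hm⟩ := Cardinal.lt_aleph0.1 (hL.trans Cardinal.natCast_lt_aleph0)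
    exact e ((h2 L' _ M' α' _ p' h' (Γ.map_pt ι b).symm).symm.trans (AD.low E θ.toPre p'
      ((FA3.dm_map α').2 ((FA3.dm_map ι).2 (FA3.dm_tr b hm.le))) (by rwa [hm, Nat.cast_lt] at hL)))⟩
  have hφ : IsUp T r j φ.q θ.q := fun L M α b p h => h2 L _ M α b p h rfl
  refine ⟨⟨φ, fun M y f hM hy hf => ?_⟩, hφ, fun q hq hk L L₁ L₂ ι₁ ι₂ w a₁ a₂ a₃ => ?_⟩
  · obtain ⟨b, rfl⟩ := Γ.pt_surj y
    exact rat E θ φ hφ hM (S.sp_pt.1 hy) hf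
  · by_contra e
    obtain ⟨hL, hw⟩ := WB.mem φ e
    obtain ⟨M, α, p, h⟩ := AD.ex E hL hw
    obtain ⟨i, hi⟩ := E.cov L w hw
    have hi' := ((E.U i).S.map_iff α w).2 hi
    have k1 : ∀ l, q l → c.co (c.map α w) l ∈ gen (α.comp ι₁) fun k => p (E.e i k) := fun l hl => by
      obtain ⟨x, hx⟩ := a₁ l hl
      rw [c.co_map, ← hx]
      exact subset_adjoin _ _ (Or.inl ⟨x, rfl⟩)
    have k2 := hq i M _ _ (fun k => p (E.e i k)) hi' k1 fun k => subset_adjoin _ _ (Or.inr ⟨k, rfl⟩)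
    rw [← E.uq i M _ p hi' h.mem] at k2
    refine e ((hφ L M α w p h).symm.trans (hk M (M.sub (gen (α.comp ι₁) fun k => p (E.e i k))) L₂
      (gen (α.comp ι₁) fun k => p (E.e i k)).val (α.comp ι₂) _ ?_ ?_ ?_))
    · rintro (l | μ) hl
      exacts [⟨⟨_, k1 l hl⟩, rfl⟩, ⟨⟨_, k2 μ⟩, rfl⟩]
    · rintro (l | μ) hl
      · obtain ⟨x, hx⟩ := a₂ l hl
        exact ⟨x, (congrArg α hx).trans (c.co_map α w l).symm⟩
      · exact absurd trivial hl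
    · refine (add_le_add (FA1.tr_gen _ _) le_rfl).trans ?_
      rw [E.card i, add_right_comm, Nat.cast_add]
      exact add_le_add a₃ le_rfl⟩

end Pool.Agent.Lib.MP_557161_ag.HG.HN
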