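import Pool.Agent.Lib.MP_557161_ag.HN.StW

/-!
Homotopies of unimodular rows.
-/

namespace Pool.Agent.Lib.MP_557161_ag.HG.HN

open Pool.Agent.Lib.MP_557161_ag.DL

namespace HT1

variable {K : Type} [Field K] {c : Cd} {Γ : Wt c} {Λ : Type} [Fintype Λ] {ω : Λ → ℤ}
  {S : QS K Γ} {γ : ℤ} {n : ∀ L : Fld K, (c.prod .one).X L → Λ → L}
  (hn : ∀ μ, Hom (S.pu (.triv .one)) (γ - ω μ) fun L x => n L x μ)

/-- The open set where the row does not vanish. -/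
def B : QS K (Γ.prod (.triv .one)) :=
  (S.pu (.triv .one)).sub ((S.pu (.triv .one)).S.opn (fun L x => ∃ μ, n L x μ ≠ 0)
      fun _ _ R _ _ m m' e h => h.imp fun μ h => Rel.ne_zero ((hn μ).reg R m m' e) h)
    (fun _ _ m => m.1) fun L a x h0 m => ⟨(S.pu _).inv L a x h0 m.1, m.2.imp fun μ h => by
      rw [(hn μ).hom L a x h0 m.1]
      exact mul_ne_zero (zpow_ne_zero _ h0) h⟩

/-- The row over the open set. -/
def kb : KB (B hn) Λ ω γ :=
  ⟨n, fun μ => ⟨(hn μ).reg.mono fun _ _ m => m.1, fun L a x h0 m => (hn μ).hom L a x h0 m.1⟩,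
    fun _ _ m => m.2⟩

omit [Fintype Λ] in
lemma hs (u : K) : Hom (B hn) 0 fun L x => x.2 - algebraMap K L u :=
  ⟨fun _ _ R _ _ _ _ e => Rel.sub e.2 (R.const u), fun L a x _ _ => by rw [zpow_zero, one_mul]⟩

lemma hs' (u : K) : Hom (kb hn).tot 0 fun L x => x.1.2 - algebraMap K L u :=
  ⟨fun _ _ R _ _ _ _ e => Rel.sub e.1.2 (R.const u), fun L a x _ _ => by rw [zpow_zero, one_mul]⟩

variable {u : K} {k : KB S Λ ω γ} (hk : ∀ L b, S.mem L b → n L (b, algebraMap K L u) = k.n L b)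
include hk

lemma memB {L : Fld K} {b : c.X L} (m : S.mem L b) :
    ((B hn).zer (hs hn u)).mem L (b, algebraMap K L u) :=
  ⟨⟨⟨m, trivial⟩, (k.uni L b m).imp fun μ h => by rwa [hk L b m]⟩, sub_self _⟩

lemma memT {L : Fld K} {b : c.X L} {v : Λ → L} (m : k.tot.mem L (b, v)) :
    ((kb hn).tot.zer (hs' hn u)).mem L ((b, algebraMap K L u), v) := by
  refine ⟨⟨⟨(memB hn hk m.1.1).1, trivial⟩, ?_⟩, sub_self _⟩
  show ∑ μ, n L (b, algebraMap K L u) μ * v μ = 0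
  rw [hk L b m.1.1]
  exact m.2

lemma memT' {L : Fld K} {x : ((c.prod .one).prod (.vec Λ)).X L}
    (m : ((kb hn).tot.zer (hs' hn u)).mem L x) : k.tot.mem L (x.1.1, x.2) := by
  obtain ⟨⟨b, T⟩, v⟩ := x
  obtain rfl : T = algebraMap K L u := sub_eq_zero.1 m.2
  refine ⟨⟨m.1.1.1.1.1, trivial⟩, ?_⟩
  show ∑ μ, k.n L b μ * v μ = 0
  rw [← hk L b m.1.1.1.1.1]
  exact m.1.2

variable [WB K]

lemma pullB {j : ℕ} (φ : QF j S) : ∃ φ' : QF j ((B hn).zer (hs hn u)),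
    ∀ L x, ((B hn).zer (hs hn u)).mem L x → φ'.q L x = φ.q L x.1 := by
  have hf : Mp ((B hn).zer (hs hn u)).S S.S fun L x => x.1 :=
    ⟨fun _ _ _ _ _ _ _ e => e.1, fun _ _ m => m.1.1.1⟩
  have hg : Mp S.S ((B hn).zer (hs hn u)).S fun L b => (b, algebraMap K L u) :=
    ⟨fun _ _ R _ _ _ _ e => ⟨e, R.const u⟩, fun _ _ m => memB hn hk m⟩
  have he : EqM ((B hn).zer (hs hn u)) S fun L x => x.1 := ⟨hf, fun _ _ _ _ _ => rfl⟩
  exact WB.pull he (Pro.of_left hg hf fun L x m => Prod.ext rfl (sub_eq_zero.1 m.2).symm) φ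

lemma pullT {j : ℕ} (θ : QF j k.tot) : ∃ θ' : QF j ((kb hn).tot.zer (hs' hn u)),
    ∀ L x, ((kb hn).tot.zer (hs' hn u)).mem L x → θ'.q L x = θ.q L (x.1.1, x.2) := by
  have hf : Mp ((kb hn).tot.zer (hs' hn u)).S k.tot.S fun L x => (x.1.1, x.2) :=
    ⟨fun _ _ _ _ _ _ _ e => ⟨e.1.1, e.2⟩, fun _ _ m => memT' hn hk m⟩
  have hg : Mp k.tot.S ((kb hn).tot.zer (hs' hn u)).S
      fun L x => ((x.1, algebraMap K L u), x.2) :=
    ⟨fun _ _ R _ _ _ _ e => ⟨⟨e.1, R.const u⟩, e.2⟩, fun _ _ m => memT hn hk m⟩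
  have he : EqM ((kb hn).tot.zer (hs' hn u)) k.tot fun L x => (x.1.1, x.2) :=
    ⟨hf, fun _ _ _ _ _ => rfl⟩
  exact WB.pull he (Pro.of_left hg hf fun L x m =>
    Prod.ext (Prod.ext rfl (sub_eq_zero.1 m.2).symm) rfl) θ

/-- The terms of the divisor upstairs. -/
lemma term {j : ℕ} {θ : Pre j k.tot.sp} {θ' : Pre j ((kb hn).tot.zer (hs' hn u)).sp}
    (h : ∀ L x, ((kb hn).tot.zer (hs' hn u)).mem L x → θ'.q L x = θ.q L (x.1.1, x.2))
    {M : Fld K} {O : Pl M} (d : O.IsDVR) (b : c.X M) {T : M} (v : Λ → M)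
    (h0 : T - algebraMap K M u ≠ 0) :
    (O.ord (T - algebraMap K M u) : ℂ) * θ'.r O ((b, T), v) =
      if 0 < O.ord (T - algebraMap K M u) then
        (O.ord (T - algebraMap K M u) : ℂ) * θ.r O (b, v) else 0 := by
  have A : θ'.r O ((b, T), v) ≠ 0 →
      0 < O.ord (T - algebraMap K M u) ∧ θ'.r O ((b, T), v) = θ.r O (b, v) := by
    intro h1
    obtain ⟨i, x', -, i0, e, m, e'⟩ := WB.r_ne θ' h1
    have e1 := Rel.sub (R := Rel.ofPl O) e.1.2 ((Rel.ofPl O).const u)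
    refine ⟨(Pl.ord_pos_iff d h0).2 ⟨e1.1, e1.2.trans m.2⟩, ?_⟩
    rw [e', h _ _ m]
    exact (WB.r_eq θ (x := (b, v)) (x' := (x'.1.1, x'.2)) (inv_ne_zero i0) ⟨e.1.1, e.2⟩
      (k.tot.nz _ _ (memT' hn hk m))).symm
  split_ifs with h1
  · congr 1
    by_cases h2 : θ.r O (b, v) = 0
    · by_contra h3
      exact h3 (A (h2 ▸ h3)).2
    · obtain ⟨i, x', -, i0, e, m, e'⟩ := WB.r_ne θ h2
      obtain ⟨h3, h4⟩ := (Pl.ord_pos_iff d h0).1 h1
      have e1 := (Rel.ofPl O).add (a := T - algebraMap K M u) ⟨h3, h4⟩ ((Rel.ofPl O).const u)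
      rw [sub_add_cancel, zero_add] at e1
      have m' := memT hn hk (b := x'.1) (v := x'.2) m
      rw [e', WB.r_eq θ' (x := ((b, T), v)) (x' := ((x'.1, algebraMap K _ u), x'.2))
        (inv_ne_zero i0) ⟨⟨e.1, e1⟩, e.2⟩ (QS.nz _ _ _ m'), h _ _ m']
  · by_contra h2
    exact h1 (A (right_ne_zero_of_mul h2)).1

variable [FW0 K]

/-- The value of the divisor downstairs at a generic point. -/
lemma gen_val {j : ℕ} {φ : Pre j S.sp} {φ' : Pre j ((B hn).zer (hs hn u)).sp}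
    (h : ∀ L x, ((B hn).zer (hs hn u)).mem L x → φ'.q L x = φ.q L x.1)
    {ψ : Pre (j + 1) (B hn).sp} (hψ : IsC (B hn) 0 (fun L x => x.2 - algebraMap K L u) φ' ψ)
    {L M : Fld K} {α : L →ₐ[K] M} {b : c.X L} {p : Unit → M}
    (g : GenA (S.pu (.vec fun _ : Unit => 0)) 1 j α b p) :
    ψ.q M (c.map α b, p ()) = φ.q L b := by
  have mb : S.mem L b := (S.S.map_iff α b).1 g.mem.1
  have F : Free j α p := ⟨g.gL, by simpa using g.gM, g.top⟩
  have F' : Free j α fun _ : Unit => p () - algebraMap K M u := by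
    refine FA1.of_gen F rfl fun i => ?_
    have h1 : p () - algebraMap K M u ∈ gen α fun _ : Unit => p () - algebraMap K M u :=
      IntermediateField.subset_adjoin _ _ (.inr ⟨(), rfl⟩)
    simpa using add_mem h1 (IntermediateField.algebraMap_mem _ u)
  obtain ⟨O, t, o1, o2, o3, o4, o5⟩ := FA2.zero (i := j) F' (by simp) ()
  have h0 : p () - algebraMap K M u ≠ 0 := fun e => by
    rw [e, Pl.ord_zero _ O.2.1] at o2
    exact zero_ne_one o2
  have red : ∀ O' : Pl M, p () - algebraMap K M u ∈ O'.O → O'.rd (p () - algebraMap K M u) = 0 →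
      (Rel.ofPl O').r (p ()) (algebraMap K _ u) := fun O' h3 h4 => by
    have e1 := (Rel.ofPl O').add (a := p () - algebraMap K M u) ⟨h3, h4⟩ ((Rel.ofPl O').const u)
    rwa [sub_add_cancel, zero_add] at e1
  have e0 : (c.prod .one).lift (Rel.ofPl O.1).r (c.map α b, p ())
      (c.map t.hom b, algebraMap K _ u) := ⟨Cd.lift_triv t b, red _ (o1 ()) o3⟩
  have m0 := memB hn hk ((S.S.map_iff t.hom b).2 mb)
  have m1 : (B hn).mem M (c.map α b, p ()) := ⟨⟨g.mem.1, trivial⟩, m0.1.2.imp fun μ h =>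
    Rel.ne_zero ((hn μ).reg _ (x := (c.map α b, p ())) ⟨g.mem.1, trivial⟩ m0.1.1 e0) h⟩
  have H := (hψ M _ _ g.gM m1 h0 fun _ => rfl).2
  rw [← H, finsum_eq_single _ O]
  · rw [WB.r_eq φ' one_ne_zero (by rw [Wt.scl_one]; exact e0) (QS.nz _ _ _ m0), h _ _ m0,
      Wt.ow, o2]
    have : IsEmpty {a : Unit // a ≠ ()} := ⟨fun a => a.2 rfl⟩
    have e2 := φ.ext t.hom (Γ.pt b) g.gL (by simpa using o4.gM)
    rw [deg_of_surj (FA1.zero.1 o4).2] at e2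
    simp only [zero_mul, sub_zero, Int.cast_one, one_mul, Nat.cast_one] at e2 ⊢
    exact e2
  · intro O' hO'
    by_contra h1
    have h2 := right_ne_zero_of_mul h1
    obtain ⟨i, x', hi, i0, e, m, e'⟩ := WB.r_ne φ' h2
    have e1 := Rel.sub (R := Rel.ofPl O'.1) e.2 ((Rel.ofPl O'.1).const u)
    obtain ⟨m', lt, hm⟩ := o5 O' hO' (fun _ => e1.1) (e1.2.trans m.2)
    refine h2 (e'.trans (WB.low φ' ⟨_, ?_, hm⟩ lt))
    cases i with
    | inr i => exact hi.elim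
    | inl i =>
      have e3 : c.lift (Rel.ofPl O'.1).r (c.map α (Γ.scl (c.co b i)⁻¹ b)) x'.1 := by
        have e4 := e.1
        have e5 : (c.prod .one).co (c.map α b, p ()) (.inl i) = α (c.co b i) := c.co_map _ _ _
        rw [e5, ← map_inv₀] at e4
        rwa [show c.map α _ = Γ.scl (α _) (c.map α b) from Γ.map_scl α.toRingHom _ b]
      refine ⟨(c.all_iff _ _).2 fun l => ?_, ?_⟩
      · have e4 := ((c.lift_iff _ _ _).1 e3 l).2
        rw [c.co_map, ← (Pl.over_comap α O'.1).resHom_rd] at e4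
        exact IntermediateField.subset_adjoin _ _ (.inl ⟨_, e4⟩)
      · have e4 : x'.2 = algebraMap K _ u := sub_eq_zero.1 m.2
        show x'.2 ∈ _
        rw [e4]
        exact IntermediateField.algebraMap_mem _ u

open Classical in
lemma one [WC K] [AD K] [WG K] {r : ℕ} (hr : Fintype.card Λ = r + 1) {j : ℕ} (φ : QF j S)
    (θ : QF (j + r) k.tot) (hθ : IsUp k.tot r j φ.q θ.q) :
    ∃ (ψ : QF (j + 1) (B hn)) (Ψ : QF (j + r + 1) (kb hn).tot),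
      IsUp (kb hn).tot r (j + 1) ψ.q Ψ.q ∧
      (∀ (L M : Fld K) (α : L →ₐ[K] M) (b : c.X L) (p : Unit → M),
        GenA (S.pu (.vec fun _ : Unit => 0)) 1 j α b p → ψ.q M (c.map α b, p ()) = φ.q L b) ∧
      ∀ (M : Fld K) (b : c.X M) (T : M) (v : Λ → M), Good (j + r + 1) M →
        (kb hn).tot.mem M ((b, T), v) → T - algebraMap K M u ≠ 0 →
        HasS (fun O : Dv M (j + r) => if 0 < O.1.ord (T - algebraMap K M u) then
          (O.1.ord (T - algebraMap K M u) : ℂ) * θ.r O.1 (b, v) else 0) (Ψ.q M ((b, T), v)) := by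
  obtain ⟨φ', hφ'⟩ := pullB hn hk φ
  obtain ⟨θ', hθ'⟩ := pullT hn hk θ
  obtain ⟨ψ, hψ⟩ := WC.cart (hs hn u) φ'
  obtain ⟨Ψ, hΨ⟩ := WC.cart (hs' hn u) θ'
  obtain ⟨E⟩ := AD.kb (kb hn) hr
  refine ⟨ψ, Ψ, WG.comm E (hs hn u) (hs' hn u) φ'.toPre θ'.toPre ψ.toPre Ψ.toPre ?_ hψ hΨ,
    fun L M α b p g => gen_val hn hk hφ' hψ g, fun M b T v hM m h0 => ?_⟩
  · intro L M α b p g
    have m : ((B hn).zer (hs hn u)).mem L b :=
      (ASp.map_iff _ α b).1 ⟨g.mem.1.1.1, g.mem.2⟩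
    rw [hθ' _ _ g.mem, hφ' _ _ m]
    exact hθ L M α b.1 p ⟨g.gL, g.gM, g.top, memT' hn hk g.mem⟩
  · have H := hΨ M _ _ hM m h0 fun _ => rfl
    simp only [Wt.ow, zero_mul, sub_zero] at H
    rwa [funext fun O : Dv M (j + r) => term hn hk hθ' O.2.1 b v h0] at H

end HT1

theorem HT_thm {K : Type} [Field K] [FW0 K] [WB K] [WC K] [AD K] [UP K] [WG K] :
    HT K where
  ht {c Γ Λ _ ω S γ} k₀ k₁ r hr n hn hk j φ θ₀ θ₁ h₀ h₁ M b T v hM mb T0 T1 n0 nv := by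
    obtain ⟨ψ₀, Ψ₀, a₀, b₀, c₀⟩ := HT1.one hn (u := 0) (k := k₀)
      (fun L b m => by rw [map_zero]; exact (hk L b m).1) hr φ θ₀ h₀
    obtain ⟨ψ₁, Ψ₁, a₁, b₁, c₁⟩ := HT1.one hn (u := 1) (k := k₁)
      (fun L b m => by rw [map_one]; exact (hk L b m).2) hr φ θ₁ h₁
    have op : Opn (HT1.B hn).sp (S.pu (.triv .one)).sp := WB.opn (fun _ _ m => m.1)
      fun M O x x' m m' e => ⟨m, m'.2.imp fun μ h => Rel.ne_zero ((hn μ).reg _ m m'.1 e) h⟩
    have hf : Mp (S.pu (.vec fun _ : Unit => 0)).S (S.pu (.triv .one)).S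
        fun L x => (x.1, x.2 ()) :=
      ⟨fun _ _ _ _ _ _ _ e => ⟨e.1, e.2 ()⟩, fun _ _ m => ⟨m.1, trivial⟩⟩
    have hg : Mp (S.pu (.triv .one)).S (S.pu (.vec fun _ : Unit => 0)).S
        fun L x => (x.1, fun _ => x.2) :=
      ⟨fun _ _ _ _ _ _ _ e => ⟨e.1, fun _ => e.2⟩, fun _ _ m => ⟨m.1, trivial⟩⟩
    have he : EqM (S.pu (.vec fun _ : Unit => 0)) (S.pu (.triv .one))
        fun L x => (x.1, x.2 ()) := ⟨hf, fun L a x _ _ => Prod.ext rfl (by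
      show a ^ (0 : ℤ) * x.2 () = x.2 ()
      rw [zpow_zero, one_mul])⟩
    have tr : ∀ ψ : QF (j + 1) (HT1.B hn), ∃ χ : QF (j + 1) (S.pu (.vec fun _ : Unit => 0)),
        ∀ L x, S.mem L x.1 → χ.q L x = ψ.q L (x.1, x.2 ()) := fun ψ => by
      obtain ⟨ψ', e⟩ := WB.ext op ψ
      obtain ⟨χ, e'⟩ := WB.pull he (Pro.of_left hg hf fun _ _ _ => rfl) ψ'
      exact ⟨χ, fun L x m => (e' L x ⟨m, trivial⟩).trans (e _ _)⟩
    have dif : ∀ {A : Amb K} {P : Sp A} {i : ℕ} (θ θ' : Fe i P), ∃ Θ : Fe i P,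
        ∀ L y, Θ.v L y = θ.v L y - θ'.v L y := fun θ θ' => by
      obtain ⟨Θ, e⟩ := WB.lin (Finset.univ : Finset Bool) (fun t => if t then 1 else -1)
        fun t => if t then θ else θ'
      exact ⟨Θ, fun L y => by simpa [sub_eq_add_neg] using e L y⟩
    obtain ⟨χ₀, e₀⟩ := tr ψ₀
    obtain ⟨χ₁, e₁⟩ := tr ψ₁
    obtain ⟨χ, e⟩ := dif χ₀ χ₁
    obtain ⟨E₁⟩ := AD.sb (fun _ : Unit => (0 : ℤ)) S (r := 1) (by simp)
    have z₁ := UP.up E₁ χ fun j' hj L M α b p g => by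
      obtain rfl : j = j' := by omega
      refine (e _ _).trans (sub_eq_zero.2 ?_)
      exact ((e₀ M _ g.mem.1).trans (b₀ L M α b p g)).trans
        ((e₁ M _ g.mem.1).trans (b₁ L M α b p g)).symm
    have z₂ : ∀ L x, S.mem L x.1 → ψ₀.q L x = ψ₁.q L x := fun L x m =>
      ((e₀ L (x.1, fun _ => x.2) m).symm.trans
        (sub_eq_zero.1 ((e _ _).symm.trans (z₁ L (x.1, fun _ => x.2))))).trans
        (e₁ L (x.1, fun _ => x.2) m)
    obtain ⟨Ψ, e'⟩ := dif Ψ₀ Ψ₁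
    obtain ⟨E⟩ := AD.kb (HT1.kb hn) hr
    have z₃ := UP.up E Ψ fun j' hj L M α b p g => by
      obtain rfl : j' = j + 1 := by omega
      refine (e' _ _).trans (sub_eq_zero.2 ?_)
      exact ((a₀ L M α b p g).trans (z₂ L b ((S.S.map_iff α b.1).1 g.mem.1.1.1.1))).trans
        (a₁ L M α b p g).symm
    have m : (HT1.kb hn).tot.mem M ((b, T), v) :=
      ⟨⟨⟨⟨mb, trivial⟩, Function.ne_iff.1 n0⟩, trivial⟩, nv⟩
    have H₀ := c₀ M b T v hM m (by rwa [map_zero, sub_zero])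
    have H₁ := c₁ M b T v hM m (by rw [map_one]; exact sub_ne_zero.2 T1)
    rw [map_zero, sub_zero] at H₀
    rw [map_one] at H₁
    have z₄ : Ψ₀.q M ((b, T), v) = Ψ₁.q M ((b, T), v) :=
      sub_eq_zero.1 ((e' _ _).symm.trans (z₃ M ((b, T), v)))
    exact ⟨_, H₀, z₄ ▸ H₁⟩

end Pool.Agent.Lib.MP_557161_ag.HG.HN
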