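import Pool.Agent.Lib.MP_557161_ag.HN.StW

/-!
The intersection with the zero section of the kernel of a unimodular row.
-/

namespace Pool.Agent.Lib.MP_557161_ag.HG.HN

open Pool.Agent.Lib.MP_557161_ag.DL

namespace KEa

section Alg

variable {Λ : Type} [Fintype Λ] {L : Type} [Field L]

/-- The map of the Koszul complex. -/
def ko (n : Λ → L) (c : Λ × Λ → L) (ν : Λ) : L := ∑ μ, n μ * (c (μ, ν) - c (ν, μ))

lemma ko_dot (n : Λ → L) (c : Λ × Λ → L) : ∑ ν, n ν * ko n c ν = 0 := by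
  simp only [ko, Finset.mul_sum, mul_sub, Finset.sum_sub_distrib]
  rw [Finset.sum_comm, sub_eq_zero]
  exact Finset.sum_congr rfl fun _ _ => Finset.sum_congr rfl fun _ _ => mul_left_comm _ _ _

/-- The free coordinates. -/
abbrev Fr (m : Λ) : Type := {p : Λ × Λ // p.1 = m → p.2 = m}

open Classical in
/-- Extension by zero. -/
noncomputable def ex0 {m : Λ} (t : Fr m → L) (p : Λ × Λ) : L :=
  if h : p.1 = m → p.2 = m then t ⟨p, h⟩ else 0

open Classical in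
/-- The solution with given free coordinates. -/
noncomputable def sol {m : Λ} (n v : Λ → L) (t : Fr m → L) (p : Λ × Λ) : L :=
  if p.1 = m → p.2 = m then ex0 t p else (v p.2 - ko n (ex0 t) p.2) / n m

lemma sol_co {m : Λ} (n v : Λ → L) (t : Fr m → L) (k : Fr m) : sol n v t k = t k := by
  rw [sol, if_pos k.2, ex0, dif_pos k.2]

lemma ko_eq {m ν : Λ} (h : ν ≠ m) (n : Λ → L) (c : Λ × Λ → L) :
    ko n c ν = ko n (ex0 fun k : Fr m => c k) ν + n m * c (m, ν) := by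
  classical
  rw [ko, ko, ← Finset.add_sum_erase _ _ (Finset.mem_univ m),
    ← Finset.add_sum_erase _ _ (Finset.mem_univ m), add_right_comm]
  congr 1
  · simp [ex0, h, mul_add, sub_eq_neg_add]
  · exact Finset.sum_congr rfl fun μ hμ => by simp [ex0, h, Finset.ne_of_mem_erase hμ]

lemma ko_sol {m : Λ} {n v : Λ → L} (h : n m ≠ 0) (h0 : ∑ ν, n ν * v ν = 0) (t : Fr m → L) :
    v = ko n (sol n v t) := by
  classical
  have k : ∀ ν ≠ m, v ν = ko n (sol n v t) ν := fun ν hν => by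
    rw [ko_eq hν, funext (sol_co n v t), sol, if_neg (by simpa using hν), mul_div_cancel₀ _ h,
      add_sub_cancel]
  funext ν
  by_cases hν : ν = m
  · have e := h0.trans (ko_dot n (sol n v t)).symm
    rw [← Finset.add_sum_erase _ _ (Finset.mem_univ m),
      ← Finset.add_sum_erase _ _ (Finset.mem_univ m),
      Finset.sum_congr rfl fun μ hμ => by rw [k μ (Finset.ne_of_mem_erase hμ)]] at e
    rw [hν]
    exact mul_left_cancel₀ h (add_right_cancel e)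
  · exact k ν hν

lemma sol_ko {m : Λ} {n : Λ → L} (h : n m ≠ 0) (c : Λ × Λ → L) :
    c = sol n (ko n c) fun k : Fr m => c k := by
  funext p
  by_cases hp : p.1 = m → p.2 = m
  · exact (sol_co n _ (fun k : Fr m => c k) ⟨p, hp⟩).symm
  · obtain ⟨a, ν⟩ := p
    obtain ⟨rfl, hν⟩ := Classical.not_imp.1 hp
    rw [sol, if_neg hp, ko_eq hν n c, add_sub_cancel_left, mul_div_cancel_left₀ _ h]

lemma card_fr {r : ℕ} (h : Fintype.card Λ = r + 1) (m : Λ) :
    Nat.card (Fr m) = r * r + r + 1 := by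
  classical
  have e := Fintype.card_subtype_compl fun p : Λ × Λ => ¬ (p.1 = m → p.2 = m)
  have e2 : Fintype.card {p : Λ × Λ // ¬ (p.1 = m → p.2 = m)} = Fintype.card {ν // ν ≠ m} :=
    Fintype.card_congr ⟨fun p => ⟨p.1.2, (Classical.not_imp.1 p.2).2⟩,
      fun ν => ⟨(m, ν), fun k => ν.2 (k rfl)⟩,
      fun p => Subtype.ext (Prod.ext (Classical.not_imp.1 p.2).1.symm rfl), fun _ => rfl⟩
  simp only [not_not] at e
  rw [Nat.card_eq_fintype_card, e, e2]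
  simp only [Fintype.card_prod, ne_eq, Fintype.card_subtype_compl, Fintype.card_unique, h]
  rw [Nat.add_sub_cancel, Nat.sub_eq_iff_eq_add (by nlinarith)]
  ring

end Alg

variable {K : Type} [Field K] {c : Cd} {Γ : Wt c} {Λ : Type} [Fintype Λ] {ω : Λ → ℤ} {S : QS K Γ}
  {γ : ℤ} (k : KB S Λ ω γ)

lemma rel_ko {M L : Fld K} {R : Rel M L} {n : Λ → M} {n' : Λ → L} {t : Λ × Λ → M}
    {t' : Λ × Λ → L} (h : ∀ μ, R.r (n μ) (n' μ)) (e : ∀ p, R.r (t p) (t' p)) (ν : Λ) :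
    R.r (ko n t ν) (ko n' t' ν) := Rel.sum _ fun μ _ => R.mul (h μ) (Rel.sub (e _) (e _))

/-- The weights of the Koszul coordinates. -/
def wt (ω : Λ → ℤ) (γ : ℤ) (p : Λ × Λ) : ℤ := ω p.1 + ω p.2 - γ

/-- The graph of the Koszul map. -/
def gr : QS K ((Γ.prod (.vec ω)).prod (.vec (wt ω γ))) :=
  (k.tot.pu (.vec (wt ω γ))).sub ((k.tot.pu (.vec (wt ω γ))).S.cl
    (fun L x => x.1.2 = ko (k.n L x.1.1) x.2) fun _ _ R _ _ m m' e h => funext fun ν =>
      Rel.eq (e.1.2 ν) (rel_ko (fun μ => (k.hom μ).reg R m.1.1.1 m'.1.1.1 e.1.1) e.2 ν)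
        (congrFun h ν)) (fun _ _ m => m.1) fun L a x h0 m => by
    refine ⟨(k.tot.pu _).inv L a x h0 m.1, funext fun ν => ?_⟩
    show a ^ ω ν * x.1.2 ν = ∑ μ, k.n L (Γ.scl a x.1.1) μ *
      (a ^ wt ω γ (μ, ν) * x.2 (μ, ν) - a ^ wt ω γ (ν, μ) * x.2 (ν, μ))
    rw [m.2, ko, Finset.mul_sum]
    refine Finset.sum_congr rfl fun μ _ => ?_
    have := zpow_ne_zero (ω μ) h0
    have := zpow_ne_zero γ h0
    simp only [(k.hom μ).hom L a x.1.1 h0 m.1.1.1.1, wt, zpow_sub₀ h0, zpow_add₀ h0]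
    field_simp

/-- The graph is an affine bundle over the kernel. -/
noncomputable def ab {r : ℕ} (h : Fintype.card Λ = r + 1) : AB k.tot (gr k) (r * r + r + 1) where
  sub _ _ m := m.1.1
  ι := Λ
  U m := k.tot.sub (k.tot.S.opn (fun L x => k.n L x.1 m ≠ 0) fun _ _ R _ _ p p' e =>
    Rel.ne_zero ((k.hom m).reg R p.1.1 p'.1.1 e.1)) (fun _ _ p => p.1) fun L a x h0 p =>
      ⟨k.tot.inv L a x h0 p.1, ((k.hom m).hom L a x.1 h0 p.1.1.1).trans_ne
        (mul_ne_zero (zpow_ne_zero _ h0) p.2)⟩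
  usub _ _ _ p := p.1
  opn m _ _ R _ _ p p' e := ⟨p, Rel.ne_zero ((k.hom m).reg R p.1.1 p'.1.1.1 e.1) p'.2⟩
  cov L b p := (k.uni L b.1 p.1.1).imp fun _ t => ⟨p, t⟩
  κ := Fr
  card := card_fr h
  e _ := Subtype.val
  τ _ L b t := sol (k.n L b.1) b.2 t
  reg m _ _ R x x' p p' e q := by
    classical
    have e1 := fun μ => (k.hom μ).reg R p.1.1.1.1 p'.1.1.1.1 e.1.1
    have e2 : ∀ q, R.r (ex0 x.2 q) (ex0 x'.2 q) := fun q => by
      unfold ex0
      split_ifs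
      exacts [e.2 _, R.zero]
    exact Rel.ite _ (e2 q) (Rel.div (Rel.sub (e.1.2 _) (rel_ko e1 e2 _)) (e1 m) p'.1.2)
  mem _ _ _ t p := ⟨⟨p.1, trivial⟩, ko_sol p.2 p.1.2 t⟩
  co _ _ _ _ _ _ := sol_co _ _ _ _
  uq _ L b t p q := (sol_ko p.2 t).trans (by rw [← show b.2 = _ from q.2])

lemma eqm : EqM (gr k) (S.pu (.vec (wt ω γ))) fun _ x => (x.1.1, x.2) :=
  ⟨⟨fun _ _ _ _ _ _ _ e => ⟨e.1.1, e.2⟩, fun _ _ m => ⟨m.1.1.1.1, trivial⟩⟩, fun _ _ _ _ _ => rfl⟩

lemma pro : Pro (gr k).S (S.pu (.vec (wt ω γ))).S fun _ x => (x.1.1, x.2) :=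
  fun _ O x z _ m m' e => ⟨((z.1, ko (k.n _ z.1) z.2), z.2),
    ⟨⟨⟨⟨m'.1, trivial⟩, ko_dot _ _⟩, trivial⟩, rfl⟩, ⟨e.1, fun ν => by
      rw [show x.1.2 = _ from m.2]
      exact rel_ko (fun μ => (k.hom μ).reg _ m.1.1.1.1 m'.1 e.1) e.2 ν⟩, e.2⟩

end KEa

open KEa

variable {K : Type} [Field K]

theorem KE_thm [WB K] [AD K] [DN K] [SE K] : KE K where
  ex {c Γ Λ _ ω S γ} k r h j φ := by
    obtain ⟨θ₀, h1, h2⟩ : ∃ θ : QF (j + r + (r * r + r + 1)) (S.pu (.vec (wt ω γ))),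
        IsUp (S.pu (.vec (wt ω γ))) (r + (r * r + r + 1)) j φ.q θ.q ∧ ∀ q : c.ι → Prop, Γ.Ad q →
          KlP c q j φ.q → KlP (c.prod (.vec (Λ × Λ))) (Sum.elim q fun _ => True)
            (j + r + (r * r + r + 1)) θ.q := by
      rw [add_assoc j r]
      exact SE.ex _ (by rw [Fintype.card_prod, h]; ring) φ
    obtain ⟨θ₁, h3⟩ := WB.pull (eqm k) (pro k) θ₀
    obtain ⟨θ, h4, h5⟩ := DN.down (ab k h) θ₁
    refine ⟨θ, fun L M α b p g => ?_, fun q hq hn hφ => h5 _ ?_ ?_⟩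
    · obtain ⟨M', α', p', g'⟩ := AD.ex (ab k h) g.gM g.mem
      have hb := (S.S.map_iff α b).1 g.mem.1.1
      have e : c.map α' (c.map α b) = c.map (α'.comp α) b := c.map_map _ _ _
      rw [← h4 _ _ _ _ _ g', h3 _ _ g'.mem]
      refine (congrArg (fun x => θ₀.q M' (x, p')) e).trans (h1 _ _ _ _ _
        ⟨g.gL, add_assoc j r _ ▸ g'.gM, ?_, (S.S.map_iff _ b).2 hb, trivial⟩)
      have s1 : ∀ x, α' (α x) ∈ gen (α'.comp α) p' := fun x =>
        IntermediateField.subset_adjoin _ _ (.inl ⟨x, rfl⟩)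
      have s2 : ∀ x, p' x ∈ gen (α'.comp α) p' := fun x =>
        IntermediateField.subset_adjoin _ _ (.inr ⟨x, rfl⟩)
      refine top_le_iff.1 (g'.top.ge.trans (IntermediateField.adjoin_le_iff.2 ?_))
      rintro _ (⟨x, rfl⟩ | ⟨x, rfl⟩)
      · refine (show gen α p ≤ (gen (α'.comp α) p').comap α' from
          IntermediateField.adjoin_le_iff.2 ?_) (g.top.ge trivial)
        rintro _ (⟨x, rfl⟩ | ⟨ν, rfl⟩)
        · exact s1 x
        · have e1 : α' (p ν) = ko (k.n M' (c.map α' (c.map α b))) p' ν := congrFun g'.mem.2 ν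
          show α' (p ν) ∈ gen (α'.comp α) p'
          rw [e1, e]
          refine sum_mem fun μ _ => mul_mem ?_ (sub_mem (s2 _) (s2 _))
          rw [(k.hom μ).reg.nat _ hb]
          exact s1 _
      · exact s2 x
    · intro m L F b t p e1 e2 u
      have e3 := fun μ => hn μ L F b.1 p.1.1.1 fun i hi => e1 (.inl i) hi
      have e4 : ∀ u, ex0 t u ∈ F := fun u => by
        unfold ex0
        split_ifs
        exacts [e2 _, zero_mem F]
      show sol _ _ t u ∈ F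
      unfold sol
      split_ifs
      exacts [e4 u, div_mem (sub_mem (e1 (.inr _) trivial) (sum_mem fun μ _ =>
        mul_mem (e3 μ) (sub_mem (e4 _) (e4 _)))) (e3 m)]
    · intro L L₁ L₂ ι₁ ι₂ w e1 e2 e3
      by_contra n
      refine n ((h3 _ _ (WB.mem _ n).2).trans (h2 q hq hφ L L₁ L₂ ι₁ ι₂ _ ?_ ?_ e3))
      · rintro (i | i) hi
        exacts [e1 (.inl (.inl i)) hi, e1 (.inr i) trivial]
      · rintro (i | i) hi
        exacts [e2 (.inl (.inl i)) hi, (hi trivial).elim]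

end Pool.Agent.Lib.MP_557161_ag.HG.HN
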