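import Pool.Agent.Lib.MP_557161_ag.HN.StW

/-!
Naturality of the flat pull back to the kernel of a unimodular row.
-/

namespace Pool.Agent.Lib.MP_557161_ag.HG.HN

open Pool.Agent.Lib.MP_557161_ag.DL

variable {K : Type} [Field K]

theorem KN_thm [WB K] [AD K] [UP K] : KN K where
  nat := by
    intro c c' Γ Γ' Λ Λ' _ _ ω ω' S S' γ γ' k k' r hr f hf hP e hω hn j φ φ' θ θ' χ hθ hθ' hφ
    have hs : ∀ (L : Fld K) (b : c'.X L) (v : Λ' → L), S'.mem L b →
        ∑ μ, k.n L (f L b) μ * v (e.symm μ) = ∑ μ, k'.n L b μ * v μ := fun L b v hb => by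
      rw [← e.sum_comp]
      exact Finset.sum_congr rfl fun μ _ => by rw [hn L b μ hb, e.symm_apply_apply]
    have hg : EqM k'.tot k.tot fun L x => (f L x.1, fun μ => x.2 (e.symm μ)) := by
      refine ⟨⟨fun M L R x x' m m' h => ⟨hf.mp.reg R m.1.1 m'.1.1 h.1, fun μ => h.2 _⟩,
        fun L x m => ⟨⟨hf.mp.mem L x.1 m.1.1, trivial⟩, (hs L x.1 x.2 m.1.1).trans m.2⟩⟩,
        fun L a x h0 m => Prod.ext (hf.eqv L a x.1 h0 m.1.1) (funext fun μ => ?_)⟩
      show a ^ ω' (e.symm μ) * x.2 (e.symm μ) = a ^ ω μ * x.2 (e.symm μ)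
      rw [← hω, e.apply_symm_apply]
    have hp : Pro k'.tot.S k.tot.S fun L x => (f L x.1, fun μ => x.2 (e.symm μ)) := by
      intro M O x z hO m mz h
      obtain ⟨b', mb, hb⟩ := hP M O x.1 z.1 hO m.1.1 mz.1.1 h.1
      have hl : (c'.prod (.vec Λ')).lift (Rel.ofPl O).r x (b', fun μ => z.2 (e μ)) :=
        ⟨hb, fun μ => by simpa only [e.symm_apply_apply] using h.2 (e μ)⟩
      exact ⟨(b', fun μ => z.2 (e μ)), ⟨⟨mb, trivial⟩,
        Rel.eq_zero (R := Rel.ofPl O) (k'.lin.reg (Rel.ofPl O) m.1 ⟨mb, trivial⟩ hl) m.2⟩, hl⟩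
    obtain ⟨θ₁, h₁⟩ := WB.pull hg hp θ
    obtain ⟨Θ, hΘ⟩ := WB.lin Finset.univ ![1, -χ] ![θ', θ₁]
    have hq : ∀ L x, Θ.q L x = θ'.q L x - χ * θ₁.q L x := fun L x => by
      refine (hΘ L _).trans ?_
      rw [Fin.sum_univ_two]
      show 1 * θ'.q L x + -χ * θ₁.q L x = _
      ring
    obtain ⟨E⟩ := AD.kb k' ((Fintype.card_congr e).trans hr)
    have h0 := UP.up E Θ fun j' hj L M α b p hG => by
      obtain rfl : j = j' := Nat.add_right_cancel hj
      have hb : S'.mem L b := (S'.S.map_iff α b).1 hG.mem.1.1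
      have hm := hg.mp.mem M _ hG.mem
      have hG' : GenA k.tot r j α (f L b) fun μ => p (e.symm μ) := by
        refine ⟨hG.gL, hG.gM, ?_, ?_⟩
        · rw [← hG.top, gen, gen]
          exact congrArg (fun s => IntermediateField.adjoin K (Set.range α ∪ s))
            (e.symm.surjective.range_comp p)
        · rw [← hf.mp.reg.nat α hb]
          exact hm
      rw [hq, hθ' L M α b p hG, h₁ M _ hG.mem, hφ L b hb, ← hθ L M α _ _ hG',
        ← hf.mp.reg.nat α hb, sub_self]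
    intro L b v hb
    by_cases m : k'.tot.mem L (b, fun μ => v (e μ))
    · have h2 := h₁ L _ m
      simp only [e.apply_symm_apply] at h2
      rw [← h2, ← sub_eq_zero, ← hq, h0]
    · have h2 : θ'.q L (b, fun μ => v (e μ)) = 0 := by
        by_contra h
        exact m (WB.mem θ'.toPre h).2
      have h3 : θ.q L (f L b, v) = 0 := by
        by_contra h
        refine m ⟨⟨hb, trivial⟩, (hs L b _ hb).symm.trans ?_⟩
        simpa only [e.apply_symm_apply] using (WB.mem θ.toPre h).2.2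
      rw [h2, h3, mul_zero]

end Pool.Agent.Lib.MP_557161_ag.HG.HN
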