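import Pool.Agent.Lib.MP_557161_ag.HN.StW

/-!
The flat pull back along an affine bundle is onto.
-/

namespace Pool.Agent.Lib.MP_557161_ag.HG.HN

open Pool.Agent.Lib.MP_557161_ag.DL

namespace UPa

variable {K : Type} [Field K] {c : Cd} {Γ : Wt c} {Λ : Type} [Fintype Λ] {ω : Λ → ℤ}
  {S : QS K Γ} {T : QS K (Γ.prod (.vec ω))} {r : ℕ} (E : AB S T r)

/-- The affine charts of the base. -/
def V (s : E.ι × {l // Γ.P l}) (L : Fld K) (b : c.X L) : Prop :=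
  (E.U s.1).mem L b ∧ c.co b s.2 ≠ 0

variable {E}

lemma V_scl {s : E.ι × {l // Γ.P l}} {L : Fld K} {a : L} (h0 : a ≠ 0) {b : c.X L}
    (h : V E s L b) : V E s L (Γ.scl a b) :=
  ⟨(E.U s.1).inv L a b h0 h.1, by
    rw [Γ.co_scl]
    exact mul_ne_zero (zpow_ne_zero _ h0) h.2⟩

lemma V_of_scl {s : E.ι × {l // Γ.P l}} {L : Fld K} {a : L} (h0 : a ≠ 0) {b : c.X L}
    (h : V E s L (Γ.scl a b)) : V E s L b := Γ.scl_inv h0 b ▸ V_scl (inv_ne_zero h0) h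

lemma V_opn {s : E.ι × {l // Γ.P l}} {M L : Fld K} (R : Rel M L) {b : c.X M} {b' : c.X L}
    (m : S.mem M b) (h : V E s L b') (e : c.lift R.r b b') : V E s M b :=
  ⟨E.opn s.1 R m h.1 e, Rel.ne_zero ((c.lift_iff _ _ _).1 e _) h.2⟩

variable (E)

/-- The part of the bundle outside the charts which are not in `F`. -/
def Z (F : Set (E.ι × {l // Γ.P l})) : QS K (Γ.prod (.vec ω)) :=
  T.sub (T.S.cl (fun L x => ∀ s, s ∉ F → ¬ V E s L x.1)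
      fun _ _ R _ _ m _ e h s hs h' => h s hs (V_opn R (E.sub _ _ m) h' e.1))
    (fun _ _ m => m.1) fun L a x h0 m =>
      ⟨T.inv L a x h0 m.1, fun s hs h => m.2 s hs (V_of_scl h0 h)⟩

/-- Its intersection with the chart `s`. -/
def W (F : Set (E.ι × {l // Γ.P l})) (s : E.ι × {l // Γ.P l}) : QS K (Γ.prod (.vec ω)) :=
  (Z E F).sub ((Z E F).S.opn (fun L x => V E s L x.1)
      fun _ _ R _ _ m _ e h => V_opn R (E.sub _ _ m.1) h e.1)
    (fun _ _ m => m.1) fun L a x h0 m => ⟨(Z E F).inv L a x h0 m.1, V_scl h0 m.2⟩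

/-- The affine form of the base of `W`. -/
def B (F : Set (E.ι × {l // Γ.P l})) (s : E.ι × {l // Γ.P l}) : ASp K c :=
  (E.U s.1).S.cl (fun L b => (∀ s, s ∉ F → ¬ V E s L b) ∧ c.co b s.2 = 1)
    fun _ _ R _ _ m _ e h => ⟨fun s' hs h' => h.1 s' hs (V_opn R (E.usub _ _ _ m) h' e),
      Rel.eq ((c.lift_iff _ _ _).1 e _) R.one h.2⟩

lemma norm_mem {F : Set (E.ι × {l // Γ.P l})} {s : E.ι × {l // Γ.P l}} {L : Fld K}
    {x : (c.prod (.vec Λ)).X L} (h : (W E F s).mem L x) :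
    (B E F s).mem L (Γ.scl (c.co x.1 s.2)⁻¹ x.1) := by
  have h1 := (W E F s).inv L _ x (inv_ne_zero h.2.2) h
  refine ⟨h1.2.1, h1.1.2, ?_⟩
  rw [Γ.co_scl, Γ.one _ s.2.2, zpow_one, inv_mul_cancel₀ h.2.2]

lemma mp (F : Set (E.ι × {l // Γ.P l})) (s : E.ι × {l // Γ.P l}) :
    Mp ((B E F s).prod (.univ K (.vec (E.κ s.1)))) (W E F s).S
      fun L x => (x.1, E.τ s.1 L x.1 x.2) where
  reg _ _ R _ _ m m' e := ⟨e.1, E.reg s.1 R ⟨m.1.1, trivial⟩ ⟨m'.1.1, trivial⟩ e⟩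
  mem L x m := ⟨⟨E.mem s.1 L x.1 x.2 m.1.1, m.1.2.1⟩, m.1.1, m.1.2.2 ▸ one_ne_zero⟩

lemma proA (F : Set (E.ι × {l // Γ.P l})) (s : E.ι × {l // Γ.P l}) :
    ProA ((B E F s).prod (.univ K (.vec (E.κ s.1)))) (W E F s)
      fun L x => (x.1, E.τ s.1 L x.1 x.2) := by
  intro M O x a z _ m h0 hz e
  have h1 : (Rel.ofPl O).r a (c.co z.1 s.2) := by
    have := (c.lift_iff _ _ _).1 e.1 s.2
    change (Rel.ofPl O).r (c.co (Γ.scl a x.1) s.2) _ at this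
    rwa [Γ.co_scl, Γ.one _ s.2.2, zpow_one, m.1.2.2, mul_one] at this
  have h2 := (Γ.prod (.vec ω)).lift_scl ((Rel.ofPl O).inv h1 hz.2.2) (inv_ne_zero hz.2.2) e
  rw [Wt.scl_inv _ h0] at h2
  refine ⟨(_, fun k => ((Γ.prod (.vec ω)).scl (c.co z.1 s.2)⁻¹ z).2 (E.e s.1 k)),
    ⟨norm_mem E hz, trivial⟩, h2.1, fun k => ?_⟩
  have h3 := h2.2 (E.e s.1 k)
  change (Rel.ofPl O).r (E.τ s.1 M x.1 x.2 (E.e s.1 k)) _ at h3
  rwa [E.co _ _ _ _ _ m.1.1] at h3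

variable (p : ℕ) [FC2 K p] [WB K] [AD K]

include p in
lemma step {i : ℕ} (θ : QF i T) (hθ : ∀ j, i = j + r → IsUp T r j (fun _ _ => 0) θ.q)
    (F : Set (E.ι × {l // Γ.P l})) (s : E.ι × {l // Γ.P l})
    (ih : ∀ L x, (Z E F).mem L x → θ.q L x = 0) (L : Fld K) (x : (c.prod (.vec Λ)).X L)
    (hx : (Z E (insert s F)).mem L x) : θ.q L x = 0 := by
  have hs : ∀ L x, (Z E (insert s F)).mem L x → θ.q L x ≠ 0 → (W E (insert s F) s).mem L x := by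
    intro L x hx h
    refine ⟨hx, by_contra fun h' => h (ih L x ⟨hx.1, fun s' hs' => ?_⟩)⟩
    by_cases e : s' = s
    · exact e ▸ h'
    · exact hx.2 s' fun m => m.elim e hs'
  obtain ⟨θ₁, h1⟩ := WB.pull (S := Z E (insert s F)) (T := T) (f := fun _ x => x)
    ⟨⟨Reg.id _, fun _ _ m => m.1⟩, fun _ _ _ _ _ => rfl⟩
    (fun M O x z _ m hz e => ⟨z, ⟨hz, fun s' hs' h => m.2 s' hs' (V_opn _ (E.sub _ _ m.1) h e.1)⟩,
      e⟩) θ
  obtain ⟨θ₂, h2⟩ := WB.res (W E (insert s F) s).sp θ₁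
    (fun L y ⟨x, m, e⟩ => ⟨x, m.1, e⟩) fun L y h => by
      obtain ⟨x, rfl⟩ := (Γ.prod (.vec ω)).pt_surj y
      have m := (WB.mem θ₁.toPre h).2
      exact ⟨x, hs L x m (h1 L x m ▸ h), rfl⟩
  obtain ⟨θ₃, h3⟩ := WB.pullA (mp E (insert s F) s) (proA E (insert s F) s) θ₂
  have h4 : ∀ L x, ((B E (insert s F) s).prod (.univ K (.vec (E.κ s.1)))).mem L x →
      θ₃.a L x = θ.q L (x.1, E.τ s.1 L x.1 x.2) := fun L x m =>
    (h3 L x m).trans ((h2 L _).trans (h1 L _ ((mp E (insert s F) s).mem L x m).1))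
  have h5 := FC2.up (p := p) θ₃ fun j L M α t b hj hf m => by
    have m' := ((B E (insert s F) s).map_iff α b).2 m
    rw [h4 M (c.map α b, t) ⟨m', trivial⟩]
    refine hθ j (E.card s.1 ▸ hj) L M α b _ ((AD.free E s.1 m.1).2 ⟨E.mem _ _ _ _ m'.1, ?_⟩)
    simpa only [E.co _ _ _ _ _ m'.1] using hf
  by_contra h
  have m := hs L x hx h
  have m' := norm_mem E m
  have m'' := T.inv L _ x (inv_ne_zero m.2.2) m.1.1
  have h6 := h4 L (_, fun k => ((Γ.prod (.vec ω)).scl (c.co x.1 s.2)⁻¹ x).2 (E.e s.1 k))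
    ⟨m', trivial⟩
  rw [h5] at h6
  refine h (Eq.trans ?_ h6.symm)
  rw [← E.uq s.1 L _ _ m'.1 m'']
  exact congrArg (θ.v L) ((Γ.prod (.vec ω)).pt_scl (inv_ne_zero m.2.2) x).symm

end UPa

theorem UP_thm {K : Type} [Field K] (p : ℕ) [FWp K p] [WB K] [AD K] : UP K where
  up {c Γ Λ _ ω S T r} E i θ hθ L x := by
    have key : ∀ F : Set (E.ι × {l // Γ.P l}), ∀ L x, (UPa.Z E F).mem L x → θ.q L x = 0 := by
      intro F
      refine Set.Finite.induction_on F (Set.toFinite F) (fun L x m => ?_) fun _ _ ih =>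
        UPa.step E p θ hθ _ _ ih
      obtain ⟨k, hk⟩ := E.cov L x.1 (E.sub L x m.1)
      obtain ⟨l, hl, h0⟩ := S.nz L x.1 (E.sub L x m.1)
      exact absurd ⟨hk, h0⟩ (m.2 (k, ⟨l, hl⟩) fun h => h)
    by_contra h
    exact h (key Set.univ L x ⟨(WB.mem θ.toPre h).2, fun s hs => absurd trivial hs⟩)

end Pool.Agent.Lib.MP_557161_ag.HG.HN
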