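import Pool.Agent.Lib.MP_557161_ag.HN.StW
import Pool.Agent.Lib.MP_557161_ag.HG.FB3

/-!
Atlases of weighted quotients and morphisms between them.
-/

namespace Pool.Agent.Lib.MP_557161_ag.HG.HN

open Pool.Agent.Lib.MP_557161_ag.DL

namespace Wa

variable {K : Type} [Field K] {c d : Cd} {Γ : Wt c} {Δ : Wt d} {B : Amb K}

/-- Every representative of the reduction is the reduction of a representative. -/
lemma lift_of_red {M : Fld K} {O : Pl M} {x : c.X M} {y : c.X O.res}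
    (e : (Γ.amb K).red O (Γ.pt x) = Γ.pt y) (h : Γ.nz y) :
    ∃ a : M, a ≠ 0 ∧ c.lift (Rel.ofPl O).r (Γ.scl a x) y := by
  obtain ⟨i, x', -, i0, l, h', e'⟩ := Γ.qred_nz e h
  obtain ⟨b, b0, rfl⟩ := (Γ.pt_eq h').1 e'
  obtain ⟨a, ha, rfl⟩ := O.rd_surj b
  refine ⟨a * (c.co x i)⁻¹, mul_ne_zero ((O.rd_ne_zero_iff ha).1 b0).1 (inv_ne_zero i0), ?_⟩
  rw [← Γ.scl_scl]
  exact Γ.lift_scl (R := Rel.ofPl O) ⟨ha, rfl⟩ b0 l

lemma out_eq (S : QS K Γ) {β : Type} {L : Fld K} (F : c.X L → β)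
    (h : ∀ (a : L) (x : c.X L), a ≠ 0 → S.mem L x → F (Γ.scl a x) = F x) {x : c.X L}
    (m : S.mem L x) : F (Quotient.out (Γ.pt x)) = F x := by
  obtain ⟨a, a0, e⟩ := (Γ.pt_eq (S.nz L x m)).1 (Quotient.out_eq (Γ.pt x)).symm
  rw [e, h a x a0 m]

/-- An invariant map defines a morphism on the quotient. -/
lemma desc (S : QS K Γ) (Z : Sp B) (F : ∀ L : Fld K, c.X L → B.pt L)
    (inv : ∀ (L : Fld K) (a : L) (x : c.X L), a ≠ 0 → S.mem L x → F L (Γ.scl a x) = F L x)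
    (mem : ∀ (L : Fld K) (x : c.X L), S.mem L x → Z.mem (F L x))
    (nat : ∀ (L L' : Fld K) (ι : L →ₐ[K] L') (x : c.X L), S.mem L x →
      F L' (c.map ι x) = B.map ι (F L x))
    (cont : ∀ (M : Fld K) (O : Pl M) (x : c.X M) (x' : c.X O.res), S.mem M x → S.mem O.res x' →
      c.lift (Rel.ofPl O).r x x' → F O.res x' = B.red O (F M x)) :
    ∃ m : Mor S.sp Z, ∀ (L : Fld K) (x : c.X L), S.mem L x → m.f (L := L) (Γ.pt x) = F L x := by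
  have o : ∀ (L : Fld K) (x : c.X L), S.mem L x → F L (Quotient.out (Γ.pt x)) = F L x :=
    fun L x m => out_eq S (F L) (inv L) m
  refine ⟨⟨fun {L} E => F L (Quotient.out E), ?_, ?_, ?_⟩, o⟩
  · rintro L _ ⟨x, m, rfl⟩
    exact o L x m ▸ mem L x m
  · rintro L L' ι _ ⟨x, m, rfl⟩
    exact (o L' _ ((S.S.map_iff ι x).2 m)).trans ((nat L L' ι x m).trans (by rw [o L x m]))
  · rintro M O _ - ⟨x, m, rfl⟩ ⟨y, m', e⟩
    obtain ⟨a, a0, l⟩ := lift_of_red e.symm (S.nz _ y m')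
    rw [← e, o _ y m', o _ x m, ← inv M a x a0 m]
    exact cont M O _ y (S.inv M a x a0 m) m' l

lemma lc (S : QS K Γ) : LC S.sp := by
  rintro M O O' _ - - ⟨x, m, rfl⟩ ⟨z, m'', e⟩
  obtain ⟨y, e'⟩ := Γ.pt_surj ((Γ.amb K).red O (Γ.pt x))
  rw [← e'] at e ⊢
  obtain ⟨b, b0, l⟩ := lift_of_red e.symm (S.nz _ z m'')
  obtain ⟨a, a0, l'⟩ := lift_of_red (e'.symm.trans (Γ.pt_scl b0 y).symm)
    (Γ.nz_lift l (S.nz _ z m''))
  exact ⟨_, S.S.mid l' l (S.inv M a x a0 m) m'', Γ.pt_scl b0 y⟩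

lemma morA {S : QS K Γ} {T : ASp K d} {g : ∀ L : Fld K, d.X L → c.X L} (h : Mp T S.S g) :
    ∃ m : Mor T.sp S.sp,
      (∀ (L : Fld K) (x : d.X L), m.f (L := L) (some x) = Γ.pt (g L x)) ∧
      (ProA T S g → m.Proper) := by
  refine ⟨⟨fun {L} y => Γ.pt (Option.elim y (c.mk' fun _ => 0) (g L)), ?_, ?_, ?_⟩,
    fun _ _ => rfl, ?_⟩
  · rintro L _ ⟨x, rfl, m⟩
    exact ⟨_, h.mem L x m, rfl⟩
  · rintro L L' ι _ ⟨x, rfl, m⟩
    exact congrArg Γ.pt (h.reg.nat ι m)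
  · rintro M O _ - ⟨x, rfl, m⟩ ⟨x', e, m'⟩
    rw [e]
    exact (Γ.qred_eq (h.reg _ m m' (Cd.lift_of_red e)) (S.nz _ _ (h.mem _ x' m'))).symm
  · rintro hp M O _ hO ⟨x, rfl, m⟩ ⟨z, m', e⟩
    obtain ⟨a, a0, l⟩ := lift_of_red e.symm (S.nz _ z m')
    obtain ⟨x', h1, h2⟩ := hp M O x a z hO m a0 m' l
    exact ⟨x', Cd.red_some h2, h1⟩

lemma mor {S : QS K Γ} {T : QS K Δ} {f : ∀ L : Fld K, c.X L → d.X L} (h : EqM S T f) :
    ∃ m : Mor S.sp T.sp,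
      (∀ (L : Fld K) (x : c.X L), S.mem L x → m.f (L := L) (Γ.pt x) = Δ.pt (f L x)) ∧
      (Pro S.S T.S f → m.Proper) := by
  obtain ⟨m, hm⟩ := desc S T.sp (fun L x => Δ.pt (f L x))
    (fun L a x a0 m => by rw [h.eqv L a x a0 m, Δ.pt_scl a0])
    (fun L x m => ⟨_, h.mp.mem L x m, rfl⟩)
    (fun L L' ι x m => congrArg Δ.pt (h.mp.reg.nat ι m))
    fun M O x x' m m' l => (Δ.qred_eq (h.mp.reg _ m m' l) (T.nz _ _ (h.mp.mem _ x' m'))).symm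
  refine ⟨m, hm, ?_⟩
  rintro hp M O _ hO ⟨x, hx, rfl⟩ ⟨z, m', e⟩
  rw [hm M x hx] at e
  obtain ⟨a, a0, l⟩ := lift_of_red e.symm (T.nz _ z m')
  rw [← h.eqv M a x a0 hx] at l
  obtain ⟨x', h1, h2⟩ := hp M O _ z hO (S.inv M a x a0 hx) m' l
  exact ⟨x', h1, (Γ.red_pt a0 h2 (S.nz _ x' h1)).symm⟩

lemma line (S : QS K Γ) {σ : Type} [Finite σ] (k : ℤ) (f : ∀ L : Fld K, c.X L → σ → L)
    (h : ∀ i, Hom S k fun L x => f L x i) (h0 : ∀ L x, S.mem L x → f L x ≠ 0) :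
    ∃ m : Mor S.sp (Lines K σ),
      ∀ (L : Fld K) (x : c.X L), S.mem L x → m.f (L := L) (Γ.pt x) = Submodule.span L {f L x} := by
  refine desc S (Lines K σ) (fun L x => Submodule.span L {f L x}) (fun L a x a0 m => ?_)
    (fun L x m => ⟨_, h0 L x m, rfl⟩) (fun L L' ι x m => ?_) fun M O x x' m m' l => ?_
  · rw [show f L (Γ.scl a x) = a ^ k • f L x from funext fun i => (h i).hom L a x a0 m]
    exact Submodule.span_singleton_smul_eq (zpow_ne_zero k a0).isUnit _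
  · rw [show f L' (c.map ι x) = mapV ι.toRingHom (f L x) from funext fun i => (h i).reg.nat ι m]
    exact (smap_single _ _).symm
  · have e : rdV O (f M x) = f O.res x' := funext fun i => ((h i).reg _ m m' l).2
    rw [← e]
    exact (sred_single (fun i => ((h i).reg _ m m' l).1) (e ▸ h0 _ x' m')).symm

/-- The points with a nonzero coordinate. -/
def chU (S : QS K Γ) (i : c.ι) : QS K Γ :=
  S.sub (S.S.opn (fun _ x => c.co x i ≠ 0) fun _ _ _ _ _ _ _ e h =>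
    Rel.ne_zero ((c.lift_iff _ _ _).1 e i) h) (fun _ _ m => m.1) fun L a x a0 m =>
      ⟨S.inv L a x a0 m.1, (Γ.co_scl a x i).trans_ne (mul_ne_zero (zpow_ne_zero _ a0) m.2)⟩

/-- The normalised points. -/
def chS (S : QS K Γ) (i : c.ι) : ASp K c :=
  S.S.cl (fun _ x => c.co x i = 1) fun _ _ R _ _ _ _ e h =>
    Rel.eq ((c.lift_iff _ _ _).1 e i) R.one h

lemma chart (S : QS K Γ) {i : c.ι} (hi : Γ.P i) : ∃ C : Chrt S.sp, C.U = (chU S i).sp := by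
  obtain ⟨f, hf⟩ := desc (chU S i) (chS S i).sp (fun L x => some (Γ.scl (c.co x i)⁻¹ x))
    (fun L a x a0 m => by
      rw [Γ.scl_scl, Γ.co_scl, Γ.one i hi, zpow_one, mul_inv, mul_right_comm, inv_mul_cancel₀ a0,
        one_mul])
    (fun L x m => ⟨_, rfl, S.inv L _ x (inv_ne_zero m.2) m.1, (Γ.co_scl _ x i).trans (by
      rw [Γ.one i hi, zpow_one, inv_mul_cancel₀ m.2])⟩)
    (fun L L' ι x m => congrArg some (by
      rw [c.co_map, ← map_inv₀]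
      exact (Γ.map_scl ι.toRingHom _ x).symm))
    fun M O x x' m m' l => (Cd.red_some (Γ.lift_scl
      ((Rel.ofPl O).inv ((c.lift_iff _ _ _).1 l i) m'.2) (inv_ne_zero m'.2) l)).symm
  have hm : ∀ (L : Fld K) (x : c.X L), (chS S i).mem L x → (chU S i).mem L x := fun L x m =>
    ⟨m.1, fun e => one_ne_zero (m.2.symm.trans e)⟩
  obtain ⟨g, hg, -⟩ := morA (S := chU S i) (T := chS S i) (g := fun _ x => x) ⟨Reg.id _, hm⟩
  refine ⟨⟨(chU S i).sp, ⟨?_, ?_⟩, c, (chS S i).sp, FB3p.lc_sp _, FB3p.ne_sp _, f, g, ?_, ?_⟩, rfl⟩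
  · rintro L _ ⟨x, m, rfl⟩
    exact ⟨x, m.1, rfl⟩
  · rintro M O _ - ⟨x, m, rfl⟩ ⟨y, m', e⟩
    obtain ⟨a, a0, l⟩ := lift_of_red e.symm (S.nz _ y m'.1)
    exact ⟨_, ⟨S.inv M a x a0 m, Rel.ne_zero ((c.lift_iff _ _ _).1 l i) m'.2⟩, Γ.pt_scl a0 x⟩
  · rintro L _ ⟨x, m, rfl⟩
    rw [hf L x m, hg]
    exact Γ.pt_scl (inv_ne_zero m.2) x
  · rintro L _ ⟨x, rfl, m⟩
    rw [hg, hf L x (hm L x m), show c.co x i = 1 from m.2, inv_one, Γ.scl_one]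

lemma atl (S : QS K Γ) : Atl S.sp := by
  choose C hC using fun i : {i // Γ.P i} => chart S i.2
  refine FB3p.atl_of (lc S) C ?_
  rintro L _ ⟨x, m, rfl⟩
  obtain ⟨i, hi, i0⟩ := S.nz L x m
  refine ⟨⟨i, hi⟩, ?_⟩
  rw [hC]
  exact ⟨x, ⟨m, i0⟩, rfl⟩

end Wa

theorem WA_thm {K : Type} [Field K] : WA K where
  atl := Wa.atl
  mor := Wa.mor
  morA := Wa.morA
  line := Wa.line

end Pool.Agent.Lib.MP_557161_ag.HG.HN
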