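import Pool.Agent.Lib.MP_557161_ag.HN.StW
import Pool.Agent.Lib.MP_557161_ag.HG.YK

/-!
The intersection with the divisor of a homogeneous function on a weighted quotient.
-/

namespace Pool.Agent.Lib.MP_557161_ag.HG.HN

open Pool.Agent.Lib.MP_557161_ag.DL Submodule

namespace WCp

variable {K : Type} [Field K] {c : Cd} {Γ : Wt c} {S : QS K Γ} {k : ℤ}
  {s : ∀ L : Fld K, c.X L → L} {L : Fld K}

lemma pp_scl (a : L) (x : c.X L) : Γ.pp (Γ.scl a x) = a • Γ.pp x := funext fun i => by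
  rw [Wt.pp, Γ.co_scl, Γ.one _ i.2, zpow_one]
  rfl

lemma pp_ne {x : c.X L} (m : S.mem L x) : Γ.pp x ≠ 0 := fun e =>
  let ⟨i, hi, h⟩ := S.nz L x m
  h (congrFun e ⟨i, hi⟩)

lemma pp_hom (S : QS K Γ) (i : {i // Γ.P i}) : Hom S 1 fun _ x => Γ.pp x i where
  reg _ _ _ _ _ _ _ e := (c.lift_iff _ _ _).1 e i.1
  hom _ a x _ _ := by rw [pp_scl, zpow_one]; rfl

open Classical in
/-- The value of `s` at the representative with the given homogeneous coordinates. -/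
noncomputable def sv (Γ : Wt c) (s : ∀ L : Fld K, c.X L → L) (L : Fld K) (E : (Γ.amb K).pt L)
    (v : Unit → {i // Γ.P i} → L) : L :=
  if h : ∃ y, Γ.pt y = E ∧ Γ.pp y = v () then s L h.choose else 0

lemma sv_eq {y : c.X L} (m : S.mem L y) {v : Unit → {i // Γ.P i} → L} (e : Γ.pp y = v ()) :
    sv Γ s L (Γ.pt y) v = s L y := by
  have h : ∃ z, Γ.pt z = Γ.pt y ∧ Γ.pp z = v () := ⟨y, rfl, e⟩
  obtain ⟨a, -, h2⟩ := (Γ.pt_eq (S.nz L y m)).1 h.choose_spec.1.symm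
  have h3 := h.choose_spec.2
  rw [h2, pp_scl, ← e] at h3
  rw [sv, dif_pos h, h2, smul_left_injective L (pp_ne m) (h3.trans (one_smul _ _).symm),
    Γ.scl_one]

lemma rep {l : Mor S.sp (Lines K {i // Γ.P i})}
    (hl : ∀ (L : Fld K) (x : c.X L), S.mem L x → l.f (L := L) (Γ.pt x) = span L {Γ.pp x})
    {E : (Γ.amb K).pt L} (m : S.sp.mem E) {v : {i // Γ.P i} → L} (h0 : v ≠ 0)
    (e : l.f E = span L {v}) : ∃ y, S.mem L y ∧ Γ.pt y = E ∧ Γ.pp y = v := by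
  obtain ⟨x, m, rfl⟩ := m
  have k : span L {Γ.pp x} = span L {v} := (hl L x m).symm.trans e
  obtain ⟨a, rfl⟩ := mem_span_singleton.1 (k.ge (mem_span_singleton_self v))
  have := left_ne_zero_of_smul h0
  exact ⟨_, S.inv L a x this m, Γ.pt_scl this x, pp_scl a x⟩

lemma lift_prim {O : Pl L} {y : c.X L} (m : S.sp.mem ((Γ.amb K).red O (Γ.pt y)))
    (h1 : IntV O (Γ.pp y)) (h2 : rdV O (Γ.pp y) ≠ 0) :
    ∃ y', S.mem O.res y' ∧ c.lift (Rel.ofPl O).r y y' := by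
  obtain ⟨z, m, e⟩ := m
  obtain ⟨i, x', hi, i0, e1, -, e2⟩ := Γ.qred_nz e.symm (S.nz _ z m)
  obtain ⟨l, hl⟩ := Function.ne_iff.1 h2
  have e3 := (c.lift_iff _ _ _).1 e1 l.1
  have r : (Rel.ofPl O).r (c.co y i) (O.rd (c.co y i)) := ⟨h1 ⟨i, hi⟩, rfl⟩
  have e4 := (Rel.ofPl O).mul r e3
  rw [Γ.co_scl, Γ.one _ l.2, zpow_one, mul_inv_cancel_left₀ i0] at e4
  have n : O.rd (c.co y i) ≠ 0 := left_ne_zero_of_mul (e4.2.symm.trans_ne hl)
  have e5 := Γ.lift_scl r n e1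
  rw [Γ.scl_scl, mul_inv_cancel₀ i0, Γ.scl_one] at e5
  exact ⟨_, S.inv _ _ _ n (S.mem_of_pt m e2.symm), e5⟩

/-- The line bundle of the functions of weight `k`. -/
noncomputable def lb (h : Hom S k s) {l : Mor S.sp (Lines K {i // Γ.P i})}
    (hl : ∀ (L : Fld K) (x : c.X L), S.mem L x → l.f (L := L) (Γ.pt x) = span L {Γ.pp x}) :
    LB S.sp (S.zer h).sp where
  ι := Unit
  σ _ := {i // Γ.P i}
  l _ := l
  c _ := k
  s := sv Γ s
  hom L E v u m₀ u0 e₀ := by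
    obtain ⟨y, m, rfl, e⟩ := rep hl m₀ (e₀ ()).1 (e₀ ()).2
    rw [sv_eq m e, ← Γ.pt_scl (u0 ()), sv_eq (S.inv L _ y (u0 ()) m) (by rw [pp_scl, e]),
      h.hom L _ y (u0 ()) m, Fintype.prod_unique]
  nat ι E v m₀ e₀ := by
    obtain ⟨y, m, rfl, e⟩ := rep hl m₀ (e₀ ()).1 (e₀ ()).2
    rw [sv_eq m e]
    exact (sv_eq (v := fun a => mapV ι (v a)) ((S.S.map_iff ι y).2 m)
      (funext fun i => (c.co_map _ _ _).trans (congrArg ι (congrFun e i)))).trans (h.reg.nat ι m)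
  cont O E v _ m₀ m' e₀ := by
    obtain ⟨h1, h2, h3⟩ := e₀ ()
    obtain ⟨y, m, rfl, e⟩ := rep hl m₀ (fun e => h2 (funext fun i => by
      rw [e]; exact O.rd_zero)) h3
    obtain ⟨y', k1, k2⟩ := lift_prim m' (e ▸ h1) (e ▸ h2)
    rw [sv_eq m e, Γ.red_pt one_ne_zero ((Γ.scl_one y).symm ▸ k2) (S.nz _ _ k1), sv_eq k1
      (v := fun a => rdV O (v a)) (funext fun i =>
        ((c.lift_iff _ _ _).1 k2 i.1).2.symm.trans (congrArg O.rd (congrFun e i)))]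
    exact h.reg _ m k1 k2
  sub _ _ := fun ⟨x, m, e⟩ => ⟨x, m.1, e⟩
  zero L E v m₀ e₀ := by
    obtain ⟨y, m, rfl, e⟩ := rep hl m₀ (e₀ ()).1 (e₀ ()).2
    rw [sv_eq m e, QS.sp_pt]
    exact (and_iff_right m).symm

end WCp

open WCp YKp in
theorem WC_thm {K : Type} [Field K] [FW0 K] [WA K] [WB K] : WC K where
  cart {c Γ S k s} h j φ := by
    obtain ⟨l, hl⟩ := WA.line S 1 (fun _ x => Γ.pp x) (pp_hom S) fun _ _ => pp_ne
    obtain ⟨ψ, hψ⟩ := FB5.cartL (WA.atl S) (lb h hl) φ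
    refine ⟨ψ, fun M x τ g m τ0 e => ?_⟩
    have := hψ M (Γ.pt x) (fun _ => Γ.pp x) τ g (S.sp_pt.2 m) (fun _ => ⟨pp_ne m, hl M x m⟩) τ0
      fun n => (e fun e => n ((S.zer h).sp_pt.2 ⟨m, e⟩)).trans
        (sv_eq (v := fun _ => Γ.pp x) m rfl).symm
    simpa only [lb, Fintype.sum_unique, Wt.ow] using this
  kills {c Γ S k s j D φ ψ} h q hq hs hk L L₁ L₂ ι₁ ι₂ w k1 k2 k3 := by
    classical
    by_contra h0
    obtain ⟨g, m⟩ := WB.mem ψ h0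
    have hP : ∀ i, Γ.P i → q i := fun i hi => by_contra fun n =>
      one_ne_zero ((Γ.one i hi).symm.trans (hq i n))
    obtain ⟨t, t0, ht⟩ : ∃ t, ι₁ t ≠ 0 ∧ (s L w ≠ 0 → ι₁ t = s L w) := by
      obtain ⟨t, ht⟩ := hs L ι₁.fieldRange w m k1
      by_cases e : s L w = 0
      exacts [⟨1, by simp, fun n => (n e).elim⟩, ⟨t, ht ▸ e, fun _ => ht⟩]
    refine h0 (hasS_zero (h L w _ g m t0 ht) fun O => ?_)
    by_cases hO : Pl.Triv ι₁ O.1
    · choose x hx using fun i : {i // Γ.P i} => k1 i.1 (hP _ i.2)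
      rw [Wt.ow, ← show mapV ι₁.toRingHom x = Γ.pp w from funext hx, ordv_triv hO O.2.1,
        Pl.ord_eq_zero_of_mem t0 (hO t) (map_inv₀ ι₁ t ▸ hO _)]
      simp
    · refine mul_eq_zero_of_right _ (by_contra fun n => n ?_)
      obtain ⟨i, x', hi, -, e, -, e'⟩ := WB.r_ne φ n
      obtain ⟨a, ha⟩ := k1 i (hP i hi)
      obtain ⟨L₃, ι₃, k4, k5, k6⟩ := Spl.red (w := Γ.scl (c.co w i)⁻¹ w) ⟨L₂, ι₂, fun l hl => by
        obtain ⟨b, hb⟩ := k1 l hl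
        exact ⟨a⁻¹ ^ Γ.ω l * b, by rw [Γ.co_scl, map_mul, map_zpow₀, map_inv₀, ha, hb]⟩,
        fun l hl => by simpa only [Γ.co_scl, hq l hl, zpow_zero, one_mul] using k2 l hl, k3⟩ hO
      rw [e', ← ((Cd.lift_pl O.1).1 e).2]
      exact hk _ _ _ _ ι₃ _ k4 k5 k6

end Pool.Agent.Lib.MP_557161_ag.HG.HN
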