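import Pool.Agent.Lib.MP_557161_ag.HG.All1
import Pool.Agent.Lib.MP_557161_ag.HN.A1
import Pool.Agent.Lib.MP_557161_ag.HN.A2a
import Pool.Agent.Lib.MP_557161_ag.HN.A2b
import Pool.Agent.Lib.MP_557161_ag.HN.A4
import Pool.Agent.Lib.MP_557161_ag.HN.A5a
import Pool.Agent.Lib.MP_557161_ag.HN.A5
import Pool.Agent.Lib.MP_557161_ag.HN.A6
import Pool.Agent.Lib.MP_557161_ag.HN.WA
import Pool.Agent.Lib.MP_557161_ag.HN.WB
import Pool.Agent.Lib.MP_557161_ag.HN.WC
import Pool.Agent.Lib.MP_557161_ag.HN.WN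
import Pool.Agent.Lib.MP_557161_ag.HN.AD
import Pool.Agent.Lib.MP_557161_ag.HN.DN
import Pool.Agent.Lib.MP_557161_ag.HN.UP
import Pool.Agent.Lib.MP_557161_ag.HN.SE
import Pool.Agent.Lib.MP_557161_ag.HN.KE
import Pool.Agent.Lib.MP_557161_ag.HN.KN
import Pool.Agent.Lib.MP_557161_ag.HN.WG
import Pool.Agent.Lib.MP_557161_ag.HN.HT

/-!
The top exterior power of the motive of the double cover and the tools on quotients, assembled.
-/

namespace Pool.Agent.Lib.MP_557161_ag.HG.HN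

open Pool.Agent.Lib.MP_557161_ag.DL

variable {K : Type} [Field K] [Base K] {dd : ℕ}

theorem ALT_thm : ALT K dd := by
  obtain ⟨p, hp, _⟩ := Base.char (K := K)
  have : Fact p.Prime := ⟨hp⟩
  have : FW0 K := FW0_thm
  have : FWp K p := FWp_thm
  have : MT K p := MT_all
  have : TV K p := TV_thm
  have : A3 K := A3_thm
  have : A5a K p dd := A5a_thm
  refine ⟨fun G κ _ _ h => ?_⟩
  obtain ⟨H, h1, h2⟩ := (A1_thm (K := K)).red G
  exact h2 κ ((A2a_thm (p := p)).red H κ (A2b_thm.red H κ (A4_thm.red H κ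
    (A5_thm.red H κ (A6_thm.van H κ (h.trans h1.symm))))))

theorem tools : WA K ∧ WB K ∧ WC K ∧ WN K ∧ AD K ∧ DN K ∧ UP K ∧ SE K ∧ KE K ∧ KN K ∧ WG K ∧
    HT K := by
  obtain ⟨p, hp, _⟩ := Base.char (K := K)
  have : Fact p.Prime := ⟨hp⟩
  have : FW0 K := FW0_thm
  have : FWp K p := FWp_thm
  have wa : WA K := WA_thm
  have wb : WB K := WB_thm
  have wc : WC K := WC_thm
  have ad : AD K := AD_thm
  have dn : DN K := DN_thm
  have up : UP K := UP_thm p
  have se : SE K := SE_thm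
  have wg : WG K := WG_thm
  exact ⟨wa, wb, wc, WN_thm, ad, dn, up, se, KE_thm, KN_thm, wg, HT_thm⟩

end Pool.Agent.Lib.MP_557161_ag.HG.HN
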