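import Pool.Agent.Lib.MP_557161_ag.DL.Defs2

/-!
The double cover `z ^ 2 = F (x)` of a projective space in its Veronese embedding.
-/

namespace Pool.Agent.Lib.MP_557161_ag.HG.HN

open MvPolynomial

/-- The coordinates of the embedding: `z` and the monomials of degree `e` in `x`. -/
noncomputable def nuP (k : Type) [Field k] {σ : Type} (e : ℕ) (s : Option (Fin e → σ)) :
    MvPolynomial (Option σ) k :=
  s.elim (X none) fun m => ∏ i, X (some (m i))

/-- The homogeneous ideal of the double cover `z ^ 2 = F (x)`, `F` a form of degree `2 e`: the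
kernel of `k[y] → k[x, z] / (z ^ 2 - F)`. -/
noncomputable def dpI {k : Type} [Field k] {σ : Type} (e : ℕ) (F : MvPolynomial σ k) :
    Ideal (MvPolynomial (Option (Fin e → σ)) k) :=
  (Ideal.span {X none ^ 2 - rename some F}).comap (aeval (R := k) (nuP k e))

end Pool.Agent.Lib.MP_557161_ag.HG.HN
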