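import Pool.Agent.Lib.MP_557161_ag.HG.StZ
import Pool.Agent.Lib.MP_557161_ag.HG.St4

/-!
Double covers of projective spaces of even dimension, and the statement that links the two halves
of the proof.
-/

namespace Pool.Agent.Lib.MP_557161_ag.HG.HN

open Pool.Agent.Lib.MP_557161_ag.DL MvPolynomial

variable {K : Type} [Field K] {dd : ℕ}

/-- The indices of the homogeneous coordinates of the projective space of dimension `2 dd`. -/
abbrev Vr (dd : ℕ) : Type := Fin (2 * dd + 1)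

/-- The branch polynomial of degree `u + 1`. -/
noncomputable def brF {R : Type} [CommRing R] (u : ℕ) (w : Vr dd → ℕ) (lam : R) :
    MvPolynomial (Vr dd) R :=
  ∑ i, X i ^ u * X (i + 1) + C lam * ∏ i, X i ^ w i

/-- The data of a double cover in a hypergeometric family. -/
structure GD (K : Type) [Field K] (dd : ℕ) where
  e : ℕ
  u : ℕ
  n : ℕ
  a : Vr dd → ℕ
  w : Vr dd → ℕ
  lam : K
  pos : 0 < dd
  hu : u + 1 = 2 * e
  hn : n * (u + 1) = u ^ (2 * dd + 1) + 1
  hw : ∀ i, n * w i = u * a i + a (i - 1)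
  ev : ∀ i, Even (w i)
  sw : ∑ i, w i = 2 * e
  cop : Finset.univ.gcd a = 1
  ch : ((2 * e * n * ∏ i, a i : ℕ) : K) ≠ 0
  l0 : lam ≠ 0
  disc : lam ^ n * ∏ i, (a i : K) ^ a i ≠ (-(n : K)) ^ n

/-- The shape of points `(x, z)`. -/
abbrev xz (dd : ℕ) : Cd := (Cd.vec (Vr dd)).prod .one

/-- The involution `z ↦ -z`. -/
def ngz (L : Fld K) (x : (xz dd).X L) : (xz dd).X L := (x.1, -x.2)

/-- The part of the double cover over the torus. -/
noncomputable def GD.UU (G : GD K dd) : ASp K (xz dd) :=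
  ((ASp.univ K (xz dd)).opn (fun _ x => ∀ i, x.1 i ≠ 0)
    fun _ _ _ _ _ _ _ e h i => Rel.ne_zero (e.1 i) (h i)).cl
    (fun _ x => x.1 0 = 1 ∧ x.2 ^ 2 = aeval x.1 (brF G.u G.w G.lam))
    fun _ _ R _ _ _ _ e h => ⟨Rel.eq (e.1 0) R.one h.1, Rel.eq (Rel.pow e.2 2) (Rel.aeval e.1 _) h.2⟩

/-- The top exterior power of the motive of the double cover is a sum of products. -/
class ALT (K : Type) [Field K] (dd : ℕ) : Prop where
  alt : ∀ (G : GD K dd) (κ : Type) [Fintype κ] [DecidableEq κ], Nat.card κ = G.n →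
    AltS G.UU ngz κ

end Pool.Agent.Lib.MP_557161_ag.HG.HN
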