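import Pool.Agent.Lib.MP_557161_ag.HN.WQ
import Pool.Agent.Lib.MP_557161_ag.HG.StY

/-!
Functionals on weighted quotients: Cartier divisors, affine bundles, kernels of unimodular rows.
-/

namespace Pool.Agent.Lib.MP_557161_ag.HG

open Pool.Agent.Lib.MP_557161_ag.DL

variable {K : Type} [Field K] {c : Cd} {Γ : HN.Wt c} {j : ℕ} {P : Sp (Γ.amb K)}

/-- The value at the class of a point. -/
noncomputable abbrev Pre.q (θ : Pre j P) (L : Fld K) (x : c.X L) : ℂ := θ.v L (Γ.pt x)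

/-- The value at the reduction of the class of a point. -/
noncomputable abbrev Pre.r (θ : Pre j P) {M : Fld K} (O : Pl M) (x : c.X M) : ℂ :=
  θ.v O.res ((Γ.amb K).red O (Γ.pt x))

end Pool.Agent.Lib.MP_557161_ag.HG

namespace Pool.Agent.Lib.MP_557161_ag.HG.HN

open Pool.Agent.Lib.MP_557161_ag.DL

section Defs

variable {K : Type} [Field K] {c d : Cd} {Γ : Wt c} {Δ : Wt d}

/-- Functionals on a quotient. -/
abbrev QF (j : ℕ) (S : QS K Γ) := Fe j S.sp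

/-- Homogeneous regular functions of weight `k`. -/
structure Hom (S : QS K Γ) (k : ℤ) (s : ∀ L : Fld K, c.X L → L) : Prop where
  reg : Reg S.S .one s
  hom : ∀ (L : Fld K) (a : L) (x : c.X L), a ≠ 0 → S.mem L x → s L (Γ.scl a x) = a ^ k * s L x

/-- Equivariant regular maps. -/
structure EqM (S : QS K Γ) (T : QS K Δ) (f : ∀ L : Fld K, c.X L → d.X L) : Prop where
  mp : Mp S.S T.S f
  eqv : ∀ (L : Fld K) (a : L) (x : c.X L), a ≠ 0 → S.mem L x → f L (Γ.scl a x) = Δ.scl a (f L x)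

/-- Properness of a map from an affine space to a quotient. -/
def ProA (T : ASp K d) (S : QS K Γ) (g : ∀ L : Fld K, d.X L → c.X L) : Prop :=
  ∀ (M : Fld K) (O : Pl M) (x : d.X M) (a : M) (z : c.X O.res), O.IsDVR → T.mem M x → a ≠ 0 →
    S.mem O.res z → c.lift (Rel.ofPl O).r (Γ.scl a (g M x)) z →
    ∃ x', T.mem O.res x' ∧ d.lift (Rel.ofPl O).r x x'

/-- Properness of an invariant map from a quotient to an affine space. -/
def ProB (S : QS K Γ) (T : ASp K d) (g : ∀ L : Fld K, c.X L → d.X L) : Prop :=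
  ∀ (M : Fld K) (O : Pl M) (x : c.X M) (z : d.X O.res), O.IsDVR → S.mem M x → T.mem O.res z →
    d.lift (Rel.ofPl O).r (g M x) z →
    ∃ (a : M) (x' : c.X O.res), a ≠ 0 ∧ S.mem O.res x' ∧ c.lift (Rel.ofPl O).r (Γ.scl a x) x'

/-- The function `s` only depends on the coordinates in `q`. -/
def LocF (S : QS K Γ) (q : c.ι → Prop) (s : ∀ L : Fld K, c.X L → L) : Prop :=
  ∀ (L : Fld K) (F : IntermediateField K L) (x : c.X L), S.mem L x → (∀ i, q i → c.co x i ∈ F) →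
    s L x ∈ F

namespace QS

variable (S : QS K Γ)

/-- The product with a space of weight zero. -/
def pw (W : ASp K d) : QS K (Γ.prod (.triv d)) where
  S := S.S.prod W
  inv L a x h0 h := ⟨S.inv L a x.1 h0 h.1, h.2⟩
  nz L x h := (S.nz L x.1 h.1).elim fun i hi => ⟨Sum.inl i, hi⟩

/-- The product with an affine space. -/
def pu (Δ : Wt d) : QS K (Γ.prod Δ) where
  S := S.S.prod (.univ K d)
  inv L a x h0 h := ⟨S.inv L a x.1 h0 h.1, trivial⟩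
  nz L x h := (S.nz L x.1 h.1).elim fun i hi => ⟨Sum.inl i, hi⟩

/-- An invariant subspace. -/
def sub (T : ASp K c) (h : ∀ L x, T.mem L x → S.mem L x)
    (h' : ∀ (L : Fld K) (a : L) (x : c.X L), a ≠ 0 → T.mem L x → T.mem L (Γ.scl a x)) : QS K Γ :=
  ⟨T, h', fun L x m => S.nz L x (h L x m)⟩

/-- The zero set of a homogeneous function. -/
def zer {k : ℤ} {s : ∀ L : Fld K, c.X L → L} (h : Hom S k s) : QS K Γ :=
  S.sub (S.S.cl (fun L x => s L x = 0) fun _ _ R _ _ m m' e h0 => Rel.eq_zero (h.reg R m m' e) h0)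
    (fun _ _ m => m.1) fun L a x h0 m =>
      ⟨S.inv L a x h0 m.1, (h.hom L a x h0 m.1).trans (mul_eq_zero_of_right _ m.2)⟩

end QS

/-- `ψ` is the composition of the intersection with the divisor of the section `s` of weight `k`
and of `φ`. -/
def IsC (S : QS K Γ) (k : ℤ) (s : ∀ L : Fld K, c.X L → L) {j : ℕ} {D P : Sp (Γ.amb K)}
    (φ : Pre j D) (ψ : Pre (j + 1) P) : Prop :=
  ∀ (M : Fld K) (x : c.X M) (τ : M), Good (j + 1) M → S.mem M x → τ ≠ 0 →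
    (s M x ≠ 0 → τ = s M x) →
    HasS (fun O : Dv M j => (Γ.ow O.1 k τ x : ℂ) * φ.r O.1 x) (ψ.q M x)

variable {Λ : Type} [Fintype Λ] {ω : Λ → ℤ}

/-- `(b, p)` is a generic point of the fibre of dimension `r` of `T` over `b`. -/
structure GenA (T : QS K (Γ.prod (.vec ω))) (r j : ℕ) {L M : Fld K} (α : L →ₐ[K] M) (b : c.X L)
    (p : Λ → M) : Prop where
  gL : Good j L
  gM : Good (j + r) M
  top : gen α p = ⊤
  mem : T.mem M (c.map α b, p)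

/-- The values of `θ` at the generic points of the fibres are the values of `φ`. -/
def IsUp (T : QS K (Γ.prod (.vec ω))) (r j : ℕ) (φ : ∀ L : Fld K, c.X L → ℂ)
    (θ : ∀ L : Fld K, (c.prod (.vec Λ)).X L → ℂ) : Prop :=
  ∀ (L M : Fld K) (α : L →ₐ[K] M) (b : c.X L) (p : Λ → M), GenA T r j α b p →
    θ M (c.map α b, p) = φ L b

/-- `T` is a bundle of affine spaces of dimension `r` over `S`; on the chart `U i` the coordinates
`e i` are free and determine the others. -/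
structure AB (S : QS K Γ) (T : QS K (Γ.prod (.vec ω))) (r : ℕ) where
  sub : ∀ (L : Fld K) (x : (c.prod (.vec Λ)).X L), T.mem L x → S.mem L x.1
  ι : Type
  [fin : Finite ι]
  U : ι → QS K Γ
  usub : ∀ i L b, (U i).mem L b → S.mem L b
  opn : ∀ i ⦃M L : Fld K⦄ (R : Rel M L) ⦃b : c.X M⦄ ⦃b' : c.X L⦄, S.mem M b → (U i).mem L b' →
    c.lift R.r b b' → (U i).mem M b
  cov : ∀ L b, S.mem L b → ∃ i, (U i).mem L b
  κ : ι → Type
  [fκ : ∀ i, Finite (κ i)]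
  card : ∀ i, Nat.card (κ i) = r
  e : ∀ i, κ i → Λ
  τ : ∀ i (L : Fld K), c.X L → (κ i → L) → Λ → L
  reg : ∀ i, Reg ((U i).S.prod (.univ K (.vec (κ i)))) (.vec Λ) fun L x => τ i L x.1 x.2
  mem : ∀ i L b t, (U i).mem L b → T.mem L (b, τ i L b t)
  co : ∀ i L b t k, (U i).mem L b → τ i L b t (e i k) = t k
  uq : ∀ i L b p, (U i).mem L b → T.mem L (b, p) → p = τ i L b fun k => p (e i k)

attribute [instance] AB.fin AB.fκ

/-- The charts only depend on the coordinates in `q`. -/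
def AB.Loc {S : QS K Γ} {T : QS K (Γ.prod (.vec ω))} {r : ℕ} (E : AB S T r) (q : c.ι → Prop) :
    Prop :=
  ∀ i (L : Fld K) (F : IntermediateField K L) (b : c.X L) (t : E.κ i → L), (E.U i).mem L b →
    (∀ l, q l → c.co b l ∈ F) → (∀ k, t k ∈ F) → ∀ μ, E.τ i L b t μ ∈ F

/-- A unimodular row. -/
structure KB (S : QS K Γ) (Λ : Type) [Fintype Λ] (ω : Λ → ℤ) (γ : ℤ) where
  n : ∀ L : Fld K, c.X L → Λ → L
  hom : ∀ μ, Hom S (γ - ω μ) fun L b => n L b μ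
  uni : ∀ L b, S.mem L b → ∃ μ, n L b μ ≠ 0

/-- The linear form of the row. -/
lemma KB.lin {S : QS K Γ} {γ : ℤ} (k : KB S Λ ω γ) :
    Hom (S.pu (.vec ω)) γ fun L x => ∑ μ, k.n L x.1 μ * x.2 μ where
  reg _ _ R _ _ m m' e := Rel.sum _ fun μ _ => R.mul ((k.hom μ).reg R m.1 m'.1 e.1) (e.2 μ)
  hom L a x h0 m := by
    rw [Finset.mul_sum]
    refine Finset.sum_congr rfl fun μ _ => ?_
    rw [(k.hom μ).hom L a x.1 h0 m.1, zpow_sub₀ h0]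
    have := zpow_ne_zero (ω μ) h0
    show _ * (a ^ ω μ * x.2 μ) = _
    field_simp

/-- The kernel of the row. -/
def KB.tot {S : QS K Γ} {γ : ℤ} (k : KB S Λ ω γ) : QS K (Γ.prod (.vec ω)) :=
  (S.pu (.vec ω)).zer k.lin

end Defs

variable (K : Type) [Field K]

/-- Atlases and morphisms. -/
class WA : Prop where
  atl : ∀ {c : Cd} {Γ : Wt c} (S : QS K Γ), Atl S.sp
  mor : ∀ {c d : Cd} {Γ : Wt c} {Δ : Wt d} {S : QS K Γ} {T : QS K Δ}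
    {f : ∀ L : Fld K, c.X L → d.X L}, EqM S T f → ∃ m : Mor S.sp T.sp,
      (∀ (L : Fld K) (x : c.X L), S.mem L x → m.f (L := L) (Γ.pt x) = Δ.pt (f L x)) ∧
      (Pro S.S T.S f → m.Proper)
  morA : ∀ {c d : Cd} {Γ : Wt c} {S : QS K Γ} {T : ASp K d} {g : ∀ L : Fld K, d.X L → c.X L},
    Mp T S.S g → ∃ m : Mor T.sp S.sp,
      (∀ (L : Fld K) (x : d.X L), m.f (L := L) (some x) = Γ.pt (g L x)) ∧ (ProA T S g → m.Proper)
  line : ∀ {c : Cd} {Γ : Wt c} (S : QS K Γ) {σ : Type} [Finite σ] (k : ℤ)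
    (f : ∀ L : Fld K, c.X L → σ → L), (∀ i, Hom S k fun L x => f L x i) →
    (∀ L x, S.mem L x → f L x ≠ 0) → ∃ m : Mor S.sp (Lines K σ),
      ∀ (L : Fld K) (x : c.X L), S.mem L x → m.f (L := L) (Γ.pt x) = Submodule.span L {f L x}

/-- Basic operations on functionals on quotients. -/
class WB : Prop where
  mem : ∀ {c : Cd} {Γ : Wt c} {S : QS K Γ} {j : ℕ} (θ : Pre j S.sp) {L : Fld K} {x : c.X L},
    θ.q L x ≠ 0 → Good j L ∧ S.mem L x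
  low : ∀ {c : Cd} {Γ : Wt c} {P : Sp (Γ.amb K)} {j m : ℕ} (θ : Pre j P) {L : Fld K} {x : c.X L},
    c.Dm L x m → m < j → θ.q L x = 0
  r_eq : ∀ {c : Cd} {Γ : Wt c} {P : Sp (Γ.amb K)} {j : ℕ} (θ : Pre j P) {M : Fld K} {O : Pl M}
    {a : M} {x : c.X M} {x' : c.X O.res}, a ≠ 0 → c.lift (Rel.ofPl O).r (Γ.scl a x) x' → Γ.nz x' →
    θ.r O x = θ.q O.res x'
  r_ne : ∀ {c : Cd} {Γ : Wt c} {S : QS K Γ} {j : ℕ} (θ : Pre j S.sp) {M : Fld K} {O : Pl M}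
    {x : c.X M}, θ.r O x ≠ 0 → ∃ i x', Γ.P i ∧ c.co x i ≠ 0 ∧
      c.lift (Rel.ofPl O).r (Γ.scl (c.co x i)⁻¹ x) x' ∧ S.mem O.res x' ∧ θ.r O x = θ.q O.res x'
  prim : ∀ {c : Cd} (Γ : Wt c) {M : Fld K} (O : Pl M) {x : c.X M}, Γ.nz x →
    ∃ i, Γ.P i ∧ c.co x i ≠ 0 ∧ ∀ l, Γ.P l → c.co x l / c.co x i ∈ O.O
  ow_eq : ∀ {c : Cd} (Γ : Wt c) {M : Fld K} {O : Pl M} {a τ : M} {x : c.X M} (k : ℤ), O.IsDVR →
    a ≠ 0 → τ ≠ 0 → (∀ l, Γ.P l → a * c.co x l ∈ O.O) →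
    (∃ l, Γ.P l ∧ O.rd (a * c.co x l) ≠ 0) → Γ.ow O k τ x = O.ord (a ^ k * τ)
  pull : ∀ {c d : Cd} {Γ : Wt c} {Δ : Wt d} {S : QS K Γ} {T : QS K Δ}
    {f : ∀ L : Fld K, c.X L → d.X L}, EqM S T f → Pro S.S T.S f → ∀ {j : ℕ} (θ : QF j T),
    ∃ θ' : QF j S, ∀ L x, S.mem L x → θ'.q L x = θ.q L (f L x)
  pullA : ∀ {c d : Cd} {Γ : Wt c} {S : QS K Γ} {T : ASp K d} {g : ∀ L : Fld K, d.X L → c.X L},
    Mp T S.S g → ProA T S g → ∀ {j : ℕ} (θ : QF j S),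
    ∃ θ' : AF j T, ∀ L x, T.mem L x → θ'.a L x = θ.q L (g L x)
  pullB : ∀ {c d : Cd} {Γ : Wt c} {S : QS K Γ} {T : ASp K d} {g : ∀ L : Fld K, c.X L → d.X L},
    Mp S.S T g → (∀ (L : Fld K) (a : L) x, a ≠ 0 → S.mem L x → g L (Γ.scl a x) = g L x) →
    ProB S T g → ∀ {j : ℕ} (θ : AF j T),
    ∃ θ' : QF j S, ∀ L x, S.mem L x → θ'.q L x = θ.a L (g L x)
  lin : ∀ {A : Amb K} {P : Sp A} {j : ℕ} {α : Type} (s : Finset α) (a : α → ℂ) (θ : α → Fe j P),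
    ∃ Θ : Fe j P, ∀ L y, Θ.v L y = ∑ i ∈ s, a i * (θ i).v L y
  res : ∀ {A : Amb K} {P : Sp A} (U : Sp A) {j : ℕ} (θ : Fe j P),
    (∀ (L : Fld K) (y : A.pt L), U.mem y → P.mem y) → (∀ L y, θ.v L y ≠ 0 → U.mem y) →
    ∃ θ' : Fe j U, ∀ L y, θ'.v L y = θ.v L y
  ext : ∀ {A : Amb K} {P U : Sp A}, Opn U P → ∀ {j : ℕ} (θ : Fe j U),
    ∃ θ' : Fe j P, ∀ L y, θ'.v L y = θ.v L y
  opn : ∀ {c : Cd} {Γ : Wt c} {S S' : QS K Γ}, (∀ L x, S'.mem L x → S.mem L x) → AOpn S'.S S.S →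
    Opn S'.sp S.sp
  opnA : ∀ {c : Cd} {S S' : ASp K c}, (∀ L x, S'.mem L x → S.mem L x) → AOpn S' S →
    Opn S'.sp S.sp

/-- Intersection with a divisor. -/
class WC : Prop where
  cart : ∀ {c : Cd} {Γ : Wt c} {S : QS K Γ} {k : ℤ} {s : ∀ L : Fld K, c.X L → L} (h : Hom S k s)
    {j : ℕ} (φ : QF j (S.zer h)), ∃ ψ : QF (j + 1) S, IsC S k s φ.toPre ψ.toPre
  kills : ∀ {c : Cd} {Γ : Wt c} {S : QS K Γ} {k : ℤ} {s : ∀ L : Fld K, c.X L → L} {j : ℕ}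
    {D : QS K Γ} {φ : Pre j D.sp} {ψ : Pre (j + 1) S.sp}, IsC S k s φ ψ → ∀ q : c.ι → Prop,
    Γ.Ad q → LocF S q s → KlP c q j φ.q → KlP c q (j + 1) ψ.q

/-- Connected families. -/
class WN : Prop where
  conn : ∀ {c : Cd} {Γ : Wt c} {S : QS K Γ} {B : Amb K} (Z : Sp B) (Ω : ASp K .one)
    (γ δ : ∀ L : Fld K, (Cd.one.prod c).X L → c.X L), Mp (Ω.prod S.S) S.S γ →
    Mp (Ω.prod S.S) S.S δ →
    (∀ (L : Fld K) (t a : L) x, a ≠ 0 → Ω.mem L t → S.mem L x →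
      γ L (t, Γ.scl a x) = Γ.scl a (γ L (t, x)) ∧ δ L (t, Γ.scl a x) = Γ.scl a (δ L (t, x))) →
    (∀ (L : Fld K) (t : L) x, Ω.mem L t → S.mem L x → δ L (t, γ L (t, x)) = x) →
    (∀ (L : Fld K) (T : L), Transcendental K T → Ω.mem L T) → ∀ a b : K, Ω.mem (.base K) a →
    Ω.mem (.base K) b →
    (∀ {j : ℕ} (φ : Fe j (S.sp.prod Z)) (L : Fld K) (x : c.X L) (z : B.pt L), S.mem L x → Z.mem z →
      φ.v L (Γ.pt (γ L (algebraMap K L a, x)), z) = φ.v L (Γ.pt (γ L (algebraMap K L b, x)), z)) ∧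
    ∀ {j : ℕ} (φ : QF j S) (L : Fld K) (x : c.X L), S.mem L x →
      φ.q L (γ L (algebraMap K L a, x)) = φ.q L (γ L (algebraMap K L b, x))

/-- Generic points of affine bundles. -/
class AD : Prop where
  free : ∀ {c : Cd} {Γ : Wt c} {Λ : Type} [Fintype Λ] {ω : Λ → ℤ} {S : QS K Γ}
    {T : QS K (Γ.prod (.vec ω))} {r : ℕ} (E : AB S T r) {j : ℕ} {L M : Fld K} {α : L →ₐ[K] M}
    {b : c.X L} {p : Λ → M} (i : E.ι), (E.U i).mem L b →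
    (GenA T r j α b p ↔ T.mem M (c.map α b, p) ∧ Free j α fun k => p (E.e i k))
  ex : ∀ {c : Cd} {Γ : Wt c} {Λ : Type} [Fintype Λ] {ω : Λ → ℤ} {S : QS K Γ}
    {T : QS K (Γ.prod (.vec ω))} {r : ℕ}, AB S T r → ∀ {j : ℕ} {L : Fld K} {b : c.X L}, Good j L →
    S.mem L b → ∃ (M : Fld K) (α : L →ₐ[K] M) (p : Λ → M), GenA T r j α b p
  low : ∀ {c : Cd} {Γ : Wt c} {Λ : Type} [Fintype Λ] {ω : Λ → ℤ} {S : QS K Γ}
    {T : QS K (Γ.prod (.vec ω))} {r : ℕ}, AB S T r → ∀ {j m : ℕ} (θ : Pre (j + r) T.sp)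
    {L : Fld K} {b : c.X L} (p : Λ → L), c.Dm L b m → m < j → θ.q L (b, p) = 0
  sb : ∀ {c : Cd} {Γ : Wt c} {Λ : Type} [Fintype Λ] (ω : Λ → ℤ) (S : QS K Γ) {r : ℕ},
    Fintype.card Λ = r → Nonempty (AB S (S.pu (.vec ω)) r)
  kb : ∀ {c : Cd} {Γ : Wt c} {Λ : Type} [Fintype Λ] {ω : Λ → ℤ} {S : QS K Γ} {γ : ℤ}
    (k : KB S Λ ω γ) {r : ℕ}, Fintype.card Λ = r + 1 → Nonempty (AB S k.tot r)
  kgen : ∀ {c : Cd} {Γ : Wt c} {Λ : Type} [Fintype Λ] {ω : Λ → ℤ} {S : QS K Γ} {γ : ℤ}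
    (k : KB S Λ ω γ) {r : ℕ}, Fintype.card Λ = r + 1 → ∀ {j : ℕ} {L M : Fld K} {α : L →ₐ[K] M}
    {b : c.X L} {p : Λ → M} (μ : Λ), S.mem L b → k.n L b μ ≠ 0 →
    (GenA k.tot r j α b p ↔ ∑ ν, α (k.n L b ν) * p ν = 0 ∧ Free j α fun ν : {ν // ν ≠ μ} => p ν)

/-- The flat pull back of cycles along an affine bundle. -/
class DN : Prop where
  down : ∀ {c : Cd} {Γ : Wt c} {Λ : Type} [Fintype Λ] {ω : Λ → ℤ} {S : QS K Γ}
    {T : QS K (Γ.prod (.vec ω))} {r : ℕ} (E : AB S T r) {j : ℕ} (θ : QF (j + r) T),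
    ∃ φ : QF j S, IsUp T r j φ.q θ.q ∧ ∀ q : c.ι → Prop, E.Loc q →
      KlP (c.prod (.vec Λ)) (Sum.elim q fun _ => True) (j + r) θ.q → KlP c q j φ.q

/-- The flat pull back is onto. -/
class UP : Prop where
  up : ∀ {c : Cd} {Γ : Wt c} {Λ : Type} [Fintype Λ] {ω : Λ → ℤ} {S : QS K Γ}
    {T : QS K (Γ.prod (.vec ω))} {r : ℕ}, AB S T r → ∀ {i : ℕ} (θ : QF i T),
    (∀ j, i = j + r → IsUp T r j (fun _ _ => 0) θ.q) → ∀ L x, θ.q L x = 0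

/-- The intersection with the zero section of a sum of line bundles. -/
class SE : Prop where
  ex : ∀ {c : Cd} {Γ : Wt c} {Λ : Type} [Fintype Λ] (ω : Λ → ℤ) {S : QS K Γ} {r : ℕ},
    Fintype.card Λ = r → ∀ {j : ℕ} (φ : QF j S), ∃ θ : QF (j + r) (S.pu (.vec ω)),
      IsUp (S.pu (.vec ω)) r j φ.q θ.q ∧ ∀ q : c.ι → Prop, Γ.Ad q → KlP c q j φ.q →
        KlP (c.prod (.vec Λ)) (Sum.elim q fun _ => True) (j + r) θ.q

/-- The intersection with the zero section of the kernel of a unimodular row. -/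
class KE : Prop where
  ex : ∀ {c : Cd} {Γ : Wt c} {Λ : Type} [Fintype Λ] {ω : Λ → ℤ} {S : QS K Γ} {γ : ℤ}
    (k : KB S Λ ω γ) {r : ℕ}, Fintype.card Λ = r + 1 → ∀ {j : ℕ} (φ : QF j S),
    ∃ θ : QF (j + r) k.tot, IsUp k.tot r j φ.q θ.q ∧ ∀ q : c.ι → Prop, Γ.Ad q →
      (∀ μ, LocF S q fun L b => k.n L b μ) → KlP c q j φ.q →
      KlP (c.prod (.vec Λ)) (Sum.elim q fun _ => True) (j + r) θ.q

/-- Naturality. -/
class KN : Prop where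
  nat : ∀ {c c' : Cd} {Γ : Wt c} {Γ' : Wt c'} {Λ Λ' : Type} [Fintype Λ] [Fintype Λ'] {ω : Λ → ℤ}
    {ω' : Λ' → ℤ} {S : QS K Γ} {S' : QS K Γ'} {γ γ' : ℤ} (k : KB S Λ ω γ) (k' : KB S' Λ' ω' γ')
    {r : ℕ}, Fintype.card Λ = r + 1 → ∀ {f : ∀ L : Fld K, c'.X L → c.X L}, EqM S' S f →
    Pro S'.S S.S f → ∀ e : Λ' ≃ Λ, (∀ μ, ω (e μ) = ω' μ) →
    (∀ L b μ, S'.mem L b → k'.n L b μ = k.n L (f L b) (e μ)) →
    ∀ {j : ℕ} {φ : ∀ L : Fld K, c.X L → ℂ} {φ' : ∀ L : Fld K, c'.X L → ℂ} (θ : QF (j + r) k.tot)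
      (θ' : QF (j + r) k'.tot) (χ : ℂ), IsUp k.tot r j φ θ.q → IsUp k'.tot r j φ' θ'.q →
      (∀ L b, S'.mem L b → φ' L b = χ * φ L (f L b)) →
      ∀ L b v, S'.mem L b → θ'.q L (b, fun μ => v (e μ)) = χ * θ.q L (f L b, v)

/-- The intersection with a divisor commutes with the flat pull back. -/
class WG : Prop where
  comm : ∀ {c : Cd} {Γ : Wt c} {Λ : Type} [Fintype Λ] {ω : Λ → ℤ} {S : QS K Γ}
    {T : QS K (Γ.prod (.vec ω))} {r : ℕ}, AB S T r → ∀ {k : ℤ} {s : ∀ L : Fld K, c.X L → L}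
    (h : Hom S k s) (h' : Hom T k fun L x => s L x.1) {j : ℕ} (φ : Pre j (S.zer h).sp)
    (θ : Pre (j + r) (T.zer h').sp) (ψ : Pre (j + 1) S.sp) (Ψ : Pre (j + r + 1) T.sp),
    IsUp (T.zer h') r j φ.q θ.q → IsC S k s φ ψ → IsC T k (fun L x => s L x.1) θ Ψ →
    IsUp T r (j + 1) ψ.q Ψ.q

open Classical in
/-- Homotopies of rows. -/
class HT : Prop where
  ht : ∀ {c : Cd} {Γ : Wt c} {Λ : Type} [Fintype Λ] {ω : Λ → ℤ} {S : QS K Γ} {γ : ℤ}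
    (k₀ k₁ : KB S Λ ω γ) {r : ℕ}, Fintype.card Λ = r + 1 →
    ∀ n : ∀ L : Fld K, (c.prod .one).X L → Λ → L,
    (∀ μ, Hom (S.pu (.triv .one)) (γ - ω μ) fun L x => n L x μ) →
    (∀ L b, S.mem L b → n L (b, 0) = k₀.n L b ∧ n L (b, 1) = k₁.n L b) →
    ∀ {j : ℕ} (φ : QF j S) (θ₀ : QF (j + r) k₀.tot) (θ₁ : QF (j + r) k₁.tot),
    IsUp k₀.tot r j φ.q θ₀.q → IsUp k₁.tot r j φ.q θ₁.q →
    ∀ (M : Fld K) (b : c.X M) (T : M) (v : Λ → M), Good (j + r + 1) M → S.mem M b → T ≠ 0 →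
      T ≠ 1 → n M (b, T) ≠ 0 → ∑ μ, n M (b, T) μ * v μ = 0 → ∃ val : ℂ,
      HasS (fun O : Dv M (j + r) =>
        if 0 < O.1.ord T then (O.1.ord T : ℂ) * θ₀.r O.1 (b, v) else 0) val ∧
      HasS (fun O : Dv M (j + r) =>
        if 0 < O.1.ord (T - 1) then (O.1.ord (T - 1) : ℂ) * θ₁.r O.1 (b, v) else 0) val

end Pool.Agent.Lib.MP_557161_ag.HG.HN
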