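import Pool.Agent.Lib.MP_557161_ag.HG.St1

/-!
Quotients of affine spaces by a weighted action of the multiplicative group.
-/

namespace Pool.Agent.Lib.MP_557161_ag.HG.HN

open Pool.Agent.Lib.MP_557161_ag.DL

/-- Weights of the coordinates; the coordinates in `P` are the homogeneous coordinates of a
projective space. -/
structure Wt (c : Cd) where
  ω : c.ι → ℤ
  P : c.ι → Prop
  one : ∀ i, P i → ω i = 1
  scl : ∀ {L : Type} [Field L], L → c.X L → c.X L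
  co_scl : ∀ {L : Type} [Field L] (a : L) (x : c.X L) (i : c.ι),
    c.co (scl a x) i = a ^ ω i * c.co x i

namespace Wt

/-- Homogeneous coordinates. -/
abbrev proj (σ : Type) [Finite σ] : Wt (.vec σ) where
  ω _ := 1
  P _ := True
  one _ _ := rfl
  scl a x := a • x
  co_scl a x i := by rw [zpow_one]; rfl

/-- One coordinate of weight `k`. -/
abbrev nat (k : ℕ) : Wt .one where
  ω _ := k
  P _ := False
  one _ h := h.elim
  scl a x := a ^ k * x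
  co_scl a x i := by rw [zpow_natCast]

/-- Coordinates of weights `ω`. -/
abbrev vec {κ : Type} [Finite κ] (ω : κ → ℤ) : Wt (.vec κ) where
  ω := ω
  P _ := False
  one _ h := h.elim
  scl a x i := a ^ ω i * x i
  co_scl _ _ _ := rfl

/-- Coordinates of weight zero. -/
abbrev triv (c : Cd) : Wt c where
  ω _ := 0
  P _ := False
  one _ h := h.elim
  scl _ x := x
  co_scl _ _ _ := by rw [zpow_zero, one_mul]

/-- The product. -/
abbrev prod {c d : Cd} (Γ : Wt c) (Δ : Wt d) : Wt (c.prod d) where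
  ω := Sum.elim Γ.ω Δ.ω
  P := Sum.elim Γ.P Δ.P
  one i := by
    cases i
    exacts [Γ.one _, Δ.one _]
  scl a x := (Γ.scl a x.1, Δ.scl a x.2)
  co_scl a x i := by
    cases i
    exacts [Γ.co_scl _ _ _, Δ.co_scl _ _ _]

variable {c : Cd} (Γ : Wt c)

/-- The same weights, without homogeneous coordinates. -/
abbrev aff : Wt c where
  ω := Γ.ω
  P _ := False
  one _ h := h.elim
  scl := Γ.scl
  co_scl := Γ.co_scl

section
variable {L L' : Type} [Field L] [Field L']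

/-- One of the homogeneous coordinates is not zero. -/
def nz (x : c.X L) : Prop := ∃ i, Γ.P i ∧ c.co x i ≠ 0

/-- The homogeneous coordinates. -/
def pp (x : c.X L) : {i // Γ.P i} → L := fun i => c.co x i

lemma scl_one (x : c.X L) : Γ.scl 1 x = x := c.inj (funext fun i => by simp [Γ.co_scl])

lemma scl_scl (a b : L) (x : c.X L) : Γ.scl a (Γ.scl b x) = Γ.scl (a * b) x :=
  c.inj (funext fun i => by simp only [Γ.co_scl, mul_zpow, mul_assoc])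

lemma scl_inv {a : L} (h : a ≠ 0) (x : c.X L) : Γ.scl a⁻¹ (Γ.scl a x) = x := by
  rw [scl_scl, inv_mul_cancel₀ h, scl_one]

lemma nz_scl {a : L} (h : a ≠ 0) {x : c.X L} : Γ.nz (Γ.scl a x) ↔ Γ.nz x :=
  exists_congr fun i => and_congr_right fun _ => by
    rw [Γ.co_scl, mul_ne_zero_iff, and_iff_right (zpow_ne_zero _ h)]

lemma map_scl (f : L →+* L') (a : L) (x : c.X L) :
    c.map f (Γ.scl a x) = Γ.scl (f a) (c.map f x) :=
  c.inj (funext fun i => by simp only [c.co_map, Γ.co_scl, map_mul, map_zpow₀])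

lemma nz_map (f : L →+* L') {x : c.X L} : Γ.nz (c.map f x) ↔ Γ.nz x :=
  exists_congr fun i => and_congr_right fun _ => by rw [c.co_map, map_ne_zero]

lemma not_nz : ¬ Γ.nz (c.mk' fun _ => (0 : L)) := fun ⟨i, _, h⟩ => h (by rw [c.co_mk])

/-- The orbits; the points with vanishing homogeneous coordinates form one class. -/
def st (L : Type) [Field L] : Setoid (c.X L) where
  r x y := (¬ Γ.nz x ∧ ¬ Γ.nz y) ∨ ∃ a : L, a ≠ 0 ∧ y = Γ.scl a x
  iseqv := by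
    refine ⟨fun x => .inr ⟨1, one_ne_zero, (Γ.scl_one x).symm⟩, ?_, ?_⟩
    · rintro x y (h | ⟨a, h, rfl⟩)
      exacts [.inl h.symm, .inr ⟨a⁻¹, inv_ne_zero h, (Γ.scl_inv h x).symm⟩]
    · rintro x y z (h | ⟨a, h, rfl⟩) (h' | ⟨b, h', rfl⟩)
      · exact .inl ⟨h.1, h'.2⟩
      · exact .inl ⟨h.1, fun e => h.2 ((Γ.nz_scl h').1 e)⟩
      · exact .inl ⟨fun e => h'.1 ((Γ.nz_scl h).2 e), h'.2⟩
      · exact .inr ⟨b * a, mul_ne_zero h' h, Γ.scl_scl _ _ _⟩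

/-- The class of a point. -/
def pt (x : c.X L) : Quotient (Γ.st L) := Quotient.mk _ x

lemma pt_scl {a : L} (h : a ≠ 0) (x : c.X L) : Γ.pt (Γ.scl a x) = Γ.pt x :=
  (Quotient.sound (.inr ⟨a, h, rfl⟩) : Γ.pt x = _).symm

lemma pt_eq {x y : c.X L} (h : Γ.nz x) : Γ.pt x = Γ.pt y ↔ ∃ a : L, a ≠ 0 ∧ y = Γ.scl a x :=
  ⟨fun e => (Quotient.exact e).resolve_left fun h' => h'.1 h, fun e => Quotient.sound (.inr e)⟩

lemma pt_not {x y : c.X L} (h : ¬ Γ.nz x) (h' : ¬ Γ.nz y) : Γ.pt x = Γ.pt y :=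
  Quotient.sound (.inl ⟨h, h'⟩)

lemma nz_pt {x y : c.X L} (e : Γ.pt x = Γ.pt y) (h : Γ.nz x) : Γ.nz y := by
  obtain ⟨a, h0, rfl⟩ := (Γ.pt_eq h).1 e
  exact (Γ.nz_scl h0).2 h

lemma pt_surj (E : Quotient (Γ.st L)) : ∃ x, Γ.pt x = E := Quotient.exists_rep E

/-- The image of a class. -/
def qmap (f : L →+* L') : Quotient (Γ.st L) → Quotient (Γ.st L') :=
  Quotient.map (c.map f) (by
    rintro x y (h | ⟨a, h, rfl⟩)
    · exact .inl ⟨fun e => h.1 ((Γ.nz_map f).1 e), fun e => h.2 ((Γ.nz_map f).1 e)⟩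
    · exact .inr ⟨f a, (map_ne_zero f).2 h, Γ.map_scl f a x⟩)

end

variable {K : Type} [Field K] {M L : Fld K}

lemma lift_scl {R : Rel M L} {a : M} {a' : L} (h : R.r a a') (h0 : a' ≠ 0) {x : c.X M}
    {x' : c.X L} (e : c.lift R.r x x') : c.lift R.r (Γ.scl a x) (Γ.scl a' x') :=
  (c.lift_iff _ _ _).2 fun i => by
    rw [Γ.co_scl, Γ.co_scl]
    exact R.mul (Rel.zpow h h0 _) ((c.lift_iff _ _ _).1 e i)

lemma nz_lift {R : Rel M L} {x : c.X M} {x' : c.X L} (e : c.lift R.r x x') (h : Γ.nz x') :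
    Γ.nz x := h.imp fun i hi => ⟨hi.1, Rel.ne_zero ((c.lift_iff _ _ _).1 e i) hi.2⟩

/-- Two normalisations differ by a unit. -/
lemma unit_of_lift {R : Rel M L} {a : M} (h0 : a ≠ 0) {x : c.X M} {x' y' : c.X L}
    (e : c.lift R.r x x') (e' : c.lift R.r (Γ.scl a x) y') (h : Γ.nz x') (h' : Γ.nz y') :
    ∃ a', a' ≠ 0 ∧ R.r a a' := by
  obtain ⟨i, hi, i0⟩ := h
  obtain ⟨k, hk, k0⟩ := h'
  have e1 := (c.lift_iff _ _ _).1 e
  have e2 := (c.lift_iff _ _ _).1 e'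
  have h1 := Rel.div (e2 i) (e1 i) i0
  have h2 := Rel.div (e1 k) (e2 k) k0
  have h3 := Rel.ne_zero (e2 k) k0
  rw [Γ.co_scl, Γ.one i hi, zpow_one, mul_div_cancel_right₀ _ (Rel.ne_zero (e1 i) i0)] at h1
  rw [Γ.co_scl, Γ.one k hk, zpow_one] at h2 h3
  refine ⟨_, left_ne_zero_of_mul (Rel.eq (R.mul h1 h2) R.one ?_ ▸ one_ne_zero), h1⟩
  have := right_ne_zero_of_mul h3
  field_simp

lemma pt_lift {R : Rel M L} {x y : c.X M} {x' y' : c.X L} (e : c.lift R.r x x')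
    (e' : c.lift R.r y y') (h : Γ.nz x') (h' : Γ.nz y') (q : Γ.pt x = Γ.pt y) :
    Γ.pt x' = Γ.pt y' := by
  obtain ⟨a, h0, rfl⟩ := (Γ.pt_eq (Γ.nz_lift e h)).1 q
  obtain ⟨a', h1, h2⟩ := Γ.unit_of_lift h0 e e' h h'
  exact (Γ.pt_eq h).2 ⟨a', h1, Cd.lift_eq e' (Γ.lift_scl h2 h1 e) rfl⟩

open Classical in
/-- The reduction of a class. -/
noncomputable def qred (O : Pl M) (E : Quotient (Γ.st M)) : Quotient (Γ.st O.res) :=
  if h : ∃ x', Γ.nz x' ∧ ∃ x, Γ.pt x = E ∧ c.lift (Rel.ofPl O).r x x' then Γ.pt h.choose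
  else Γ.pt (c.mk' fun _ => 0)

lemma qred_eq {O : Pl M} {x : c.X M} {x' : c.X O.res} (e : c.lift (Rel.ofPl O).r x x')
    (h : Γ.nz x') : Γ.qred O (Γ.pt x) = Γ.pt x' := by
  have h1 : ∃ x', Γ.nz x' ∧ ∃ y, Γ.pt y = Γ.pt x ∧ c.lift (Rel.ofPl O).r y x' :=
    ⟨x', h, x, rfl, e⟩
  obtain ⟨h2, y, h3, h4⟩ := h1.choose_spec
  exact (dif_pos h1).trans (Γ.pt_lift h4 e h2 h h3)

/-- If the reduction is not the point at infinity, one can normalise by a coordinate. -/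
lemma qred_nz {O : Pl M} {x : c.X M} {y : c.X O.res} (e : Γ.qred O (Γ.pt x) = Γ.pt y)
    (h : Γ.nz y) : ∃ i x', Γ.P i ∧ c.co x i ≠ 0 ∧
      c.lift (Rel.ofPl O).r (Γ.scl (c.co x i)⁻¹ x) x' ∧ Γ.nz x' ∧ Γ.pt x' = Γ.pt y := by
  by_cases h1 : ∃ x', Γ.nz x' ∧ ∃ y, Γ.pt y = Γ.pt x ∧ c.lift (Rel.ofPl O).r y x'
  · obtain ⟨x', h2, z, h3, h4⟩ := h1
    obtain ⟨a, h0, rfl⟩ := (Γ.pt_eq (Γ.nz_lift h4 h2)).1 h3
    rw [Γ.pt_scl h0, Γ.qred_eq h4 h2] at e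
    obtain ⟨i, hi, i0⟩ := h2
    have h5 := (c.lift_iff _ _ _).1 h4 i
    have h6 := Rel.ne_zero h5 i0
    refine ⟨i, Γ.scl (c.co x' i)⁻¹ x', hi, ?_, ?_, (Γ.nz_scl (inv_ne_zero i0)).2 ⟨i, hi, i0⟩,
      (Γ.pt_scl (inv_ne_zero i0) _).trans e⟩
    · rw [Γ.co_scl]
      exact mul_ne_zero (zpow_ne_zero _ h0) h6
    · rw [Γ.scl_scl, Γ.co_scl, Γ.one i hi, zpow_one, mul_inv, mul_right_comm, inv_mul_cancel₀ h0,
        one_mul]
      exact Γ.lift_scl ((Rel.ofPl O).inv h5 i0) (inv_ne_zero i0) h4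
  · exact absurd (Γ.nz_pt ((dif_neg h1).symm.trans e).symm h) Γ.not_nz

variable (K)

/-- The quotient, with a point at infinity. -/
noncomputable def amb : Amb K where
  pt L := Quotient (Γ.st L)
  map κ := Γ.qmap κ.toRingHom
  map_id E := by
    obtain ⟨x, rfl⟩ := Γ.pt_surj E
    exact congrArg Γ.pt (c.map_id x)
  map_comp ι κ E := by
    obtain ⟨x, rfl⟩ := Γ.pt_surj E
    exact congrArg Γ.pt (c.map_map ι κ x).symm
  inj {L L'} κ E E' h := by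
    obtain ⟨x, rfl⟩ := Γ.pt_surj E
    obtain ⟨y, rfl⟩ := Γ.pt_surj E'
    replace h : Γ.pt (c.map κ.toRingHom x) = Γ.pt (c.map κ.toRingHom y) := h
    by_cases hx : Γ.nz x
    · obtain ⟨a, h0, e⟩ := (Γ.pt_eq ((Γ.nz_map _).2 hx)).1 h
      obtain ⟨i, hi, i0⟩ := hx
      have e1 := congrArg (c.co · i) e
      simp only [Γ.co_scl, c.co_map, Γ.one i hi, zpow_one] at e1
      have e2 : κ.toRingHom (c.co y i / c.co x i) = a := by
        rw [map_div₀, e1, mul_div_cancel_right₀ _ ((map_ne_zero _).2 i0)]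
      refine (Γ.pt_eq ⟨i, hi, i0⟩).2 ⟨c.co y i / c.co x i, fun e3 => h0 (by rw [← e2, e3, map_zero]),
        c.map_inj κ.toRingHom.injective ?_⟩
      rw [Γ.map_scl, e2, e]
    · exact Γ.pt_not hx fun hy => hx ((Γ.nz_map _).1 (Γ.nz_pt h.symm ((Γ.nz_map _).2 hy)))
  red O := Γ.qred O
  red_map {M M' ι O O'} h E := by
    obtain ⟨x, rfl⟩ := Γ.pt_surj E
    obtain ⟨y, hy⟩ := Γ.pt_surj (Γ.qred O (Γ.pt x))
    obtain ⟨y', hy'⟩ := Γ.pt_surj (Γ.qred O' (Γ.pt (c.map ι x)))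
    refine hy'.symm.trans (Eq.trans ?_ (congrArg _ hy))
    show _ = Γ.pt (c.map h.resHom.toRingHom y)
    by_cases h1 : Γ.nz y
    · obtain ⟨i, x', -, i0, e, h2, e'⟩ := Γ.qred_nz hy.symm h1
      have h3 := Γ.qred_eq (Cd.lift_over h e) ((Γ.nz_map h.resHom.toRingHom).2 h2)
      have h4 : Γ.pt (c.map ι (Γ.scl (c.co x i)⁻¹ x)) = Γ.pt (c.map ι x) :=
        congrArg (Γ.qmap ι.toRingHom) (Γ.pt_scl (inv_ne_zero i0) x)
      rw [hy', ← h4, h3]
      exact congrArg (Γ.qmap h.resHom.toRingHom) e'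
    · refine Γ.pt_not (fun h2 => h1 ?_) fun h2 => h1 ((Γ.nz_map _).1 h2)
      obtain ⟨i, x', hi, i0, e, -, -⟩ := Γ.qred_nz hy'.symm h2
      rw [c.co_map] at i0 e
      have i1 : c.co x i ≠ 0 := fun e => i0 (by rw [e, map_zero])
      have e1 := ((Cd.lift_pl O').1 e).1
      rw [← map_inv₀, ← show c.map ι _ = Γ.scl (ι _) (c.map ι x) from Γ.map_scl ι.toRingHom _ x,
        Cd.all_over h] at e1
      have h3 : Γ.nz (c.map O.rd (Γ.scl (c.co x i)⁻¹ x)) := ⟨i, hi, by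
        rw [c.co_map, Γ.co_scl, Γ.one i hi, zpow_one, inv_mul_cancel₀ i1, O.rd_one]
        exact one_ne_zero⟩
      have h4 := Γ.qred_eq ((Cd.lift_pl O).2 ⟨e1, rfl⟩) h3
      rw [Γ.pt_scl (inv_ne_zero i1), ← hy] at h4
      exact Γ.nz_pt h4.symm h3
  red_triv {L M ι O} h E := by
    obtain ⟨x, rfl⟩ := Γ.pt_surj E
    by_cases hx : Γ.nz x
    · exact Γ.qred_eq (Cd.lift_triv h x) ((Γ.nz_map h.hom.toRingHom).2 hx)
    · obtain ⟨y, hy⟩ := Γ.pt_surj (Γ.qred O (Γ.pt (c.map ι x)))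
      refine hy.symm.trans (Γ.pt_not (fun h2 => hx ?_) fun h2 => hx ((Γ.nz_map _).1 h2))
      obtain ⟨i, -, hi, i0, -⟩ := Γ.qred_nz hy.symm h2
      exact (Γ.nz_map ι.toRingHom).1 ⟨i, hi, i0⟩
  fg E := by
    obtain ⟨x, rfl⟩ := Γ.pt_surj E
    refine ⟨(Set.finite_range (c.co x)).toFinset, fun L₀ κ h => ?_⟩
    choose z hz using fun i => h (c.co x i) (by simp)
    exact ⟨Γ.pt (c.mk' z), congrArg Γ.pt (c.inj (funext fun i => by
      rw [c.co_map, c.co_mk]; exact hz i))⟩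

variable {K}

lemma map_pt (ι : M →ₐ[K] L) (x : c.X M) : (Γ.amb K).map ι (Γ.pt x) = Γ.pt (c.map ι x) := rfl

lemma red_pt {O : Pl M} {a : M} (h0 : a ≠ 0) {x : c.X M} {x' : c.X O.res}
    (e : c.lift (Rel.ofPl O).r (Γ.scl a x) x') (h : Γ.nz x') :
    (Γ.amb K).red O (Γ.pt x) = Γ.pt x' := by
  rw [← Γ.pt_scl h0 x]
  exact Γ.qred_eq e h

/-- The order of the section `τ` of weight `k`. -/
noncomputable def ow (O : Pl M) (k : ℤ) (τ : M) (x : c.X M) : ℤ := O.ord τ - k * ordv O (Γ.pp x)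

/-- The coordinates in `q` contain the homogeneous ones, the others have weight zero. -/
def Ad (q : c.ι → Prop) : Prop := ∀ i, ¬ q i → Γ.ω i = 0

end Wt

variable {K : Type} [Field K] {c d : Cd} {Γ : Wt c}

/-- An invariant locally closed set. -/
structure QS (K : Type) [Field K] (Γ : Wt c) where
  S : ASp K c
  inv : ∀ (L : Fld K) (a : L) (x : c.X L), a ≠ 0 → S.mem L x → S.mem L (Γ.scl a x)
  nz : ∀ (L : Fld K) (x : c.X L), S.mem L x → Γ.nz x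

namespace QS

variable (S : QS K Γ)

/-- Membership. -/
abbrev mem (L : Fld K) (x : c.X L) : Prop := S.S.mem L x

lemma mem_of_pt {L : Fld K} {x y : c.X L} (h : S.mem L x) (e : Γ.pt x = Γ.pt y) : S.mem L y := by
  obtain ⟨a, h0, rfl⟩ := (Γ.pt_eq (S.nz L x h)).1 e
  exact S.inv L a x h0 h

/-- The space of points of the quotient. -/
def sp : Sp (Γ.amb K) where
  mem {L} E := ∃ x, S.mem L x ∧ Γ.pt x = E
  map_iff κ E := by
    obtain ⟨x, rfl⟩ := Γ.pt_surj E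
    exact ⟨fun ⟨_, h, e⟩ => ⟨x, (S.S.map_iff κ x).1 (S.mem_of_pt h e), rfl⟩,
      fun ⟨_, h, e⟩ => ⟨_, (S.S.map_iff κ x).2 (S.mem_of_pt h e), rfl⟩⟩

lemma sp_pt {L : Fld K} {x : c.X L} : S.sp.mem (L := L) (Γ.pt x) ↔ S.mem L x :=
  ⟨fun ⟨_, h, e⟩ => S.mem_of_pt h e, fun h => ⟨x, h, rfl⟩⟩

end QS

end Pool.Agent.Lib.MP_557161_ag.HG.HN
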