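import Pool.Agent.Lib.MP_557161_ag.HN.Itf
import Pool.Agent.Lib.MP_557161_ag.HN.WQ
import Pool.Agent.Lib.MP_557161_ag.HN.Defs

/-!
The double cover: points, Frobenius, contraction laws, diagrams; statements.
-/

namespace Pool.Agent.Lib.MP_557161_ag.HG.HN

open Pool.Agent.Lib.MP_557161_ag.DL MvPolynomial
open Pool.Agent.Lib.MP_60ec62_ag.DL (Cyc)

section Defs

variable {K : Type} [Field K] {dd : ℕ} {c d d' : Cd}

/-- The map `(x, z) ↦ (x ^ Q, z ^ Q)`. -/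
def frb (Q : ℕ) (L : Fld K) (y : (xz dd).X L) : (xz dd).X L := (fun i => y.1 i ^ Q, y.2 ^ Q)

/-- The identity or the involution `z ↦ -z`. -/
def sg (ε : Bool) (L : Fld K) (y : (xz dd).X L) : (xz dd).X L := bif ε then ngz L y else y

namespace GD

variable (G : GD K dd)

/-- The branch polynomial. -/
noncomputable abbrev F : MvPolynomial (Vr dd) K := brF G.u G.w G.lam

lemma homF : G.F.IsHomogeneous (2 * G.e) := by
  refine IsHomogeneous.add (IsHomogeneous.sum _ _ _ fun i _ => ?_) ?_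
  · rw [← G.hu]
    simpa using ((isHomogeneous_X K i).pow G.u).mul (isHomogeneous_X K (i + 1))
  · rw [← G.sw]
    simpa using (isHomogeneous_C _ G.lam).mul (IsHomogeneous.prod Finset.univ _ (fun i => G.w i)
      fun i _ => by simpa using (isHomogeneous_X K i).pow (G.w i))

/-- The coordinates of the embedding. -/
abbrev σ : Type := Option (Fin G.e → Vr dd)

/-- The embedding. -/
def nu {L : Type} [CommRing L] (y : (xz dd).X L) : G.σ → L :=
  fun s => s.elim y.2 fun m => ∏ i, y.1 (m i)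

/-- The weights of `(x, z)`. -/
abbrev Γ : Wt (xz dd) := (Wt.proj (Vr dd)).prod (.nat G.e)

/-- The affine cone. -/
def Cn0 (L : Fld K) (y : (xz dd).X L) : Prop := y.2 ^ 2 = aeval y.1 G.F

/-- Points of the punctured cone. -/
def Cn (L : Fld K) (y : (xz dd).X L) : Prop := y.1 ≠ 0 ∧ G.Cn0 L y

lemma Cn0.scl {G : GD K dd} {L : Fld K} {y : (xz dd).X L} (h : G.Cn0 L y) (a : L) :
    G.Cn0 L (G.Γ.scl a y) := by
  show (a ^ G.e * y.2) ^ 2 = aeval (a • y.1) G.F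
  rw [aeval_smul_of_isHomogeneous G.homF, ← show y.2 ^ 2 = _ from h]; ring

/-- The affine cone. -/
noncomputable def C0 : ASp K (xz dd) :=
  (ASp.univ K (xz dd)).cl G.Cn0 fun _ _ _ _ _ _ _ e h => Rel.eq (Rel.pow e.2 2) (Rel.aeval e.1 _) h

/-- The double cover. -/
noncomputable def CC : QS K G.Γ where
  S := (G.C0.opn (fun _ y => y.1 ≠ 0) fun _ _ _ _ _ _ _ e h h' =>
    h (funext fun i => Rel.eq_zero (e.1 i) (congrFun h' i))).copy G.Cn
      fun _ _ => ⟨fun h => ⟨⟨trivial, h.2⟩, h.1⟩, fun h => ⟨h.2, h.1.2⟩⟩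
  inv _ a _ h0 h := ⟨smul_ne_zero h0 h.1, h.2.scl a⟩
  nz _ _ h := (Function.ne_iff.1 h.1).elim fun i hi => ⟨Sum.inl i, trivial, hi⟩

/-- `Q` is a power of the characteristic and the double cover is defined over the field with `Q`
elements. -/
def Fr (p Q : ℕ) : Prop := (∃ f, Q = p ^ f) ∧ G.lam ^ Q = G.lam

/-- The number of fixed points of Frobenius, or of its composition with the involution. -/
noncomputable def fx (Q : ℕ) (ε : Bool) : ℕ :=
  Nat.card {E : (G.Γ.amb K).pt (.base K) // ∃ y, G.Cn (.base K) y ∧ E = G.Γ.pt y ∧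
    E = G.Γ.pt (sg ε (.base K) (frb Q (.base K) y))}

/-- The trace of the powers of Frobenius on the anti-invariant part. -/
noncomputable def PP (q m : ℕ) : ℂ :=
  if m = 0 then G.n else ((G.fx (q ^ m) false : ℂ) - G.fx (q ^ m) true) / 2

/-- `y` is a generic point of the double cover over `L`, and `M` is its function field. -/
structure GenU (j : ℕ) {L M : Fld K} (α : L →ₐ[K] M) (y : (xz dd).X M) : Prop where
  gL : Good j L
  gM : Good (j + 2 * dd) M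
  mem : G.UU.mem M y
  top : gen α ((xz dd).co y) = ⊤

end GD

/-- The type of relations between functionals on `W` and on `U × U × W`. -/
abbrev CRel (G : GD K dd) : Type 1 :=
  ∀ ⦃d : Cd⦄ ⦃W : ASp K d⦄ ⦃j : ℕ⦄, AF j W → AF (j + 2 * dd) ((G.UU.prod G.UU).prod W) → Prop

/-- The laws of the contraction with the diagonal. -/
structure ConL (G : GD K dd) (p : ℕ) (AC : CRel G) : Prop where
  ex : ∀ {d : Cd} {W : ASp K d} {j : ℕ} (φ : AF j W), ∃ Φ, AC φ Φ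
  anti : ∀ {d : Cd} {W : ASp K d} {j : ℕ} {φ : AF j W} {Φ}, AC φ Φ → ∀ (L : Fld K)
    (A B : (xz dd).X L) (w : d.X L), Φ.a L ((ngz L A, B), w) = -Φ.a L ((A, B), w) ∧
      Φ.a L ((A, ngz L B), w) = -Φ.a L ((A, B), w)
  nat : ∀ {d d' : Cd} {W : ASp K d} {W' : ASp K d'} {j : ℕ} {φ : AF j W} {φ' : AF j W'} {Φ Φ'},
    AC φ Φ → AC φ' Φ' → ∀ {g : ∀ L : Fld K, d'.X L → d.X L}, Mp W' W g → Pro W' W g → ∀ χ : ℂ,
    (∀ L w, W'.mem L w → φ'.a L w = χ * φ.a L (g L w)) →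
    ∀ (L : Fld K) (A B : (xz dd).X L) (w : d'.X L), W'.mem L w →
      Φ'.a L ((A, B), w) = χ * Φ.a L ((A, B), g L w)
  kills : ∀ {d : Cd} {W : ASp K d} {j : ℕ} {φ : AF j W} {Φ}, AC φ Φ → ∀ q : d.ι → Prop,
    KlP d q j φ.a →
    KlP (((xz dd).prod (xz dd)).prod d) (Sum.elim (fun _ => True) q) (j + 2 * dd) Φ.a
  unit : ∀ {c d : Cd} {S : ASp K c} {W : ASp K d} {j : ℕ} {φ : AF j W} {Φ}, AC φ Φ →
    ∀ {g : ∀ L : Fld K, ((xz dd).prod c).X L → d.X L}, Mp (G.UU.prod S) W g →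
    Pro (G.UU.prod S) W g →
    ∀ {L M : Fld K} {α : L →ₐ[K] M} {y : (xz dd).X M}, G.GenU j α y →
    ∀ (R : (xz dd).X L) (u : c.X L), G.UU.mem L R → S.mem L u →
      Φ.a M (((xz dd).map α R, y), g M (y, c.map α u)) =
        (φ.a L (g L (R, u)) - φ.a L (g L (ngz L R, u))) / 2
  loop : ∀ {d : Cd} {W : ASp K d} {j : ℕ} {φ : AF j W} {Φ}, AC φ Φ → ∀ {Q : ℕ}, 1 < Q → G.Fr p Q →
    ∀ {L M : Fld K} {α : L →ₐ[K] M} {y : (xz dd).X M}, G.GenU j α y → ∀ w : d.X L, W.mem L w →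
      Φ.a M ((frb Q M y, y), d.map α w) = ((G.fx Q false : ℂ) - G.fx Q true) / 2 * φ.a L w ∧
      Φ.a M ((y, frb Q M y), d.map α w) = ((G.fx Q false : ℂ) - G.fx Q true) / 2 * φ.a L w
  diag : ∀ {d : Cd} {W : ASp K d} {j : ℕ} {φ : AF j W} {Φ}, AC φ Φ →
    ∀ {L M : Fld K} {α : L →ₐ[K] M} {y : (xz dd).X M}, G.GenU j α y → ∀ w : d.X L, W.mem L w →
      Φ.a M ((y, y), d.map α w) = G.n * φ.a L w

section Diagrams

variable {T : Type}

/-- The point with coordinates the Frobenius images of `P`. -/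
def cfg (q : ℕ) (e : T → ℕ) (L : Fld K) (P : T → (xz dd).X L) : T → (xz dd).X L :=
  fun i => frb (q ^ e i) L (P i)

/-- The field generated by the coordinates `x`. -/
noncomputable def xf (L : Fld K) (P : T → (xz dd).X L) : IntermediateField K L :=
  IntermediateField.adjoin K (Set.range fun s : T × Vr dd => (P s.1).1 s.2)

/-- The normalised value of `a` on the product of graphs of Frobenius given by `τ` and `e`. -/
def DV (G : GD K dd) (q : ℕ) (a : ∀ L : Fld K, (T → (xz dd).X L) → ℂ) (τ : T → T) (e : T → ℕ)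
    (v : ℂ) : Prop :=
  ∀ (L : Fld K) (P : T → (xz dd).X L), Good (dd * Nat.card T) L → (∀ i, G.UU.mem L (P i)) →
    (∀ i, P (τ i) = P i) → a L (cfg q e L P) = Bridge.dg (xf L P) * v

/-- The functional changes sign under the involution of every factor. -/
def AntiP [DecidableEq T] (a : ∀ L : Fld K, (T → (xz dd).X L) → ℂ) : Prop :=
  ∀ (i : T) (L : Fld K) (x : T → (xz dd).X L), a L (Function.update x i (ngz L (x i))) = -a L x

/-- The functional vanishes on exterior products for the partition `sd` of the factors. -/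
def KlS [Finite T] (sd : T → Bool) (a : ∀ L : Fld K, (T → (xz dd).X L) → ℂ) : Prop :=
  KlP (Cd.pi T (xz dd)) (fun s => sd s.1 = true) (dd * Nat.card T) a

end Diagrams

end Defs

/-- The ideal of the double cover. -/
class XJ (dd : ℕ) : Prop where
  hom : ∀ {k : Type} [Field k] {e : ℕ} {F : MvPolynomial (Vr dd) k}, 0 < e →
    F.IsHomogeneous (2 * e) → Homog (dpI e F)
  up : ∀ {k : Type} [Field k] (e : ℕ) (F : MvPolynomial (Vr dd) k),
    upI (dpI e F) = dpI e (MvPolynomial.map (algebraMap k (AlgebraicClosure k)) F)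
  dim : ∀ {k : Type} [Field k] {e : ℕ} {F : MvPolynomial (Vr dd) k}, 0 < e →
    (∀ g : MvPolynomial (Vr dd) k, g ^ 2 ≠ F) → (dpI e F).IsPrime ∧
    ringKrullDim (MvPolynomial (Option (Fin e → Vr dd)) k ⧸ dpI e F) = (2 * dd + 1 : ℕ)

/-- The double cover is smooth. -/
class XK (dd : ℕ) : Prop where
  smooth : ∀ {k : Type} [Field k] {e : ℕ} {F : MvPolynomial (Vr dd) k}, 0 < e → (2 : k) ≠ 0 →
    F.IsHomogeneous (2 * e) → (∀ x : Vr dd → AlgebraicClosure k, x ≠ 0 → aeval x F = 0 →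
      ∃ i, aeval x (pderiv i F) ≠ 0) → ∀ s, Algebra.Smooth k (Chart (dpI e F) s)

/-- The branch hypersurface is smooth. -/
class X0 (dd : ℕ) : Prop where
  num : ∀ {k : Type} [Field k] (G : GD k dd), 3 ≤ G.e ∧ Odd G.n ∧ Odd G.u ∧ (2 : k) ≠ 0 ∧
    (G.e : k) ≠ 0 ∧ (∀ i, 2 ≤ G.w i) ∧
    (G.n : ℤ) = ∑ i ∈ Finset.range (2 * dd + 1), (-(G.u : ℤ)) ^ i
  sm : ∀ {k : Type} [Field k] (G : GD k dd) (L : Type) [Field L] [Algebra k L] (x : Vr dd → L),
    x ≠ 0 → ∃ i, aeval x (pderiv i G.F) ≠ 0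
  pd : ∀ {k : Type} [Field k] (G : GD k dd) (i : Vr dd), (pderiv i G.F).IsHomogeneous G.u
  eul : ∀ {k : Type} [Field k] (G : GD k dd) (L : Type) [Field L] [Algebra k L] (x : Vr dd → L),
    ∑ i, aeval x (pderiv i G.F) * x i = 2 * G.e * aeval x G.F
  e0 : ∀ {k : Type} [Field k] (G : GD k dd) (L : Type) [Field L] [Algebra k L] (i : Vr dd),
    aeval (Pi.single i (1 : L) : Vr dd → L) G.F = 0
  bd : ∀ {k : Type} [Field k] (G : GD k dd) (i : Vr dd), ∃ c : Vr dd → ℤ,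
    ∀ (L : Type) [Field L] [Algebra k L] (t : L) (x : Vr dd → L), t ≠ 0 → x i = 0 →
      aeval (fun l => t ^ (2 * c l) * x l) G.F = t ^ 2 * aeval x G.F

section Geo

variable (K : Type) [Field K]

/-- The branch polynomial is not a square. -/
class XA (dd : ℕ) : Prop where
  nsq : ∀ (G : GD K dd) (L : Fld K) (g : MvPolynomial (Vr dd) L),
    g ^ 2 ≠ MvPolynomial.map (algebraMap K L) G.F
  nsq' : ∀ (G : GD K dd) {j : ℕ} {L M : Fld K} {α : L →ₐ[K] M} (x : Vr dd → M) (k : Vr dd),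
    x k = 1 → Free j α (fun i : {i // i ≠ k} => x i) → ∀ z : M, z ^ 2 ≠ aeval x G.F
  frob : ∀ (G : GD K dd) {p Q : ℕ} [Fact p.Prime] [CharP K p], G.Fr p Q → ∀ (L : Fld K)
    (x : Vr dd → L), aeval (fun i => x i ^ Q) G.F = aeval x G.F ^ Q

/-- Generic points of the double cover. -/
class XG (dd : ℕ) : Prop where
  ex : ∀ (G : GD K dd) {j : ℕ} {L : Fld K}, Good j L →
    ∃ (M : Fld K) (α : L →ₐ[K] M) (y : (xz dd).X M), G.GenU j α y
  neg : ∀ {G : GD K dd} {j : ℕ} {L M : Fld K} {α : L →ₐ[K] M} {y : (xz dd).X M}, G.GenU j α y →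
    ∀ ε, G.GenU j α (sg ε M y)
  chart : ∀ {G : GD K dd} {j : ℕ} {L M : Fld K} {α : L →ₐ[K] M} {y : (xz dd).X M}, G.GenU j α y →
    ∀ k : Vr dd, ∃ (M₀ : Fld K) (α₀ : L →ₐ[K] M₀) (β : M₀ →ₐ[K] M) (x : Vr dd → M₀),
      β.comp α₀ = α ∧ x k = 1 ∧ (∀ i, β (x i) = y.1 i / y.1 k) ∧
      Free j α₀ (fun i : {i // i ≠ k} => x i) ∧ deg β = 2 ∧ Gen β (y.2 / y.1 k ^ G.e)
  ker : ∀ {G : GD K dd} {j : ℕ} {L M : Fld K} {α : L →ₐ[K] M} {y : (xz dd).X M}, G.GenU j α y →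
    ∀ (k : Vr dd) (f : MvPolynomial (Option (Vr dd)) L),
      eval₂ α.toRingHom (fun s => s.elim (y.2 / y.1 k ^ G.e) fun i => y.1 i / y.1 k) f = 0 →
      f ∈ Ideal.span {X (some k) - 1,
        X none ^ 2 - rename some (MvPolynomial.map (algebraMap K L) G.F)}
  dgr : ∀ {G : GD K dd} {j : ℕ} {L M : Fld K} {α : L →ₐ[K] M} {y : (xz dd).X M}, G.GenU j α y →
    ∀ s : Set L, Bridge.dg (IntermediateField.adjoin K (α '' s ∪ Set.range y.1)) =
      2 * Bridge.dg (IntermediateField.adjoin K s)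

/-- The ideal of the double cover over an algebraically closed field. -/
class XI (p dd : ℕ) : Prop where
  zl : ∀ (G : GD K dd) (L : Fld K) (y : (xz dd).X L), G.Cn0 L y →
    G.nu y ∈ zeroLocus L (dpI G.e G.F)
  fix : ∀ (G : GD K dd) (Y : Sm K G.σ), Y.I = dpI G.e G.F → ∀ Q, G.Fr p Q →
    Y.fixed Q = G.fx Q false
  cnt : ∀ (G : GD K dd) (Q : ℕ), 1 < Q → G.Fr p Q →
    G.fx Q false + G.fx Q true = 2 * ∑ i ∈ Finset.range (2 * dd + 1), Q ^ i
  gr : ∀ (G : GD K dd) (Y : Sm K G.σ), Y.I = dpI G.e G.F → ∀ Q, G.Fr p Q → ∀ {M : Fld K}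
    {α : Fld.base K →ₐ[K] M} {y : (xz dd).X M}, G.GenU 0 α y →
    Y.grC Q = Finsupp.single (Bridge.PP (G.nu (frb Q M y)) (G.nu y)) 1

/-- Frobenius. -/
class XV (p dd : ℕ) : Prop where
  mp : ∀ {G : GD K dd} {Q : ℕ}, G.Fr p Q → Mp G.UU G.UU (frb Q) ∧ Pro G.UU G.UU (frb Q) ∧
    Srj G.UU G.UU (frb Q) ∧ ∀ L : Fld K, Function.Injective (frb (dd := dd) Q L)
  pow : ∀ {G : GD K dd} {q : ℕ}, G.Fr p q → ∀ m, G.Fr p (q ^ m)
  pull : ∀ {G : GD K dd} {q : ℕ}, G.Fr p q → ∀ {T : Type} [Finite T] [DecidableEq T] {j : ℕ}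
    (φ : AF j (G.UU.pi T)) (e : T → ℕ), ∃ ψ : AF j (G.UU.pi T),
      (∀ L x, ψ.a L x = φ.a L (cfg q e L x)) ∧ (AntiP φ.a → AntiP ψ.a) ∧
      ∀ sd : T → Bool, KlS sd φ.a → KlS sd ψ.a
  desc : ∀ {G : GD K dd} {q : ℕ}, G.Fr p q → ∀ {T : Type} [Finite T] [DecidableEq T] {j : ℕ}
    (φ : AF j (G.UU.pi T)) (e : T → ℕ), ∃ ψ : AF j (G.UU.pi T),
      (∀ L x, φ.a L x = ψ.a L (cfg q e L x)) ∧ (AntiP φ.a → AntiP ψ.a) ∧
      ∀ sd : T → Bool, KlS sd φ.a → KlS sd ψ.a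

/-- Normalised values. -/
class XW (p dd : ℕ) : Prop where
  shift : ∀ {G : GD K dd} {q : ℕ}, G.Fr p q → ∀ {T : Type} [Finite T]
    (φ : AF (dd * Nat.card T) (G.UU.pi T)) {τ : T → T}, Inv τ →
    ∀ (e e' : T → ℕ) (i : T) (m : ℕ) (v : ℂ),
    e' i = e i + m → e' (τ i) = e (τ i) + m → (∀ t, t ≠ i → t ≠ τ i → e' t = e t) →
    (DV G q φ.a τ e' (((q : ℂ) ^ dd) ^ (2 * m) * v) ↔ DV G q φ.a τ e v)
  val : ∀ {G : GD K dd} {q : ℕ}, G.Fr p q → ∀ φ : AF (dd * Nat.card Bool) (G.UU.pi Bool),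
    AntiP φ.a → ∀ e : Bool → ℕ, ∃ v, DV G q φ.a not e v
  gen : ∀ (G : GD K dd) (κ : Type) [Finite κ], ∃ (L : Fld K) (P : κ → (xz dd).X L),
    Good (dd * (2 * Nat.card κ)) L ∧ (∀ i, G.UU.mem L (P i)) ∧ Bridge.dg (xf L P) ≠ 0

/-- The contraction with the diagonal exists. -/
class ZO (p dd : ℕ) : Prop where
  ex : ∀ G : GD K dd, ∃ AC : CRel G, ConL G p AC

open Classical in
/-- One contraction. -/
class ZS (p dd : ℕ) : Prop where
  step : ∀ {G : GD K dd} {q : ℕ}, 1 < q → G.Fr p q →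
    ∀ {T : Type} [Finite T] [DecidableEq T] (φ : AF (dd * Nat.card T) (G.UU.pi T)), AntiP φ.a →
    ∃ Φ : AF (dd * Nat.card (Option (Option T))) (G.UU.pi (Option (Option T))), AntiP Φ.a ∧
      (∀ (sd : T → Bool) (s : Bool), KlS sd φ.a →
        KlS (fun t : Option (Option T) => (Option.bind t id).elim s sd) Φ.a) ∧
      ∀ (τ : Option (Option T) → Option (Option T)) (e : Option (Option T) → ℕ) (v : ℂ), Inv τ →
        DV G q φ.a (rτ τ) (re τ e) v →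
        DV G q Φ.a τ e
          ((if Lp τ then lamP ((q : ℂ) ^ dd) (G.PP q) (e none) (e (some none)) else 1) * v / 2)

/-- The relation between the graphs of the powers of Frobenius. -/
class ZR (p dd : ℕ) : Prop where
  rel : ∀ {G : GD K dd} {q : ℕ}, 1 < q → G.Fr p q → ∀ {n r : ℕ}, n = G.n → ∀ (sd : ℕ → Bool)
    (E : Fin n ⊕ Fin n ≃ Tw r), (∀ i, side sd r (E (Sum.inl i)) = true) →
    (∀ i, side sd r (E (Sum.inr i)) = false) → ∀ e : Tw r → ℕ,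
    dsum E (lamP ((q : ℂ) ^ dd) (G.PP q)) ((q : ℂ) ^ dd) e ≠ 0 →
    ∃ f : Polynomial ℂ, f.eval ((q : ℂ) ^ dd) ≠ 0 ∧ f.eval 0 ≠ 0 ∧
      ∀ φ : AF (dd * Nat.card Bool) (G.UU.pi Bool), AntiP φ.a → KlS id φ.a → ∀ v : ℕ → ℂ,
      (∀ j, DV G q φ.a not (fun b => bif b then j else 0) (v j)) →
      ∀ t, (f.sum fun j a => a * v (j + t)) = 0

/-- From linear forms on cycles to functionals. -/
class XQ [Base K] (p dd : ℕ) : Prop where
  brg : ∀ (G : GD K dd) (Y : Sm K G.σ), Y.I = dpI G.e G.F → ∀ q, G.Fr p q →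
    ∀ b : Cyc (MvPolynomial (G.σ ⊕ G.σ) K) →ₗ[ℚ] ℚ,
    RatB Y.I ⊔ ⨆ δ, ProdB Y.I δ ≤ LinearMap.ker b →
    ∃ φ : AF (dd * Nat.card Bool) (G.UU.pi Bool), AntiP φ.a ∧ KlS id φ.a ∧
      ∀ j, DV G q φ.a not (fun b => bif b then j else 0) ((b (Y.grC (q ^ j)) : ℂ) / 2)

end Geo

end Pool.Agent.Lib.MP_557161_ag.HG.HN
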