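import Pool.Agent.Lib.MP_557161_ag.HN.StV
import Pool.Agent.Lib.MP_557161_ag.HN.SE

/-!
Reductions of the points that occur in the recursion for the top Chern class.
-/

namespace Pool.Agent.Lib.MP_557161_ag.HG.HN

open Pool.Agent.Lib.MP_557161_ag.DL

namespace TDa

variable {K : Type} [Field K] {d : Cd} {Φ : Type} [Fintype Φ] {k : ℕ}

/-- The weights. -/
abbrev Γ (d : Cd) (k u : ℕ) (ω : Φ → ℤ) :
    Wt (((Cd.vec (Fin (k + 2))).prod d).prod (.vec (Option Φ ⊕ Fin (k + 2)))) :=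
  ((Wt.proj _).prod (.triv d)).prod (.vec (Sum.elim (fun s => s.elim (u + 1) ω) fun _ => 1))

/-- The vector `(-A, S, B, 0)`. -/
def vv (k : ℕ) {N : Type} [Field N] (S : Φ → N) (A B : N) : Option Φ ⊕ Fin (k + 2) → N :=
  Sum.elim (fun o => o.elim (-A) S) (Pi.single 0 B)

lemma ne_of [FA1 K] {j : ℕ} {L M : Fld K} {α : L →ₐ[K] M} {κ : Type} [Finite κ] {T : κ → M}
    (h : Free j α T) (i : κ) (a : L) : T i ≠ α a := fun e =>
  Polynomial.X_sub_C_ne_zero a (FA1.trans h i _ (by simp [e]))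

lemma ne0 [FA1 K] {j : ℕ} {L M : Fld K} {α : L →ₐ[K] M} {κ : Type} [Finite κ] {T : κ → M}
    (h : Free j α T) (i : κ) : T i ≠ 0 := map_zero α ▸ ne_of h i 0

lemma mem_res {M N : Fld K} (β : M →ₐ[K] N) (O : Pl N) {κ : Type} (t : κ → O.res) (m : M) :
    O.rd (β m) ∈ gen (Pl.over_comap β O).resHom t :=
  (Pl.over_comap β O).resHom_rd m ▸ Se.gl _ _ _

lemma tr_lt [FA1 K] {M N : Fld K} (β : M →ₐ[K] N) (O : Pl N) {κ : Type} [Finite κ] (t : κ → O.res)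
    {n m : ℕ} (h : (Pl.comap β O).res.tr < n) (h' : n + Nat.card κ ≤ m) :
    (O.res.sub (gen (Pl.over_comap β O).resHom t)).tr < m := by
  refine (FA1.tr_gen _ _).trans_lt ?_
  obtain ⟨a, ha⟩ := Cardinal.lt_aleph0.1 (h.trans (Cardinal.natCast_lt_aleph0 (n := n)))
  rw [ha] at h ⊢
  have : a < n := by exact_mod_cast h
  exact_mod_cast (by omega : a + Nat.card κ < m)

variable {N : Fld K} {O : Pl N} {u : ℕ} {ω : Φ → ℤ} {c : N} {X : Fin (k + 2) → N} {w : d.X N}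
  {S : Φ → N} {s τ : N}

/-- The scaled point is integral. -/
structure Rd (O : Pl N) (u : ℕ) (ω : Φ → ℤ) (c : N) (X : Fin (k + 2) → N) (w : d.X N) (S : Φ → N)
    (s τ : N) : Prop where
  c0 : c ≠ 0
  hx : ∀ i, c * X i ∈ O.O
  hw : d.all (· ∈ O.O) w
  hS : ∀ a, c ^ ω a * S a ∈ O.O
  hA : c ^ (u + 1) * s ∈ O.O
  hB : c * (s * τ) ∈ O.O

/-- The reduction of the scaled point. -/
noncomputable def rp (O : Pl N) (u : ℕ) (ω : Φ → ℤ) (c : N) (X : Fin (k + 2) → N) (w : d.X N)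
    (S : Φ → N) (s τ : N) :
    (((Cd.vec (Fin (k + 2))).prod d).prod (.vec (Option Φ ⊕ Fin (k + 2)))).X O.res :=
  ((fun i => O.rd (c * X i), d.map O.rd w),
    vv k (fun a => O.rd (c ^ ω a * S a)) (O.rd (c ^ (u + 1) * s)) (O.rd (c * (s * τ))))

omit [Fintype Φ] in
lemma Rd.unit (h : Rd O u ω c X w S s τ) {a : N} (h1 : a ∈ O.O) (h2 : O.rd a ≠ 0) :
    Rd O u ω (a * c) X w S s τ where
  c0 := mul_ne_zero ((O.rd_ne_zero_iff h1).1 h2).1 h.c0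
  hx i := mul_assoc a c _ ▸ mul_mem h1 (h.hx i)
  hw := h.hw
  hS b := by
    rw [mul_zpow, mul_assoc]
    exact mul_mem (Rel.zpow (R := Rel.ofPl O) ⟨h1, rfl⟩ h2 _).1 (h.hS b)
  hA := by
    rw [mul_pow, mul_assoc]
    exact mul_mem (pow_mem h1 _) h.hA
  hB := mul_assoc a c _ ▸ mul_mem h1 h.hB

variable [WB K] {j : ℕ}

lemma Rd.val {P : Sp ((Γ d k u ω).amb K)} (θ : Pre j P) (h : Rd O u ω c X w S s τ) {i : Fin (k + 2)}
    (hi : O.rd (c * X i) ≠ 0) :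
    θ.r O ((X, w), vv k S s (s * τ)) = θ.q O.res (rp O u ω c X w S s τ) := by
  refine WB.r_eq θ h.c0 ⟨⟨fun i => ⟨h.hx i, rfl⟩, (Cd.lift_pl O).2 ⟨h.hw, rfl⟩⟩, fun μ => ?_⟩
    ⟨Sum.inl (Sum.inl i), trivial, hi⟩
  rcases μ with (_ | a) | i
  · show (Rel.ofPl O).r (c ^ ((u : ℤ) + 1) * -s) (-O.rd (c ^ (u + 1) * s))
    rw [mul_neg, ← Nat.cast_succ, zpow_natCast]
    exact Rel.neg ⟨h.hA, rfl⟩
  · exact ⟨h.hS a, rfl⟩
  · show (Rel.ofPl O).r (c ^ (1 : ℤ) * (Pi.single 0 (s * τ) : Fin (k + 2) → N) i)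
      ((Pi.single 0 (O.rd (c * (s * τ))) : Fin (k + 2) → O.res) i)
    rw [zpow_one]
    by_cases e : i = 0
    · rw [e, Pi.single_eq_same, Pi.single_eq_same]
      exact ⟨h.hB, rfl⟩
    · rw [Pi.single_eq_of_ne e, Pi.single_eq_of_ne e, mul_zero]
      exact (Rel.ofPl O).zero

lemma live {T : QS K (Γ d k u ω)} (θ : Pre j T.sp) (h : θ.r O ((X, w), vv k S s (s * τ)) ≠ 0) :
    ∃ l, X l ≠ 0 ∧ Rd O u ω (X l)⁻¹ X w S s τ := by
  obtain ⟨i, x', hi, i0, e, -, -⟩ := WB.r_ne θ h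
  rcases i with (l | l) | l
  · refine ⟨l, i0, inv_ne_zero i0, fun i => (e.1.1 i).1, ((Cd.lift_pl O).1 e.1.2).1,
      fun a => (e.2 (Sum.inl (some a))).1, ?_, ?_⟩
    · have h1 : (X l)⁻¹ ^ ((u : ℤ) + 1) * -s ∈ O.O := (e.2 (Sum.inl none)).1
      rwa [mul_neg, ← Nat.cast_succ, zpow_natCast, neg_mem_iff] at h1
    · have h1 : (X l)⁻¹ ^ (1 : ℤ) * (Pi.single 0 (s * τ) : Fin (k + 2) → N) 0 ∈ O.O :=
        (e.2 (Sum.inr 0)).1
      rwa [zpow_one, Pi.single_eq_same] at h1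
  · exact hi.elim
  · exact hi.elim

lemma low {P : Sp ((Γ d k u ω).amb K)} (θ : Pre j P) (F : IntermediateField K O.res)
    (h1 : ∀ i, O.rd (c * X i) ∈ F) (h2 : ∀ l, O.rd (d.co w l) ∈ F)
    (h3 : ∀ a, O.rd (c ^ ω a * S a) ∈ F) (h4 : O.rd (c ^ (u + 1) * s) ∈ F)
    (h5 : O.rd (c * (s * τ)) ∈ F) (h : (O.res.sub F).tr < j) :
    θ.q O.res (rp O u ω c X w S s τ) = 0 := by
  refine Se.low θ F (fun l => ?_) h
  rcases l with (i | l) | (_ | a) | i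
  · exact h1 i
  · exact d.co_map _ _ _ ▸ h2 l
  · exact neg_mem h4
  · exact h3 a
  · show (Pi.single 0 (O.rd (c * (s * τ))) : Fin (k + 2) → O.res) i ∈ F
    by_cases e : i = 0
    · rwa [e, Pi.single_eq_same]
    · rw [Pi.single_eq_of_ne e]
      exact zero_mem _

variable {M : Fld K} {β : M →ₐ[K] N} {x : Fin (k + 2) → M} {w₀ : d.X M} {S₀ : Φ → M}

/-- The coordinates that come from `M`. -/
lemma lowM {P : Sp ((Γ d k u ω).amb K)} (θ : Pre j P) (c₀ : M) {κ : Type} (t : κ → O.res)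
    (h4 : O.rd (β c₀ ^ (u + 1) * s) ∈ gen (Pl.over_comap β O).resHom t)
    (h5 : O.rd (β c₀ * (s * τ)) ∈ gen (Pl.over_comap β O).resHom t)
    (h : (O.res.sub (gen (Pl.over_comap β O).resHom t)).tr < j) :
    θ.q O.res (rp O u ω (β c₀) (fun i => β (x i)) (d.map β w₀) (fun a => β (S₀ a)) s τ) = 0 :=
  low θ _ (fun i => map_mul β c₀ (x i) ▸ mem_res β O t _)
    (fun l => d.co_map β w₀ l ▸ mem_res β O t _)
    (fun a => by rw [← map_zpow₀, ← map_mul]; exact mem_res β O t _) h4 h5 h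

/-- The places where `s` is integral. -/
lemma int {T : QS K (Γ d k u ω)} (θ : Pre j T.sp) (h0 : x 0 = 1) {κ : Type} (t : κ → O.res)
    (hs : s ∈ O.O) (hτ : τ ∈ O.O) (h1 : O.rd s ∈ gen (Pl.over_comap β O).resHom t)
    (h2 : O.rd τ ∈ gen (Pl.over_comap β O).resHom t)
    (h : (O.res.sub (gen (Pl.over_comap β O).resHom t)).tr < j) :
    θ.r O ((fun i => β (x i), d.map β w₀), vv k (fun a => β (S₀ a)) s (s * τ)) = 0 := by
  by_contra hn
  obtain ⟨l, l0, e⟩ := live θ hn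
  have hc : (β (x l))⁻¹ ∈ O.O := by simpa [h0] using e.hx 0
  refine hn ((e.val θ (i := l) (by rw [inv_mul_cancel₀ l0, O.rd_one]; exact one_ne_zero)).trans ?_)
  rw [← map_inv₀] at hc ⊢
  refine lowM θ _ t ?_ ?_ h
  · rw [O.rd_mul (pow_mem hc _) hs, O.rd_pow hc]
    exact mul_mem (pow_mem (mem_res β O t _) _) h1
  · rw [O.rd_mul hc (mul_mem hs hτ), O.rd_mul hs hτ]
    exact mul_mem (mem_res β O t _) (mul_mem h1 h2)

/-- The places trivial on `M` where `s` and `τ` are integral. -/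
lemma triv {P : Sp ((Γ d k u ω).amb K)} (θ : Pre j P) (h0 : x 0 = 1) (h : Pl.Triv β O)
    (hs : s ∈ O.O) (hτ : τ ∈ O.O) :
    θ.r O ((fun i => β (x i), d.map β w₀), vv k (fun a => β (S₀ a)) s (s * τ)) =
      θ.q O.res ((fun i => h.hom (x i), d.map h.hom w₀),
        vv k (fun a => h.hom (S₀ a)) (O.rd s) (O.rd s * O.rd τ)) := by
  have e : Rd O u ω 1 (fun i => β (x i)) (d.map β w₀) (fun a => β (S₀ a)) s τ :=
    ⟨one_ne_zero, fun i => mul_mem (one_mem _) (h _), ((Cd.lift_pl O).1 (Cd.lift_triv h w₀)).1,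
      fun a => by simpa using h _, by simpa using hs, by simpa using mul_mem hs hτ⟩
  rw [e.val θ (i := 0) (by simp [h0])]
  congr 2
  simp only [rp, one_mul, one_zpow, one_pow, O.rd_mul hs hτ, h.hom_apply,
    ((Cd.lift_pl O).1 (Cd.lift_triv h w₀)).2]

end TDa

end Pool.Agent.Lib.MP_557161_ag.HG.HN
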